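import Pool.Agent.Y720.MZ.EC

/-!
# The abscissas of the torsion points on all the twists of an elliptic curve (helper720)
-/

set_option autoImplicit false
set_option linter.unusedSectionVars false
set_option linter.unusedVariables false

open WeierstrassCurve Height

namespace Pool.Agent.Y720.MZ

variable {K : Type*} [Field K]

lemma cv_Δ (a b c : K) : (cv a b c).Δ = 16 * dsc a b c := by
  simp only [WeierstrassCurve.Δ, WeierstrassCurve.b₂, WeierstrassCurve.b₄, WeierstrassCurve.b₆,
    WeierstrassCurve.b₈, cv, dsc]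
  ring

lemma cv_ell [CharZero K] {a b c : K} (h : dsc a b c ≠ 0) : (cv a b c).IsElliptic := by
  refine ⟨?_⟩
  rw [cv_Δ, isUnit_iff_ne_zero]
  exact mul_ne_zero (by norm_num) h

/-- the numerator of the duplication -/
def dN (a b c x : K) : K := x ^ 4 - 2 * b * x ^ 2 - 8 * c * x + b ^ 2 - 4 * a * c

/-- the denominator of the duplication -/
def dD (a b c x : K) : K := 4 * (x ^ 3 + a * x ^ 2 + b * x + c)

lemma eval_addSub (a b c x : K) :
    (fun i ↦ (addSubMap (cv a b c) i).eval ![x ^ 2, 2 * x, 1]) = ![dN a b c x, dD a b c x, 0] := by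
  funext i
  fin_cases i
  · simp only [addSubMap, WeierstrassCurve.b₂, WeierstrassCurve.b₄, WeierstrassCurve.b₆,
      WeierstrassCurve.b₈, cv, dN]
    simp
    try ring
  · simp only [addSubMap, WeierstrassCurve.b₂, WeierstrassCurve.b₄, WeierstrassCurve.b₆,
      WeierstrassCurve.b₈, cv, dD]
    simp
    try ring
  · simp only [addSubMap, WeierstrassCurve.b₂, WeierstrassCurve.b₄, WeierstrassCurve.b₆,
      WeierstrassCurve.b₈, cv]
    simp
    try ring

variable [NumberField K]

/-- the height of the duplication -/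
lemma dbl_height {a b c : K} (hD : dsc a b c ≠ 0) : ∃ B : ℝ, 0 ≤ B ∧ ∀ x : K,
    (dD a b c x = 0 → logHeight₁ x ≤ B) ∧
    (dD a b c x ≠ 0 → B < logHeight₁ x → logHeight₁ x < logHeight₁ (dN a b c x / dD a b c x)) := by
  have := cv_ell hD
  obtain ⟨C1, hC1⟩ := abs_logHeight_sym2_sub_le K
  obtain ⟨C2, hC2⟩ := WeierstrassCurve.abs_logHeight_addSubMap_sub_two_mul_logHeight_le (cv a b c)
  have hC10 : 0 ≤ C1 := (abs_nonneg _).trans (hC1 (a := 1) (b := 0) (c := 1) (d := 0)
    (by intro h; simpa using congrFun h 0) (by intro h; simpa using congrFun h 0))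
  have hC20 : 0 ≤ C2 := (abs_nonneg _).trans (hC2 0)
  have hx1 : ∀ x : K, ![x, 1] ≠ 0 := fun x h => by simpa using congrFun h 1
  have key : ∀ x : K, 4 * logHeight₁ x - 2 * C1 - C2 ≤ logHeight ![dN a b c x, dD a b c x, 0] := by
    intro x
    have h1 := hC1 (hx1 x) (hx1 x)
    have h2 := hC2 ![x ^ 2, 2 * x, 1]
    rw [eval_addSub] at h2
    have e : (![x * x, x * 1 + 1 * x, 1 * 1] : Fin 3 → K) = ![x ^ 2, 2 * x, 1] := by
      funext i; fin_cases i
      · simp; ring
      · simp; ring
      · simp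
    rw [e, ← logHeight₁_eq_logHeight] at h1
    rw [abs_le] at h1 h2
    linarith [h1.1, h2.1]
  have hnn : ∀ x : K, 0 ≤ logHeight₁ x := fun x => by
    rw [logHeight₁_eq_logHeight]
    exact logHeight_nonneg _
  have h10 : logHeight ![(1 : K), 0] = 0 := by
    rw [logHeight_swap, ← logHeight₁_eq_logHeight, logHeight₁_zero]
  have hne : ![(1 : K), 0] ≠ 0 := by
    intro h; simpa using congrFun h 0
  refine ⟨2 * C1 + C2 + C1, by positivity, fun x => ⟨fun h0 => ?_, fun h0 hB => ?_⟩⟩
  · have h1 := key x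
    rw [h0] at h1
    have h2 : logHeight ![dN a b c x, (0 : K), 0] ≤ C1 := by
      by_cases hN : dN a b c x = 0
      · rw [hN]
        have : (![0, 0, 0] : Fin 3 → K) = 0 := by
          funext i; fin_cases i <;> rfl
        rw [this, logHeight_zero]
        exact hC10
      · have e : (![dN a b c x, (0 : K), 0] : Fin 3 → K) =
            dN a b c x • ![1 * 1, 1 * 0 + 0 * 1, 0 * 0] := by
          funext i; fin_cases i <;> simp
        rw [e, logHeight_smul_eq_logHeight _ hN]
        have h3 := hC1 hne hne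
        rw [h10, abs_le] at h3
        linarith [h3.2]
    linarith [hnn x]
  · have h1 := key x
    have h2 : logHeight ![dN a b c x, dD a b c x, 0] ≤
        logHeight₁ (dN a b c x / dD a b c x) + C1 := by
      have h3 := hC1 (hx1 (dN a b c x / dD a b c x)) hne
      have e : (![dN a b c x / dD a b c x * 1, dN a b c x / dD a b c x * 0 + 1 * 1, 1 * 0] :
          Fin 3 → K) = (dD a b c x)⁻¹ • ![dN a b c x, dD a b c x, 0] := by
        funext i; fin_cases i
        · simp [div_eq_inv_mul]
        · simp [h0]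
        · simp
      rw [e, logHeight_smul_eq_logHeight _ (inv_ne_zero h0), h10, ← logHeight₁_eq_logHeight,
        abs_le] at h3
      linarith [h3.2]
    linarith [hnn x]

section tors

variable [DecidableEq K]

/-- **The abscissas of the torsion points on all the twists.** -/
theorem torsion_finite {a b c : K} (hD : dsc a b c ≠ 0) : ∃ Ξ : Set K, Ξ.Finite ∧
    ∀ C : K, C ≠ 0 → ∀ s a' b' c' : K, a' = C * (a + 3 * s) →
      b' = C ^ 2 * (b + 2 * a * s + 3 * s ^ 2) →
      c' = C ^ 3 * (c + b * s + a * s ^ 2 + s ^ 3) →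
      ∀ (x y : K) (h : (cv a' b' c').toAffine.Nonsingular x y),
      x / C + s ∉ Ξ → ∀ n : ℕ, n ≠ 0 → n • (.some x y h : Pt a' b' c') ≠ 0 := by
  obtain ⟨B, hB0, hB⟩ := dbl_height hD
  refine ⟨{ξ : K | logHeight₁ ξ ≤ B}, NumberField.finite_setOfPred_logHeight₁_le K B, ?_⟩
  intro C hC s a' b' c' ha' hb' hc'
  -- one step
  have step : ∀ (x y : K) (h : (cv a' b' c').toAffine.Nonsingular x y),
      B < logHeight₁ (x / C + s) → ∃ x' y' h', (.some x y h : Pt a' b' c') +
        .some x y h = .some x' y' h' ∧ logHeight₁ (x / C + s) < logHeight₁ (x' / C + s) := by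
    intro x y h hx
    have heq := (cv_ns.1 h).1
    set ξ := x / C + s with hξ
    have hxξ : x = C * (ξ - s) := by rw [hξ]; field_simp; ring
    have hy2 : 4 * y ^ 2 = C ^ 3 * dD a b c ξ := by
      rw [heq, ha', hb', hc', hxξ, dD]; ring
    have hD0 : dD a b c ξ ≠ 0 := fun h0 => absurd ((hB ξ).1 h0) (not_le.2 hx)
    have hy0 : y ≠ 0 := by
      rintro rfl
      have : C ^ 3 * dD a b c ξ = 0 := by rw [← hy2]; ring
      exact (mul_ne_zero (pow_ne_zero 3 hC) hD0) this
    have h2y : 2 * y ≠ 0 := mul_ne_zero two_ne_zero hy0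
    obtain ⟨h', e⟩ := dbl_mk h h2y (ℓ := (3 * x ^ 2 + 2 * a' * x + b') / (2 * y))
      (by field_simp)
    refine ⟨_, _, h', e, ?_⟩
    have e2 : (((3 * x ^ 2 + 2 * a' * x + b') / (2 * y)) ^ 2 - a' - x - x) / C + s =
        dN a b c ξ / dD a b c ξ := by
      rw [div_pow, mul_pow]
      have e3 : (2 : K) ^ 2 * y ^ 2 = C ^ 3 * dD a b c ξ := by rw [← hy2]; norm_num
      rw [e3, hxξ, ha', hb']
      have e4 : dN a b c ξ = (3 * ξ ^ 2 + 2 * a * ξ + b) ^ 2 - (a + 2 * ξ) * dD a b c ξ := by
        rw [dN, dD]; ring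
      rw [e4]
      field_simp
      ring
    rw [e2]
    exact (hB ξ).2 hD0 hx
  intro x y h hx n hn
  have hx' : B < logHeight₁ (x / C + s) := not_le.1 hx
  set P : Pt a' b' c' := .some x y h with hP
  -- the multiples by powers of two
  have hpow : ∀ k : ℕ, ∃ x' y' h', (2 ^ k) • P = .some x' y' h' ∧
      B < logHeight₁ (x' / C + s) ∧ logHeight₁ (x / C + s) ≤ logHeight₁ (x' / C + s) ∧
      ∀ j < k, ∀ x'' y'' h'', (2 ^ j) • P = .some x'' y'' h'' →
        logHeight₁ (x'' / C + s) < logHeight₁ (x' / C + s) := by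
    intro k
    induction k with
    | zero => exact ⟨x, y, h, by rw [pow_zero, one_smul], hx', le_rfl, fun j hj => by omega⟩
    | succ k ih =>
      obtain ⟨x', y', h', e, h1, h2, h3⟩ := ih
      obtain ⟨x1, y1, h1', e1, h4⟩ := step x' y' h' h1
      refine ⟨x1, y1, h1', ?_, h1.trans h4, h2.trans h4.le, ?_⟩
      · have e3 : (2 ^ (k + 1) : ℕ) = 2 ^ k + 2 ^ k := by ring
        rw [e3, add_smul, e, e1]
      · intro j hj x'' y'' h'' e''
        rcases Nat.lt_succ_iff_lt_or_eq.1 hj with hj | rfl
        · exact (h3 j hj x'' y'' h'' e'').trans h4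
        · rw [e] at e''
          have : x' = x'' := by
            injection e''
          rw [← this]
          exact h4
  intro h0
  -- finitely many multiples
  have hfin : (Set.range fun m : ℕ => m • P).Finite := by
    refine ((Finset.range n).finite_toSet.image fun m : ℕ => m • P).subset ?_
    rintro _ ⟨m, rfl⟩
    refine ⟨m % n, ?_, ?_⟩
    · rw [Finset.coe_range]
      exact Nat.mod_lt _ (Nat.pos_of_ne_zero hn)
    · change (m % n) • P = m • P
      conv_rhs => rw [← Nat.mod_add_div m n, add_smul, mul_comm n, mul_smul, h0, smul_zero,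
        add_zero]
  have hinj : Function.Injective fun k : ℕ => (2 ^ k) • P := by
    intro i j hij
    by_contra hne
    rcases lt_or_gt_of_ne hne with hlt | hlt
    · obtain ⟨x1, y1, h1, e1, -⟩ := hpow i
      obtain ⟨x2, y2, h2, e2, -, -, h3⟩ := hpow j
      have h4 := h3 i hlt x1 y1 h1 e1
      have h5 : (.some x1 y1 h1 : Pt a' b' c') = .some x2 y2 h2 := by
        rw [← e1, ← e2]; exact hij
      have : x1 = x2 := by injection h5
      rw [this] at h4
      exact lt_irrefl _ h4
    · obtain ⟨x1, y1, h1, e1, -⟩ := hpow j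
      obtain ⟨x2, y2, h2, e2, -, -, h3⟩ := hpow i
      have h4 := h3 j hlt x1 y1 h1 e1
      have h5 : (.some x1 y1 h1 : Pt a' b' c') = .some x2 y2 h2 := by
        rw [← e1, ← e2]; exact hij.symm
      have : x1 = x2 := by injection h5
      rw [this] at h4
      exact lt_irrefl _ h4
  exact Set.infinite_of_injective_forall_mem hinj
    (fun k => Set.mem_range_self (f := fun m : ℕ => m • P) (2 ^ k)) hfin

end tors

end Pool.Agent.Y720.MZ
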