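import Pool.Agent.Y720.MZ.Hyp

/-!
# The discriminant of a separable quartic polynomial (helper720)
-/

set_option autoImplicit false

open Polynomial

namespace Pool.Agent.Y720.MZ

lemma dsc_roots {R : Type*} [CommRing R] (e₁ e₂ e₃ : R) :
    dsc (-(e₁ + e₂ + e₃)) (e₁ * e₂ + e₁ * e₃ + e₂ * e₃) (-(e₁ * e₂ * e₃)) =
      ((e₁ - e₂) * (e₁ - e₃) * (e₂ - e₃)) ^ 2 := by
  rw [dsc]
  ring

lemma dc_roots4 {R : Type*} [CommRing R] (q r₁ r₂ r₃ r₄ : R) :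
    dc (q * (r₁ * r₂ * r₃ * r₄)) (-(q * (r₁ * r₂ * r₃ + r₁ * r₂ * r₄ + r₁ * r₃ * r₄ + r₂ * r₃ * r₄)))
      (q * (r₁ * r₂ + r₁ * r₃ + r₁ * r₄ + r₂ * r₃ + r₂ * r₄ + r₃ * r₄))
      (-(q * (r₁ + r₂ + r₃ + r₄))) q =
    (q ^ 3 * ((r₁ - r₂) * (r₁ - r₃) * (r₁ - r₄) * (r₂ - r₃) * (r₂ - r₄) * (r₃ - r₄))) ^ 2 := by
  have h := dsc_roots (-(q * (r₁ * r₂ + r₃ * r₄))) (-(q * (r₁ * r₃ + r₂ * r₄)))
    (-(q * (r₁ * r₄ + r₂ * r₃)))
  rw [dc]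
  rw [show q * (r₁ * r₂ + r₁ * r₃ + r₁ * r₄ + r₂ * r₃ + r₂ * r₄ + r₃ * r₄) =
    -(-(q * (r₁ * r₂ + r₃ * r₄)) + -(q * (r₁ * r₃ + r₂ * r₄)) + -(q * (r₁ * r₄ + r₂ * r₃))) by ring]
  rw [show -(q * (r₁ * r₂ * r₃ + r₁ * r₂ * r₄ + r₁ * r₃ * r₄ + r₂ * r₃ * r₄)) *
      (-(q * (r₁ + r₂ + r₃ + r₄))) - 4 * (q * (r₁ * r₂ * r₃ * r₄)) * q =
      (-(q * (r₁ * r₂ + r₃ * r₄))) * (-(q * (r₁ * r₃ + r₂ * r₄))) +
      (-(q * (r₁ * r₂ + r₃ * r₄))) * (-(q * (r₁ * r₄ + r₂ * r₃))) +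
      (-(q * (r₁ * r₃ + r₂ * r₄))) * (-(q * (r₁ * r₄ + r₂ * r₃))) by ring]
  rw [show (-(q * (r₁ * r₂ * r₃ + r₁ * r₂ * r₄ + r₁ * r₃ * r₄ + r₂ * r₃ * r₄))) ^ 2 * q +
      q * (r₁ * r₂ * r₃ * r₄) * (-(q * (r₁ + r₂ + r₃ + r₄))) ^ 2 -
      4 * (q * (r₁ * r₂ * r₃ * r₄)) * -(-(q * (r₁ * r₂ + r₃ * r₄)) + -(q * (r₁ * r₃ + r₂ * r₄)) +
        -(q * (r₁ * r₄ + r₂ * r₃))) * q =
      -(-(q * (r₁ * r₂ + r₃ * r₄)) * (-(q * (r₁ * r₃ + r₂ * r₄))) *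
        (-(q * (r₁ * r₄ + r₂ * r₃)))) by ring]
  rw [h]
  ring

lemma dc_roots3 {R : Type*} [CommRing R] (q r₁ r₂ r₃ : R) :
    dc (-(q * (r₁ * r₂ * r₃))) (q * (r₁ * r₂ + r₁ * r₃ + r₂ * r₃)) (-(q * (r₁ + r₂ + r₃))) q 0 =
    (q ^ 3 * ((r₁ - r₂) * (r₁ - r₃) * (r₂ - r₃))) ^ 2 := by
  rw [dc, dsc]
  ring

lemma dc_smul {R : Type*} [CommRing R] (c q₀ q₁ q₂ q₃ q₄ : R) :
    dc (c * q₀) (c * q₁) (c * q₂) (c * q₃) (c * q₄) = c ^ 6 * dc q₀ q₁ q₂ q₃ q₄ := by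
  rw [dc, dc, dsc, dsc]
  ring

lemma dc_shift {R : Type*} [CommRing R] (t q₀ q₁ q₂ q₃ q₄ : R) :
    dc (q₀ + t * q₁ + t ^ 2 * q₂ + t ^ 3 * q₃ + t ^ 4 * q₄)
      (q₁ + 2 * t * q₂ + 3 * t ^ 2 * q₃ + 4 * t ^ 3 * q₄)
      (q₂ + 3 * t * q₃ + 6 * t ^ 2 * q₄) (q₃ + 4 * t * q₄) q₄ = dc q₀ q₁ q₂ q₃ q₄ := by
  rw [dc, dc, dsc, dsc]
  ring

lemma map_dc {R S : Type*} [CommRing R] [CommRing S] (φ : R →+* S) (q₀ q₁ q₂ q₃ q₄ : R) :
    dc (φ q₀) (φ q₁) (φ q₂) (φ q₃) (φ q₄) = φ (dc q₀ q₁ q₂ q₃ q₄) := by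
  rw [dc, dc, dsc, dsc]
  simp only [map_add, map_sub, map_mul, map_pow, map_ofNat]

variable {K : Type*} [Field K]

lemma qpol_coeff (a₀ a₁ a₂ a₃ a₄ : K) : (qpol a₀ a₁ a₂ a₃ a₄).coeff 0 = a₀ ∧
      (qpol a₀ a₁ a₂ a₃ a₄).coeff 1 = a₁ ∧ (qpol a₀ a₁ a₂ a₃ a₄).coeff 2 = a₂ ∧
      (qpol a₀ a₁ a₂ a₃ a₄).coeff 3 = a₃ ∧ (qpol a₀ a₁ a₂ a₃ a₄).coeff 4 = a₄ := by
  simp [qpol, Polynomial.coeff_X, Polynomial.coeff_C, Polynomial.coeff_X_pow]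

lemma qpol_inj {a₀ a₁ a₂ a₃ a₄ b₀ b₁ b₂ b₃ b₄ : K}
    (h : qpol a₀ a₁ a₂ a₃ a₄ = qpol b₀ b₁ b₂ b₃ b₄) :
    a₀ = b₀ ∧ a₁ = b₁ ∧ a₂ = b₂ ∧ a₃ = b₃ ∧ a₄ = b₄ := by
  obtain ⟨a0, a1, a2, a3, a4⟩ := qpol_coeff a₀ a₁ a₂ a₃ a₄
  obtain ⟨b0, b1, b2, b3, b4⟩ := qpol_coeff b₀ b₁ b₂ b₃ b₄
  rw [h] at a0 a1 a2 a3 a4
  exact ⟨a0.symm.trans b0, a1.symm.trans b1, a2.symm.trans b2, a3.symm.trans b3,
    a4.symm.trans b4⟩

/-- the discriminant of a separable polynomial of degree three or four does not vanish -/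
theorem dc_ne_zero {q₀ q₁ q₂ q₃ q₄ : K} (hs : (qpol q₀ q₁ q₂ q₃ q₄).Separable)
    (hd : 3 ≤ (qpol q₀ q₁ q₂ q₃ q₄).natDegree) : dc q₀ q₁ q₂ q₃ q₄ ≠ 0 := by
  set A := AlgebraicClosure K
  set φ : K →+* A := algebraMap K A with hφ
  set p := (qpol q₀ q₁ q₂ q₃ q₄).map φ with hp
  have hps : p.Separable := hs.map
  have hpd : p.natDegree = (qpol q₀ q₁ q₂ q₃ q₄).natDegree := Polynomial.natDegree_map φ
  have hpq : p = qpol (φ q₀) (φ q₁) (φ q₂) (φ q₃) (φ q₄) := by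
    simp [hp, qpol]
  have hnd : p.roots.Nodup := Polynomial.nodup_roots hps
  have hsp := IsAlgClosed.splits p
  have hcard : p.roots.card = p.natDegree := hsp.natDegree_eq_card_roots.symm
  have hprod : p = C p.leadingCoeff * (p.roots.map fun a => X - C a).prod :=
    hsp.eq_prod_roots
  have hp0 : p ≠ 0 := by
    intro h
    rw [h, natDegree_zero] at hpd
    omega
  have hlc : p.leadingCoeff ≠ 0 := leadingCoeff_ne_zero.2 hp0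
  have hle : p.natDegree ≤ 4 := by
    rw [hpq]
    unfold qpol
    compute_degree
  intro h0
  have h1 : dc (φ q₀) (φ q₁) (φ q₂) (φ q₃) (φ q₄) = 0 := by rw [map_dc, h0, map_zero]
  obtain ⟨l, hl⟩ := Quot.exists_rep p.roots
  have hl' : (l : Multiset A) = p.roots := hl
  rw [← hl'] at hnd hcard hprod
  rw [Multiset.coe_nodup] at hnd
  rw [Multiset.coe_card] at hcard
  have h34 : p.natDegree = 3 ∨ p.natDegree = 4 := by omega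
  rcases h34 with h | h
  · rw [h] at hcard
    match l, hcard, hnd, hprod with
    | [a, b, c], _, hnd, hprod =>
      simp only [List.nodup_cons, List.mem_cons, not_or, List.not_mem_nil, not_false_eq_true,
        List.nodup_nil, and_true] at hnd
      obtain ⟨⟨hab, hac⟩, hbc⟩ := hnd
      have e : p = qpol (-(p.leadingCoeff * (a * b * c)))
          (p.leadingCoeff * (a * b + a * c + b * c))
          (-(p.leadingCoeff * (a + b + c))) p.leadingCoeff 0 := by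
        conv_lhs => rw [hprod]
        simp only [Multiset.map_coe, List.map_cons, List.map_nil, Multiset.prod_coe,
          List.prod_cons, List.prod_nil, qpol, map_neg, map_mul, map_add, map_zero]
        ring
      obtain ⟨e0, e1, e2, e3, e4⟩ := qpol_inj (hpq.symm.trans e)
      rw [e0, e1, e2, e3, e4, dc_roots3] at h1
      have h2 := pow_eq_zero_iff (two_ne_zero) |>.1 h1
      simp only [mul_eq_zero, pow_eq_zero_iff, ne_eq, OfNat.ofNat_ne_zero, not_false_eq_true,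
        sub_eq_zero] at h2
      tauto
  · rw [h] at hcard
    match l, hcard, hnd, hprod with
    | [a, b, c, d], _, hnd, hprod =>
      simp only [List.nodup_cons, List.mem_cons, not_or, List.not_mem_nil, not_false_eq_true,
        List.nodup_nil, and_true] at hnd
      obtain ⟨⟨hab, hac, had⟩, ⟨hbc, hbd⟩, hcd⟩ := hnd
      have e : p = qpol (p.leadingCoeff * (a * b * c * d))
          (-(p.leadingCoeff * (a * b * c + a * b * d + a * c * d + b * c * d)))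
          (p.leadingCoeff * (a * b + a * c + a * d + b * c + b * d + c * d))
          (-(p.leadingCoeff * (a + b + c + d))) p.leadingCoeff := by
        conv_lhs => rw [hprod]
        simp only [Multiset.map_coe, List.map_cons, List.map_nil, Multiset.prod_coe,
          List.prod_cons, List.prod_nil, qpol, map_neg, map_mul, map_add]
        ring
      obtain ⟨e0, e1, e2, e3, e4⟩ := qpol_inj (hpq.symm.trans e)
      rw [e0, e1, e2, e3, e4, dc_roots4] at h1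
      have h2 := pow_eq_zero_iff (two_ne_zero) |>.1 h1
      simp only [mul_eq_zero, pow_eq_zero_iff, ne_eq, OfNat.ofNat_ne_zero, not_false_eq_true,
        sub_eq_zero] at h2
      tauto

end Pool.Agent.Y720.MZ
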