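import Pool.Agent.Y720.MZ.Tors2

/-!
# Rational points on `y² = w² + q₁ t + q₂ t² + q₃ t³ + q₄ t⁴` close to `(0, w)` (helper720)
-/

set_option autoImplicit false

open WeierstrassCurve Filter Topology

namespace Pool.Agent.Y720.MZ

section alg

variable {K : Type*} [Field K]

/-- the coefficients of the resolvent -/
def rb {K : Type*} [CommRing K] (w q₁ q₃ q₄ : K) : K := q₁ * q₃ - 4 * w ^ 2 * q₄

/-- the coefficients of the resolvent -/
def rc {K : Type*} [CommRing K] (w q₁ q₂ q₃ q₄ : K) : K := q₁ ^ 2 * q₄ + w ^ 2 * q₃ ^ 2 - 4 * w ^ 2 * q₂ * q₄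

/-- the abscissa of the difference of the two points over `t = 0` -/
def xs (w q₁ q₂ : K) : K := q₁ ^ 2 / (4 * w ^ 2) - q₂

/-- its ordinate -/
def ys (w q₁ q₂ q₃ : K) : K := (q₁ * xs w q₁ q₂ + 2 * w ^ 2 * q₃) / (2 * w)

lemma ns_of_dsc [CharZero K] {a b c x y : K} (hD : dsc a b c ≠ 0)
    (h : y ^ 2 = x ^ 3 + a * x ^ 2 + b * x + c) : (cv a b c).toAffine.Nonsingular x y := by
  refine cv_ns.2 ⟨h, ?_⟩
  by_contra hcon
  push Not at hcon
  have hy : y = 0 := by simpa using hcon.2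
  exact hD (dsc_root (by rw [← h, hy]; ring) hcon.1)

lemma s_eqn [CharZero K] {w q₁ q₂ q₃ q₄ : K} (hw : w ≠ 0) :
    ys w q₁ q₂ q₃ ^ 2 = xs w q₁ q₂ ^ 3 + q₂ * xs w q₁ q₂ ^ 2 + rb w q₁ q₃ q₄ * xs w q₁ q₂ +
      rc w q₁ q₂ q₃ q₄ := by
  unfold ys rb rc xs
  field_simp
  ring

/-- from the resolvent to the quartic -/
lemma to_quartic [CharZero K] {w q₁ q₂ q₃ q₄ x y t : K} (hw : w ≠ 0)
    (h : y ^ 2 = x ^ 3 + q₂ * x ^ 2 + rb w q₁ q₃ q₄ * x + rc w q₁ q₂ q₃ q₄)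
    (hd : 2 * w * y - q₁ * x - 2 * w ^ 2 * q₃ ≠ 0)
    (ht : t = (4 * w ^ 2 * (x + q₂) - q₁ ^ 2) / (2 * w * y - q₁ * x - 2 * w ^ 2 * q₃)) :
    (-w + t * (t * x - q₁) / (2 * w)) ^ 2 = w ^ 2 + q₁ * t + q₂ * t ^ 2 + q₃ * t ^ 3 +
      q₄ * t ^ 4 := by
  have ht' : t * (2 * w * y - q₁ * x - 2 * w ^ 2 * q₃) = 4 * w ^ 2 * (x + q₂) - q₁ ^ 2 := by
    rw [ht, div_mul_cancel₀ _ hd]
  -- the second factor
  have h2 : t ^ 2 * (x ^ 2 - 4 * w ^ 2 * q₄) - 2 * t * (q₁ * x + 2 * w ^ 2 * q₃) -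
      (4 * w ^ 2 * (x + q₂) - q₁ ^ 2) = 0 := by
    have hD2 : (2 * w * y - q₁ * x - 2 * w ^ 2 * q₃) ^ 2 ≠ 0 := pow_ne_zero 2 hd
    apply (mul_eq_zero.1 (?_ : (2 * w * y - q₁ * x - 2 * w ^ 2 * q₃) ^ 2 * _ = 0)).resolve_left hD2
    have e : (2 * w * y - q₁ * x - 2 * w ^ 2 * q₃) ^ 2 * (t ^ 2 * (x ^ 2 - 4 * w ^ 2 * q₄) -
        2 * t * (q₁ * x + 2 * w ^ 2 * q₃) - (4 * w ^ 2 * (x + q₂) - q₁ ^ 2)) =
        (t * (2 * w * y - q₁ * x - 2 * w ^ 2 * q₃)) ^ 2 * (x ^ 2 - 4 * w ^ 2 * q₄) -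
        2 * (t * (2 * w * y - q₁ * x - 2 * w ^ 2 * q₃)) * (2 * w * y - q₁ * x - 2 * w ^ 2 * q₃) *
          (q₁ * x + 2 * w ^ 2 * q₃) -
        (4 * w ^ 2 * (x + q₂) - q₁ ^ 2) * (2 * w * y - q₁ * x - 2 * w ^ 2 * q₃) ^ 2 := by ring
    rw [e, ht']
    unfold rb rc at h
    linear_combination (-(4 * w ^ 2 * (x + q₂) - q₁ ^ 2) * 4 * w ^ 2) * h
  have hw2 : (2 * w) ≠ 0 := mul_ne_zero two_ne_zero hw
  have e3 : (-w + t * (t * x - q₁) / (2 * w)) * (2 * w) = -2 * w ^ 2 + t * (t * x - q₁) := by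
    field_simp
  apply mul_right_cancel₀ (pow_ne_zero 2 hw2)
  rw [← mul_pow, e3]
  linear_combination t ^ 2 * h2

end alg

section lim

variable {K : Type*} [Field K] [CharZero K] {L : Type*} [NontriviallyNormedField L]

/-- limits at the origin -/
lemma quartic_limit (σ : K →+* L) {w q₁ q₂ q₃ q₄ : K} (hw : w ≠ 0) {x y : ℕ → K}
    (h : ∀ k, y k ^ 2 = x k ^ 3 + q₂ * x k ^ 2 + rb w q₁ q₃ q₄ * x k + rc w q₁ q₂ q₃ q₄)
    (hx : Tendsto (fun k => ‖σ (x k)‖) atTop atTop) {ε : ℝ} (hε : 0 < ε) :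
    ∃ t Y : K, t ≠ 0 ∧ ‖σ t‖ < ε ∧ ‖σ (Y - w)‖ < ε ∧
      Y ^ 2 = w ^ 2 + q₁ * t + q₂ * t ^ 2 + q₃ * t ^ 3 + q₄ * t ^ 4 := by
  have : CharZero L := charZero_of_injective_ringHom σ.injective
  have hw' : σ w ≠ 0 := (map_ne_zero σ).2 hw
  have hu : Tendsto (fun k => (σ (x k))⁻¹) atTop (𝓝 0) :=
    tendsto_inv₀_cobounded.comp (tendsto_norm_atTop_iff_cobounded.1 hx)
  set u : ℕ → L := fun k => (σ (x k))⁻¹ with hudef
  have hx0 : ∀ᶠ k in atTop, x k ≠ 0 := by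
    filter_upwards [hx.eventually_gt_atTop 0] with k hk h0
    rw [h0, map_zero, norm_zero] at hk
    exact lt_irrefl _ hk
  set B : L := σ (rb w q₁ q₃ q₄)
  set C : L := σ (rc w q₁ q₂ q₃ q₄)
  set g : ℕ → L := fun k => 1 + σ q₂ * u k + B * u k ^ 2 + C * u k ^ 3 with hgdef
  have hg : Tendsto g atTop (𝓝 1) := by
    have : Tendsto g atTop (𝓝 (1 + σ q₂ * 0 + B * 0 ^ 2 + C * 0 ^ 3)) :=
      ((tendsto_const_nhds.add (hu.const_mul _)).add ((hu.pow 2).const_mul _)).add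
        ((hu.pow 3).const_mul _)
    simpa using this
  have hgx : ∀ᶠ k in atTop, σ (y k) ^ 2 = g k * σ (x k) ^ 3 := by
    filter_upwards [hx0] with k hk
    have hk' : σ (x k) ≠ 0 := (map_ne_zero σ).2 hk
    have := congrArg σ (h k)
    simp only [map_add, map_mul, map_pow] at this
    rw [this, hgdef, hudef]
    simp only
    field_simp
    rfl
  have hg0 : ∀ᶠ k in atTop, g k ≠ 0 := hg.eventually_ne one_ne_zero
  have hy0 : ∀ᶠ k in atTop, σ (y k) ≠ 0 := by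
    filter_upwards [hx0, hgx, hg0] with k h1 h2 h3 h4
    rw [h4, zero_pow two_ne_zero] at h2
    exact mul_ne_zero h3 (pow_ne_zero 3 ((map_ne_zero σ).2 h1)) h2.symm
  set z : ℕ → L := fun k => σ (x k) / σ (y k) with hzdef
  have hz2 : ∀ᶠ k in atTop, z k ^ 2 = u k / g k := by
    filter_upwards [hx0, hgx, hg0, hy0] with k h1 h2 h3 h4
    have h1' : σ (x k) ≠ 0 := (map_ne_zero σ).2 h1
    rw [hzdef, hudef]
    simp only
    rw [div_pow, h2]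
    field_simp
  have hz : Tendsto z atTop (𝓝 0) := by
    have h1 : Tendsto (fun k => z k ^ 2) atTop (𝓝 0) := by
      have : Tendsto (fun k => u k / g k) atTop (𝓝 (0 / 1)) := hu.div hg one_ne_zero
      rw [zero_div] at this
      exact this.congr' (hz2.mono fun k hk => hk.symm)
    rw [tendsto_zero_iff_norm_tendsto_zero] at h1 ⊢
    have h2 : Tendsto (fun k => Real.sqrt (‖z k ^ 2‖)) atTop (𝓝 (Real.sqrt 0)) :=
      (Real.continuous_sqrt.tendsto _).comp h1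
    rw [Real.sqrt_zero] at h2
    refine h2.congr fun k => ?_
    rw [norm_pow, Real.sqrt_sq (norm_nonneg _)]
  set N : ℕ → L := fun k => 4 * σ w ^ 2 * (1 + σ q₂ * u k) - σ q₁ ^ 2 * u k with hN
  set D : ℕ → L := fun k => 2 * σ w - σ q₁ * z k - 2 * σ w ^ 2 * σ q₃ * (z k * u k) with hD
  have hNl : Tendsto N atTop (𝓝 (4 * σ w ^ 2)) := by
    have : Tendsto N atTop (𝓝 (4 * σ w ^ 2 * (1 + σ q₂ * 0) - σ q₁ ^ 2 * 0)) :=
      ((tendsto_const_nhds.add (hu.const_mul _)).const_mul _).sub (hu.const_mul _)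
    simpa using this
  have hDl : Tendsto D atTop (𝓝 (2 * σ w)) := by
    have : Tendsto D atTop (𝓝 (2 * σ w - σ q₁ * 0 - 2 * σ w ^ 2 * σ q₃ * (0 * 0))) :=
      (tendsto_const_nhds.sub (hz.const_mul _)).sub ((hz.mul hu).const_mul _)
    simpa using this
  have hN0 : (4 : L) * σ w ^ 2 ≠ 0 := mul_ne_zero (by norm_num) (pow_ne_zero 2 hw')
  have hD0 : (2 : L) * σ w ≠ 0 := mul_ne_zero two_ne_zero hw'
  set A : ℕ → L := fun k => N k / D k with hA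
  have hAl : Tendsto A atTop (𝓝 (2 * σ w)) := by
    have h1 : Tendsto A atTop (𝓝 (4 * σ w ^ 2 / (2 * σ w))) := hNl.div hDl hD0
    have h2 : 4 * σ w ^ 2 / (2 * σ w) = 2 * σ w := by field_simp; norm_num
    rwa [h2] at h1
  set t : ℕ → K := fun k => (4 * w ^ 2 * (x k + q₂) - q₁ ^ 2) /
    (2 * w * y k - q₁ * x k - 2 * w ^ 2 * q₃) with ht
  have hNk : ∀ᶠ k in atTop, σ (4 * w ^ 2 * (x k + q₂) - q₁ ^ 2) = N k * σ (x k) := by
    filter_upwards [hx0] with k h1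
    have h1' : σ (x k) ≠ 0 := (map_ne_zero σ).2 h1
    rw [hN, hudef]
    simp only [map_sub, map_mul, map_pow, map_add, map_ofNat]
    field_simp
  have hDk : ∀ᶠ k in atTop, σ (2 * w * y k - q₁ * x k - 2 * w ^ 2 * q₃) = D k * σ (y k) := by
    filter_upwards [hx0, hy0] with k h1 h2
    have h1' : σ (x k) ≠ 0 := (map_ne_zero σ).2 h1
    rw [hD, hudef, hzdef]
    simp only [map_sub, map_mul, map_pow, map_ofNat]
    field_simp
  have htk : ∀ᶠ k in atTop, σ (t k) = A k * z k := by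
    filter_upwards [hNk, hDk] with k h1 h2
    rw [ht, hA, hzdef]
    simp only
    rw [map_div₀, h1, h2]
    exact mul_div_mul_comm _ _ _ _
  have htl : Tendsto (fun k => σ (t k)) atTop (𝓝 0) := by
    have : Tendsto (fun k => A k * z k) atTop (𝓝 (2 * σ w * 0)) := hAl.mul hz
    rw [mul_zero] at this
    exact this.congr' (htk.mono fun k hk => hk.symm)
  have htx : Tendsto (fun k => σ (t k) ^ 2 * σ (x k)) atTop (𝓝 (4 * σ w ^ 2)) := by
    have h1 : Tendsto (fun k => A k ^ 2 / g k) atTop (𝓝 ((2 * σ w) ^ 2 / 1)) :=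
      (hAl.pow 2).div hg one_ne_zero
    have h2 : (2 * σ w) ^ 2 / 1 = 4 * σ w ^ 2 := by ring
    rw [h2] at h1
    refine h1.congr' ?_
    filter_upwards [htk, hz2, hx0] with k h1 h2 h3
    have h3' : σ (x k) ≠ 0 := (map_ne_zero σ).2 h3
    rw [h1, mul_pow, h2, hudef]
    simp only
    field_simp
  set Y : ℕ → K := fun k => -w + t k * (t k * x k - q₁) / (2 * w) with hY
  have hYl : Tendsto (fun k => σ (Y k - w)) atTop (𝓝 0) := by
    have h1 : Tendsto (fun k => -σ w + (σ (t k) ^ 2 * σ (x k) - σ q₁ * σ (t k)) / (2 * σ w) - σ w)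
        atTop (𝓝 (-σ w + (4 * σ w ^ 2 - σ q₁ * 0) / (2 * σ w) - σ w)) :=
      (tendsto_const_nhds.add ((htx.sub (htl.const_mul _)).div_const _)).sub_const _
    have h2 : -σ w + (4 * σ w ^ 2 - σ q₁ * 0) / (2 * σ w) - σ w = 0 := by
      field_simp
      ring
    rw [h2] at h1
    refine h1.congr fun k => ?_
    rw [hY]
    simp only [map_sub, map_add, map_neg, map_div₀, map_mul, map_ofNat]
    ring
  have hD1 : ∀ᶠ k in atTop, 2 * w * y k - q₁ * x k - 2 * w ^ 2 * q₃ ≠ 0 := by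
    filter_upwards [hDk, hDl.eventually_ne hD0, hy0] with k h1 h2 h3 h4
    rw [h4, map_zero] at h1
    exact mul_ne_zero h2 h3 h1.symm
  have ht0 : ∀ᶠ k in atTop, t k ≠ 0 := by
    filter_upwards [htk, hAl.eventually_ne hD0, hx0, hy0] with k h1 h2 h3 h4 h5
    rw [h5, map_zero] at h1
    exact mul_ne_zero h2 (div_ne_zero ((map_ne_zero σ).2 h3) h4) h1.symm
  have e1 : ∀ᶠ k in atTop, ‖σ (t k)‖ < ε := by
    have := htl.norm
    rw [norm_zero] at this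
    exact this.eventually_lt_const hε
  have e2 : ∀ᶠ k in atTop, ‖σ (Y k - w)‖ < ε := by
    have := hYl.norm
    rw [norm_zero] at this
    exact this.eventually_lt_const hε
  obtain ⟨k, k1, k2, k3, k4⟩ := (hD1.and (ht0.and (e1.and e2))).exists
  exact ⟨t k, Y k, k2, k3, k4, to_quartic hw (h k) k1 rfl⟩

/-- **Points on a quartic.** If the difference of the two points over `t = 0` has infinite order,
there are rational points close to `(0, w)`. -/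
theorem quartic_dense [DecidableEq K] [ProperSpace L] (σ : K →+* L) {w q₁ q₂ q₃ q₄ : K}
    (hw : w ≠ 0) (hD : dsc q₂ (rb w q₁ q₃ q₄) (rc w q₁ q₂ q₃ q₄) ≠ 0)
    (hS : ∀ h, ∀ n : ℕ, n ≠ 0 → n • (.some (xs w q₁ q₂) (ys w q₁ q₂ q₃) h :
      Pt q₂ (rb w q₁ q₃ q₄) (rc w q₁ q₂ q₃ q₄)) ≠ 0) {ε : ℝ} (hε : 0 < ε) :
    ∃ t Y : K, t ≠ 0 ∧ ‖σ t‖ < ε ∧ ‖σ (Y - w)‖ < ε ∧
      Y ^ 2 = w ^ 2 + q₁ * t + q₂ * t ^ 2 + q₃ * t ^ 3 + q₄ * t ^ 4 := by
  have : CharZero L := charZero_of_injective_ringHom σ.injective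
  have hns := ns_of_dsc hD (s_eqn (q₁ := q₁) (q₂ := q₂) (q₃ := q₃) (q₄ := q₄) hw)
  have hex : ∀ k : ℕ, ∃ x y : K, y ^ 2 = x ^ 3 + q₂ * x ^ 2 + rb w q₁ q₃ q₄ * x +
      rc w q₁ q₂ q₃ q₄ ∧ (k : ℝ) < ‖σ x‖ := by
    intro k
    obtain ⟨n, -, x, y, h, -, hR⟩ := accum σ hD (hS hns) (k : ℝ)
    exact ⟨x, y, (cv_ns.1 h).1, hR⟩
  choose x y hxy hk using hex
  exact quartic_limit σ hw hxy (tendsto_atTop_mono (fun k => (hk k).le)
    tendsto_natCast_atTop_atTop) hε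

end lim

end Pool.Agent.Y720.MZ
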