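import Pool.Agent.Y720.MZ.EC

/-!
# Points of infinite order on `y² = x³ + a x² + b x + c` accumulate at the origin (helper720)
-/

set_option autoImplicit false

open WeierstrassCurve Filter Topology

namespace Pool.Agent.Y720.MZ

variable {K : Type*} [Field K] [DecidableEq K] {L : Type*} [NontriviallyNormedField L]

lemma exists_some {a b c : K} {P : Pt a b c} (h : P ≠ 0) :
    ∃ x y h', P = .some x y h' := by
  rcases P with _ | ⟨x, y, h'⟩
  · exact absurd rfl h
  · exact ⟨x, y, h', rfl⟩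

lemma map_dsc (σ : K →+* L) (a b c : K) : σ (dsc a b c) = dsc (σ a) (σ b) (σ c) := by
  simp [dsc, map_ofNat]

lemma dsc_root {F : Type*} [Field F] {a b c x : F} (h1 : x ^ 3 + a * x ^ 2 + b * x + c = 0)
    (h2 : 3 * x ^ 2 + 2 * a * x + b = 0) : dsc a b c = 0 := by
  have hb : b = -(3 * x ^ 2 + 2 * a * x) := by linear_combination h2
  have hc : c = 2 * x ^ 3 + a * x ^ 2 := by linear_combination h1 - x * h2
  rw [hb, hc, dsc]
  ring

/-- a bound for the ordinate -/
lemma norm_y_le (σ : K →+* L) {a b c x y : K} {R : ℝ} (hR : ‖σ x‖ ≤ R)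
    (h : y ^ 2 = x ^ 3 + a * x ^ 2 + b * x + c) :
    ‖σ y‖ ≤ 1 + (R ^ 3 + ‖σ a‖ * R ^ 2 + ‖σ b‖ * R + ‖σ c‖) := by
  have h0 : 0 ≤ R := (norm_nonneg _).trans hR
  have h1 : ‖σ y‖ ^ 2 ≤ R ^ 3 + ‖σ a‖ * R ^ 2 + ‖σ b‖ * R + ‖σ c‖ := by
    have := congrArg (fun z => ‖σ z‖) h
    simp only [map_pow, map_add, map_mul, norm_pow] at this
    rw [this]
    refine (norm_add_le _ _).trans (add_le_add ((norm_add_le _ _).trans (add_le_add
      ((norm_add_le _ _).trans (add_le_add ?_ ?_)) ?_)) le_rfl)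
    · rw [norm_pow]; gcongr
    · rw [norm_mul, norm_pow]; gcongr
    · rw [norm_mul]; gcongr
  nlinarith [norm_nonneg (σ y), sq_nonneg (‖σ y‖ - 1)]

/-- **A point of infinite order has multiples close to the origin.** -/
theorem accum [ProperSpace L] [CharZero L] (σ : K →+* L) {a b c : K} (hD : dsc a b c ≠ 0)
    {P : Pt a b c} (hP : ∀ n : ℕ, n ≠ 0 → n • P ≠ 0) (R : ℝ) :
    ∃ n : ℕ, n ≠ 0 ∧ ∃ x y h, n • P = .some x y h ∧ R < ‖σ x‖ := by
  by_contra hcon
  push Not at hcon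
  have hex : ∀ n : ℕ, ∃ x y h, (n + 1) • P = .some x y h := fun n => exists_some (hP _ n.succ_ne_zero)
  choose x y h hxy using hex
  have hR : ∀ n, ‖σ (x n)‖ ≤ R := fun n => hcon _ n.succ_ne_zero _ _ _ (hxy n)
  have heq : ∀ n, y n ^ 2 = x n ^ 3 + a * x n ^ 2 + b * x n + c := fun n => (cv_ns.1 (h n)).1
  set B : ℝ := 1 + (R ^ 3 + ‖σ a‖ * R ^ 2 + ‖σ b‖ * R + ‖σ c‖) with hB
  have hyB : ∀ n, ‖σ (y n)‖ ≤ B := fun n => norm_y_le σ (hR n) (heq n)
  obtain ⟨⟨ξ, η⟩, -, φ, hφ, hlim⟩ := tendsto_subseq_of_bounded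
    (Metric.isBounded_closedBall (x := (0 : L × L)) (r := max R B))
    (x := fun n => (σ (x n), σ (y n))) (fun n => by
      rw [mem_closedBall_zero_iff, Prod.norm_def]
      exact max_le_max (hR n) (hyB n))
  have hx : Tendsto (fun k => σ (x (φ k))) atTop (𝓝 ξ) := (continuous_fst.tendsto _).comp hlim
  have hy : Tendsto (fun k => σ (y (φ k))) atTop (𝓝 η) := (continuous_snd.tendsto _).comp hlim
  have hx' := hx.comp (tendsto_add_atTop_nat 1)
  have hy' := hy.comp (tendsto_add_atTop_nat 1)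
  -- the limit is on the curve
  have hcur : η ^ 2 = ξ ^ 3 + σ a * ξ ^ 2 + σ b * ξ + σ c := by
    have h1 : Tendsto (fun k => σ (y (φ k)) ^ 2) atTop (𝓝 (η ^ 2)) := hy.pow 2
    have h2 : Tendsto (fun k => σ (x (φ k)) ^ 3 + σ a * σ (x (φ k)) ^ 2 + σ b * σ (x (φ k)) + σ c)
        atTop (𝓝 (ξ ^ 3 + σ a * ξ ^ 2 + σ b * ξ + σ c)) :=
      (((hx.pow 3).add ((hx.pow 2).const_mul _)).add (hx.const_mul _)).add_const _
    refine tendsto_nhds_unique h1 (h2.congr fun k => ?_)
    rw [← map_pow σ (y (φ k)), heq]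
    simp only [map_add, map_mul, map_pow]
  by_cases hη : η = 0
  · -- doubling
    have key : ∀ k, ‖(3 * σ (x (φ k)) ^ 2 + 2 * σ a * σ (x (φ k)) + σ b) ^ 2‖ ≤
        (R + ‖σ a‖ + R + R) * ‖(2 * σ (y (φ k))) ^ 2‖ := by
      intro k
      set n := φ k
      have h2 : (2 * (n + 1)) • P ≠ 0 := hP _ (by omega)
      have hy2 : 2 * y n ≠ 0 := by
        intro h0
        apply h2
        rw [two_mul, add_smul, hxy, dbl_zero (h n) h0]
      obtain ⟨h', he⟩ := dbl_mk (h n) hy2 (ℓ := (3 * x n ^ 2 + 2 * a * x n + b) / (2 * y n))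
        (div_mul_cancel₀ _ hy2)
      set ℓ := (3 * x n ^ 2 + 2 * a * x n + b) / (2 * y n) with hℓ
      have h3 := hcon (2 * (n + 1)) (by omega) _ _ _ (by
        rw [two_mul, add_smul, hxy, he])
      have h4 : ‖σ ℓ ^ 2‖ ≤ R + ‖σ a‖ + R + R := by
        have e : σ ℓ ^ 2 = σ (ℓ ^ 2 - a - x n - x n) + σ a + σ (x n) + σ (x n) := by
          simp only [map_sub, map_pow]; ring
        rw [e]
        refine (norm_add_le _ _).trans (add_le_add ((norm_add_le _ _).trans (add_le_add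
          ((norm_add_le _ _).trans (add_le_add h3 le_rfl)) (hR n))) (hR n))
      have e5 : (3 * σ (x n) ^ 2 + 2 * σ a * σ (x n) + σ b) = σ ℓ * (2 * σ (y n)) := by
        have := congrArg σ (div_mul_cancel₀ (3 * x n ^ 2 + 2 * a * x n + b) hy2)
        rw [← hℓ] at this
        simp only [map_mul, map_add, map_pow, map_ofNat] at this
        exact this.symm
      rw [e5, mul_pow, norm_mul]
      gcongr
    have h1 : Tendsto (fun k => ‖(3 * σ (x (φ k)) ^ 2 + 2 * σ a * σ (x (φ k)) + σ b) ^ 2‖) atTop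
        (𝓝 ‖(3 * ξ ^ 2 + 2 * σ a * ξ + σ b) ^ 2‖) :=
      (((((hx.pow 2).const_mul _).add (hx.const_mul _)).add_const _).pow 2).norm
    have h2 : Tendsto (fun k => (R + ‖σ a‖ + R + R) * ‖(2 * σ (y (φ k))) ^ 2‖) atTop
        (𝓝 ((R + ‖σ a‖ + R + R) * ‖(2 * η) ^ 2‖)) :=
      (((hy.const_mul _).pow 2).norm).const_mul _
    have h3 := le_of_tendsto_of_tendsto' h1 h2 key
    rw [hη, mul_zero, zero_pow two_ne_zero, norm_zero, mul_zero] at h3
    have h4 : 3 * ξ ^ 2 + 2 * σ a * ξ + σ b = 0 := by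
      have := norm_le_zero_iff.1 h3
      exact pow_eq_zero_iff two_ne_zero |>.1 this
    have h5 : ξ ^ 3 + σ a * ξ ^ 2 + σ b * ξ + σ c = 0 := by
      rw [← hcur, hη]; ring
    have h6 := dsc_root h5 h4
    rw [← map_dsc] at h6
    exact hD ((map_eq_zero σ).1 h6)
  · -- differences
    have key : ∀ k, ‖(σ (y (φ (k + 1))) + σ (y (φ k))) ^ 2‖ ≤
        (R + ‖σ a‖ + R + R) * ‖(σ (x (φ (k + 1))) - σ (x (φ k))) ^ 2‖ := by
      intro k
      set m := φ (k + 1)
      set n := φ k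
      have hmn : n < m := hφ k.lt_succ_self
      have hsub : ∀ Q : Pt a b c, (m + 1) • P = Q → (m - n) • P = Q - (n + 1) • P := by
        intro Q hQ
        rw [← hQ, show m + 1 = (m - n) + (n + 1) by omega, add_smul, add_sub_cancel_right]
      have hne : x m ≠ x n := by
        intro he
        have h1 : (.some (x m) (y m) (h m) : Pt a b c) = .some (x n) (y n) (h n) ∨
            (.some (x m) (y m) (h m) : Pt a b c) = -.some (x n) (y n) (h n) :=
          Affine.Point.X_eq_iff.1 he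
        rw [← hxy, ← hxy] at h1
        rcases h1 with h1 | h1
        · exact hP (m - n) (by omega) (by rw [hsub _ h1, sub_self])
        · exact hP ((m + 1) + (n + 1)) (by omega) (by rw [add_smul, h1, neg_add_cancel])
      obtain ⟨hn', hneg⟩ := neg_mk (h n)
      obtain ⟨h', he⟩ := add_mk (h m) hn' hne (ℓ := (y m - -y n) / (x m - x n))
        (div_mul_cancel₀ _ (sub_ne_zero.2 hne))
      set ℓ := (y m - -y n) / (x m - x n) with hℓ
      have h3 := hcon (m - n) (by omega) _ _ _ (by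
        rw [hsub _ (hxy m), hxy n, sub_eq_add_neg, hneg, he])
      have h4 : ‖σ ℓ ^ 2‖ ≤ R + ‖σ a‖ + R + R := by
        have e : σ ℓ ^ 2 = σ (ℓ ^ 2 - a - x m - x n) + σ a + σ (x m) + σ (x n) := by
          simp only [map_sub, map_pow]; ring
        rw [e]
        refine (norm_add_le _ _).trans (add_le_add ((norm_add_le _ _).trans (add_le_add
          ((norm_add_le _ _).trans (add_le_add h3 le_rfl)) (hR m))) (hR n))
      have e5 : σ (y m) + σ (y n) = σ ℓ * (σ (x m) - σ (x n)) := by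
        have := congrArg σ (div_mul_cancel₀ (y m - -y n) (sub_ne_zero.2 hne))
        rw [← hℓ] at this
        simp only [map_mul, map_sub, map_add, sub_neg_eq_add] at this
        exact this.symm
      rw [e5, mul_pow, norm_mul]
      gcongr
    have h1 : Tendsto (fun k => ‖(σ (y (φ (k + 1))) + σ (y (φ k))) ^ 2‖) atTop
        (𝓝 ‖(η + η) ^ 2‖) := ((hy'.add hy).pow 2).norm
    have h2 : Tendsto (fun k => (R + ‖σ a‖ + R + R) * ‖(σ (x (φ (k + 1))) - σ (x (φ k))) ^ 2‖) atTop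
        (𝓝 ((R + ‖σ a‖ + R + R) * ‖(ξ - ξ) ^ 2‖)) :=
      (((hx'.sub hx).pow 2).norm).const_mul _
    have h3 := le_of_tendsto_of_tendsto' h1 h2 key
    rw [sub_self, zero_pow two_ne_zero, norm_zero, mul_zero] at h3
    have h4 : η + η = 0 := pow_eq_zero_iff two_ne_zero |>.1 (norm_le_zero_iff.1 h3)
    rw [← two_mul, mul_eq_zero] at h4
    exact h4.elim two_ne_zero hη

end Pool.Agent.Y720.MZ
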