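import Mathlib

/-!
# Points of infinite order on `y² = x³ + a x² + b x + c` accumulate at the origin (helper720)
-/

set_option autoImplicit false

open WeierstrassCurve

namespace Pool.Agent.Y720.MZ

variable {K : Type*} [Field K]

/-- the curve `y² = x³ + a x² + b x + c` -/
def cv (a b c : K) : WeierstrassCurve K := ⟨0, a, 0, b, c⟩

/-- its points -/
abbrev Pt (a b c : K) : Type _ := (cv a b c).toAffine.Point

/-- the discriminant of the cubic polynomial -/
def dsc {K : Type*} [CommRing K] (a b c : K) : K := a ^ 2 * b ^ 2 - 4 * b ^ 3 - 4 * a ^ 3 * c - 27 * c ^ 2 + 18 * a * b * c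

lemma cv_eqn {a b c x y : K} : (cv a b c).toAffine.Equation x y ↔
    y ^ 2 = x ^ 3 + a * x ^ 2 + b * x + c := by
  rw [Affine.equation_iff]
  simp [cv]

lemma cv_ns {a b c x y : K} : (cv a b c).toAffine.Nonsingular x y ↔
    y ^ 2 = x ^ 3 + a * x ^ 2 + b * x + c ∧ (3 * x ^ 2 + 2 * a * x + b ≠ 0 ∨ 2 * y ≠ 0) := by
  rw [Affine.nonsingular_iff, cv_eqn]
  simp only [cv, zero_mul, sub_zero, ne_eq, add_zero]
  have e2 : (y = -y) ↔ (2 * y = 0) := by
    constructor
    · intro h; linear_combination h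
    · intro h; linear_combination h
  rw [e2, eq_comm (a := (0 : K))]

lemma cv_negY {a b c x y : K} : (cv a b c).toAffine.negY x y = -y := by
  simp [Affine.negY, cv]

lemma neg_mk {a b c x y : K} (h : (cv a b c).toAffine.Nonsingular x y) :
    ∃ h', -(Affine.Point.some x y h : Pt a b c) = .some x (-y) h' := by
  rw [Affine.Point.neg_some]
  have e : (cv a b c).toAffine.negY x y = -y := cv_negY
  generalize_proofs hh
  revert hh
  rw [e]
  intro hh
  exact ⟨hh, rfl⟩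

section add

variable [DecidableEq K]

lemma add_mk {a b c x₁ y₁ x₂ y₂ : K} (h₁ : (cv a b c).toAffine.Nonsingular x₁ y₁)
    (h₂ : (cv a b c).toAffine.Nonsingular x₂ y₂) (hx : x₁ ≠ x₂) {ℓ : K}
    (hℓ : ℓ * (x₁ - x₂) = y₁ - y₂) :
    ∃ h', (Affine.Point.some x₁ y₁ h₁ : Pt a b c) + .some x₂ y₂ h₂ =
      .some (ℓ ^ 2 - a - x₁ - x₂) (-(ℓ * (ℓ ^ 2 - a - x₁ - x₂ - x₁) + y₁)) h' := by
  have e : ℓ = (cv a b c).toAffine.slope x₁ x₂ y₁ y₂ := by
    rw [Affine.slope_of_X_ne hx, eq_div_iff (sub_ne_zero.2 hx), hℓ]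
  rw [Affine.Point.add_of_X_ne hx]
  have e1 : (cv a b c).toAffine.addX x₁ x₂ ((cv a b c).toAffine.slope x₁ x₂ y₁ y₂) =
      ℓ ^ 2 - a - x₁ - x₂ := by
    rw [← e]; simp [Affine.addX, cv]
  have e2 : (cv a b c).toAffine.addY x₁ x₂ y₁ ((cv a b c).toAffine.slope x₁ x₂ y₁ y₂) =
      -(ℓ * (ℓ ^ 2 - a - x₁ - x₂ - x₁) + y₁) := by
    rw [← e]; simp [Affine.addY, Affine.negAddY, Affine.addX, Affine.negY, cv]
  generalize_proofs hh
  revert hh
  rw [e1, e2]
  intro hh
  exact ⟨hh, rfl⟩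

lemma dbl_mk {a b c x y : K} (h : (cv a b c).toAffine.Nonsingular x y) (hy : 2 * y ≠ 0) {ℓ : K}
    (hℓ : ℓ * (2 * y) = 3 * x ^ 2 + 2 * a * x + b) :
    ∃ h', (Affine.Point.some x y h : Pt a b c) + .some x y h =
      .some (ℓ ^ 2 - a - x - x) (-(ℓ * (ℓ ^ 2 - a - x - x - x) + y)) h' := by
  have hy' : y ≠ (cv a b c).toAffine.negY x y := by
    rw [cv_negY]
    intro h
    exact hy (by linear_combination h)
  have e : ℓ = (cv a b c).toAffine.slope x x y y := by
    rw [Affine.slope_of_Y_ne rfl hy', eq_div_iff (sub_ne_zero.2 hy'), cv_negY]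
    simp only [cv]
    linear_combination hℓ
  rw [Affine.Point.add_self_of_Y_ne hy']
  have e1 : (cv a b c).toAffine.addX x x ((cv a b c).toAffine.slope x x y y) =
      ℓ ^ 2 - a - x - x := by
    rw [← e]; simp [Affine.addX, cv]
  have e2 : (cv a b c).toAffine.addY x x y ((cv a b c).toAffine.slope x x y y) =
      -(ℓ * (ℓ ^ 2 - a - x - x - x) + y) := by
    rw [← e]; simp [Affine.addY, Affine.negAddY, Affine.addX, Affine.negY, cv]
  generalize_proofs hh
  revert hh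
  rw [e1, e2]
  intro hh
  exact ⟨hh, rfl⟩

lemma dbl_zero {a b c x y : K} (h : (cv a b c).toAffine.Nonsingular x y) (hy : 2 * y = 0) :
    (Affine.Point.some x y h : Pt a b c) + .some x y h = 0 :=
  Affine.Point.add_self_of_Y_eq (by rw [cv_negY]; linear_combination hy)

lemma eq_or_neg {a b c x y₁ y₂ : K} (h₁ : (cv a b c).toAffine.Nonsingular x y₁)
    (h₂ : (cv a b c).toAffine.Nonsingular x y₂) :
    (Affine.Point.some x y₁ h₁ : Pt a b c) = .some x y₂ h₂ ∨
      (Affine.Point.some x y₁ h₁ : Pt a b c) = -.some x y₂ h₂ :=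
  Affine.Point.X_eq_iff.1 rfl

end add

end Pool.Agent.Y720.MZ
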