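import Pool.Agent.TH729.BQ.Cyl

/-!
# Local ideals and fibrations over the projective line (helper720)
-/

set_option autoImplicit false
set_option linter.unusedSectionVars false
set_option linter.unusedVariables false

open Filter Topology MvPolynomial

namespace Pool.Agent.Y720.MZ

open Pool.Agent.TH729.CV

variable {K : Type*} [Field K] {L : Type*} [NontriviallyNormedField L] [CompleteSpace L]
  [CharZero L] {τ : Type*} [Finite τ]

lemma mem_IA_iff {σ : K →+* L} {D : Set (τ → K)} {x : τ → L} {f : MvPolynomial τ K} :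
    f ∈ IA σ D x ↔ ∃ U ∈ 𝓝 x, ∀ y ∈ D, (fun i => σ (y i)) ∈ U → eval y f = 0 := by
  rw [mem_IA, Filter.eventually_iff_exists_mem]
  constructor
  · rintro ⟨U, hU, h⟩
    exact ⟨U, hU, fun y hy hyU => h _ hyU y hy rfl⟩
  · rintro ⟨U, hU, h⟩
    exact ⟨U, hU, fun z hz y hy hyz => h y hy (by rw [hyz]; exact hz)⟩

/-- finitely many local ideals at the points of `Ω` -/
def FAon (σ : K →+* L) (D : Set (τ → K)) (Ω : Set (τ → L)) : Prop :=
  ((fun x : τ → L => IA σ D x) '' Ω).Finite

lemma FAon.mono {σ : K →+* L} {D : Set (τ → K)} {Ω Ω' : Set (τ → L)} (h : FAon σ D Ω)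
    (hΩ : Ω' ⊆ Ω) : FAon σ D Ω' := Set.Finite.subset h (Set.image_mono hΩ)

lemma FA.on {σ : K →+* L} {D : Set (τ → K)} (h : FA σ D) (Ω : Set (τ → L)) : FAon σ D Ω :=
  Set.Finite.subset h (by rintro _ ⟨x, -, rfl⟩; exact ⟨x, rfl⟩)

lemma IA_union {σ : K →+* L} (D E : Set (τ → K)) (x : τ → L) :
    IA σ (D ∪ E) x = IA σ D x ⊓ IA σ E x := by
  ext f
  rw [Ideal.mem_inf, mem_IA_iff, mem_IA_iff, mem_IA_iff]
  constructor
  · rintro ⟨U, hU, h⟩
    exact ⟨⟨U, hU, fun y hy => h y (Or.inl hy)⟩, ⟨U, hU, fun y hy => h y (Or.inr hy)⟩⟩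
  · rintro ⟨⟨U, hU, h⟩, ⟨V, hV, h'⟩⟩
    refine ⟨U ∩ V, inter_mem hU hV, ?_⟩
    rintro y (hy | hy) hyU
    · exact h y hy hyU.1
    · exact h' y hy hyU.2

lemma FAon.union {σ : K →+* L} {D E : Set (τ → K)} {Ω : Set (τ → L)} (hD : FAon σ D Ω)
    (hE : FAon σ E Ω) : FAon σ (D ∪ E) Ω := by
  have h1 := Set.Finite.image2 (fun I J => I ⊓ J) hD hE
  refine h1.subset ?_
  rintro _ ⟨x, hx, rfl⟩
  exact ⟨_, ⟨x, hx, rfl⟩, _, ⟨x, hx, rfl⟩, (IA_union D E x).symm⟩

lemma FAon.empty {σ : K →+* L} (Ω : Set (τ → L)) : FAon σ (∅ : Set (τ → K)) Ω := by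
  refine (Set.finite_singleton (⊤ : Ideal (MvPolynomial τ K))).subset ?_
  rintro _ ⟨x, hx, rfl⟩
  rw [Set.mem_singleton_iff, Ideal.eq_top_iff_one, mem_IA_iff]
  exact ⟨Set.univ, univ_mem, by simp⟩

lemma FAon.biUnion {σ : K →+* L} {ι : Type*} (s : Finset ι) {D : ι → Set (τ → K)}
    {Ω : Set (τ → L)} (h : ∀ i ∈ s, FAon σ (D i) Ω) : FAon σ (⋃ i ∈ s, D i) Ω := by
  classical
  induction s using Finset.induction_on with
  | empty => simpa using FAon.empty Ω
  | insert i s hi ih =>
    rw [Finset.set_biUnion_insert]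
    exact (h i (Finset.mem_insert_self _ _)).union
      (ih fun j hj => h j (Finset.mem_insert_of_mem hj))

lemma IA_congr {σ : K →+* L} {D E : Set (τ → K)} {x : τ → L} {U : Set (τ → L)} (hU : U ∈ 𝓝 x)
    (h : ∀ y, (fun i => σ (y i)) ∈ U → (y ∈ D ↔ y ∈ E)) : IA σ D x = IA σ E x := by
  ext f
  rw [mem_IA_iff, mem_IA_iff]
  constructor
  · rintro ⟨W, hW, hf⟩
    exact ⟨W ∩ U, inter_mem hW hU, fun y hy hyW => hf y ((h y hyW.2).2 hy) hyW.1⟩
  · rintro ⟨W, hW, hf⟩
    exact ⟨W ∩ U, inter_mem hW hU, fun y hy hyW => hf y ((h y hyW.2).1 hy) hyW.1⟩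

/-- the vanishing ideal -/
def VI (S : Set (τ → K)) : Ideal (MvPolynomial τ K) where
  carrier := {f | ∀ y ∈ S, eval y f = 0}
  zero_mem' := fun y _ => map_zero _
  add_mem' := by
    intro f g hf hg y hy
    rw [map_add, hf y hy, hg y hy, add_zero]
  smul_mem' := by
    intro c f hf y hy
    rw [smul_eq_mul, map_mul, hf y hy, mul_zero]

lemma mem_VI {S : Set (τ → K)} {f : MvPolynomial τ K} : f ∈ VI S ↔ ∀ y ∈ S, eval y f = 0 :=
  Iff.rfl

lemma VI_le_IA (σ : K →+* L) (S : Set (τ → K)) (x : τ → L) : VI S ≤ IA σ S x := fun f hf =>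
  mem_IA_iff.2 ⟨Set.univ, univ_mem, fun y hy _ => hf y hy⟩

/-- **finiteness from good and bad points** -/
theorem fin_abstract {σ : K →+* L} {S B : Set (τ → K)} {Ω : Set (τ → L)} (hΩ : IsOpen Ω)
    (hBS : B ⊆ S)
    (hgood : ∀ y ∈ S, y ∉ B → (fun i => σ (y i)) ∈ Ω →
      ∀ f ∈ IA σ S (fun i => σ (y i)), f ∈ VI S) (hB : FAon σ B Ω) : FAon σ S Ω := by
  refine ((Set.finite_singleton (VI S)).union hB).subset ?_
  rintro _ ⟨x, hx, rfl⟩
  by_cases hlim : ∀ U, IsOpen U → x ∈ U → ∃ y ∈ S, y ∉ B ∧ (fun i => σ (y i)) ∈ U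
  · left
    rw [Set.mem_singleton_iff]
    refine le_antisymm ?_ (VI_le_IA σ S x)
    intro f hf
    obtain ⟨U, hU, hfU⟩ := mem_IA_iff.1 hf
    obtain ⟨V, hVU, hVo, hxV⟩ := mem_nhds_iff.1 hU
    obtain ⟨y, hyS, hyB, hyV⟩ := hlim (V ∩ Ω) (hVo.inter hΩ) ⟨hxV, hx⟩
    exact hgood y hyS hyB hyV.2 f (mem_IA_iff.2 ⟨V, hVo.mem_nhds hyV.1,
      fun y' hy' hy'V => hfU y' hy' (hVU hy'V)⟩)
  · right
    push Not at hlim
    obtain ⟨U, hUo, hxU, hU⟩ := hlim
    refine ⟨x, hx, ?_⟩
    refine IA_congr (hUo.mem_nhds hxU) fun y hyU => ⟨fun h => hBS h, fun h => ?_⟩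
    by_contra hyB
    exact hU y h hyB hyU

/-! ### fibres -/

section fib

variable {α : Type*}

/-- the point with the given coordinates -/
def pt {R : Type*} (w : R) (x : α → R) (z : Fin 2 → R) : Option (α ⊕ Fin 2) → R :=
  fun o => o.elim w (Sum.elim x z)

@[simp] lemma pt_none {R : Type*} (w : R) (x : α → R) (z : Fin 2 → R) : pt w x z none = w := rfl
@[simp] lemma pt_inl {R : Type*} (w : R) (x : α → R) (z : Fin 2 → R) (i : α) :
    pt w x z (some (Sum.inl i)) = x i := rfl
@[simp] lemma pt_inr {R : Type*} (w : R) (x : α → R) (z : Fin 2 → R) (j : Fin 2) :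
    pt w x z (some (Sum.inr j)) = z j := rfl

lemma pt_eta {R : Type*} (y : Option (α ⊕ Fin 2) → R) :
    pt (y none) (fun i => y (some (Sum.inl i))) (fun j => y (some (Sum.inr j))) = y := by
  funext o
  rcases o with _ | i | j <;> rfl

lemma map_pt {R R' : Type*} (φ : R → R') (w : R) (x : α → R) (z : Fin 2 → R) :
    (fun i => φ (pt w x z i)) = pt (φ w) (fun i => φ (x i)) fun j => φ (z j) := by
  funext o
  rcases o with _ | i | j <;> rfl

/-- the points over the multiples of `R` -/
def fibS (D : Set (Option α → K)) (R : Fin 2 → K) : Set (Option (α ⊕ Fin 2) → K) :=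
  {y | ∃ c : K, c ≠ 0 ∧ ∃ u ∈ D, y = pt (c ^ 2 * u none) (fun i => u (some i)) (c • R)}

/-- substitution into a fibre -/
lemma exists_fsub (f : MvPolynomial (Option (α ⊕ Fin 2)) K) (c : K) (R : Fin 2 → K) :
    ∃ g : MvPolynomial (Option α) K, ∀ u : Option α → K,
      eval u g = eval (pt (c ^ 2 * u none) (fun i => u (some i)) (c • R)) f := by
  refine ⟨aeval (pt (C (c ^ 2) * X none) (fun i => X (some i)) fun j => C (c * R j)) f,
    fun u => ?_⟩
  have h1 : (aeval u : MvPolynomial (Option α) K →ₐ[K] K).comp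
      (aeval (pt (C (c ^ 2) * X none) (fun i => X (some i)) fun j => C (c * R j))) =
      aeval (pt (c ^ 2 * u none) (fun i => u (some i)) (c • R)) := by
    apply MvPolynomial.algHom_ext
    intro o
    rw [AlgHom.comp_apply, aeval_X, aeval_X]
    rcases o with _ | i | j
    · simp
    · simp
    · simp
  have h2 := DFunLike.congr_fun h1 f
  rw [AlgHom.comp_apply, aeval_eq_eval, aeval_eq_eval] at h2
  exact h2

lemma exists_csub (f : MvPolynomial (Option (α ⊕ Fin 2)) K) (u : Option α → K) (R : Fin 2 → K) :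
    ∃ p : Polynomial K, ∀ c : K,
      p.eval c = eval (pt (c ^ 2 * u none) (fun i => u (some i)) (c • R)) f := by
  refine ⟨aeval (pt (Polynomial.X ^ 2 * Polynomial.C (u none)) (fun i => Polynomial.C (u (some i)))
    fun j => Polynomial.X * Polynomial.C (R j)) f, fun c => ?_⟩
  have h1 : (Polynomial.aeval c : Polynomial K →ₐ[K] K).comp
      (aeval (pt (Polynomial.X ^ 2 * Polynomial.C (u none)) (fun i => Polynomial.C (u (some i)))
        fun j => Polynomial.X * Polynomial.C (R j))) =
      aeval (pt (c ^ 2 * u none) (fun i => u (some i)) (c • R)) := by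
    apply MvPolynomial.algHom_ext
    intro o
    rw [AlgHom.comp_apply, aeval_X, aeval_X]
    rcases o with _ | i | j
    · simp
      ring
    · simp
    · simp
      ring
  have h2 := DFunLike.congr_fun h1 f
  rw [AlgHom.comp_apply, aeval_eq_eval, Polynomial.coe_aeval_eq_eval] at h2
  exact h2

variable [Finite α]

lemma infinite_near' (σ : K →+* L) (hσ : DenseRange σ) {U : Set L} {a : L} (hU : U ∈ 𝓝 a) :
    {c : K | σ c ∈ U ∧ c ≠ 0}.Infinite := by
  obtain ⟨V, hVU, hVo, haV⟩ := mem_nhds_iff.1 hU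
  intro hfin
  have h1 : (V \ (σ '' {c : K | σ c ∈ U ∧ c ≠ 0} ∪ {0})).Nonempty := by
    have hinf : V.Infinite := infinite_of_mem_nhds a (hVo.mem_nhds haV)
    exact (hinf.sdiff ((hfin.image σ).union (Set.finite_singleton _))).nonempty
  have h2 : IsOpen (V \ (σ '' {c : K | σ c ∈ U ∧ c ≠ 0} ∪ {0})) :=
    hVo.sdiff ((hfin.image σ).union (Set.finite_singleton _)).isClosed
  obtain ⟨c, hc⟩ := hσ.exists_mem_open h2 h1
  apply hc.2
  by_cases hc0 : c = 0
  · right
    rw [hc0, map_zero]
    exact Set.mem_singleton _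
  · left
    exact ⟨c, ⟨hVU hc.1, hc0⟩, rfl⟩

/-- **finitely many local ideals over the multiples of one point of the line** -/
theorem fib_FA {σ : K →+* L} (hσ : DenseRange σ) {D : Set (Option α → K)} (hD : FA σ D)
    {R : Fin 2 → K} (hR : R ≠ 0) :
    FAon σ (fibS D R) {x | (fun j => x (some (Sum.inr j))) ≠ 0} := by
  classical
  obtain ⟨j₀, hj₀⟩ : ∃ j, R j ≠ 0 := by
    by_contra h
    push Not at h
    exact hR (funext h)
  have hσj : σ (R j₀) ≠ 0 := (map_ne_zero σ).2 hj₀
  set Ψ : Ideal (MvPolynomial (Option α) K) → Set (MvPolynomial (Option (α ⊕ Fin 2)) K) := fun I =>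
    {f | ∀ (c : K) (g : MvPolynomial (Option α) K), (∀ u : Option α → K,
      eval u g = eval (pt (c ^ 2 * u none) (fun i => u (some i)) (c • R)) f) → g ∈ I} with hΨ
  have key : ∀ x : Option (α ⊕ Fin 2) → L, (fun j => x (some (Sum.inr j))) ≠ 0 →
      (IA σ (fibS D R) x : Set (MvPolynomial (Option (α ⊕ Fin 2)) K)) = Set.univ ∨
      ∃ x', (IA σ (fibS D R) x : Set (MvPolynomial (Option (α ⊕ Fin 2)) K)) =
        Ψ (IA σ D x') := by
    intro x hx
    by_cases hpar : ∃ μ : L, ∀ j, x (some (Sum.inr j)) = μ * σ (R j)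
    · right
      obtain ⟨μ, hμ⟩ := hpar
      have hμ0 : μ ≠ 0 := by
        rintro rfl
        apply hx
        funext j
        rw [hμ, zero_mul, Pi.zero_apply]
      set x' : Option α → L := fun o => o.elim (x none / μ ^ 2) fun i => x (some (Sum.inl i))
        with hx'
      refine ⟨x', ?_⟩
      ext f
      constructor
      · intro hf c g hg
        obtain ⟨U, hU, hfU⟩ := mem_IA_iff.1 hf
        set Θ : L × (Option α → L) → (Option (α ⊕ Fin 2) → L) := fun p =>
          pt (p.1 ^ 2 * p.2 none) (fun i => p.2 (some i)) (fun j => p.1 * σ (R j)) with hΘ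
        have hΘc : Continuous Θ := by
          refine continuous_pi fun o => ?_
          rcases o with _ | i | j
          · exact (continuous_fst.pow 2).mul ((continuous_apply none).comp continuous_snd)
          · exact (continuous_apply (some i)).comp continuous_snd
          · exact continuous_fst.mul continuous_const
        have hΘx : Θ (μ, x') = x := by
          funext o
          rcases o with _ | i | j
          · simp only [hΘ, pt_none, hx', Option.elim_none]
            field_simp
          · simp only [hΘ, pt_inl, hx', Option.elim_some]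
          · simp only [hΘ, pt_inr, hμ]
        have hpre : Θ ⁻¹' U ∈ 𝓝 (μ, x') := by
          apply hΘc.continuousAt.preimage_mem_nhds
          rw [hΘx]
          exact hU
        obtain ⟨V, hV, W, hW, hVW⟩ := mem_nhds_prod_iff.1 hpre
        rw [mem_IA_iff]
        refine ⟨W, hW, fun u hu huW => ?_⟩
        rw [hg]
        obtain ⟨p, hp⟩ := exists_csub f u R
        rw [← hp]
        have hp0 : p = 0 := by
          apply Polynomial.eq_zero_of_infinite_isRoot
          refine (infinite_near' σ hσ hV).mono ?_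
          rintro c ⟨hcV, hc0⟩
          change p.eval c = 0
          rw [hp]
          refine hfU _ ⟨c, hc0, u, hu, rfl⟩ ?_
          have h1 : (σ c, fun i => σ (u i)) ∈ Θ ⁻¹' U := hVW (Set.mk_mem_prod hcV huW)
          rw [map_pt]
          simpa [hΘ] using h1
        rw [hp0, Polynomial.eval_zero]
      · intro hf
        have hst := IA_stab σ D x'
        rw [Filter.eventually_iff_exists_mem] at hst
        obtain ⟨W, hW, hst⟩ := hst
        -- the parameter
        set ν : (Option (α ⊕ Fin 2) → L) → L := fun y => y (some (Sum.inr j₀)) / σ (R j₀) with hν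
        have hνx : ν x = μ := by
          simp only [hν, hμ]
          field_simp
        have hνc : Continuous ν := (continuous_apply _).div_const _
        set Ξ : (Option (α ⊕ Fin 2) → L) → (Option α → L) := fun y o =>
          o.elim (y none / ν y ^ 2) fun i => y (some (Sum.inl i)) with hΞ
        have hΞx : Ξ x = x' := by
          funext o
          rcases o with _ | i
          · simp only [hΞ, hx', Option.elim_none, hνx]
          · simp only [hΞ, hx', Option.elim_some]
        have hΞc : ContinuousAt Ξ x := by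
          rw [continuousAt_pi]
          intro o
          rcases o with _ | i
          · refine ContinuousAt.div (continuous_apply none).continuousAt
              (hνc.continuousAt.pow 2) ?_
            rw [hνx]
            exact pow_ne_zero 2 hμ0
          · exact (continuous_apply _).continuousAt
        have hpre : Ξ ⁻¹' W ∈ 𝓝 x := by
          apply hΞc.preimage_mem_nhds
          rw [hΞx]
          exact hW
        show f ∈ IA σ (fibS D R) x
        rw [mem_IA_iff]
        refine ⟨Ξ ⁻¹' W, hpre, ?_⟩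
        rintro y ⟨c, hc, u, hu, rfl⟩ hyW
        obtain ⟨g, hg⟩ := exists_fsub f c R
        rw [← hg]
        refine hst (fun i => σ (u i)) ?_ u hu rfl g (hf c g hg)
        have h1 : Ξ (fun i => σ (pt (c ^ 2 * u none) (fun i => u (some i)) (c • R) i)) =
            fun i => σ (u i) := by
          have hσc : σ c ≠ 0 := (map_ne_zero σ).2 hc
          have h2 : ν (fun i => σ (pt (c ^ 2 * u none) (fun i => u (some i)) (c • R) i)) =
              σ c := by
            simp only [hν, pt_inr, Pi.smul_apply, smul_eq_mul, map_mul]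
            field_simp
          funext o
          rcases o with _ | i
          · simp only [hΞ, Option.elim_none, h2, pt_none, map_mul, map_pow]
            field_simp
          · simp only [hΞ, Option.elim_some, pt_inl]
        rw [← h1]
        exact hyW
    · left
      push Not at hpar
      rw [Set.eq_univ_iff_forall]
      intro f
      show f ∈ IA σ (fibS D R) x
      rw [mem_IA_iff]
      obtain ⟨j, hj⟩ := hpar (x (some (Sum.inr j₀)) / σ (R j₀))
      refine ⟨{y | y (some (Sum.inr j)) * σ (R j₀) ≠ y (some (Sum.inr j₀)) * σ (R j)},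
        ?_, ?_⟩
      · refine IsOpen.mem_nhds ?_ ?_
        · exact isOpen_ne_fun ((continuous_apply _).mul continuous_const)
            ((continuous_apply _).mul continuous_const)
        · intro h
          apply hj
          have h' : x (some (Sum.inr j)) * σ (R j₀) = x (some (Sum.inr j₀)) * σ (R j) := h
          field_simp
          linear_combination h'
      · rintro y ⟨c, hc, u, hu, rfl⟩ hyU
        exfalso
        apply hyU
        simp only [pt_inr, Pi.smul_apply, smul_eq_mul, map_mul]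
        ring
  have hfin : ({Set.univ} ∪ Ψ '' (Set.range fun x : Option α → L => IA σ D x)).Finite :=
    (Set.finite_singleton _).union (Set.Finite.image _ hD)
  refine Set.Finite.of_finite_image (f := fun I : Ideal (MvPolynomial (Option (α ⊕ Fin 2)) K) =>
    (I : Set (MvPolynomial (Option (α ⊕ Fin 2)) K))) (hfin.subset ?_) (SetLike.coe_injective.injOn)
  rintro _ ⟨_, ⟨x, hx, rfl⟩, rfl⟩
  rcases key x hx with h | ⟨x', h⟩
  · left
    exact h
  · right
    exact ⟨_, ⟨x', rfl⟩, h.symm⟩

end fib

/-! ### polynomials on double covers -/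

/-- polynomials on a double cover -/
lemma exists_dec {τ : Type*} (G : MvPolynomial τ K) (f : MvPolynomial (Option τ) K) :
    ∃ g h : MvPolynomial τ K, ∀ (w : K) (y : τ → K), w ^ 2 = eval y G →
      eval (fun o => o.elim w y) f = eval y g + w * eval y h := by
  induction f using MvPolynomial.induction_on with
  | C a => exact ⟨C a, 0, fun w y _ => by simp⟩
  | add p q hp hq =>
    obtain ⟨g₁, h₁, e₁⟩ := hp
    obtain ⟨g₂, h₂, e₂⟩ := hq
    refine ⟨g₁ + g₂, h₁ + h₂, fun w y hw => ?_⟩
    rw [map_add, e₁ w y hw, e₂ w y hw, map_add, map_add]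
    ring
  | mul_X p i hp =>
    obtain ⟨g, h, e⟩ := hp
    rcases i with _ | i
    · refine ⟨G * h, g, fun w y hw => ?_⟩
      rw [map_mul, e w y hw, eval_X, map_mul, Option.elim_none]
      linear_combination eval y h * hw
    · refine ⟨g * X i, h * X i, fun w y hw => ?_⟩
      rw [map_mul, e w y hw, eval_X, map_mul, map_mul, eval_X, Option.elim_some]
      ring

end Pool.Agent.Y720.MZ
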