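import Pool.Agent.Y720.MZ.Spr

/-!
# Local ideals over the multiples of points of several lines (helper720)
-/

set_option autoImplicit false
set_option linter.unusedSectionVars false
set_option linter.unusedVariables false

open Filter Topology MvPolynomial

namespace Pool.Agent.Y720.MZ

open Pool.Agent.TH729.CV

variable {K : Type*} [Field K] {α : Type*} {r : ℕ}

/-- the point with the given coordinates -/
def ptN {R : Type*} (w : R) (x : α → R) (z : Fin r → Fin 2 → R) :
    Option (α ⊕ (Fin r × Fin 2)) → R :=
  fun o => o.elim w (Sum.elim x fun p => z p.1 p.2)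

@[simp] lemma ptN_none {R : Type*} (w : R) (x : α → R) (z : Fin r → Fin 2 → R) :
    ptN w x z none = w := rfl
@[simp] lemma ptN_inl {R : Type*} (w : R) (x : α → R) (z : Fin r → Fin 2 → R) (i : α) :
    ptN w x z (some (Sum.inl i)) = x i := rfl
@[simp] lemma ptN_inr {R : Type*} (w : R) (x : α → R) (z : Fin r → Fin 2 → R)
    (p : Fin r × Fin 2) : ptN w x z (some (Sum.inr p)) = z p.1 p.2 := rfl

lemma ptN_eta {R : Type*} (y : Option (α ⊕ (Fin r × Fin 2)) → R) :
    ptN (y none) (fun i => y (some (Sum.inl i))) (fun j a => y (some (Sum.inr (j, a)))) = y := by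
  funext o
  rcases o with _ | i | j <;> rfl

lemma map_ptN {R R' : Type*} (φ : R → R') (w : R) (x : α → R) (z : Fin r → Fin 2 → R) :
    (fun i => φ (ptN w x z i)) = ptN (φ w) (fun i => φ (x i)) fun j a => φ (z j a) := by
  funext o
  rcases o with _ | i | j <;> rfl

/-- the points over the multiples of the `R j` -/
def fibN (D : Set (Option α → K)) (R : Fin r → Fin 2 → K) :
    Set (Option (α ⊕ (Fin r × Fin 2)) → K) :=
  {y | ∃ c : Fin r → K, (∀ j, c j ≠ 0) ∧ ∃ u ∈ D,
    y = ptN ((∏ j, c j) ^ 2 * u none) (fun i => u (some i)) fun j => c j • R j}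

lemma exists_fsubN (f : MvPolynomial (Option (α ⊕ (Fin r × Fin 2))) K) (c : Fin r → K)
    (R : Fin r → Fin 2 → K) :
    ∃ g : MvPolynomial (Option α) K, ∀ u : Option α → K, eval u g =
      eval (ptN ((∏ j, c j) ^ 2 * u none) (fun i => u (some i)) fun j => c j • R j) f := by
  refine ⟨aeval (ptN (C ((∏ j, c j) ^ 2) * X none) (fun i => X (some i))
    fun j a => C (c j * R j a)) f, fun u => ?_⟩
  have h1 : (aeval u : MvPolynomial (Option α) K →ₐ[K] K).comp
      (aeval (ptN (C ((∏ j, c j) ^ 2) * X none) (fun i => X (some i))
        fun j a => C (c j * R j a))) =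
      aeval (ptN ((∏ j, c j) ^ 2 * u none) (fun i => u (some i)) fun j => c j • R j) := by
    apply MvPolynomial.algHom_ext
    intro o
    rw [AlgHom.comp_apply, aeval_X, aeval_X]
    rcases o with _ | i | j
    · simp
    · simp
    · simp
  have h2 := DFunLike.congr_fun h1 f
  rw [AlgHom.comp_apply, aeval_eq_eval, aeval_eq_eval] at h2
  exact h2

lemma exists_csubN (f : MvPolynomial (Option (α ⊕ (Fin r × Fin 2))) K) (u : Option α → K)
    (R : Fin r → Fin 2 → K) :
    ∃ p : MvPolynomial (Fin r) K, ∀ c : Fin r → K, eval c p =
      eval (ptN ((∏ j, c j) ^ 2 * u none) (fun i => u (some i)) fun j => c j • R j) f := by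
  refine ⟨aeval (ptN ((∏ j, X j) ^ 2 * C (u none)) (fun i => C (u (some i)))
    fun j a => X j * C (R j a)) f, fun c => ?_⟩
  have h1 : (aeval c : MvPolynomial (Fin r) K →ₐ[K] K).comp
      (aeval (ptN ((∏ j, X j) ^ 2 * C (u none)) (fun i => C (u (some i)))
        fun j a => X j * C (R j a))) =
      aeval (ptN ((∏ j, c j) ^ 2 * u none) (fun i => u (some i)) fun j => c j • R j) := by
    apply MvPolynomial.algHom_ext
    intro o
    rw [AlgHom.comp_apply, aeval_X, aeval_X]
    rcases o with _ | i | j
    · simp
    · simp
    · simp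
  have h2 := DFunLike.congr_fun h1 f
  rw [AlgHom.comp_apply, aeval_eq_eval, aeval_eq_eval] at h2
  exact h2

variable {L : Type*} [NontriviallyNormedField L] [CompleteSpace L] [CharZero L] [Finite α]

/-- **finitely many local ideals over the multiples of points of several lines** -/
theorem fibN_FA {σ : K →+* L} (hσ : DenseRange σ) {D : Set (Option α → K)} (hD : FA σ D)
    {R : Fin r → Fin 2 → K} (hR : ∀ j, R j ≠ 0) :
    FAon σ (fibN D R) {x | ∀ j, (fun a => x (some (Sum.inr (j, a)))) ≠ 0} := by
  classical
  have hex : ∀ j, ∃ a, R j a ≠ 0 := by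
    intro j
    by_contra h
    push Not at h
    exact hR j (funext h)
  choose a₀ ha₀ using hex
  have hσa : ∀ j, σ (R j (a₀ j)) ≠ 0 := fun j => (map_ne_zero σ).2 (ha₀ j)
  set Ψ : Ideal (MvPolynomial (Option α) K) →
      Set (MvPolynomial (Option (α ⊕ (Fin r × Fin 2))) K) := fun I =>
    {f | ∀ (c : Fin r → K) (g : MvPolynomial (Option α) K), (∀ u : Option α → K,
      eval u g = eval (ptN ((∏ j, c j) ^ 2 * u none) (fun i => u (some i))
        fun j => c j • R j) f) → g ∈ I} with hΨ
  have key : ∀ x : Option (α ⊕ (Fin r × Fin 2)) → L,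
      (∀ j, (fun a => x (some (Sum.inr (j, a)))) ≠ 0) →
      (IA σ (fibN D R) x : Set (MvPolynomial (Option (α ⊕ (Fin r × Fin 2))) K)) = Set.univ ∨
      ∃ x', (IA σ (fibN D R) x : Set (MvPolynomial (Option (α ⊕ (Fin r × Fin 2))) K)) =
        Ψ (IA σ D x') := by
    intro x hx
    by_cases hpar : ∀ j, ∃ μ : L, ∀ a, x (some (Sum.inr (j, a))) = μ * σ (R j a)
    · right
      choose μ hμ using hpar
      have hμ0 : ∀ j, μ j ≠ 0 := by
        intro j h0
        apply hx j
        funext a
        rw [hμ, h0, zero_mul, Pi.zero_apply]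
      have hμp : ∏ j, μ j ≠ 0 := Finset.prod_ne_zero_iff.2 fun j _ => hμ0 j
      set x' : Option α → L := fun o => o.elim (x none / (∏ j, μ j) ^ 2)
        fun i => x (some (Sum.inl i)) with hx'
      refine ⟨x', ?_⟩
      ext f
      constructor
      · intro hf c g hg
        obtain ⟨U, hU, hfU⟩ := mem_IA_iff.1 hf
        set Θ : (Fin r → L) × (Option α → L) → (Option (α ⊕ (Fin r × Fin 2)) → L) := fun p =>
          ptN ((∏ j, p.1 j) ^ 2 * p.2 none) (fun i => p.2 (some i))
            (fun j a => p.1 j * σ (R j a)) with hΘ
        have hΘc : Continuous Θ := by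
          refine continuous_pi fun o => ?_
          rcases o with _ | i | j
          · exact ((continuous_finsetProd _ fun j _ =>
              (continuous_apply j).comp continuous_fst).pow 2).mul
              ((continuous_apply none).comp continuous_snd)
          · exact (continuous_apply (some i)).comp continuous_snd
          · exact ((continuous_apply j.1).comp continuous_fst).mul continuous_const
        have hΘx : Θ (μ, x') = x := by
          funext o
          rcases o with _ | i | j
          · simp only [hΘ, ptN_none, hx', Option.elim_none]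
            field_simp
          · simp only [hΘ, ptN_inl, hx', Option.elim_some]
          · simp only [hΘ, ptN_inr, ← hμ]
        have hpre : Θ ⁻¹' U ∈ 𝓝 (μ, x') := by
          apply hΘc.continuousAt.preimage_mem_nhds
          rw [hΘx]
          exact hU
        obtain ⟨V, hV, W, hW, hVW⟩ := mem_nhds_prod_iff.1 hpre
        rw [nhds_pi, Filter.mem_pi'] at hV
        obtain ⟨I, V', hV', hVI⟩ := hV
        rw [mem_IA_iff]
        refine ⟨W, hW, fun u hu huW => ?_⟩
        rw [hg]
        obtain ⟨p, hp⟩ := exists_csubN f u R
        rw [← hp]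
        have hp0 : p = 0 := by
          apply MvPolynomial.funext_set (s := fun j => {c : K | σ c ∈ V' j ∧ c ≠ 0})
            (fun j => infinite_near' σ hσ (hV' j))
          intro c hc
          rw [map_zero, hp]
          refine hfU _ ⟨c, fun j => (hc j (Set.mem_univ j)).2, u, hu, rfl⟩ ?_
          have h0 : (fun j => σ (c j)) ∈ V := hVI fun j _ => (hc j (Set.mem_univ j)).1
          have h1 : ((fun j => σ (c j)), fun i => σ (u i)) ∈ Θ ⁻¹' U :=
            hVW (Set.mk_mem_prod h0 huW)
          rw [map_ptN]
          simpa [hΘ] using h1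
        rw [hp0, map_zero]
      · intro hf
        have hst := IA_stab σ D x'
        rw [Filter.eventually_iff_exists_mem] at hst
        obtain ⟨W, hW, hst⟩ := hst
        -- the parameters
        set ν : Fin r → (Option (α ⊕ (Fin r × Fin 2)) → L) → L := fun j y =>
          y (some (Sum.inr (j, a₀ j))) / σ (R j (a₀ j)) with hν
        have hνx : ∀ j, ν j x = μ j := by
          intro j
          have := hσa j
          simp only [hν, hμ]
          field_simp
        have hνc : ∀ j, Continuous (ν j) := fun j => (continuous_apply _).div_const _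
        set Ξ : (Option (α ⊕ (Fin r × Fin 2)) → L) → (Option α → L) := fun y o =>
          o.elim (y none / (∏ j, ν j y) ^ 2) fun i => y (some (Sum.inl i)) with hΞ
        have hΞx : Ξ x = x' := by
          funext o
          rcases o with _ | i
          · simp only [hΞ, hx', Option.elim_none, hνx]
          · simp only [hΞ, hx', Option.elim_some]
        have hΞc : ContinuousAt Ξ x := by
          rw [continuousAt_pi]
          intro o
          rcases o with _ | i
          · refine ContinuousAt.div (continuous_apply none).continuousAt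
              ((continuous_finsetProd _ fun j _ => hνc j).continuousAt.pow 2) ?_
            simp only [hνx]
            exact pow_ne_zero 2 hμp
          · exact (continuous_apply _).continuousAt
        have hpre : Ξ ⁻¹' W ∈ 𝓝 x := by
          apply hΞc.preimage_mem_nhds
          rw [hΞx]
          exact hW
        show f ∈ IA σ (fibN D R) x
        rw [mem_IA_iff]
        refine ⟨Ξ ⁻¹' W, hpre, ?_⟩
        rintro y ⟨c, hc, u, hu, rfl⟩ hyW
        obtain ⟨g, hg⟩ := exists_fsubN f c R
        rw [← hg]
        refine hst (fun i => σ (u i)) ?_ u hu rfl g (hf c g hg)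
        have h1 : Ξ (fun i => σ (ptN ((∏ j, c j) ^ 2 * u none) (fun i => u (some i))
            (fun j => c j • R j) i)) = fun i => σ (u i) := by
          have h2 : ∀ j, ν j (fun i => σ (ptN ((∏ j, c j) ^ 2 * u none) (fun i => u (some i))
              (fun j => c j • R j) i)) = σ (c j) := by
            intro j
            have := hσa j
            simp only [hν, ptN_inr, Pi.smul_apply, smul_eq_mul, map_mul]
            field_simp
          have h3 : ∏ j, σ (c j) ≠ 0 :=
            Finset.prod_ne_zero_iff.2 fun j _ => (map_ne_zero σ).2 (hc j)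
          funext o
          rcases o with _ | i
          · simp only [hΞ, Option.elim_none, h2, ptN_none, map_mul, map_pow, map_prod]
            field_simp
          · simp only [hΞ, Option.elim_some, ptN_inl]
        rw [← h1]
        exact hyW
    · left
      push Not at hpar
      obtain ⟨j, hpar⟩ := hpar
      rw [Set.eq_univ_iff_forall]
      intro f
      show f ∈ IA σ (fibN D R) x
      rw [mem_IA_iff]
      obtain ⟨a, ha⟩ := hpar (x (some (Sum.inr (j, a₀ j))) / σ (R j (a₀ j)))
      refine ⟨{y | y (some (Sum.inr (j, a))) * σ (R j (a₀ j)) ≠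
        y (some (Sum.inr (j, a₀ j))) * σ (R j a)}, ?_, ?_⟩
      · refine IsOpen.mem_nhds ?_ ?_
        · exact isOpen_ne_fun ((continuous_apply _).mul continuous_const)
            ((continuous_apply _).mul continuous_const)
        · intro h
          apply ha
          have h' : x (some (Sum.inr (j, a))) * σ (R j (a₀ j)) =
            x (some (Sum.inr (j, a₀ j))) * σ (R j a) := h
          have := hσa j
          field_simp
          linear_combination h'
      · rintro y ⟨c, hc, u, hu, rfl⟩ hyU
        exfalso
        apply hyU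
        simp only [ptN_inr, Pi.smul_apply, smul_eq_mul, map_mul]
        ring
  have hfin : ({Set.univ} ∪ Ψ '' (Set.range fun x : Option α → L => IA σ D x)).Finite :=
    (Set.finite_singleton _).union (Set.Finite.image _ hD)
  refine Set.Finite.of_finite_image (f := fun I :
    Ideal (MvPolynomial (Option (α ⊕ (Fin r × Fin 2))) K) =>
    (I : Set (MvPolynomial (Option (α ⊕ (Fin r × Fin 2))) K))) (hfin.subset ?_)
    (SetLike.coe_injective.injOn)
  rintro _ ⟨_, ⟨x, hx, rfl⟩, rfl⟩
  rcases key x hx with h | ⟨x', h⟩
  · left
    exact h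
  · right
    exact ⟨_, ⟨x', rfl⟩, h.symm⟩

end Pool.Agent.Y720.MZ
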