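import Pool.Agent.Y720.MZ.Van

/-!
# The good directions at a good point of `w² = F(x, z)` (helper720)
-/

set_option autoImplicit false

open Filter Topology Matrix

namespace Pool.Agent.Y720.MZ

section alg

variable {K : Type*} [Field K] {n : ℕ}

/-- the discriminant of the fibre at `x` -/
def dx (Q₀ Q₁ Q₂ Q₃ Q₄ : Matrix (Fin n) (Fin n) K) (x : Fin n → K) : K :=
  dc (bf Q₀ x x) (bf Q₁ x x) (bf Q₂ x x) (bf Q₃ x x) (bf Q₄ x x)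

lemma dx_smul (Q₀ Q₁ Q₂ Q₃ Q₄ : Matrix (Fin n) (Fin n) K) (c : K) (x : Fin n → K) :
    dx Q₀ Q₁ Q₂ Q₃ Q₄ (c • x) = c ^ 12 * dx Q₀ Q₁ Q₂ Q₃ Q₄ x := by
  simp only [dx, bf_smul_left, bf_smul_right, dc, dsc]
  ring

lemma PF_bf {φ ψ : (Fin n → K) → Fin n → K} (hφ : ∀ i, PF fun y => φ y i)
    (hψ : ∀ i, PF fun y => ψ y i) (M : Matrix (Fin n) (Fin n) K) :
    PF fun y => bf M (φ y) (ψ y) := by
  simp only [bf, dotProduct, mulVec]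
  exact PF.sum _ fun j _ => (hφ j).mul (PF.sum _ fun l _ => (PF.const _).mul (hψ l))

lemma PF1_bf {φ ψ : K → Fin n → K} (hφ : ∀ i, PF1 fun y => φ y i)
    (hψ : ∀ i, PF1 fun y => ψ y i) (M : Matrix (Fin n) (Fin n) K) :
    PF1 fun y => bf M (φ y) (ψ y) := by
  simp only [bf, dotProduct, mulVec]
  exact PF1.sum _ fun j _ => (hφ j).mul (PF1.sum _ fun l _ => (PF1.const _).mul (hψ l))

lemma PF_dc {q₀ q₁ q₂ q₃ q₄ : (Fin n → K) → K} (h0 : PF q₀) (h1 : PF q₁) (h2 : PF q₂) (h3 : PF q₃)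
    (h4 : PF q₄) : PF fun y => dc (q₀ y) (q₁ y) (q₂ y) (q₃ y) (q₄ y) := by
  unfold dc dsc
  have b : PF fun y => q₁ y * q₃ y - 4 * q₀ y * q₄ y :=
    (h1.mul h3).sub (((PF.const _).mul h0).mul h4)
  have c : PF fun y => q₁ y ^ 2 * q₄ y + q₀ y * q₃ y ^ 2 - 4 * q₀ y * q₂ y * q₄ y :=
    (((h1.pow 2).mul h4).add (h0.mul (h3.pow 2))).sub ((((PF.const _).mul h0).mul h2).mul h4)
  exact (((((h2.pow 2).mul (b.pow 2)).sub ((PF.const _).mul (b.pow 3))).sub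
    (((PF.const _).mul (h2.pow 3)).mul c)).sub ((PF.const _).mul (c.pow 2))).add
    ((((PF.const _).mul h2).mul b).mul c)

lemma PF1_dc {q₀ q₁ q₂ q₃ q₄ : K → K} (h0 : PF1 q₀) (h1 : PF1 q₁) (h2 : PF1 q₂) (h3 : PF1 q₃)
    (h4 : PF1 q₄) : PF1 fun y => dc (q₀ y) (q₁ y) (q₂ y) (q₃ y) (q₄ y) := by
  unfold dc dsc
  have b : PF1 fun y => q₁ y * q₃ y - 4 * q₀ y * q₄ y :=
    (h1.mul h3).sub (((PF1.const _).mul h0).mul h4)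
  have c : PF1 fun y => q₁ y ^ 2 * q₄ y + q₀ y * q₃ y ^ 2 - 4 * q₀ y * q₂ y * q₄ y :=
    (((h1.pow 2).mul h4).add (h0.mul (h3.pow 2))).sub ((((PF1.const _).mul h0).mul h2).mul h4)
  exact (((((h2.pow 2).mul (b.pow 2)).sub ((PF1.const _).mul (b.pow 3))).sub
    (((PF1.const _).mul (h2.pow 3)).mul c)).sub ((PF1.const _).mul (c.pow 2))).add
    ((((PF1.const _).mul h2).mul b).mul c)

lemma psi_smul (M : Matrix (Fin n) (Fin n) K) (w₀ : K) (x₀ y : Fin n → K) (c : K) :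
    psi M w₀ x₀ (c • y) = c • psi M w₀ x₀ y := by
  rw [psi, psi, bf_smul_right]
  module

lemma psi_dec (M : Matrix (Fin n) (Fin n) K) (w₀ : K) (x₀ y : Fin n → K) :
    y = (bf M x₀ y / w₀ ^ 2) • x₀ + psi M w₀ x₀ y := by
  rw [psi]; module

/-- a vector of the orthogonal complement which is not isotropic -/
lemma exists_aniso [CharZero K] (hn : 2 ≤ n) {Q₀ : Matrix (Fin n) (Fin n) K} (hQ : Q₀.IsSymm)
    (hdet : Q₀.det ≠ 0) {w₀ : K} (hw : w₀ ≠ 0) {x₀ : Fin n → K} (h0 : bf Q₀ x₀ x₀ = w₀ ^ 2) :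
    ∃ y, bf Q₀ (psi Q₀ w₀ x₀ y) (psi Q₀ w₀ x₀ y) ≠ 0 := by
  by_contra hcon
  push Not at hcon
  -- a nonzero vector of the complement
  obtain ⟨y, hy⟩ : ∃ y, psi Q₀ w₀ x₀ y ≠ 0 := by
    by_contra hall
    push Not at hall
    have h1 : ∀ y : Fin n → K, y = (bf Q₀ x₀ y / w₀ ^ 2) • x₀ := fun y => by
      conv_lhs => rw [psi_dec Q₀ w₀ x₀ y, hall, add_zero]
    let i : Fin n := ⟨0, by omega⟩
    let j : Fin n := ⟨1, by omega⟩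
    have hij : i ≠ j := by simp [i, j, Fin.ext_iff]
    have e1 := h1 (Pi.single i 1)
    have e2 := h1 (Pi.single j 1)
    have a1 := congrFun e1 i
    have a2 := congrFun e1 j
    have b2 := congrFun e2 j
    simp only [Pi.single_eq_same, Pi.smul_apply, smul_eq_mul, Pi.single_eq_of_ne hij.symm] at a1 a2 b2
    rcases mul_eq_zero.1 a2.symm with h | h
    · rw [h, zero_mul] at a1; exact one_ne_zero a1
    · rw [h, mul_zero] at b2; exact one_ne_zero b2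
  have hpol : ∀ y', bf Q₀ (psi Q₀ w₀ x₀ y) (psi Q₀ w₀ x₀ y') = 0 := by
    intro y'
    have h1 := hcon (y + y')
    have e : psi Q₀ w₀ x₀ (y + y') = psi Q₀ w₀ x₀ y + psi Q₀ w₀ x₀ y' := by
      rw [psi, psi, psi, bf_add_right, add_div]; module
    rw [e, bf_add_left, bf_add_right, bf_add_right, hcon, hcon,
      bf_comm hQ (psi Q₀ w₀ x₀ y') (psi Q₀ w₀ x₀ y)] at h1
    have : 2 * bf Q₀ (psi Q₀ w₀ x₀ y) (psi Q₀ w₀ x₀ y') = 0 := by linear_combination h1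
    exact (mul_eq_zero.1 this).resolve_left two_ne_zero
  have hall : ∀ x, bf Q₀ x (psi Q₀ w₀ x₀ y) = 0 := by
    intro x
    rw [psi_dec Q₀ w₀ x₀ x, bf_add_left, bf_smul_left, bf_psi hw h0, mul_zero, zero_add,
      bf_comm hQ, hpol]
  apply hy
  have hmv : Q₀ *ᵥ psi Q₀ w₀ x₀ y = 0 := by
    funext i
    have := hall (Pi.single i 1)
    rw [bf, single_one_dotProduct] at this
    exact this
  by_contra hne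
  exact hdet (exists_mulVec_eq_zero_iff.1 ⟨_, hne, hmv⟩)

end alg

variable {K : Type*} [Field K] [NumberField K] [DecidableEq K] {L : Type*}
  [NontriviallyNormedField L] [ProperSpace L] {n : ℕ}

/-- **Good directions.** -/
theorem good_dir (σ : K →+* L) (hσ : DenseRange σ)
    {Q₀ Q₁ Q₂ Q₃ Q₄ : Matrix (Fin n) (Fin n) K} (s0 : Q₀.IsSymm) (s1 : Q₁.IsSymm) (s2 : Q₂.IsSymm)
    (s3 : Q₃.IsSymm) (s4 : Q₄.IsSymm) {w₀ : K} (hw : w₀ ≠ 0)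
    {x₀ : Fin n → K} (h0 : bf Q₀ x₀ x₀ = w₀ ^ 2)
    (hani : ∃ y, bf Q₀ (psi Q₀ w₀ x₀ y) (psi Q₀ w₀ x₀ y) ≠ 0)
    (hg2 : ∃ x, w₀ ^ 2 * bf Q₁ x x ≠ bf Q₁ x₀ x₀ * bf Q₀ x x)
    (hh2 : ∃ x, dx Q₀ Q₁ Q₂ Q₃ Q₄ x ≠ 0) :
    ∃ p : (Fin n → K) → Prop, LO p ∧ (∃ y, p y) ∧
      ∀ y, p y → ∃ d : K, d ≠ 0 ∧ ∀ ε : ℝ, 0 < ε → {k : K | ‖σ k‖ < ε ∧
      dx Q₀ Q₁ Q₂ Q₃ Q₄ (xk w₀ d x₀ (psi Q₀ w₀ x₀ y) k) ≠ 0 ∧
      ∀ δ : ℝ, 0 < δ → ∃ t Y : K, t ≠ 0 ∧ ‖σ t‖ < δ ∧ ‖σ (Y - wk w₀ d k)‖ < δ ∧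
        Y ^ 2 = bf Q₀ (xk w₀ d x₀ (psi Q₀ w₀ x₀ y) k) (xk w₀ d x₀ (psi Q₀ w₀ x₀ y) k) +
          bf Q₁ (xk w₀ d x₀ (psi Q₀ w₀ x₀ y) k) (xk w₀ d x₀ (psi Q₀ w₀ x₀ y) k) * t +
          bf Q₂ (xk w₀ d x₀ (psi Q₀ w₀ x₀ y) k) (xk w₀ d x₀ (psi Q₀ w₀ x₀ y) k) * t ^ 2 +
          bf Q₃ (xk w₀ d x₀ (psi Q₀ w₀ x₀ y) k) (xk w₀ d x₀ (psi Q₀ w₀ x₀ y) k) * t ^ 3 +
          bf Q₄ (xk w₀ d x₀ (psi Q₀ w₀ x₀ y) k) (xk w₀ d x₀ (psi Q₀ w₀ x₀ y) k) * t ^ 4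
          }.Infinite := by
  set ψ := psi Q₀ w₀ x₀ with hψ
  have pψ : ∀ i, PF fun y => ψ y i := PF_coord_psi Q₀ w₀ x₀
  have px : ∀ i, PF fun _ : Fin n → K => x₀ i := fun i => PF.const _
  set p : (Fin n → K) → Prop := fun y => (-bf Q₀ (ψ y) (ψ y) ≠ 0 ∧ (bf Q₁ x₀ (ψ y) ≠ 0 ∨
    -bf Q₀ (ψ y) (ψ y) * bf Q₁ x₀ x₀ + bf Q₁ (ψ y) (ψ y) * w₀ ^ 2 ≠ 0)) ∧
    dx Q₀ Q₁ Q₂ Q₃ Q₄ (x₀ + ψ y) ≠ 0 with hp
  have l1 : LO fun y => -bf Q₀ (ψ y) (ψ y) ≠ 0 := (PF_bf pψ pψ Q₀).neg.lo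
  have l2 : LO fun y => bf Q₁ x₀ (ψ y) ≠ 0 := (PF_bf px pψ Q₁).lo
  have l3 : LO fun y => -bf Q₀ (ψ y) (ψ y) * bf Q₁ x₀ x₀ + bf Q₁ (ψ y) (ψ y) * w₀ ^ 2 ≠ 0 :=
    (((PF_bf pψ pψ Q₀).neg.mul (PF.const _)).add ((PF_bf pψ pψ Q₁).mul (PF.const _))).lo
  have pxψ : ∀ i, PF fun y => (x₀ + ψ y) i := fun i => (px i).add (pψ i)
  have l4 : LO fun y => dx Q₀ Q₁ Q₂ Q₃ Q₄ (x₀ + ψ y) ≠ 0 :=
    (PF_dc (PF_bf pxψ pxψ Q₀) (PF_bf pxψ pxψ Q₁) (PF_bf pxψ pxψ Q₂) (PF_bf pxψ pxψ Q₃)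
      (PF_bf pxψ pxψ Q₄)).lo
  have e1 : ∃ y, -bf Q₀ (ψ y) (ψ y) ≠ 0 := by
    obtain ⟨y, hy⟩ := hani
    exact ⟨y, neg_ne_zero.2 hy⟩
  have e23 : ∃ y, bf Q₁ x₀ (ψ y) ≠ 0 ∨
      -bf Q₀ (ψ y) (ψ y) * bf Q₁ x₀ x₀ + bf Q₁ (ψ y) (ψ y) * w₀ ^ 2 ≠ 0 := by
    by_contra hcon
    push Not at hcon
    obtain ⟨x, hx⟩ := hg2
    apply hx
    have d1 := psi_dec Q₀ w₀ x₀ x
    set s := bf Q₀ x₀ x / w₀ ^ 2
    have a1 : bf Q₁ x x = s ^ 2 * bf Q₁ x₀ x₀ + bf Q₁ (ψ x) (ψ x) := by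
      have e : bf Q₁ x x = bf Q₁ (s • x₀ + ψ x) (s • x₀ + ψ x) := by rw [hψ, ← d1]
      rw [e]
      simp only [bf_add_left, bf_add_right, bf_smul_left, bf_smul_right]
      rw [bf_comm s1 (ψ x) x₀, (hcon x).1]
      ring
    have a0 : bf Q₀ x x = s ^ 2 * w₀ ^ 2 + bf Q₀ (ψ x) (ψ x) := by
      have e : bf Q₀ x x = bf Q₀ (s • x₀ + ψ x) (s • x₀ + ψ x) := by rw [hψ, ← d1]
      rw [e]
      simp only [bf_add_left, bf_add_right, bf_smul_left, bf_smul_right]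
      rw [bf_comm s0 (ψ x) x₀, hψ, bf_psi hw h0, h0]
      ring
    rw [a1, a0]
    linear_combination (hcon x).2
  have e4 : ∃ y, dx Q₀ Q₁ Q₂ Q₃ Q₄ (x₀ + ψ y) ≠ 0 := by
    have pid : ∀ i, PF fun y : Fin n → K => y i := fun i => PF.coord i
    have m1 : LO fun x => dx Q₀ Q₁ Q₂ Q₃ Q₄ x ≠ 0 :=
      (PF_dc (PF_bf pid pid Q₀) (PF_bf pid pid Q₁) (PF_bf pid pid Q₂) (PF_bf pid pid Q₃)
        (PF_bf pid pid Q₄)).lo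
    have m2 : LO fun x => bf Q₀ x₀ x ≠ 0 := (PF_bf px pid Q₀).lo
    obtain ⟨x, hx1, hx2⟩ := m1.inter m2 hh2 ⟨x₀, by rw [h0]; exact pow_ne_zero 2 hw⟩
    set s := bf Q₀ x₀ x / w₀ ^ 2 with hs
    have hs0 : s ≠ 0 := div_ne_zero hx2 (pow_ne_zero 2 hw)
    refine ⟨s⁻¹ • x, fun h => hx1 ?_⟩
    have e : x = s • (x₀ + ψ (s⁻¹ • x)) := by
      rw [hψ, psi_smul, smul_add, smul_smul, mul_inv_cancel₀ hs0, one_smul, hs]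
      exact psi_dec Q₀ w₀ x₀ x
    rw [e, dx_smul, h, mul_zero]
  refine ⟨p, (l1.and (l2.or l3)).and l4, ?_, ?_⟩
  · obtain ⟨y, hy⟩ := l1.inter (l2.or l3) e1 e23
    exact (l1.and (l2.or l3)).inter l4 ⟨y, hy⟩ e4
  · rintro y ⟨⟨hd, hgood⟩, hdx⟩
    set d := -bf Q₀ (ψ y) (ψ y) with hdd
    refine ⟨d, hd, fun ε hε => ?_⟩
    have hxk : ∀ (M : Matrix (Fin n) (Fin n) K), M.IsSymm → ∀ k,
        bf M (xk w₀ d x₀ (ψ y) k) (xk w₀ d x₀ (ψ y) k) =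
          qk w₀ d (bf M x₀ x₀) (bf M x₀ (ψ y)) (bf M (ψ y) (ψ y)) k :=
      fun M hM k => bf_xk hM w₀ d x₀ (ψ y) k
    have hq0 : ∀ k, bf Q₀ (xk w₀ d x₀ (ψ y) k) (xk w₀ d x₀ (ψ y) k) = wk w₀ d k ^ 2 := by
      intro k
      rw [hxk Q₀ s0, h0, bf_psi hw h0, qk, wk]
      have : bf Q₀ (ψ y) (ψ y) = -d := by rw [hdd, neg_neg]
      rw [this]
      ring
    -- a fibre with nonzero discriminant
    have hdisc : ∃ k : K, dx Q₀ Q₁ Q₂ Q₃ Q₄ (xk w₀ d x₀ (ψ y) k) ≠ 0 := by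
      have pm : ∀ i, PF1 fun m : K => (x₀ + m • ψ y) i := fun i =>
        (PF1.const _).add (PF1.id'.mul (PF1.const _))
      have hN : PF1 fun m : K => dx Q₀ Q₁ Q₂ Q₃ Q₄ (x₀ + m • ψ y) :=
        PF1_dc (PF1_bf pm pm Q₀) (PF1_bf pm pm Q₁) (PF1_bf pm pm Q₂) (PF1_bf pm pm Q₃)
          (PF1_bf pm pm Q₄)
      have hfin := hN.finite (τ := 1) (by rw [one_smul]; exact hdx)
      have hroots : ∀ m : K, {k : K | m * (1 + d * k ^ 2) - 2 * w₀ * k = 0}.Finite := by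
        intro m
        have hp : PF1 fun k : K => m * (1 + d * k ^ 2) - 2 * w₀ * k :=
          ((PF1.const _).mul ((PF1.const _).add ((PF1.const _).mul (PF1.id'.pow 2)))).sub
            ((PF1.const _).mul PF1.id')
        by_contra hinf
        have e1 := hp.zero hinf 1
        have e2 := hp.zero hinf (-1)
        have : 4 * w₀ = 0 := by linear_combination e2 - e1
        have h4 : (4 : K) ≠ 0 := by norm_num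
        exact mul_ne_zero h4 hw this
      have h1d : {k : K | 1 + d * k ^ 2 = 0}.Finite := by
        have hp : PF1 fun k : K => 1 + d * k ^ 2 :=
          (PF1.const _).add ((PF1.const _).mul (PF1.id'.pow 2))
        exact hp.finite (τ := 0) (by simp)
      obtain ⟨k, hk⟩ := ((hfin.biUnion fun m _ => hroots m).union h1d).infinite_compl.nonempty
      rw [Set.mem_compl_iff, Set.mem_union, not_or] at hk
      obtain ⟨hk1, hk2⟩ := hk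
      have hk0 : 1 + d * k ^ 2 ≠ 0 := hk2
      refine ⟨k, fun h => hk1 ?_⟩
      rw [Set.mem_iUnion₂]
      refine ⟨2 * w₀ * k / (1 + d * k ^ 2), ?_, ?_⟩
      · have e5 : xk w₀ d x₀ (ψ y) k = (1 + d * k ^ 2) •
            (x₀ + (2 * w₀ * k / (1 + d * k ^ 2)) • ψ y) := by
          have e6 : (1 + d * k ^ 2) * (2 * w₀ * k / (1 + d * k ^ 2)) = 2 * w₀ * k := by
            field_simp
          rw [xk, smul_add, smul_smul, e6]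
        rw [e5, dx_smul] at h
        exact (mul_eq_zero.1 h).resolve_left (pow_ne_zero 12 hk0)
      · rw [Set.mem_ofPred_eq, div_mul_cancel₀ _ hk0, sub_self]
    have hdxq : ∀ k, dq (wk w₀ d k) (qk w₀ d (bf Q₁ x₀ x₀) (bf Q₁ x₀ (ψ y)) (bf Q₁ (ψ y) (ψ y)) k)
        (qk w₀ d (bf Q₂ x₀ x₀) (bf Q₂ x₀ (ψ y)) (bf Q₂ (ψ y) (ψ y)) k)
        (qk w₀ d (bf Q₃ x₀ x₀) (bf Q₃ x₀ (ψ y)) (bf Q₃ (ψ y) (ψ y)) k)
        (qk w₀ d (bf Q₄ x₀ x₀) (bf Q₄ x₀ (ψ y)) (bf Q₄ (ψ y) (ψ y)) k) =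
        dx Q₀ Q₁ Q₂ Q₃ Q₄ (xk w₀ d x₀ (ψ y) k) := by
      intro k
      rw [dq_eq, dx, hq0, hxk Q₁ s1, hxk Q₂ s2, hxk Q₃ s3, hxk Q₄ s4]
    have main := plane_key σ hσ (A₁ := bf Q₁ x₀ x₀) (A₂ := bf Q₂ x₀ x₀) (A₃ := bf Q₃ x₀ x₀)
      (A₄ := bf Q₄ x₀ x₀) (B₁ := bf Q₁ x₀ (ψ y)) (B₂ := bf Q₂ x₀ (ψ y)) (B₃ := bf Q₃ x₀ (ψ y))
      (B₄ := bf Q₄ x₀ (ψ y)) (C₁ := bf Q₁ (ψ y) (ψ y)) (C₂ := bf Q₂ (ψ y) (ψ y))
      (C₃ := bf Q₃ (ψ y) (ψ y)) (C₄ := bf Q₄ (ψ y) (ψ y)) hw hd hgood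
      (by obtain ⟨k, hk⟩ := hdisc; exact ⟨k, by rw [hdxq]; exact hk⟩) hε
    refine main.mono ?_
    rintro k ⟨k1, k2, -, k4⟩
    refine ⟨k1, by rw [← hdxq]; exact k2, fun δ hδ => ?_⟩
    obtain ⟨t, Y, t1, t2, t3, t4⟩ := k4 δ hδ
    refine ⟨t, Y, t1, t2, t3, ?_⟩
    rw [t4, hq0, hxk Q₁ s1, hxk Q₂ s2, hxk Q₃ s3, hxk Q₄ s4]

end Pool.Agent.Y720.MZ
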