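import Pool.Agent.Y720.MZ.Sep

/-!
# The local theorem for `w² = F(x, z)`, `F` of degree two in `x` and four in `z` (helper720)
-/

set_option autoImplicit false

open Filter Topology Matrix

namespace Pool.Agent.Y720.MZ

section alg

variable {K : Type*} [Field K] {n : ℕ}

/-- a form of bidegree `(2,4)` -/
def FQ (Q : Fin 5 → Matrix (Fin n) (Fin n) K) (x : Fin n → K) (z : Fin 2 → K) : K :=
  ∑ i : Fin 5, z 0 ^ (4 - (i : ℕ)) * z 1 ^ (i : ℕ) * bf (Q i) x x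

lemma bf_add_mat (M N : Matrix (Fin n) (Fin n) K) (x y : Fin n → K) :
    bf (M + N) x y = bf M x y + bf N x y := by
  simp [bf, add_mulVec, dotProduct_add]

lemma bf_smul_mat (c : K) (M : Matrix (Fin n) (Fin n) K) (x y : Fin n → K) :
    bf (c • M) x y = c * bf M x y := by
  simp [bf, smul_mulVec, dotProduct_smul]

/-- the Taylor coefficients of the family of quadratic forms -/
def T0 (Q : Fin 5 → Matrix (Fin n) (Fin n) K) (t : K) : Matrix (Fin n) (Fin n) K :=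
  Q 0 + t • Q 1 + t ^ 2 • Q 2 + t ^ 3 • Q 3 + t ^ 4 • Q 4

/-- the Taylor coefficients of the family of quadratic forms -/
def T1 (Q : Fin 5 → Matrix (Fin n) (Fin n) K) (t : K) : Matrix (Fin n) (Fin n) K :=
  Q 1 + (2 * t) • Q 2 + (3 * t ^ 2) • Q 3 + (4 * t ^ 3) • Q 4

/-- the Taylor coefficients of the family of quadratic forms -/
def T2 (Q : Fin 5 → Matrix (Fin n) (Fin n) K) (t : K) : Matrix (Fin n) (Fin n) K :=
  Q 2 + (3 * t) • Q 3 + (6 * t ^ 2) • Q 4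

/-- the Taylor coefficients of the family of quadratic forms -/
def T3 (Q : Fin 5 → Matrix (Fin n) (Fin n) K) (t : K) : Matrix (Fin n) (Fin n) K :=
  Q 3 + (4 * t) • Q 4

lemma T0_symm {Q : Fin 5 → Matrix (Fin n) (Fin n) K} (hQ : ∀ i, (Q i).IsSymm) (t : K) :
    (T0 Q t).IsSymm :=
  ((((hQ 0).add ((hQ 1).smul _)).add ((hQ 2).smul _)).add ((hQ 3).smul _)).add ((hQ 4).smul _)

lemma T1_symm {Q : Fin 5 → Matrix (Fin n) (Fin n) K} (hQ : ∀ i, (Q i).IsSymm) (t : K) :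
    (T1 Q t).IsSymm :=
  (((hQ 1).add ((hQ 2).smul _)).add ((hQ 3).smul _)).add ((hQ 4).smul _)

lemma T2_symm {Q : Fin 5 → Matrix (Fin n) (Fin n) K} (hQ : ∀ i, (Q i).IsSymm) (t : K) :
    (T2 Q t).IsSymm :=
  ((hQ 2).add ((hQ 3).smul _)).add ((hQ 4).smul _)

lemma T3_symm {Q : Fin 5 → Matrix (Fin n) (Fin n) K} (hQ : ∀ i, (Q i).IsSymm) (t : K) :
    (T3 Q t).IsSymm :=
  (hQ 3).add ((hQ 4).smul _)

lemma FQ_eq (Q : Fin 5 → Matrix (Fin n) (Fin n) K) (x : Fin n → K) (z : Fin 2 → K) :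
    FQ Q x z = z 0 ^ 4 * bf (Q 0) x x + z 0 ^ 3 * z 1 * bf (Q 1) x x +
      z 0 ^ 2 * z 1 ^ 2 * bf (Q 2) x x + z 0 * z 1 ^ 3 * bf (Q 3) x x +
      z 1 ^ 4 * bf (Q 4) x x := by
  rw [FQ, Fin.sum_univ_five]
  simp

lemma FQ_smul_left (Q : Fin 5 → Matrix (Fin n) (Fin n) K) (a : K) (x : Fin n → K)
    (z : Fin 2 → K) : FQ Q (a • x) z = a ^ 2 * FQ Q x z := by
  simp only [FQ_eq, bf_smul_left, bf_smul_right]
  ring

lemma FQ_smul_right (Q : Fin 5 → Matrix (Fin n) (Fin n) K) (a : K) (x : Fin n → K)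
    (z : Fin 2 → K) : FQ Q x (a • z) = a ^ 4 * FQ Q x z := by
  simp only [FQ_eq, Pi.smul_apply, smul_eq_mul]
  ring

lemma FQ_taylor (Q : Fin 5 → Matrix (Fin n) (Fin n) K) (x : Fin n → K) (b t₀ t : K) :
    FQ Q x (![b, b * t₀] + t • ![0, b]) = bf (b ^ 4 • T0 Q t₀) x x + bf (b ^ 4 • T1 Q t₀) x x * t +
      bf (b ^ 4 • T2 Q t₀) x x * t ^ 2 + bf (b ^ 4 • T3 Q t₀) x x * t ^ 3 +
      bf (b ^ 4 • Q 4) x x * t ^ 4 := by
  simp only [FQ_eq, T0, T1, T2, T3, bf_smul_mat, bf_add_mat, Pi.add_apply, Pi.smul_apply,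
    smul_eq_mul, Matrix.cons_val_zero, Matrix.cons_val_one, mul_zero, add_zero]
  ring

lemma dx_taylor (Q : Fin 5 → Matrix (Fin n) (Fin n) K) (x : Fin n → K) (b t₀ : K) :
    dx (b ^ 4 • T0 Q t₀) (b ^ 4 • T1 Q t₀) (b ^ 4 • T2 Q t₀) (b ^ 4 • T3 Q t₀) (b ^ 4 • Q 4) x =
      b ^ 24 * dx (Q 0) (Q 1) (Q 2) (Q 3) (Q 4) x := by
  rw [dx, dx]
  simp only [bf_smul_mat]
  rw [dc_smul, ← dc_shift t₀ (bf (Q 0) x x)]
  simp only [T0, T1, T2, T3, bf_smul_mat, bf_add_mat]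
  ring

end alg

variable {K : Type*} [Field K] [NumberField K] {L : Type*}
  [NontriviallyNormedField L] [ProperSpace L] {n : ℕ}

/-- **The local theorem.** -/
theorem block_local (σ : K →+* L) (hσ : DenseRange σ) {Q : Fin 5 → Matrix (Fin n) (Fin n) K}
    (hQ : ∀ i, (Q i).IsSymm) {w₀ : K} (hw : w₀ ≠ 0) {x₀ : Fin n → K} {b t₀ : K} (hb : b ≠ 0)
    (h0 : w₀ ^ 2 = FQ Q x₀ ![b, b * t₀])
    (hani : ∃ v, bf (T0 Q t₀) x₀ v = 0 ∧ bf (T0 Q t₀) v v ≠ 0)
    (hnd : ∃ x, bf (T0 Q t₀) x₀ x₀ * bf (T1 Q t₀) x x ≠ bf (T1 Q t₀) x₀ x₀ * bf (T0 Q t₀) x x)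
    (hdx : ∃ x, dx (Q 0) (Q 1) (Q 2) (Q 3) (Q 4) x ≠ 0)
    (g h : MvPolynomial (Fin n ⊕ Fin 2) K) {U : Set (L × (Fin n → L) × (Fin 2 → L))}
    (hU : U ∈ 𝓝 (σ w₀, (fun i => σ (x₀ i)), fun j => σ (![b, b * t₀] j)))
    (hvan : ∀ w x z, w ^ 2 = FQ Q x z → (σ w, (fun i => σ (x i)), fun j => σ (z j)) ∈ U →
      MvPolynomial.eval (Sum.elim x z) g + w * MvPolynomial.eval (Sum.elim x z) h = 0)
    (x : Fin n → K) (z : Fin 2 → K) : MvPolynomial.eval (Sum.elim x z) g = 0 ∧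
      MvPolynomial.eval (Sum.elim x z) h = 0 := by
  classical
  obtain ⟨U', hU'U, hU'o, hU'x⟩ := mem_nhds_iff.1 hU
  -- the multiples of the point
  have hcont : Continuous fun c : L => ((c ^ 2 * σ w₀, (fun i => σ (x₀ i)),
      fun j => c * σ (![b, b * t₀] j)) : L × (Fin n → L) × (Fin 2 → L)) := by
    refine Continuous.prodMk (by fun_prop) (Continuous.prodMk (by fun_prop) ?_)
    exact continuous_pi fun j => by fun_prop
  have hO : IsOpen {c : L | ((c ^ 2 * σ w₀, (fun i => σ (x₀ i)),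
      fun j => c * σ (![b, b * t₀] j)) : L × (Fin n → L) × (Fin 2 → L)) ∈ U'} :=
    hU'o.preimage hcont
  have h1O : (1 : L) ∈ {c : L | ((c ^ 2 * σ w₀, (fun i => σ (x₀ i)),
      fun j => c * σ (![b, b * t₀] j)) : L × (Fin n → L) × (Fin 2 → L)) ∈ U'} := by
    simp only [Set.mem_ofPred_eq, one_pow, one_mul]
    exact hU'x
  have hinf := (infinite_near σ hσ hO ⟨1, h1O⟩).sdiff (Set.finite_singleton (0 : K))
  -- the values
  have hT0 : w₀ ^ 2 = b ^ 4 * bf (T0 Q t₀) x₀ x₀ := by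
    have h1 := FQ_taylor Q x₀ b t₀ 0
    rw [zero_smul, add_zero, ← h0, bf_smul_mat] at h1
    linear_combination h1
  have key : ∀ c : K, c ≠ 0 → σ c ∈ {c : L | ((c ^ 2 * σ w₀, (fun i => σ (x₀ i)),
      fun j => c * σ (![b, b * t₀] j)) : L × (Fin n → L) × (Fin 2 → L)) ∈ U'} →
      ∀ (x : Fin n → K) (t : K),
        MvPolynomial.eval (Sum.elim x (![c * b, c * b * t₀] + t • ![0, c * b])) g = 0 ∧
        MvPolynomial.eval (Sum.elim x (![c * b, c * b * t₀] + t • ![0, c * b])) h = 0 := by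
    intro c hc hcU
    have hcb : c * b ≠ 0 := mul_ne_zero hc hb
    have hw' : c ^ 2 * w₀ ≠ 0 := mul_ne_zero (pow_ne_zero 2 hc) hw
    have h0' : bf ((c * b) ^ 4 • T0 Q t₀) x₀ x₀ = (c ^ 2 * w₀) ^ 2 := by
      rw [bf_smul_mat]
      linear_combination (-c ^ 4) * hT0
    obtain ⟨p, hp1, hp2, hp3⟩ := good_dir σ hσ
      (Q₀ := (c * b) ^ 4 • T0 Q t₀) (Q₁ := (c * b) ^ 4 • T1 Q t₀) (Q₂ := (c * b) ^ 4 • T2 Q t₀)
      (Q₃ := (c * b) ^ 4 • T3 Q t₀) (Q₄ := (c * b) ^ 4 • Q 4) ((T0_symm hQ t₀).smul _)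
      ((T1_symm hQ t₀).smul _) ((T2_symm hQ t₀).smul _) ((T3_symm hQ t₀).smul _)
      ((hQ 4).smul _) hw' h0' (by
        obtain ⟨v, hv1, hv2⟩ := hani
        refine ⟨v, ?_⟩
        have e : psi ((c * b) ^ 4 • T0 Q t₀) (c ^ 2 * w₀) x₀ v = v := by
          rw [psi, bf_smul_mat, hv1, mul_zero, zero_div, zero_smul, sub_zero]
        rw [e, bf_smul_mat]
        exact mul_ne_zero (pow_ne_zero 4 hcb) hv2) (by
        obtain ⟨x, hx⟩ := hnd
        refine ⟨x, fun h => hx ?_⟩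
        rw [bf_smul_mat, bf_smul_mat, bf_smul_mat] at h
        have h8 : (c * b) ^ 8 ≠ 0 := pow_ne_zero 8 hcb
        apply mul_left_cancel₀ h8
        linear_combination h - c ^ 8 * b ^ 4 * bf (T1 Q t₀) x x * hT0) (by
        obtain ⟨x, hx⟩ := hdx
        refine ⟨x, ?_⟩
        rw [dx_taylor]
        exact mul_ne_zero (pow_ne_zero 24 hcb) hx)
    refine van_good σ hσ (F := FQ Q) hw' (x₀ := x₀) (z₀ := ![c * b, c * b * t₀])
      (e := ![0, c * b]) (fun x t => FQ_taylor Q x (c * b) t₀ t) (fun a x z => FQ_smul_left Q a x z)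
      h0' hp1 hp2 ?_ g h (U := U') ?_ (fun w x z hw hm => hvan w x z hw (hU'U hm))
    · intro y hy
      obtain ⟨d, hd, hd'⟩ := hp3 y hy
      refine ⟨d, hd, fun ε hε => (hd' ε hε).mono ?_⟩
      rintro k ⟨k1, k2, k3⟩
      refine ⟨k1, k2, fun δ hδ => ?_⟩
      obtain ⟨t, Y, t1, t2, t3, t4⟩ := k3 δ hδ
      exact ⟨t, Y, t1, t2, t3, by rw [t4, FQ_taylor]⟩
    · refine hU'o.mem_nhds ?_
      have : ((σ (c ^ 2 * w₀), (fun i => σ (x₀ i)), fun j => σ (![c * b, c * b * t₀] j)) :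
          L × (Fin n → L) × (Fin 2 → L)) = ((σ c) ^ 2 * σ w₀, (fun i => σ (x₀ i)),
          fun j => σ c * σ (![b, b * t₀] j)) := by
        refine Prod.ext ?_ (Prod.ext rfl ?_)
        · simp only [map_mul, map_pow]
        · funext j
          fin_cases j
          · simp
          · simp [mul_assoc]
      rw [this]
      exact hcU
  have pf1 : ∀ (g : MvPolynomial (Fin n ⊕ Fin 2) K) (X : K → Fin n → K) (Z : K → Fin 2 → K),
      (∀ i, PF1 fun τ => X τ i) → (∀ j, PF1 fun τ => Z τ j) →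
      PF1 fun τ => MvPolynomial.eval (Sum.elim (X τ) (Z τ)) g := by
    intro g X Z hX hZ
    have h1 := PF1.eval (φ := fun (s : Fin n ⊕ Fin 2) τ => Sum.elim (X τ) (Z τ) s) (fun s => by
      rcases s with i | j
      · exact hX i
      · exact hZ j) g
    exact h1
  have key2 : ∀ g : MvPolynomial (Fin n ⊕ Fin 2) K, (∀ c : K, c ≠ 0 →
      σ c ∈ {c : L | ((c ^ 2 * σ w₀, (fun i => σ (x₀ i)),
      fun j => c * σ (![b, b * t₀] j)) : L × (Fin n → L) × (Fin 2 → L)) ∈ U'} →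
      ∀ (x : Fin n → K) (t : K),
        MvPolynomial.eval (Sum.elim x (![c * b, c * b * t₀] + t • ![0, c * b])) g = 0) →
      MvPolynomial.eval (Sum.elim x z) g = 0 := by
    intro g hg
    -- all multiples
    have s1 : ∀ (x : Fin n → K) (s c : K), MvPolynomial.eval (Sum.elim x ![c, c * s]) g = 0 := by
      intro x s c
      have hN := pf1 g (fun _ => x) (fun c => ![c * b, c * b * s]) (fun i => PF1.const _)
        (fun j => by
          fin_cases j
          · exact PF1.id'.mul (PF1.const _)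
          · exact (PF1.id'.mul (PF1.const _)).mul (PF1.const _))
      have h1 := hN.zero (hinf.mono fun c hc => by
        have h2 := hg c (fun h => hc.2 h) hc.1 x (s - t₀)
        have e : (![c * b, c * b * t₀] + (s - t₀) • ![0, c * b] : Fin 2 → K) =
            ![c * b, c * b * s] := by
          funext j
          fin_cases j
          · simp
          · simp; ring
        rw [e] at h2
        exact h2) (c / b)
      rw [div_mul_cancel₀ _ hb] at h1
      exact h1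
    -- all points
    have hN := pf1 g (fun _ => x) (fun c => ![c, z 1]) (fun i => PF1.const _)
      (fun j => by
        fin_cases j
        · exact PF1.id'
        · exact PF1.const _)
    have h1 := hN.zero ((Set.finite_singleton (0 : K)).infinite_compl.mono fun c hc => by
      have hc0 : c ≠ 0 := hc
      have h2 := s1 x (z 1 / c) c
      rw [mul_div_cancel₀ _ hc0] at h2
      exact h2) (z 0)
    have e : z = ![z 0, z 1] := by
      funext j
      fin_cases j <;> rfl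
    rw [e]
    exact h1
  exact ⟨key2 g fun c hc hcU x t => (key c hc hcU x t).1,
    key2 h fun c hc hcU x t => (key c hc hcU x t).2⟩

end Pool.Agent.Y720.MZ
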