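import Pool.Agent.Y720.MZ.Nor
import Pool.Agent.Y720.MZ.Sep

/-!
# Rational points close to a given one on all the twists of a quartic curve (helper720)
-/

set_option autoImplicit false
set_option linter.unusedSectionVars false
set_option linter.unusedVariables false

open WeierstrassCurve Polynomial

namespace Pool.Agent.Y720.MZ

section alg

variable {K : Type*} [Field K]

lemma shift_b (q₀ q₁ q₂ q₃ q₄ t : K) :
    (q₁ + 2 * q₂ * t + 3 * q₃ * t ^ 2 + 4 * q₄ * t ^ 3) * (q₃ + 4 * q₄ * t) -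
      4 * (q₀ + q₁ * t + q₂ * t ^ 2 + q₃ * t ^ 3 + q₄ * t ^ 4) * q₄ =
    (q₁ * q₃ - 4 * q₀ * q₄) + 2 * q₂ * (q₃ * t + 2 * q₄ * t ^ 2) +
      3 * (q₃ * t + 2 * q₄ * t ^ 2) ^ 2 := by
  ring

lemma shift_c (q₀ q₁ q₂ q₃ q₄ t : K) :
    (q₁ + 2 * q₂ * t + 3 * q₃ * t ^ 2 + 4 * q₄ * t ^ 3) ^ 2 * q₄ +
      (q₀ + q₁ * t + q₂ * t ^ 2 + q₃ * t ^ 3 + q₄ * t ^ 4) * (q₃ + 4 * q₄ * t) ^ 2 -
      4 * (q₀ + q₁ * t + q₂ * t ^ 2 + q₃ * t ^ 3 + q₄ * t ^ 4) *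
        (q₂ + 3 * q₃ * t + 6 * q₄ * t ^ 2) * q₄ =
    (q₁ ^ 2 * q₄ + q₀ * q₃ ^ 2 - 4 * q₀ * q₂ * q₄) +
      (q₁ * q₃ - 4 * q₀ * q₄) * (q₃ * t + 2 * q₄ * t ^ 2) +
      q₂ * (q₃ * t + 2 * q₄ * t ^ 2) ^ 2 + (q₃ * t + 2 * q₄ * t ^ 2) ^ 3 := by
  ring

lemma eval_qpol (q₀ q₁ q₂ q₃ q₄ t : K) : (qpol q₀ q₁ q₂ q₃ q₄).eval t =
    q₀ + q₁ * t + q₂ * t ^ 2 + q₃ * t ^ 3 + q₄ * t ^ 4 := by
  simp [qpol]

end alg

variable {K : Type*} [Field K] [NumberField K]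

/-- **Rational points close to a given one on all the twists of a quartic curve.** -/
theorem quartic_near {q₀ q₁ q₂ q₃ q₄ : K} (hs : (qpol q₀ q₁ q₂ q₃ q₄).Separable)
    (hd : 3 ≤ (qpol q₀ q₁ q₂ q₃ q₄).natDegree) : ∃ T : Set K, T.Finite ∧ ∀ t₀ ∉ T,
      (qpol q₀ q₁ q₂ q₃ q₄).eval t₀ ≠ 0 ∧
      ∀ {L : Type*} [NontriviallyNormedField L] [ProperSpace L] (σ : K →+* L) (C w : K),
        w ≠ 0 → w ^ 2 = C * (qpol q₀ q₁ q₂ q₃ q₄).eval t₀ → ∀ ε : ℝ, 0 < ε →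
        ∃ t Y : K, t ≠ 0 ∧ ‖σ t‖ < ε ∧ ‖σ (Y - w)‖ < ε ∧
          Y ^ 2 = C * (qpol q₀ q₁ q₂ q₃ q₄).eval (t₀ + t) := by
  classical
  have hdc := dc_ne_zero hs hd
  obtain ⟨Ξ, hΞ, htors⟩ := torsion_finite (K := K) (a := q₂) (b := q₁ * q₃ - 4 * q₀ * q₄)
    (c := q₁ ^ 2 * q₄ + q₀ * q₃ ^ 2 - 4 * q₀ * q₂ * q₄) hdc
  set P := qpol q₀ q₁ q₂ q₃ q₄ with hP
  have hPe : ∀ t, P.eval t = q₀ + q₁ * t + q₂ * t ^ 2 + q₃ * t ^ 3 + q₄ * t ^ 4 :=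
    eval_qpol q₀ q₁ q₂ q₃ q₄
  have hP0 : P ≠ 0 := by
    intro h
    rw [h, natDegree_zero] at hd
    omega
  have hP1 : ∀ t, (derivative P).eval t = q₁ + 2 * q₂ * t + 3 * q₃ * t ^ 2 + 4 * q₄ * t ^ 3 := by
    intro t
    simp only [hP, qpol, derivative_add, derivative_C_mul, derivative_C, derivative_X,
      derivative_X_pow, eval_add, eval_mul, eval_C, eval_pow, eval_X, eval_one, eval_zero]
    push_cast
    ring
  -- the exceptional set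
  set M : K → K[X] := fun ξ => C (q₂ + ξ) + C (2 * q₃) * X + C (4 * q₄) * X ^ 2 with hM
  have hMe : ∀ ξ t, (M ξ).eval t = (q₂ + 3 * q₃ * t + 6 * q₄ * t ^ 2) -
      (q₃ * t + 2 * q₄ * t ^ 2) + ξ := by
    intro ξ t
    simp only [hM, eval_add, eval_mul, eval_C, eval_X, eval_pow]
    ring
  have hfin : ∀ ξ : K, {t : K | (derivative P).eval t ^ 2 = 4 * P.eval t * (M ξ).eval t}.Finite := by
    intro ξ
    by_contra hinf
    have e : derivative P ^ 2 = C 4 * P * M ξ := by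
      apply eq_of_infinite_eval_eq
      refine Set.Infinite.mono ?_ hinf
      intro t ht
      change (derivative P ^ 2).eval t = (C 4 * P * M ξ).eval t
      rw [eval_pow, eval_mul, eval_mul, eval_C]
      exact ht
    have h1 : P ∣ derivative P ^ 2 := ⟨C 4 * M ξ, by rw [e]; ring⟩
    have h2 : IsCoprime P (derivative P) := hs
    have h3 : IsCoprime P (derivative P ^ 2) := h2.pow_right
    have h4 : IsUnit P := h3.isUnit_of_dvd' dvd_rfl h1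
    have h5 := natDegree_eq_zero_of_isUnit h4
    omega
  refine ⟨{t | P.eval t = 0} ∪ ⋃ ξ ∈ Ξ, {t : K | (derivative P).eval t ^ 2 =
    4 * P.eval t * (M ξ).eval t}, ?_, ?_⟩
  · refine Set.Finite.union ?_ (hΞ.biUnion fun ξ _ => hfin ξ)
    exact (P.roots.toFinset.finite_toSet).subset fun t ht => by
      rw [Finset.mem_coe, Multiset.mem_toFinset, mem_roots hP0]
      exact ht
  intro t₀ ht₀
  rw [Set.mem_union, not_or, Set.mem_iUnion₂] at ht₀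
  obtain ⟨ht1, ht2⟩ := ht₀
  have hq0 : P.eval t₀ ≠ 0 := ht1
  refine ⟨hq0, ?_⟩
  intro L _ _ σ C' w hw hwC ε hε
  have hC' : C' ≠ 0 := by
    rintro rfl
    rw [zero_mul] at hwC
    exact hw (pow_eq_zero_iff two_ne_zero |>.1 hwC)
  have : CharZero L := charZero_of_injective_ringHom σ.injective
  set a0 := q₀ + q₁ * t₀ + q₂ * t₀ ^ 2 + q₃ * t₀ ^ 3 + q₄ * t₀ ^ 4 with ha0
  set a1 := q₁ + 2 * q₂ * t₀ + 3 * q₃ * t₀ ^ 2 + 4 * q₄ * t₀ ^ 3 with ha1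
  set a2 := q₂ + 3 * q₃ * t₀ + 6 * q₄ * t₀ ^ 2 with ha2
  set a3 := q₃ + 4 * q₄ * t₀ with ha3
  have hPa : P.eval t₀ = a0 := hPe t₀
  rw [hPa] at hwC hq0
  obtain ⟨t, Y, h1, h2, h3, h4⟩ := quartic_dense σ (w := w) (q₁ := C' * a1) (q₂ := C' * a2)
    (q₃ := C' * a3) (q₄ := C' * q₄) hw (by
      have h1 := dq_eq w (C' * a1) (C' * a2) (C' * a3) (C' * q₄)
      rw [dq] at h1
      rw [h1, hwC, dc_smul]
      have h2 := dc_shift t₀ q₀ q₁ q₂ q₃ q₄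
      have h3 : dc a0 a1 a2 a3 q₄ = dc q₀ q₁ q₂ q₃ q₄ := by
        rw [← h2]
        congr 1 <;> simp only [ha0, ha1, ha2, ha3] <;> ring
      rw [h3]
      exact mul_ne_zero (pow_ne_zero 6 hC') hdc) (by
      intro h n hn
      refine htors C' hC' (q₃ * t₀ + 2 * q₄ * t₀ ^ 2) _ _ _ ?_ ?_ ?_ _ _ h ?_ n hn
      · rw [ha2]; ring
      · rw [rb, hwC, ← shift_b, ha0, ha1, ha3]
        ring
      · rw [rc, hwC, ← shift_c, ha0, ha1, ha2, ha3]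
        ring
      · intro hmem
        apply ht2
        refine ⟨_, hmem, ?_⟩
        change (derivative P).eval t₀ ^ 2 = 4 * P.eval t₀ * (M _).eval t₀
        rw [hMe, hP1, hPa, xs, hwC, ← ha1, ← ha2]
        field_simp
        ring) hε
  refine ⟨t, Y, h1, h2, h3, ?_⟩
  rw [h4, hwC, hPe, ha0, ha1, ha2, ha3]
  ring

end Pool.Agent.Y720.MZ
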