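import Pool.Agent.Y720.MZ.FibN
import Pool.Agent.Y720.MZ.Tw
import Pool.Agent.Y720.MZ.Loc

/-!
# Double covers `w² = A(x) q₁(z₁) ⋯ q_r(z_r)`: moving a rational point in one block (helper720)
-/

set_option autoImplicit false
set_option linter.unusedSectionVars false
set_option linter.unusedVariables false

open Filter Topology Matrix

namespace Pool.Agent.Y720.MZ

open Pool.Agent.TH729.CV

section alg

variable {K : Type*} [Field K] {n r : ℕ}

/-- a binary quartic form -/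
def qf (c : Fin 5 → K) (z : Fin 2 → K) : K :=
  ∑ j : Fin 5, z 0 ^ (4 - (j : ℕ)) * z 1 ^ (j : ℕ) * c j

/-- its dehomogenization -/
noncomputable def qp (c : Fin 5 → K) : Polynomial K := qpol (c 0) (c 1) (c 2) (c 3) (c 4)

lemma qf_eq (c : Fin 5 → K) (z : Fin 2 → K) : qf c z = z 0 ^ 4 * c 0 + z 0 ^ 3 * z 1 * c 1 +
    z 0 ^ 2 * z 1 ^ 2 * c 2 + z 0 * z 1 ^ 3 * c 3 + z 1 ^ 4 * c 4 := by
  rw [qf, Fin.sum_univ_five]
  simp

lemma qf_pt (c : Fin 5 → K) (b t : K) : qf c ![b, b * t] = b ^ 4 * (qp c).eval t := by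
  rw [qf_eq, qp, eval_qpol]
  simp only [Matrix.cons_val_zero, Matrix.cons_val_one]
  ring

lemma qf_smul (c : Fin 5 → K) (a : K) (z : Fin 2 → K) : qf c (a • z) = a ^ 4 * qf c z := by
  simp only [qf_eq, Pi.smul_apply, smul_eq_mul]
  ring

/-- the form of the branch divisor -/
def FK (A : Matrix (Fin n) (Fin n) K) (q : Fin r → Fin 5 → K) (x : Fin n → K)
    (z : Fin r → Fin 2 → K) : K := bf A x x * ∏ i, qf (q i) (z i)

/-- the first block -/
def xu (u : Fin n ⊕ (Fin r × Fin 2) → K) : Fin n → K := fun i => u (Sum.inl i)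

/-- the other blocks -/
def zu (u : Fin n ⊕ (Fin r × Fin 2) → K) : Fin r → Fin 2 → K := fun j a => u (Sum.inr (j, a))

/-- the block of a coordinate -/
def blkK : Fin n ⊕ (Fin r × Fin 2) → Option (Fin r) := Sum.elim (fun _ => none) fun p => some p.1

/-- the vector with the given blocks -/
def xv (x : Fin n → K) : Fin n ⊕ (Fin r × Fin 2) → K := Sum.elim x 0

/-- the vector with the given blocks -/
def zv (z : Fin 2 → K) : Fin n ⊕ (Fin r × Fin 2) → K := Sum.elim 0 fun p => z p.2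

@[simp] lemma xu_ov_none (v u : Fin n ⊕ (Fin r × Fin 2) → K) : xu (ov blkK none v u) = xu v := by
  funext i
  simp [xu, ov, blkK]

@[simp] lemma zu_ov_none (v u : Fin n ⊕ (Fin r × Fin 2) → K) : zu (ov blkK none v u) = zu u := by
  funext i a
  simp [zu, ov, blkK]

@[simp] lemma xu_ov_some (i : Fin r) (v u : Fin n ⊕ (Fin r × Fin 2) → K) :
    xu (ov blkK (some i) v u) = xu u := by
  funext i
  simp [xu, ov, blkK]

lemma zu_ov_some (i j : Fin r) (v u : Fin n ⊕ (Fin r × Fin 2) → K) :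
    zu (ov blkK (some i) v u) j = if j = i then zu v j else zu u j := by
  funext a
  by_cases h : j = i
  · simp [zu, ov, blkK, h]
  · simp [zu, ov, blkK, h]

@[simp] lemma xu_xv (x : Fin n → K) : xu (xv x : Fin n ⊕ (Fin r × Fin 2) → K) = x := rfl

@[simp] lemma zu_zv (z : Fin 2 → K) (j : Fin r) :
    zu (zv z : Fin n ⊕ (Fin r × Fin 2) → K) j = z := rfl

lemma ov_ov {τ β : Type*} [DecidableEq β] (blk : τ → β) (b : β) (v v' u : τ → K) :
    ov blk b (ov blk b v v') u = ov blk b v u := by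
  funext c
  by_cases h : blk c = b
  · rw [ov_same h, ov_same h, ov_same h]
  · rw [ov_ne h, ov_ne h]

lemma ov_zv_self (i : Fin r) (v : Fin n ⊕ (Fin r × Fin 2) → K) :
    ov blkK (some i) (zv (zu v i)) v = v := by
  funext c
  rcases c with c | ⟨j, a⟩
  · simp [ov, blkK]
  · by_cases h : j = i
    · subst h
      simp [ov, blkK, zv, zu]
    · simp [ov, blkK, h]

lemma ov_xv_self (v : Fin n ⊕ (Fin r × Fin 2) → K) : ov blkK none (xv (xu v)) v = v := by
  funext c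
  rcases c with c | ⟨j, a⟩
  · simp [ov, blkK, xv, xu]
  · simp [ov, blkK]

/-- the factor of the other blocks -/
def CK (A : Matrix (Fin n) (Fin n) K) (q : Fin r → Fin 5 → K) (i : Fin r)
    (u : Fin n ⊕ (Fin r × Fin 2) → K) : K :=
  bf A (xu u) (xu u) * ∏ j ∈ Finset.univ.erase i, qf (q j) (zu u j)

lemma FK_CK (A : Matrix (Fin n) (Fin n) K) (q : Fin r → Fin 5 → K) (i : Fin r)
    (u : Fin n ⊕ (Fin r × Fin 2) → K) :
    FK A q (xu u) (zu u) = CK A q i u * qf (q i) (zu u i) := by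
  rw [FK, CK, ← Finset.mul_prod_erase Finset.univ (fun i => qf (q i) (zu u i))
    (Finset.mem_univ i)]
  ring

lemma CK_ov (A : Matrix (Fin n) (Fin n) K) (q : Fin r → Fin 5 → K) (i : Fin r)
    (v u : Fin n ⊕ (Fin r × Fin 2) → K) : CK A q i (ov blkK (some i) v u) = CK A q i u := by
  rw [CK, CK, xu_ov_some]
  congr 1
  refine Finset.prod_congr rfl fun j hj => ?_
  rw [zu_ov_some, if_neg (Finset.ne_of_mem_erase hj)]

lemma FK_ov (A : Matrix (Fin n) (Fin n) K) (q : Fin r → Fin 5 → K) (i : Fin r)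
    (z : Fin 2 → K) (u : Fin n ⊕ (Fin r × Fin 2) → K) :
    FK A q (xu (ov blkK (some i) (zv z) u)) (zu (ov blkK (some i) (zv z) u)) =
      CK A q i u * qf (q i) z := by
  rw [FK_CK A q i, CK_ov, zu_ov_some, if_pos rfl, zu_zv]

/-- the polynomial of the branch divisor -/
lemma exists_FK (A : Matrix (Fin n) (Fin n) K) (q : Fin r → Fin 5 → K) :
    ∃ G : MvPolynomial (Fin n ⊕ (Fin r × Fin 2)) K,
      ∀ u, MvPolynomial.eval u G = FK A q (xu u) (zu u) := by
  refine ⟨(∑ a, MvPolynomial.X (Sum.inl a) * ∑ b, MvPolynomial.C (A a b) *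
    MvPolynomial.X (Sum.inl b)) * ∏ i, ∑ j : Fin 5, MvPolynomial.X (Sum.inr (i, 0)) ^ (4 - (j : ℕ)) *
      MvPolynomial.X (Sum.inr (i, 1)) ^ (j : ℕ) * MvPolynomial.C (q i j), fun u => ?_⟩
  simp only [FK, qf, bf, dotProduct, mulVec, map_sum, map_mul, map_prod, map_pow,
    MvPolynomial.eval_X, MvPolynomial.eval_C, xu, zu]

lemma cone_zero [CharZero K] {N : (Fin 2 → K) → K}
    (hN : ∀ X Y : K → K, PF1 X → PF1 Y → PF1 fun τ => N ![X τ, Y τ]) {T : Set K}
    (hT : T.Infinite) (h : ∀ t ∈ T, {c : K | N ![c, c * t] = 0}.Infinite) (z : Fin 2 → K) :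
    N z = 0 := by
  have s1 : ∀ t ∈ T, ∀ c, N ![c, c * t] = 0 := fun t ht c =>
    (hN (fun c => c) (fun c => c * t) PF1.id' (PF1.id'.mul (PF1.const _))).zero (h t ht) c
  have s2 : ∀ c t, N ![c, c * t] = 0 := fun c t =>
    (hN (fun _ => c) (fun t => c * t) (PF1.const _) ((PF1.const _).mul PF1.id')).zero
      (hT.mono fun t ht => s1 t ht c) t
  have h1 := (hN (fun c => c) (fun _ => z 1) PF1.id' (PF1.const _)).zero
    ((Set.finite_singleton (0 : K)).infinite_compl.mono fun c hc => by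
      have hc0 : c ≠ 0 := hc
      have h2 := s2 c (z 1 / c)
      rw [mul_div_cancel₀ _ hc0] at h2
      exact h2) (z 0)
  have e : z = ![z 0, z 1] := by
    funext j
    fin_cases j <;> rfl
  rw [e]
  exact h1

/-- the square lemma for twists of a separable polynomial -/
lemma sq_lemma2 [CharZero K] {c : Fin 5 → K} (hs : (qp c).Separable) (hd : 3 ≤ (qp c).natDegree)
    {C t₀ : K} (hC : C ≠ 0) {G H : K → K} (hG : PF1 G) (hH : PF1 H)
    (hinf : {t : K | ∃ Y, Y ^ 2 = C * (qp c).eval (t₀ + t) ∧ G t + Y * H t = 0}.Infinite) :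
    (∀ t, G t = 0) ∧ ∀ t, H t = 0 := by
  have hdc := dc_ne_zero hs hd
  refine sq_lemma (q₀ := C * (c 0 + t₀ * c 1 + t₀ ^ 2 * c 2 + t₀ ^ 3 * c 3 + t₀ ^ 4 * c 4))
    (q₁ := C * (c 1 + 2 * t₀ * c 2 + 3 * t₀ ^ 2 * c 3 + 4 * t₀ ^ 3 * c 4))
    (q₂ := C * (c 2 + 3 * t₀ * c 3 + 6 * t₀ ^ 2 * c 4)) (q₃ := C * (c 3 + 4 * t₀ * c 4))
    (q₄ := C * c 4) ?_ hG hH (hinf.mono ?_)
  · rw [dc_smul, dc_shift]
    exact mul_ne_zero (pow_ne_zero 6 hC) hdc
  · rintro t ⟨Y, hY, h0⟩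
    refine ⟨Y, ?_, h0⟩
    rw [hY, qp, eval_qpol]
    ring

end alg

end Pool.Agent.Y720.MZ
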