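import Pool.Agent.Y720.MZ.Kum

/-!
# Double covers `w² = A(x) q₁(z₁) ⋯ q_r(z_r)`: the movements (helper720)
-/

set_option autoImplicit false
set_option linter.unusedSectionVars false
set_option linter.unusedVariables false

open Filter Topology Matrix

namespace Pool.Agent.Y720.MZ

open Pool.Agent.TH729.CV

/-- the point with the given coordinates -/
def po {R τ : Type*} (w : R) (u : τ → R) : Option τ → R := fun o => o.elim w u

@[simp] lemma po_none {R τ : Type*} (w : R) (u : τ → R) : po w u none = w := rfl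
@[simp] lemma po_some {R τ : Type*} (w : R) (u : τ → R) (i : τ) : po w u (some i) = u i := rfl

lemma po_eta {R τ : Type*} (y : Option τ → R) : po (y none) (fun i => y (some i)) = y := by
  funext o
  rcases o with _ | i <;> rfl

section defs

variable {K : Type*} [Field K] {n r : ℕ}

/-- the conditions on the blocks of a stratum -/
def Cond (J : Finset (Fin r)) (R : Fin r → Fin 2 → K) (T : Fin r → Set K)
    (z : Fin r → Fin 2 → K) : Prop :=
  (∀ j ∈ J, ∃ c : K, c ≠ 0 ∧ z j = c • R j) ∧ ∀ i ∉ J, z i 0 ≠ 0 ∧ z i 1 / z i 0 ∉ T i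

/-- the points of a stratum in an open set -/
def GK {L : Type*} [NontriviallyNormedField L] (σ : K →+* L) (A : Matrix (Fin n) (Fin n) K)
    (q : Fin r → Fin 5 → K) (J : Finset (Fin r)) (R : Fin r → Fin 2 → K) (T : Fin r → Set K)
    (U : Set (Option (Fin n ⊕ (Fin r × Fin 2)) → L)) : Set (Fin n ⊕ (Fin r × Fin 2) → K) :=
  {u | ∃ w : K, w ≠ 0 ∧ w ^ 2 = FK A q (xu u) (zu u) ∧ Cond J R T (zu u) ∧
    (fun o => σ (po w u o)) ∈ U}

end defs

variable {K : Type*} [Field K] [NumberField K] {L : Type*} [NontriviallyNormedField L]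
  [ProperSpace L] {n r : ℕ}

lemma pf_ov (blk : Fin n ⊕ (Fin r × Fin 2) → Option (Fin r)) (b : Option (Fin r))
    (v : Fin n ⊕ (Fin r × Fin 2) → K) (p : MvPolynomial (Fin n ⊕ (Fin r × Fin 2)) K)
    {X : K → Fin n ⊕ (Fin r × Fin 2) → K} (hX : ∀ c, PF1 fun τ => X τ c) :
    PF1 fun τ => MvPolynomial.eval (ov blk b (X τ) v) p := by
  refine PF1.eval (φ := fun c τ => ov blk b (X τ) v c) (fun c => ?_) p
  by_cases h : blk c = b
  · simp only [ov_same h]
    exact hX c
  · simp only [ov_ne h]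
    exact PF1.const _

lemma pf_xv {X : K → Fin n → K} (hX : ∀ a, PF1 fun τ => X τ a) (c : Fin n ⊕ (Fin r × Fin 2)) :
    PF1 fun τ => (xv (X τ) : Fin n ⊕ (Fin r × Fin 2) → K) c := by
  rcases c with a | p
  · exact hX a
  · exact PF1.const 0

lemma pf_zv {X : K → Fin 2 → K} (hX : ∀ a, PF1 fun τ => X τ a) (c : Fin n ⊕ (Fin r × Fin 2)) :
    PF1 fun τ => (zv (X τ) : Fin n ⊕ (Fin r × Fin 2) → K) c := by
  rcases c with a | p
  · exact PF1.const 0
  · exact hX p.2

/-- **moving in the first block** -/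
theorem MVx (σ : K →+* L) (hσ : DenseRange σ) {A : Matrix (Fin n) (Fin n) K} (hA : A.IsSymm)
    {q : Fin r → Fin 5 → K} {J : Finset (Fin r)} {R : Fin r → Fin 2 → K} {T : Fin r → Set K}
    {U : Set (Option (Fin n ⊕ (Fin r × Fin 2)) → L)} (hU : IsOpen U)
    {u : Fin n ⊕ (Fin r × Fin 2) → K} (hu : u ∈ GK σ A q J R T U)
    {p : MvPolynomial (Fin n ⊕ (Fin r × Fin 2)) K}
    (hp : ∀ v, ov blkK none v u ∈ GK σ A q J R T U → MvPolynomial.eval v p = 0)
    (v : Fin n ⊕ (Fin r × Fin 2) → K) : MvPolynomial.eval v p = 0 := by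
  have : CharZero L := charZero_of_injective_ringHom σ.injective
  obtain ⟨w₀, hw, hwF, hcond, hUw⟩ := hu
  set x₀ := xu u with hx₀
  set C := ∏ i, qf (q i) (zu u i) with hC
  set Q : Matrix (Fin n) (Fin n) K := C • A with hQ
  have hQs : Q.IsSymm := hA.smul C
  have hQx : bf Q x₀ x₀ = w₀ ^ 2 := by rw [hQ, bf_smul_mat, hwF, FK]; ring
  have hFQ : ∀ x, FK A q x (zu u) = bf Q x x := by
    intro x; rw [hQ, bf_smul_mat, FK]; ring
  -- claim 1
  have c1 : ∀ v' : Fin n → K, bf Q x₀ v' = 0 → ∀ c k : K,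
      MvPolynomial.eval (ov blkK none (xv (c • ((1 + -bf Q v' v' * k ^ 2) • x₀ +
        (2 * w₀ * k) • v'))) v) p = 0 := by
    intro v' hv'
    set d := -bf Q v' v' with hd
    set Θ : L × L → (Option (Fin n ⊕ (Fin r × Fin 2)) → L) := fun s =>
      po (s.1 * (σ w₀ * (1 - σ d * s.2 ^ 2))) (Sum.elim (fun a => s.1 * ((1 + σ d * s.2 ^ 2) *
        σ (x₀ a) + 2 * σ w₀ * s.2 * σ (v' a))) fun b => σ (u (Sum.inr b))) with hΘ
    have hΘc : Continuous Θ := by
      refine continuous_pi fun o => ?_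
      rcases o with _ | a | b
      · simp only [hΘ, po_none]; fun_prop
      · simp only [hΘ, po_some, Sum.elim_inl]; fun_prop
      · simp only [hΘ, po_some, Sum.elim_inr]; fun_prop
    have hΘ0 : Θ (1, 0) = fun o => σ (po w₀ u o) := by
      funext o
      rcases o with _ | a | b
      · simp [hΘ]
      · simp [hΘ, hx₀, xu]
      · simp [hΘ]
    have hpre : Θ ⁻¹' U ∩ {s | 1 - σ d * s.2 ^ 2 ≠ 0} ∈ 𝓝 ((1, 0) : L × L) := by
      refine inter_mem (hΘc.continuousAt.preimage_mem_nhds (hU.mem_nhds (by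
        rw [hΘ0]; exact hUw))) ?_
      refine IsOpen.mem_nhds ?_ (by simp)
      exact isOpen_ne_fun (by fun_prop) continuous_const
    obtain ⟨V1, hV1, V2, hV2, hV⟩ := mem_nhds_prod_iff.1 hpre
    have e0 : ∀ c k : K, σ c ∈ V1 → c ≠ 0 → σ k ∈ V2 →
        MvPolynomial.eval (ov blkK none (xv (c • ((1 + d * k ^ 2) • x₀ +
          (2 * w₀ * k) • v'))) v) p = 0 := by
      intro c k hc hc0 hk
      obtain ⟨h1, h2⟩ := hV (Set.mk_mem_prod hc hk)
      apply hp
      rw [ov_ov]
      refine ⟨c * (w₀ * (1 - d * k ^ 2)), ?_, ?_, ?_, ?_⟩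
      · refine mul_ne_zero hc0 (mul_ne_zero hw fun h => h2 ?_)
        have := congrArg σ h
        simpa using this
      · rw [xu_ov_none, zu_ov_none, xu_xv, hFQ]
        simp only [bf_smul_left, bf_smul_right, bf_add_left, bf_add_right, hv', hQx,
          bf_comm hQs v' x₀]
        have : bf Q v' v' = -d := by rw [hd, neg_neg]
        rw [this]
        ring
      · rw [zu_ov_none]
        exact hcond
      · have e : Θ (σ c, σ k) = fun o => σ (po (c * (w₀ * (1 - d * k ^ 2)))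
            (ov blkK none (xv (c • ((1 + d * k ^ 2) • x₀ + (2 * w₀ * k) • v'))) u) o) := by
          funext o
          rcases o with _ | a | b
          · simp [hΘ]
          · simp [hΘ, ov, blkK, xv]
            rw [show σ 2 = 2 from map_ofNat σ 2]
            ring
          · simp [hΘ, ov, blkK]
        rw [← e]
        exact h1
    intro c k
    have p1 : ∀ k : K, PF1 fun c : K => MvPolynomial.eval (ov blkK none (xv (c •
        ((1 + d * k ^ 2) • x₀ + (2 * w₀ * k) • v'))) v) p := fun k =>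
      pf_ov blkK none v p (pf_xv fun a => PF1.id'.mul (PF1.const _))
    have p2 : ∀ c : K, PF1 fun k : K => MvPolynomial.eval (ov blkK none (xv (c •
        ((1 + d * k ^ 2) • x₀ + (2 * w₀ * k) • v'))) v) p := fun c =>
      pf_ov blkK none v p (pf_xv fun a => by
        simp only [Pi.smul_apply, Pi.add_apply, smul_eq_mul]
        exact (PF1.const _).mul ((((PF1.const _).add ((PF1.const _).mul (PF1.id'.pow 2))).mul
          (PF1.const _)).add (((PF1.const _).mul PF1.id').mul (PF1.const _))))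
    refine (p2 c).zero ((infinite_near' σ hσ hV2).mono fun k hk => ?_) k
    exact (p1 k).zero ((infinite_near' σ hσ hV1).mono fun c hc => e0 c k hc.1 hc.2 hk.1) c
  -- claim 2
  have c2 : ∀ v'' : Fin n → K, bf Q x₀ v'' = 0 → ∀ s : K,
      MvPolynomial.eval (ov blkK none (xv (s • x₀ + v'')) v) p = 0 := by
    intro v'' hv'' s
    have hN : PF1 fun s : K => MvPolynomial.eval (ov blkK none (xv (s • x₀ + v'')) v) p :=
      pf_ov blkK none v p (pf_xv fun a => by
        simp only [Pi.smul_apply, Pi.add_apply, smul_eq_mul]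
        exact (PF1.id'.mul (PF1.const _)).add (PF1.const _))
    set m := bf Q v'' v'' / (4 * w₀ ^ 2) with hm
    refine hN.zero ?_ s
    intro hfin
    have hsub : {c : K | c ≠ 0} ⊆ ⋃ s ∈ {s : K | MvPolynomial.eval (ov blkK none
        (xv (s • x₀ + v'')) v) p = 0}, {c : K | c ^ 2 - s * c - m = 0} := by
      intro c hc
      have hc0 : c ≠ 0 := hc
      rw [Set.mem_iUnion₂]
      refine ⟨c - m / c, ?_, ?_⟩
      · have h1 := c1 ((1 / (2 * w₀ * c)) • v'') (by rw [bf_smul_right, hv'', mul_zero]) c 1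
        have e : c • ((1 + -bf Q ((1 / (2 * w₀ * c)) • v'') ((1 / (2 * w₀ * c)) • v'') * 1 ^ 2) •
            x₀ + (2 * w₀ * 1) • ((1 / (2 * w₀ * c)) • v'')) = (c - m / c) • x₀ + v'' := by
          rw [bf_smul_left, bf_smul_right, smul_add, smul_smul, smul_smul, smul_smul]
          have e1 : c * (1 + -(1 / (2 * w₀ * c) * (1 / (2 * w₀ * c) * bf Q v'' v'')) * 1 ^ 2) =
              c - m / c := by
            rw [hm]
            field_simp
            ring
          have e2 : c * (2 * w₀ * 1) * (1 / (2 * w₀ * c)) = 1 := by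
            field_simp
          rw [e1, e2, one_smul]
        rw [e] at h1
        exact h1
      · change c ^ 2 - (c - m / c) * c - m = 0
        field_simp
        ring
    have hfin2 : ∀ s : K, {c : K | c ^ 2 - s * c - m = 0}.Finite := by
      intro s
      have h2 : PF1 fun c : K => c ^ 2 - s * c - m :=
        ((PF1.id'.pow 2).sub ((PF1.const _).mul PF1.id')).sub (PF1.const _)
      by_contra hinf
      have a0 := h2.zero hinf 0
      have a1 := h2.zero hinf 1
      have a2 := h2.zero hinf (-1)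
      have : (2 : K) = 0 := by linear_combination a1 + a2 - 2 * a0
      exact two_ne_zero this
    have hinf : {c : K | c ≠ 0}.Infinite := (Set.finite_singleton (0 : K)).infinite_compl
    exact hinf ((hfin.biUnion fun s _ => hfin2 s).subset hsub)
  have h3 := c2 (psi Q w₀ x₀ (xu v)) (bf_psi hw hQx _) (bf Q x₀ (xu v) / w₀ ^ 2)
  rw [← psi_dec, ov_xv_self] at h3
  exact h3

/-- **moving in a block with a quartic form** -/
theorem MVi (σ : K →+* L) (hσ : DenseRange σ) {A : Matrix (Fin n) (Fin n) K}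
    {q : Fin r → Fin 5 → K} {J : Finset (Fin r)} {R : Fin r → Fin 2 → K} {T : Fin r → Set K}
    (hT : ∀ i, (T i).Finite)
    (hTq : ∀ i, ∀ t₀ ∉ T i, (qp (q i)).eval t₀ ≠ 0 ∧ ∀ (C w : K), w ≠ 0 →
      w ^ 2 = C * (qp (q i)).eval t₀ → ∀ ε : ℝ, 0 < ε → ∃ t Y : K, t ≠ 0 ∧ ‖σ t‖ < ε ∧
        ‖σ (Y - w)‖ < ε ∧ Y ^ 2 = C * (qp (q i)).eval (t₀ + t))
    {U : Set (Option (Fin n ⊕ (Fin r × Fin 2)) → L)} (hU : IsOpen U)
    {u : Fin n ⊕ (Fin r × Fin 2) → K} (hu : u ∈ GK σ A q J R T U) {i : Fin r} (hi : i ∉ J) :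
    ∃ b t₀ : K, b ≠ 0 ∧ zu u i = ![b, b * t₀] ∧ CK A q i u ≠ 0 ∧
      {t : K | ∃ Y : K, Y ^ 2 = CK A q i u * b ^ 4 * (qp (q i)).eval (t₀ + t) ∧
        (fun o => σ (po Y (ov blkK (some i) (zv ![b, b * (t₀ + t)]) u) o)) ∈ U ∧ Y ≠ 0 ∧
        Cond J R T (zu (ov blkK (some i) (zv ![b, b * (t₀ + t)]) u)) ∧
        {c : K | ov blkK (some i) (zv (c • ![b, b * (t₀ + t)])) u ∈
          GK σ A q J R T U}.Infinite}.Infinite := by
  classical
  have : CharZero L := charZero_of_injective_ringHom σ.injective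
  obtain ⟨w₀, hw, hwF, hcond, hUw⟩ := hu
  obtain ⟨hb, ht₀⟩ := hcond.2 i hi
  set b := zu u i 0 with hbdef
  set t₀ := zu u i 1 / zu u i 0 with ht₀def
  have hz : zu u i = ![b, b * t₀] := by
    funext a
    fin_cases a
    · rfl
    · change zu u i 1 = b * t₀
      have hb' : zu u i 0 ≠ 0 := hb
      rw [hbdef, ht₀def]
      field_simp
  have hF1 : w₀ ^ 2 = CK A q i u * b ^ 4 * (qp (q i)).eval t₀ := by
    rw [hwF, FK_CK A q i, hz, qf_pt]
    ring
  have hC0 : CK A q i u ≠ 0 := by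
    intro h
    rw [h, zero_mul, zero_mul] at hF1
    exact hw (pow_eq_zero_iff two_ne_zero |>.1 hF1)
  refine ⟨b, t₀, hb, hz, hC0, ?_⟩
  -- the neighbourhood
  set Θ : L × L × L → (Option (Fin n ⊕ (Fin r × Fin 2)) → L) := fun s =>
    po (s.1 ^ 2 * s.2.1) (Sum.elim (fun a => σ (u (Sum.inl a))) fun p =>
      if p.1 = i then s.1 * (![σ b, σ b * (σ t₀ + s.2.2)] : Fin 2 → L) p.2
        else σ (u (Sum.inr p))) with hΘ
  have hΘc : Continuous Θ := by
    refine continuous_pi fun o => ?_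
    rcases o with _ | a | ⟨j, a⟩
    · simp only [hΘ, po_none]; fun_prop
    · simp only [hΘ, po_some, Sum.elim_inl]; fun_prop
    · simp only [hΘ, po_some, Sum.elim_inr]
      by_cases hj : j = i
      · simp only [if_pos hj]
        refine continuous_fst.mul ?_
        fin_cases a
        · simp; fun_prop
        · simp; fun_prop
      · simp only [if_neg hj]; fun_prop
  have hΘe : ∀ c Y t : K, Θ (σ c, σ Y, σ t) = fun o => σ (po (c ^ 2 * Y)
      (ov blkK (some i) (zv (c • ![b, b * (t₀ + t)])) u) o) := by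
    intro c Y t
    funext o
    rcases o with _ | a | ⟨j, a⟩
    · simp [hΘ]
    · simp [hΘ, ov, blkK]
    · by_cases hj : j = i
      · subst hj
        simp only [hΘ, po_some, Sum.elim_inr, if_true, ov, blkK, zv, Pi.smul_apply, smul_eq_mul,
          map_mul]
        fin_cases a
        · simp
        · simp
      · simp [hΘ, ov, blkK, hj]
  have hov : ov blkK (some i) (zv ![b, b * t₀]) u = u := by
    rw [← hz]; exact ov_zv_self i u
  have hΘ0 : Θ (1, σ w₀, 0) = fun o => σ (po w₀ u o) := by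
    have := hΘe 1 w₀ 0
    rw [map_one, map_zero, add_zero, one_pow, one_mul, one_smul, hov] at this
    exact this
  have hpre : Θ ⁻¹' U ∩ {s | s.2.1 ≠ 0} ∈ 𝓝 ((1, σ w₀, 0) : L × L × L) := by
    refine inter_mem (hΘc.continuousAt.preimage_mem_nhds (hU.mem_nhds (by
      rw [hΘ0]; exact hUw))) ?_
    refine IsOpen.mem_nhds ?_ ((map_ne_zero σ).2 hw)
    exact isOpen_ne_fun (by fun_prop) continuous_const
  obtain ⟨δ₀, hδ₀, hball⟩ := Metric.mem_nhds_iff.1 hpre
  -- avoiding the exceptional values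
  obtain ⟨ρ, hρ0, hρ⟩ : ∃ ρ : ℝ, 0 < ρ ∧ ∀ t : K, ‖σ t‖ < ρ → t₀ + t ∉ T i := by
    have h1 : (σ '' T i)ᶜ ∈ 𝓝 (σ t₀) := by
      refine ((hT i).image σ).isClosed.isOpen_compl.mem_nhds ?_
      rintro ⟨t, ht, h⟩
      rw [σ.injective h] at ht
      exact ht₀ ht
    obtain ⟨ρ, hρ, h2⟩ := Metric.mem_nhds_iff.1 h1
    refine ⟨ρ, hρ, fun t ht hmem => ?_⟩
    have h3 : σ (t₀ + t) ∈ Metric.ball (σ t₀) ρ := by
      rw [Metric.mem_ball, dist_eq_norm, map_add, add_sub_cancel_left]
      exact ht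
    exact h2 h3 ⟨_, hmem, rfl⟩
  apply infinite_small σ
  intro ε hε
  obtain ⟨t, Y, h1, h2, h3, h4⟩ := (hTq i t₀ ht₀).2 (CK A q i u * b ^ 4) w₀ hw hF1
    (min ε (min δ₀ ρ)) (lt_min hε (lt_min hδ₀ hρ0))
  have h2a : ‖σ t‖ < δ₀ := h2.trans_le ((min_le_right _ _).trans (min_le_left _ _))
  have h2b : ‖σ t‖ < ρ := h2.trans_le ((min_le_right _ _).trans (min_le_right _ _))
  have h3a : ‖σ (Y - w₀)‖ < δ₀ := h3.trans_le ((min_le_right _ _).trans (min_le_left _ _))
  have hmemU : ∀ c : K, ‖σ c - 1‖ < δ₀ → (fun o => σ (po (c ^ 2 * Y)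
      (ov blkK (some i) (zv (c • ![b, b * (t₀ + t)])) u) o)) ∈ U ∧ Y ≠ 0 := by
    intro c hc
    have hm : ((σ c, σ Y, σ t) : L × L × L) ∈ Metric.ball ((1, σ w₀, 0) : L × L × L) δ₀ := by
      rw [Metric.mem_ball, Prod.dist_eq, Prod.dist_eq]
      refine max_lt ?_ (max_lt ?_ ?_)
      · rw [dist_eq_norm]; exact hc
      · rw [dist_eq_norm, ← map_sub]; exact h3a
      · rw [dist_zero_right]; exact h2a
    obtain ⟨m1, m2⟩ := hball hm
    refine ⟨?_, fun h => m2 (by simp [h])⟩
    rw [← hΘe]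
    exact m1
  have hcond' : ∀ c : K, c ≠ 0 →
      Cond J R T (zu (ov blkK (some i) (zv (c • ![b, b * (t₀ + t)])) u)) := by
    intro c hc
    refine ⟨fun j hj => ?_, fun j hj => ?_⟩
    · have hji : j ≠ i := by rintro rfl; exact hi hj
      rw [zu_ov_some, if_neg hji]
      exact hcond.1 j hj
    · rw [zu_ov_some]
      by_cases hji : j = i
      · subst hji
        rw [if_pos rfl, zu_zv]
        refine ⟨?_, ?_⟩
        · simpa using ⟨hc, hb⟩
        · have e : (c • ![b, b * (t₀ + t)] : Fin 2 → K) 1 / (c • ![b, b * (t₀ + t)] : Fin 2 → K) 0 =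
              t₀ + t := by
            simp only [Pi.smul_apply, smul_eq_mul, Matrix.cons_val_zero, Matrix.cons_val_one]
            field_simp
          rw [e]
          exact hρ t h2b
      · rw [if_neg hji]
        exact hcond.2 j hj
  have h10 : ‖σ (1 : K) - 1‖ < δ₀ := by rw [map_one, sub_self, norm_zero]; exact hδ₀
  refine ⟨t, h1, h2.trans_le (min_le_left _ _), Y, h4, ?_, (hmemU 1 h10).2, ?_, ?_⟩
  · have := (hmemU 1 h10).1
    rwa [one_pow, one_mul, one_smul] at this
  · have := hcond' 1 one_ne_zero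
    rwa [one_smul] at this
  · have hA : {a : K | ‖σ a - 1‖ < δ₀ ∧ a ≠ 0}.Infinite := by
      have h1 := (infinite_near σ hσ (U := Metric.ball 1 δ₀) Metric.isOpen_ball
        ⟨1, Metric.mem_ball_self hδ₀⟩).sdiff (Set.finite_singleton (0 : K))
      refine h1.mono ?_
      rintro a ⟨ha, ha0⟩
      refine ⟨?_, ha0⟩
      have ha' : σ a ∈ Metric.ball (1 : L) δ₀ := ha
      rwa [Metric.mem_ball, dist_eq_norm] at ha'
    refine hA.mono ?_
    rintro c ⟨hc, hc0⟩
    refine ⟨c ^ 2 * Y, mul_ne_zero (pow_ne_zero 2 hc0) (hmemU c hc).2, ?_, hcond' c hc0,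
      (hmemU c hc).1⟩
    rw [FK_ov, qf_smul, qf_pt, mul_pow, h4]
    ring

/-- **moving in a block whose coordinates are multiples of a fixed vector** -/
theorem MVj (σ : K →+* L) (hσ : DenseRange σ) {A : Matrix (Fin n) (Fin n) K}
    {q : Fin r → Fin 5 → K} {J : Finset (Fin r)} {R : Fin r → Fin 2 → K} {T : Fin r → Set K}
    {U : Set (Option (Fin n ⊕ (Fin r × Fin 2)) → L)} (hU : IsOpen U)
    {u : Fin n ⊕ (Fin r × Fin 2) → K} (hu : u ∈ GK σ A q J R T U) {j : Fin r} (hj : j ∈ J)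
    {p : MvPolynomial (Fin n ⊕ (Fin r × Fin 2)) K}
    (hp : ∀ v, ov blkK (some j) v u ∈ GK σ A q J R T U → MvPolynomial.eval v p = 0)
    (v : Fin n ⊕ (Fin r × Fin 2) → K) (hv : ∃ c : K, zu v j = c • R j) :
    MvPolynomial.eval v p = 0 := by
  classical
  have : CharZero L := charZero_of_injective_ringHom σ.injective
  obtain ⟨w₀, hw, hwF, hcond, hUw⟩ := hu
  obtain ⟨c₀, hc₀, hz⟩ := hcond.1 j hj
  set Θ : L → (Option (Fin n ⊕ (Fin r × Fin 2)) → L) := fun s =>
    po (s ^ 2 * σ w₀) (Sum.elim (fun a => σ (u (Sum.inl a))) fun p =>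
      if p.1 = j then s * (σ c₀ * σ (R j p.2)) else σ (u (Sum.inr p))) with hΘ
  have hΘc : Continuous Θ := by
    refine continuous_pi fun o => ?_
    rcases o with _ | a | ⟨i, a⟩
    · simp only [hΘ, po_none]; fun_prop
    · simp only [hΘ, po_some, Sum.elim_inl]; fun_prop
    · simp only [hΘ, po_some, Sum.elim_inr]
      by_cases hij : i = j
      · simp only [if_pos hij]; fun_prop
      · simp only [if_neg hij]; fun_prop
  have hΘe : ∀ c : K, Θ (σ c) = fun o => σ (po (c ^ 2 * w₀)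
      (ov blkK (some j) (zv (c • (c₀ • R j))) u) o) := by
    intro c
    funext o
    rcases o with _ | a | ⟨i, a⟩
    · simp [hΘ]
    · simp [hΘ, ov, blkK]
    · by_cases hij : i = j
      · subst hij
        simp [hΘ, ov, blkK, zv]
      · simp [hΘ, ov, blkK, hij]
  have hov : ov blkK (some j) (zv (c₀ • R j)) u = u := by
    rw [← hz]; exact ov_zv_self j u
  have hpre : Θ ⁻¹' U ∈ 𝓝 (1 : L) := by
    refine hΘc.continuousAt.preimage_mem_nhds (hU.mem_nhds ?_)
    have := hΘe 1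
    rw [map_one, one_pow, one_mul, one_smul, hov] at this
    rw [this]
    exact hUw
  have hN : PF1 fun c : K => MvPolynomial.eval (ov blkK (some j) (zv (c • (c₀ • R j))) v) p :=
    pf_ov blkK (some j) v p (pf_zv fun a => PF1.id'.mul (PF1.const _))
  have hall := hN.zero ((infinite_near' σ hσ hpre).mono fun c hc => by
    apply hp
    rw [ov_ov]
    refine ⟨c ^ 2 * w₀, mul_ne_zero (pow_ne_zero 2 hc.2) hw, ?_, ⟨fun i hi => ?_, fun i hi => ?_⟩, ?_⟩
    · rw [FK_ov, qf_smul, ← hz, mul_pow, hwF, FK_CK A q j]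
      ring
    · rw [zu_ov_some]
      by_cases hij : i = j
      · subst hij
        rw [if_pos rfl, zu_zv]
        exact ⟨c * c₀, mul_ne_zero hc.2 hc₀, by rw [smul_smul]⟩
      · rw [if_neg hij]
        exact hcond.1 i hi
    · have hij : i ≠ j := by rintro rfl; exact hi hj
      rw [zu_ov_some, if_neg hij]
      exact hcond.2 i hi
    · rw [← hΘe]
      exact hc.1)
  obtain ⟨c, hc⟩ := hv
  have h1 := hall (c / c₀)
  have e : (c / c₀) • (c₀ • R j) = zu v j := by
    rw [hc, smul_smul, div_mul_cancel₀ _ hc₀]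
  rw [e, ov_zv_self] at h1
  exact h1

end Pool.Agent.Y720.MZ
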