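import Pool.Agent.Y720.MZ.M24

/-!
# Mazur's question for the double covers branched along divisors of bidegree `(2,4)`, final part
(helper720)
-/

set_option autoImplicit false
set_option linter.unusedSectionVars false
set_option linter.unusedVariables false

open Filter Topology Matrix

namespace Pool.Agent.Y720.MZ

open Pool.Agent.TH729.CV

variable {K : Type*} [Field K] {L : Type*}
  [NontriviallyNormedField L] [CompleteSpace L] [CharZero L] [ProperSpace L] {n : ℕ}

/-- double covers of affine space branched along a quadric -/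
theorem FA_quad (σ : K →+* L) (hσ : DenseRange σ) (M : Matrix (Fin n) (Fin n) K) :
    FA σ {u : Option (Fin n) → K | u none ^ 2 = bf M (fun i => u (some i)) fun i => u (some i)} := by
  set q : MvPolynomial (Fin (n + 1)) K := MvPolynomial.X 0 ^ 2 -
    ∑ a : Fin n, ∑ b : Fin n, MvPolynomial.C (M a b) *
      (MvPolynomial.X a.succ * MvPolynomial.X b.succ) with hq
  have hdeg : q.totalDegree ≤ 2 := by
    rw [hq]
    refine (MvPolynomial.totalDegree_sub _ _).trans (max_le ?_ ?_)
    · exact (MvPolynomial.totalDegree_pow _ _).trans (by simp)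
    · refine MvPolynomial.totalDegree_finsetSum_le fun a _ => ?_
      refine MvPolynomial.totalDegree_finsetSum_le fun b _ => ?_
      refine (MvPolynomial.totalDegree_mul _ _).trans ?_
      rw [MvPolynomial.totalDegree_C, zero_add]
      refine (MvPolynomial.totalDegree_mul _ _).trans ?_
      simp
  have hval : ∀ y : Fin (n + 1) → K, MvPolynomial.eval y q = y 0 ^ 2 -
      bf M (fun i => y i.succ) fun i => y i.succ := by
    intro y
    rw [hq]
    simp only [map_sub, map_pow, map_sum, map_mul, MvPolynomial.eval_X, MvPolynomial.eval_C, bf,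
      dotProduct, mulVec, Finset.mul_sum]
    congr 1
    refine Finset.sum_congr rfl fun a _ => Finset.sum_congr rfl fun b _ => ?_
    ring
  have h1 := FA.block σ hσ (f := q) (g := 0) (Or.inl ⟨hdeg, by simp⟩)
  set e : Fin (n + 1) → Option (Fin n) := fun i => Fin.cases none some i with he
  have hinj : Function.Injective e := by
    intro i j
    refine Fin.cases ?_ (fun i => ?_) i
    · refine Fin.cases ?_ (fun j => ?_) j
      · intro _; rfl
      · intro h; simp [e] at h
    · refine Fin.cases ?_ (fun j => ?_) j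
      · intro h; simp [e] at h
      · intro h
        simp only [e, Fin.cases_succ, Option.some.injEq] at h
        rw [h]
  have h2 := FA.cyl hσ h1 hinj
  have h3 : {y : Option (Fin n) → K | (fun i => y (e i)) ∈ {y : Fin (n + 1) → K |
      MvPolynomial.eval y q = 0 ∧ MvPolynomial.eval y (0 : MvPolynomial (Fin (n + 1)) K) = 0}} =
      {u : Option (Fin n) → K | u none ^ 2 = bf M (fun i => u (some i)) fun i => u (some i)} := by
    ext u
    simp only [Set.mem_ofPred_eq, map_zero, and_true, hval, e, Fin.cases_zero, Fin.cases_succ,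
      sub_eq_zero]
  rw [← h3]
  exact h2

/-- the matrix over a point of the line -/
lemma FQ_mat (Q : Fin 5 → Matrix (Fin n) (Fin n) K) (R : Fin 2 → K) (x : Fin n → K) :
    FQ Q x R = bf (∑ i : Fin 5, (R 0 ^ (4 - (i : ℕ)) * R 1 ^ (i : ℕ)) • Q i) x x := by
  rw [Fin.sum_univ_five, FQ, Fin.sum_univ_five]
  simp only [bf_add_mat, bf_smul_mat]

variable [NumberField K]

/-- **Mazur's question for the double covers branched along divisors of bidegree `(2,4)`.** -/
theorem main24 (hn : 2 ≤ n) (σ : K →+* L) (hσ : DenseRange σ)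
    {Q : Fin 5 → Matrix (Fin n) (Fin n) K} (hQ : ∀ i, (Q i).IsSymm)
    (hdet : ∃ t, (T0 Q t).det ≠ 0)
    (hprod : ¬∃ (A : Matrix (Fin n) (Fin n) K) (h : Fin 5 → K), ∀ i, Q i = h i • A)
    (hdx : ∃ x, dx (Q 0) (Q 1) (Q 2) (Q 3) (Q 4) x ≠ 0) :
    FAon σ (SQ Q) {x | (fun i => x (some (Sum.inl i))) ≠ 0 ∧
      (fun j => x (some (Sum.inr j))) ≠ 0} := by
  classical
  set bad : Set K := {t | (T0 Q t).det = 0} ∪ {t | ∃ c, ∀ x, bf (T1 Q t) x x = c * bf (T0 Q t) x x}
    with hbad
  have hfin : bad.Finite := (finite_det hdet).union (finite_prop hQ hprod)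
  set 𝓑 : Finset (Fin 2 → K) := insert ![0, 1] (hfin.toFinset.image fun t => ![1, t]) with h𝓑
  have h𝓑0 : ∀ R ∈ 𝓑, R ≠ 0 := by
    intro R hR h
    rw [h𝓑, Finset.mem_insert, Finset.mem_image] at hR
    rcases hR with rfl | ⟨t, -, rfl⟩
    · have := congrFun h 1
      simp at this
    · have := congrFun h 0
      simp at this
  set D : (Fin 2 → K) → Set (Option (Fin n) → K) := fun R =>
    {u | u none ^ 2 = FQ Q (fun i => u (some i)) R} with hD
  have hDF : ∀ R, FA σ (D R) := by
    intro R
    have h1 := FA_quad σ hσ (∑ i : Fin 5, (R 0 ^ (4 - (i : ℕ)) * R 1 ^ (i : ℕ)) • Q i)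
    have h2 : D R = {u : Option (Fin n) → K | u none ^ 2 =
        bf (∑ i : Fin 5, (R 0 ^ (4 - (i : ℕ)) * R 1 ^ (i : ℕ)) • Q i)
          (fun i => u (some i)) fun i => u (some i)} := by
      ext u
      simp only [hD, Set.mem_ofPred_eq, FQ_mat]
    rw [h2]
    exact h1
  set B : Set (Option (Fin n ⊕ Fin 2) → K) := ⋃ R ∈ 𝓑, fibS (D R) R with hB
  have hmemB : ∀ (w : K) (x : Fin n → K) (c : K) (R : Fin 2 → K), R ∈ 𝓑 → c ≠ 0 →
      w ^ 2 = FQ Q x (c • R) → pt w x (c • R) ∈ B := by
    intro w x c R hR hc h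
    rw [hB, Set.mem_iUnion₂]
    refine ⟨R, hR, c, hc, fun o => o.elim (w / c ^ 2) x, ?_, ?_⟩
    · change (w / c ^ 2) ^ 2 = FQ Q x R
      rw [FQ_smul_right] at h
      rw [div_pow, h]
      field_simp
    · congr 1
      change w = c ^ 2 * (w / c ^ 2)
      field_simp
  refine fin_abstract (B := B) ?_ ?_ ?_ ?_
  · refine IsOpen.inter ?_ ?_
    · exact isOpen_ne.preimage (continuous_pi fun i => continuous_apply _)
    · exact isOpen_ne.preimage (continuous_pi fun i => continuous_apply _)
  · intro y hy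
    rw [hB, Set.mem_iUnion₂] at hy
    obtain ⟨R, hR, c, hc, u, hu, rfl⟩ := hy
    rw [pt_mem_SQ, FQ_smul_right]
    have h1 : u none ^ 2 = FQ Q (fun i => u (some i)) R := hu
    rw [mul_pow, h1]
    ring
  · intro y hy hyB hyΩ f hf
    obtain ⟨w, x, z, rfl⟩ : ∃ w x z, y = pt w x z := ⟨_, _, _, (pt_eta y).symm⟩
    rw [pt_mem_SQ] at hy
    have hx : x ≠ 0 := by
      rintro rfl
      apply hyΩ.1
      funext i
      simp
    have hz : z ≠ 0 := by
      rintro rfl
      apply hyΩ.2
      funext i
      simp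
    have hz0 : z 0 ≠ 0 := by
      intro h0
      have hz1 : z 1 ≠ 0 := by
        intro h1
        apply hz
        funext j
        fin_cases j
        · exact h0
        · exact h1
      have e : z = z 1 • ![0, 1] := by
        funext j
        fin_cases j
        · simpa using h0
        · simp
      apply hyB
      rw [e] at hy ⊢
      exact hmemB _ _ _ _ (by rw [h𝓑]; exact Finset.mem_insert_self _ _) (by simpa using hz1) hy
    set b := z 0 with hb
    set t₀ := z 1 / z 0 with ht₀
    have ez : z = ![b, b * t₀] := by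
      funext j
      fin_cases j
      · rfl
      · change z 1 = b * t₀
        have hz0' : z 0 ≠ 0 := hz0
        rw [hb, ht₀]
        field_simp
    have htb : t₀ ∉ bad := by
      intro h
      apply hyB
      have e : z = b • ![1, t₀] := by
        rw [ez]
        funext j
        fin_cases j
        · simp
        · simp
      rw [e] at hy ⊢
      refine hmemB _ _ _ _ ?_ hz0 hy
      rw [h𝓑]
      exact Finset.mem_insert_of_mem (Finset.mem_image.2 ⟨t₀, hfin.mem_toFinset.2 h, rfl⟩)
    rw [hbad, Set.mem_union, not_or] at htb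
    obtain ⟨hd, hp⟩ := htb
    rw [ez] at hy hf
    by_cases hw : w = 0
    · subst hw
      have hT : ∀ x, FQ Q x ![b, b * t₀] = bf (b ^ 4 • T0 Q t₀) x x := by
        intro x
        have h1 := FQ_taylor Q x b t₀ 0
        rw [zero_smul, add_zero] at h1
        rw [h1]
        ring
      obtain ⟨U, hU, hfU⟩ := mem_IA_iff.1 hf
      obtain ⟨V, hVU, hVo, hVx⟩ := mem_nhds_iff.1 hU
      obtain ⟨w', x', hw', hwx', hV'⟩ := near_ne σ hσ (M := b ^ 4 • T0 Q t₀)
        ((T0_symm hQ t₀).smul _) (x₀ := x) (z₀ := ![b, b * t₀])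
        (by rw [← hT, ← hy]; simp) (by
          by_contra hcon
          push Not at hcon
          have hmv : (b ^ 4 • T0 Q t₀) *ᵥ x = 0 := by
            funext i
            have h1 := hcon (Pi.single i 1)
            rw [bf_comm ((T0_symm hQ t₀).smul _), bf, single_one_dotProduct] at h1
            exact h1
          have h2 := exists_mulVec_eq_zero_iff.1 ⟨x, hx, hmv⟩
          rw [Matrix.det_smul] at h2
          exact mul_ne_zero (pow_ne_zero _ (pow_ne_zero _ hz0)) hd h2) (hVo.mem_nhds hVx)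
      refine good_ne hn σ hσ hQ hdx hw' (x₀ := x') hz0 ?_ hd hp f ?_
      · rw [hT]
        exact hwx'
      · exact mem_IA_iff.2 ⟨V, hVo.mem_nhds hV', fun y hy hyV => hfU y hy (hVU hyV)⟩
    · exact good_ne hn σ hσ hQ hdx hw hz0 hy hd hp f hf
  · exact FAon.biUnion 𝓑 fun R hR => (fib_FA hσ (hDF R) (h𝓑0 R hR)).mono fun x hx => hx.2

lemma cont_unpt {n : ℕ} : Continuous fun y : Option (Fin n ⊕ Fin 2) → L =>
    ((y none, (fun i => y (some (Sum.inl i))), fun j => y (some (Sum.inr j))) :
      L × (Fin n → L) × (Fin 2 → L)) := by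
  refine (continuous_apply _).prodMk (Continuous.prodMk ?_ ?_)
  · exact continuous_pi fun i => continuous_apply _
  · exact continuous_pi fun i => continuous_apply _

/-- the local ideal in terms of bihomogeneous coordinates -/
theorem cone24 (σ : K →+* L) (hσ : DenseRange σ) (Q : Fin 5 → Matrix (Fin n) (Fin n) K)
    {w : L} {x : Fin n → L} {s : Fin 2 → L} (hx : x ≠ 0) (hs : s ≠ 0) :
    {f : MvPolynomial (Option (Fin n ⊕ Fin 2)) K | ∃ U ∈ 𝓝 (w, x, s),
      ∀ (W : K) (Y : Fin n → K) (T : Fin 2 → K), Y ≠ 0 → T ≠ 0 → W ^ 2 = FQ Q Y T →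
        (∃ c d : L, c ≠ 0 ∧ d ≠ 0 ∧
          (c * d ^ 2 * σ W, (fun i => c * σ (Y i)), fun j => d * σ (T j)) ∈ U) →
        ∀ a b : K, MvPolynomial.eval (pt (a * b ^ 2 * W) (a • Y) (b • T)) f = 0} =
      (IA σ (SQ Q) (pt w x s) : Set (MvPolynomial (Option (Fin n ⊕ Fin 2)) K)) := by
  ext f
  constructor
  · rintro ⟨U, hU, hf⟩
    show f ∈ IA σ (SQ Q) (pt w x s)
    rw [mem_IA_iff]
    have h1 : (fun y : Option (Fin n ⊕ Fin 2) → L =>
        ((y none, (fun i => y (some (Sum.inl i))), fun j => y (some (Sum.inr j))) :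
        L × (Fin n → L) × (Fin 2 → L))) ⁻¹' (U ∩ {p | p.2.1 ≠ 0 ∧ p.2.2 ≠ 0}) ∈
        𝓝 (pt w x s) := by
      apply cont_unpt.continuousAt.preimage_mem_nhds
      refine inter_mem hU ?_
      refine IsOpen.mem_nhds ?_ ⟨hx, hs⟩
      exact (isOpen_ne.preimage (continuous_fst.comp continuous_snd)).inter
        (isOpen_ne.preimage (continuous_snd.comp continuous_snd))
    refine ⟨_, h1, fun y hy hyU => ?_⟩
    obtain ⟨W, Y, T, rfl⟩ : ∃ w x z, y = pt w x z := ⟨_, _, _, (pt_eta y).symm⟩
    have h2 := hf W Y T (by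
        rintro rfl
        apply hyU.2.1
        funext i
        simp) (by
        rintro rfl
        apply hyU.2.2
        funext i
        simp) hy ⟨1, 1, one_ne_zero, one_ne_zero, by
          simp only [one_pow, one_mul]
          exact hyU.1⟩ 1 1
    simpa using h2
  · intro hf
    obtain ⟨V, hV, hfV⟩ := mem_IA_iff.1 hf
    obtain ⟨V', hV'V, hV'o, hV'x⟩ := mem_nhds_iff.1 hV
    refine ⟨(fun p : L × (Fin n → L) × (Fin 2 → L) =>
      (pt p.1 p.2.1 p.2.2 : Option (Fin n ⊕ Fin 2) → L)) ⁻¹' V',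
      continuous_pt.continuousAt.preimage_mem_nhds (hV'o.mem_nhds hV'x), ?_⟩
    rintro W Y T hY hT hW ⟨c, d, hc, hd, hcd⟩ a b
    have hΘ : Continuous fun q : L × L => (pt (q.1 * q.2 ^ 2 * σ W) (fun i => q.1 * σ (Y i))
        (fun j => q.2 * σ (T j)) : Option (Fin n ⊕ Fin 2) → L) := by
      refine continuous_pi fun o => ?_
      rcases o with _ | i | j
      · exact (continuous_fst.mul (continuous_snd.pow 2)).mul continuous_const
      · exact continuous_fst.mul continuous_const
      · exact continuous_snd.mul continuous_const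
    have hpre : (fun q : L × L => (pt (q.1 * q.2 ^ 2 * σ W) (fun i => q.1 * σ (Y i))
        (fun j => q.2 * σ (T j)) : Option (Fin n ⊕ Fin 2) → L)) ⁻¹' V' ∈ 𝓝 (c, d) :=
      hΘ.continuousAt.preimage_mem_nhds (hV'o.mem_nhds hcd)
    obtain ⟨A, hA, B, hB, hAB⟩ := mem_nhds_prod_iff.1 hpre
    have e0 : ∀ a b : K, σ a ∈ A → σ b ∈ B →
        MvPolynomial.eval (pt (a * b ^ 2 * W) (a • Y) (b • T)) f = 0 := by
      intro a b ha hb
      apply hfV
      · rw [pt_mem_SQ, FQ_smul_left, FQ_smul_right, ← hW]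
        ring
      · apply hV'V
        have h1 : (σ a, σ b) ∈ _ := hAB (Set.mk_mem_prod ha hb)
        rw [map_pt]
        simpa using h1
    have p1 : ∀ b : K, PF1 fun a : K =>
        MvPolynomial.eval (pt (a * b ^ 2 * W) (a • Y) (b • T)) f := by
      intro b
      refine PF1.eval (φ := fun o a => pt (a * b ^ 2 * W) (a • Y) (b • T) o) ?_ f
      rintro (_ | i | j)
      · exact (PF1.id'.mul (PF1.const _)).mul (PF1.const _)
      · exact PF1.id'.mul (PF1.const _)
      · exact PF1.const _
    have p2 : ∀ a : K, PF1 fun b : K =>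
        MvPolynomial.eval (pt (a * b ^ 2 * W) (a • Y) (b • T)) f := by
      intro a
      refine PF1.eval (φ := fun o b => pt (a * b ^ 2 * W) (a • Y) (b • T) o) ?_ f
      rintro (_ | i | j)
      · exact ((PF1.const _).mul (PF1.id'.pow 2)).mul (PF1.const _)
      · exact PF1.const _
      · exact PF1.id'.mul (PF1.const _)
    refine (p2 a).zero ((infinite_near' σ hσ hB).mono fun b hb => ?_) b
    exact (p1 b).zero ((infinite_near' σ hσ hA).mono fun a ha => e0 a b ha.1 hb.1) a

end Pool.Agent.Y720.MZ
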