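import Pool.Agent.Y720.MZ.Kum2
import Pool.Agent.Y720.MZ.M24F

/-!
# Double covers `w² = A(x) q₁(z₁) ⋯ q_r(z_r)`: the local ideals (helper720)
-/

set_option autoImplicit false
set_option linter.unusedSectionVars false
set_option linter.unusedVariables false

open Filter Topology Matrix

namespace Pool.Agent.Y720.MZ

open Pool.Agent.TH729.CV

section defs

variable {K : Type*} [Field K] {n r : ℕ}

/-- the coordinates of the base -/
def ba {τ : Type*} (y : Option τ → K) : τ → K := fun i => y (some i)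

@[simp] lemma ba_po {τ : Type*} (w : K) (u : τ → K) : ba (po w u) = u := rfl

/-- the points of the double cover -/
def SK (A : Matrix (Fin n) (Fin n) K) (q : Fin r → Fin 5 → K) :
    Set (Option (Fin n ⊕ (Fin r × Fin 2)) → K) :=
  {y | y none ^ 2 = FK A q (xu (ba y)) (zu (ba y))}

/-- a stratum -/
def Str (A : Matrix (Fin n) (Fin n) K) (q : Fin r → Fin 5 → K) (J : Finset (Fin r))
    (R : Fin r → Fin 2 → K) (T : Fin r → Set K) : Set (Option (Fin n ⊕ (Fin r × Fin 2)) → K) :=
  {y | y none ≠ 0 ∧ y none ^ 2 = FK A q (xu (ba y)) (zu (ba y)) ∧ Cond J R T (zu (ba y))}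

end defs

variable {K : Type*} [Field K] [NumberField K] {L : Type*} [NontriviallyNormedField L]
  [CompleteSpace L] [CharZero L] [ProperSpace L] {n r : ℕ}

/-- **the strata with a free block are self-dense** -/
theorem str_conn (σ : K →+* L) (hσ : DenseRange σ) {A : Matrix (Fin n) (Fin n) K} (hA : A.IsSymm)
    {q : Fin r → Fin 5 → K} {J : Finset (Fin r)} {R : Fin r → Fin 2 → K} {T : Fin r → Set K}
    (hT : ∀ i, (T i).Finite)
    (hTq : ∀ i, ∀ t₀ ∉ T i, (qp (q i)).eval t₀ ≠ 0 ∧ ∀ (C w : K), w ≠ 0 →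
      w ^ 2 = C * (qp (q i)).eval t₀ → ∀ ε : ℝ, 0 < ε → ∃ t Y : K, t ≠ 0 ∧ ‖σ t‖ < ε ∧
        ‖σ (Y - w)‖ < ε ∧ Y ^ 2 = C * (qp (q i)).eval (t₀ + t))
    (hsep : ∀ i, (qp (q i)).Separable) (hdeg : ∀ i, 3 ≤ (qp (q i)).natDegree)
    (hJ : ∃ i, i ∉ J) : FA σ (Str A q J R T) := by
  classical
  obtain ⟨i₀, hi₀⟩ := hJ
  apply FA.of_conn'
  intro y₀ hy₀ f hf
  obtain ⟨U', hU', hfU'⟩ := mem_IA_iff.1 hf
  obtain ⟨U, hUU', hU, hyU⟩ := mem_nhds_iff.1 hU'
  obtain ⟨F, hF⟩ := exists_FK A q
  obtain ⟨g, h, hgh⟩ := exists_dec F f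
  have hval : ∀ w u, w ^ 2 = FK A q (xu u) (zu u) → MvPolynomial.eval (po w u) f =
      MvPolynomial.eval u g + w * MvPolynomial.eval u h := fun w u hw =>
    hgh w u (by rw [hF]; exact hw)
  have hfG : ∀ w u, w ≠ 0 → w ^ 2 = FK A q (xu u) (zu u) → Cond J R T (zu u) →
      (fun o => σ (po w u o)) ∈ U → MvPolynomial.eval u g + w * MvPolynomial.eval u h = 0 := by
    intro w u h1 h2 h3 h4
    rw [← hval w u h2]
    exact hfU' _ ⟨h1, h2, h3⟩ (hUU' h4)
  -- `g` and `h` vanish at the base points of the stratum in `U`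
  have hE : ∀ u ∈ GK σ A q J R T U, MvPolynomial.eval u g = 0 ∧ MvPolynomial.eval u h = 0 := by
    intro u hu
    obtain ⟨b, t₀, hb, hz, hC, hinf⟩ := MVi σ hσ hT hTq hU hu hi₀
    have pf : ∀ g : MvPolynomial (Fin n ⊕ (Fin r × Fin 2)) K, PF1 fun t : K =>
        MvPolynomial.eval (ov blkK (some i₀) (zv ![b, b * (t₀ + t)]) u) g := by
      intro g
      refine pf_ov blkK (some i₀) u g (pf_zv fun a => ?_)
      fin_cases a
      · exact PF1.const _
      · exact (PF1.const _).mul ((PF1.const _).add PF1.id')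
    obtain ⟨s1, s2⟩ := sq_lemma2 (hsep i₀) (hdeg i₀) (C := CK A q i₀ u * b ^ 4) (t₀ := t₀)
      (mul_ne_zero hC (pow_ne_zero 4 hb)) (pf g) (pf h) (hinf.mono fun t ht => by
        obtain ⟨Y, h1, h2, h3, h4, -⟩ := ht
        refine ⟨Y, h1, ?_⟩
        refine hfG Y _ h3 ?_ h4 h2
        rw [FK_ov, qf_pt, h1]
        ring)
    have e : ov blkK (some i₀) (zv ![b, b * (t₀ + 0)]) u = u := by
      rw [add_zero, ← hz]
      exact ov_zv_self i₀ u
    refine ⟨?_, ?_⟩
    · have := s1 0
      rwa [e] at this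
    · have := s2 0
      rwa [e] at this
  -- the movements
  set W : Option (Fin r) → Set (Fin n ⊕ (Fin r × Fin 2) → K) := fun b =>
    {v | ∀ j, b = some j → j ∈ J → ∃ c : K, zu v j = c • R j} with hW
  have hWinv : ∀ b, ∀ y y' : Fin n ⊕ (Fin r × Fin 2) → K,
      (∀ c, blkK c = b → y c = y' c) → y ∈ W b → y' ∈ W b := by
    intro b y y' hyy' hy j hj hjJ
    obtain ⟨c, hc⟩ := hy j hj hjJ
    refine ⟨c, ?_⟩
    rw [← hc]
    funext a
    exact (hyy' (Sum.inr (j, a)) (by rw [hj]; rfl)).symm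
  have hMV : ∀ b, ∀ z ∈ GK σ A q J R T U, ∀ p : MvPolynomial (Fin n ⊕ (Fin r × Fin 2)) K,
      (∀ v, ov blkK b v z ∈ GK σ A q J R T U → MvPolynomial.eval v p = 0) →
      ∀ v ∈ W b, MvPolynomial.eval v p = 0 := by
    intro b u hu p hp v hv
    rcases b with _ | i
    · exact MVx σ hσ hA hU hu hp v
    · by_cases hi : i ∈ J
      · exact MVj σ hσ hU hu hi hp v (hv i rfl hi)
      · obtain ⟨b, t₀, hb, hz, hC, hinf⟩ := MVi σ hσ hT hTq hU hu hi
        have hN : ∀ X Y : K → K, PF1 X → PF1 Y → PF1 fun τ =>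
            MvPolynomial.eval (ov blkK (some i) (zv ![X τ, Y τ]) v) p := by
          intro X Y hX hY
          refine pf_ov blkK (some i) v p (pf_zv fun a => ?_)
          fin_cases a
          · exact hX
          · exact hY
        have h1 := cone_zero (N := fun z => MvPolynomial.eval (ov blkK (some i) (zv z) v) p) hN (T := (fun t => t₀ + t) '' {t : K | ∃ Y : K, Y ^ 2 =
          CK A q i u * b ^ 4 * (qp (q i)).eval (t₀ + t) ∧
          (fun o => σ (po Y (ov blkK (some i) (zv ![b, b * (t₀ + t)]) u) o)) ∈ U ∧ Y ≠ 0 ∧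
          Cond J R T (zu (ov blkK (some i) (zv ![b, b * (t₀ + t)]) u)) ∧
          {c : K | ov blkK (some i) (zv (c • ![b, b * (t₀ + t)])) u ∈
            GK σ A q J R T U}.Infinite}) (hinf.image (add_right_injective t₀).injOn) (by
          rintro _ ⟨t, ⟨Y, -, -, -, -, hc⟩, rfl⟩
          refine (hc.image (f := fun c => c * b) (mul_left_injective₀ hb).injOn).mono ?_
          rintro _ ⟨c, hc, rfl⟩
          change MvPolynomial.eval (ov blkK (some i) (zv ![c * b, c * b * (t₀ + t)]) v) p = 0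
          apply hp
          rw [ov_ov]
          have e : (![c * b, c * b * (t₀ + t)] : Fin 2 → K) = c • ![b, b * (t₀ + t)] := by
            funext a
            fin_cases a
            · simp
            · simp [mul_assoc]
          rw [e]
          exact hc) (zu v i)
        have e2 : ![zu v i 0, zu v i 1] = zu v i := by
          funext a
          fin_cases a <;> rfl
        have e3 : ov blkK (some i) (zv (zu v i)) v = v := ov_zv_self i v
        simp only [e3] at h1
        exact h1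
  -- conclusion
  obtain ⟨u₀, w₀, hy₀e⟩ : ∃ u₀ w₀, y₀ = po w₀ u₀ := ⟨ba y₀, y₀ none, (po_eta y₀).symm⟩
  subst hy₀e
  have hu₀ : u₀ ∈ GK σ A q J R T U := ⟨w₀, hy₀.1, hy₀.2.1, hy₀.2.2, hyU⟩
  have hfin : ∀ g : MvPolynomial (Fin n ⊕ (Fin r × Fin 2)) K,
      (∀ u ∈ GK σ A q J R T U, MvPolynomial.eval u g = 0) →
      ∀ u, Cond J R T (zu u) → MvPolynomial.eval u g = 0 := by
    intro g hg u hu
    refine spread blkK hg hWinv hMV Finset.univ u₀ hu₀ u (fun c hc => (hc (Finset.mem_univ _)).elim)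
      fun b _ j hj hjJ => ?_
    obtain ⟨c, -, hc⟩ := hu.1 j hjJ
    exact ⟨c, hc⟩
  intro y hy
  obtain ⟨u, w, rfl⟩ : ∃ u w, y = po w u := ⟨ba y, y none, (po_eta y).symm⟩
  rw [hval w u hy.2.1, hfin g (fun u hu => (hE u hu).1) u hy.2.2,
    hfin h (fun u hu => (hE u hu).2) u hy.2.2, mul_zero, add_zero]

/-- the part of the double cover over `w = 0` and a quadric -/
lemma FA_quad0 (σ : K →+* L) (hσ : DenseRange σ) (A : Matrix (Fin n) (Fin n) K) :
    FA σ {y : Option (Fin n ⊕ (Fin r × Fin 2)) → K | y none = 0 ∧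
      bf A (xu (ba y)) (xu (ba y)) = 0} := by
  set q : MvPolynomial (Fin (n + 1)) K := ∑ a : Fin n, ∑ b : Fin n, MvPolynomial.C (A a b) *
      (MvPolynomial.X a.succ * MvPolynomial.X b.succ) with hq
  have hdeg : q.totalDegree ≤ 2 := by
    rw [hq]
    refine MvPolynomial.totalDegree_finsetSum_le fun a _ => ?_
    refine MvPolynomial.totalDegree_finsetSum_le fun b _ => ?_
    refine (MvPolynomial.totalDegree_mul _ _).trans ?_
    rw [MvPolynomial.totalDegree_C, zero_add]
    refine (MvPolynomial.totalDegree_mul _ _).trans ?_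
    simp
  have hval : ∀ y : Fin (n + 1) → K, MvPolynomial.eval y q =
      bf A (fun i => y i.succ) fun i => y i.succ := by
    intro y
    rw [hq]
    simp only [map_sum, map_mul, MvPolynomial.eval_X, MvPolynomial.eval_C, bf,
      dotProduct, mulVec, Finset.mul_sum]
    refine Finset.sum_congr rfl fun a _ => Finset.sum_congr rfl fun b _ => ?_
    ring
  have h1 := FA.block σ hσ (f := q) (g := MvPolynomial.X 0) (Or.inl ⟨hdeg, by simp⟩)
  set e : Fin (n + 1) → Option (Fin n ⊕ (Fin r × Fin 2)) :=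
    fun i => Fin.cases none (fun a => some (Sum.inl a)) i with he
  have hinj : Function.Injective e := by
    intro i j
    refine Fin.cases ?_ (fun i => ?_) i
    · refine Fin.cases ?_ (fun j => ?_) j
      · intro _; rfl
      · intro h; simp [e] at h
    · refine Fin.cases ?_ (fun j => ?_) j
      · intro h; simp [e] at h
      · intro h
        simp only [e, Fin.cases_succ, Option.some.injEq, Sum.inl.injEq] at h
        rw [h]
  have h2 := FA.cyl hσ h1 hinj
  have h3 : {y : Option (Fin n ⊕ (Fin r × Fin 2)) → K | (fun i => y (e i)) ∈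
      {y : Fin (n + 1) → K | MvPolynomial.eval y q = 0 ∧
        MvPolynomial.eval y (MvPolynomial.X 0 : MvPolynomial (Fin (n + 1)) K) = 0}} =
      {y : Option (Fin n ⊕ (Fin r × Fin 2)) → K | y none = 0 ∧
        bf A (xu (ba y)) (xu (ba y)) = 0} := by
    ext y
    simp only [Set.mem_ofPred_eq, hval, MvPolynomial.eval_X, e, Fin.cases_zero, Fin.cases_succ]
    exact and_comm
  rw [← h3]
  exact h2

/-- **The double covers `w² = A(x) q₁(z₁) ⋯ q_r(z_r)`.** -/
theorem mainK (σ : K →+* L) (hσ : DenseRange σ) {A : Matrix (Fin n) (Fin n) K} (hA : A.IsSymm)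
    {q : Fin r → Fin 5 → K} (hsep : ∀ i, (qp (q i)).Separable)
    (hdeg : ∀ i, 3 ≤ (qp (q i)).natDegree) :
    FAon σ (SK A q) {x | ∀ j, (fun a => x (some (Sum.inr (j, a)))) ≠ 0} := by
  classical
  have hex : ∀ i, ∃ T : Set K, T.Finite ∧ ∀ t₀ ∉ T, (qp (q i)).eval t₀ ≠ 0 ∧ ∀ (C w : K), w ≠ 0 →
      w ^ 2 = C * (qp (q i)).eval t₀ → ∀ ε : ℝ, 0 < ε → ∃ t Y : K, t ≠ 0 ∧ ‖σ t‖ < ε ∧
        ‖σ (Y - w)‖ < ε ∧ Y ^ 2 = C * (qp (q i)).eval (t₀ + t) := by
    intro i
    obtain ⟨T, hT, h⟩ := quartic_near (hsep i) (hdeg i)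
    exact ⟨T, hT, fun t₀ ht₀ => ⟨(h t₀ ht₀).1, fun C w => (h t₀ ht₀).2 σ C w⟩⟩
  choose T hT hTq using hex
  set 𝓡 : Fin r → Finset (Fin 2 → K) := fun i => insert ![0, 1] ((hT i).toFinset.image
    fun t => ![1, t]) with h𝓡
  have h𝓡0 : ∀ i, ∀ R ∈ 𝓡 i, R ≠ 0 := by
    intro i R hR h
    rw [h𝓡, Finset.mem_insert, Finset.mem_image] at hR
    rcases hR with rfl | ⟨t, -, rfl⟩
    · have := congrFun h 1
      simp at this
    · have := congrFun h 0
      simp at this
  -- a point of the line is good or a multiple of a member of `𝓡`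
  have hdich : ∀ i (z : Fin 2 → K), z ≠ 0 → (z 0 ≠ 0 ∧ z 1 / z 0 ∉ T i) ∨
      ∃ R ∈ 𝓡 i, ∃ c : K, c ≠ 0 ∧ z = c • R := by
    intro i z hz
    by_cases h0 : z 0 = 0
    · right
      refine ⟨![0, 1], Finset.mem_insert_self _ _, z 1, ?_, ?_⟩
      · intro h1
        apply hz
        funext a
        fin_cases a
        · exact h0
        · exact h1
      · funext a
        fin_cases a
        · simpa using h0
        · simp
    · by_cases h1 : z 1 / z 0 ∈ T i
      · right
        refine ⟨![1, z 1 / z 0], Finset.mem_insert_of_mem (Finset.mem_image.2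
          ⟨_, (hT i).mem_toFinset.2 h1, rfl⟩), z 0, h0, ?_⟩
        funext a
        fin_cases a
        · simp
        · simp
          field_simp
      · left
        exact ⟨h0, h1⟩
  -- the pieces
  set P1 : Set (Option (Fin n ⊕ (Fin r × Fin 2)) → K) :=
    ⋃ J ∈ (Finset.univ : Finset (Finset (Fin r))).filter (fun J => ∃ i, i ∉ J),
      ⋃ R ∈ Fintype.piFinset 𝓡, Str A q J R T with hP1
  set D : (Fin r → Fin 2 → K) → Set (Option (Fin n) → K) := fun R =>
    {u | u none ^ 2 = bf ((∏ j, qf (q j) (R j)) • A) (fun i => u (some i)) fun i => u (some i)}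
    with hD
  set P2 : Set (Option (Fin n ⊕ (Fin r × Fin 2)) → K) :=
    ⋃ R ∈ Fintype.piFinset 𝓡, fibN (D R) R with hP2
  set P3 : Set (Option (Fin n ⊕ (Fin r × Fin 2)) → K) :=
    {y | y none = 0 ∧ bf A (xu (ba y)) (xu (ba y)) = 0} with hP3
  set P4 : Set (Option (Fin n ⊕ (Fin r × Fin 2)) → K) :=
    ⋃ i ∈ (Finset.univ : Finset (Fin r)), ⋃ R ∈ insert 0 (𝓡 i),
      {y | qf (q i) R = 0 ∧ y none = 0 ∧ ∃ c : K, zu (ba y) i = c • R} with hP4
  have hS : SK A q = P1 ∪ (P2 ∪ (P3 ∪ P4)) := by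
    apply Set.Subset.antisymm
    · intro y hy
      have hy' : y none ^ 2 = FK A q (xu (ba y)) (zu (ba y)) := hy
      by_cases hw : y none = 0
      · right; right
        rw [hw, FK] at hy'
        have h1 : bf A (xu (ba y)) (xu (ba y)) * ∏ i, qf (q i) (zu (ba y) i) = 0 := by
          rw [← hy']; ring
        rcases mul_eq_zero.1 h1 with h2 | h2
        · left
          exact ⟨hw, h2⟩
        · right
          obtain ⟨i, -, hi⟩ := Finset.prod_eq_zero_iff.1 h2
          rw [hP4, Set.mem_iUnion₂]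
          refine ⟨i, Finset.mem_univ _, ?_⟩
          rw [Set.mem_iUnion₂]
          by_cases hz : zu (ba y) i = 0
          · exact ⟨0, Finset.mem_insert_self _ _, by simp [qf_eq], hw, 0, by rw [hz, zero_smul]⟩
          · rcases hdich i _ hz with ⟨h3, h4⟩ | ⟨R, hR, c, hc, hzc⟩
            · exfalso
              apply (hTq i _ h4).1
              have e : zu (ba y) i = ![zu (ba y) i 0, zu (ba y) i 0 *
                  (zu (ba y) i 1 / zu (ba y) i 0)] := by
                funext a
                fin_cases a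
                · rfl
                · simp
                  field_simp
              rw [e, qf_pt] at hi
              exact (mul_eq_zero.1 hi).resolve_left (pow_ne_zero 4 h3)
            · refine ⟨R, Finset.mem_insert_of_mem hR, ?_, hw, c, hzc⟩
              rw [hzc, qf_smul] at hi
              exact (mul_eq_zero.1 hi).resolve_left (pow_ne_zero 4 hc)
      · have hz0 : ∀ i, zu (ba y) i ≠ 0 := by
          intro i h0
          apply hw
          have h1 : qf (q i) (zu (ba y) i) = 0 := by rw [h0]; simp [qf_eq]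
          rw [FK, Finset.prod_eq_zero (Finset.mem_univ i) h1, mul_zero] at hy'
          exact pow_eq_zero_iff two_ne_zero |>.1 hy'
        set J : Finset (Fin r) := Finset.univ.filter fun i => ∃ R ∈ 𝓡 i, ∃ c : K, c ≠ 0 ∧
          zu (ba y) i = c • R with hJ
        have hR : ∀ i, ∃ R ∈ 𝓡 i, i ∈ J → ∃ c : K, c ≠ 0 ∧ zu (ba y) i = c • R := by
          intro i
          by_cases hi : i ∈ J
          · obtain ⟨R, hR, h⟩ := (Finset.mem_filter.1 hi).2
            exact ⟨R, hR, fun _ => h⟩
          · exact ⟨![0, 1], Finset.mem_insert_self _ _, fun h => (hi h).elim⟩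
        choose R hR hRJ using hR
        have hRm : R ∈ Fintype.piFinset 𝓡 := Fintype.mem_piFinset.2 hR
        by_cases hJu : ∃ i, i ∉ J
        · left
          rw [hP1, Set.mem_iUnion₂]
          refine ⟨J, Finset.mem_filter.2 ⟨Finset.mem_univ _, hJu⟩, ?_⟩
          rw [Set.mem_iUnion₂]
          refine ⟨R, hRm, hw, hy', hRJ, fun i hi => ?_⟩
          rcases hdich i _ (hz0 i) with h | ⟨R', hR', h⟩
          · exact h
          · exact (hi (Finset.mem_filter.2 ⟨Finset.mem_univ _, R', hR', h⟩)).elim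
        · right; left
          push Not at hJu
          have h1 : ∀ i, ∃ c : K, c ≠ 0 ∧ zu (ba y) i = c • R i := fun i => hRJ i (hJu i)
          choose c hc hzc using h1
          have hcp : ∏ j, c j ≠ 0 := Finset.prod_ne_zero_iff.2 fun j _ => hc j
          rw [hP2, Set.mem_iUnion₂]
          refine ⟨R, hRm, c, hc, fun o => o.elim (y none / (∏ j, c j) ^ 2) (xu (ba y)), ?_, ?_⟩
          · change (y none / (∏ j, c j) ^ 2) ^ 2 = bf ((∏ j, qf (q j) (R j)) • A) (xu (ba y))
              (xu (ba y))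
            rw [div_pow, hy', FK, bf_smul_mat]
            have e : ∏ i, qf (q i) (zu (ba y) i) = (∏ j, c j) ^ 4 * ∏ j, qf (q j) (R j) := by
              rw [← Finset.prod_pow, ← Finset.prod_mul_distrib]
              refine Finset.prod_congr rfl fun i _ => ?_
              rw [hzc i, qf_smul]
            rw [e]
            field_simp
          · funext o
            rcases o with _ | i | ⟨j, a⟩
            · simp only [ptN_none, Option.elim_none]
              field_simp
            · rfl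
            · simp only [ptN_inr]
              exact congrFun (hzc j) a
    · rintro y (hy | hy | hy | hy)
      · rw [hP1, Set.mem_iUnion₂] at hy
        obtain ⟨J, -, hy⟩ := hy
        rw [Set.mem_iUnion₂] at hy
        obtain ⟨R, -, hy⟩ := hy
        exact hy.2.1
      · rw [hP2, Set.mem_iUnion₂] at hy
        obtain ⟨R, -, c, hc, u, hu, rfl⟩ := hy
        have h1 : u none ^ 2 = bf ((∏ j, qf (q j) (R j)) • A) (fun i => u (some i))
          fun i => u (some i) := hu
        change ((∏ j, c j) ^ 2 * u none) ^ 2 = FK A q (fun i => u (some i)) fun j => c j • R j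
        rw [mul_pow, h1, FK, bf_smul_mat]
        have e : ∏ i, qf (q i) (c i • R i) = (∏ j, c j) ^ 4 * ∏ j, qf (q j) (R j) := by
          rw [← Finset.prod_pow, ← Finset.prod_mul_distrib]
          refine Finset.prod_congr rfl fun i _ => ?_
          rw [qf_smul]
        rw [e]
        ring
      · change y none ^ 2 = FK A q (xu (ba y)) (zu (ba y))
        rw [hy.1, FK, hy.2]
        ring
      · rw [hP4, Set.mem_iUnion₂] at hy
        obtain ⟨i, -, hy⟩ := hy
        rw [Set.mem_iUnion₂] at hy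
        obtain ⟨R, -, h1, h2, c, h3⟩ := hy
        change y none ^ 2 = FK A q (xu (ba y)) (zu (ba y))
        rw [h2, FK, Finset.prod_eq_zero (Finset.mem_univ i) (by rw [h3, qf_smul, h1, mul_zero])]
        ring
  rw [hS]
  refine FAon.union ?_ (FAon.union ?_ (FAon.union ?_ ?_))
  · refine FAon.biUnion _ fun J hJ => FAon.biUnion _ fun R _ => FA.on ?_ _
    exact str_conn σ hσ hA hT hTq hsep hdeg (Finset.mem_filter.1 hJ).2
  · refine FAon.biUnion _ fun R hR => ?_
    exact fibN_FA hσ (FA_quad σ hσ _) fun j => h𝓡0 j _ (Fintype.mem_piFinset.1 hR j)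
  · exact FA.on (FA_quad0 σ hσ A) _
  · refine FAon.biUnion _ fun i _ => FAon.biUnion _ fun R _ => FA.on ?_ _
    apply FA.convex hσ
    rintro y ⟨h1, h2, c, h3⟩ y' ⟨-, h2', c', h3'⟩ t
    refine ⟨h1, ?_, c + t * (c' - c), ?_⟩
    · simp only [Pi.add_apply, Pi.smul_apply, Pi.sub_apply, h2, h2', smul_eq_mul]
      ring
    · funext a
      have e1 := congrFun h3 a
      have e2 := congrFun h3' a
      simp only [zu, ba, Pi.smul_apply, smul_eq_mul] at e1 e2
      simp only [zu, ba, Pi.add_apply, Pi.smul_apply, Pi.sub_apply, smul_eq_mul, e1, e2]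
      ring

end Pool.Agent.Y720.MZ
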