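import Pool.Agent.Y720.MZ.Kum3

/-!
# Multihomogeneous coordinates; the case of bidegree `(2,4)` without exceptions (helper720)
-/

set_option autoImplicit false
set_option linter.unusedSectionVars false
set_option linter.unusedVariables false

open Filter Topology Matrix

namespace Pool.Agent.Y720.MZ

open Pool.Agent.TH729.CV

variable {K : Type*} [Field K] {L : Type*} [NontriviallyNormedField L]
  [CompleteSpace L] [CharZero L] {n r : ℕ}

/-- reindexing -/
theorem FAon.reindex {τ τ' : Type*} [Finite τ] [Finite τ'] {σ : K →+* L} (e : τ ≃ τ')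
    {D : Set (τ → K)} {Ω : Set (τ → L)} (h : FAon σ D Ω) :
    FAon σ {y : τ' → K | (fun i => y (e i)) ∈ D} {x : τ' → L | (fun i => x (e i)) ∈ Ω} := by
  unfold FAon at h ⊢
  refine (h.image fun I => Ideal.comap (MvPolynomial.rename e.symm :
    MvPolynomial τ' K →ₐ[K] MvPolynomial τ K) I).subset ?_
  rintro _ ⟨x, hx, rfl⟩
  refine ⟨_, ⟨fun i => x (e i), hx, rfl⟩, ?_⟩
  ext f
  simp only [Ideal.mem_comap]
  rw [mem_IA_iff, mem_IA_iff]
  have hev : ∀ y : τ → K, MvPolynomial.eval y (MvPolynomial.rename e.symm f) =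
      MvPolynomial.eval (fun i => y (e.symm i)) f := by
    intro y
    rw [MvPolynomial.eval_rename]
    rfl
  constructor
  · rintro ⟨U, hU, hf⟩
    have hc : Continuous fun z : τ' → L => (fun i => z (e i)) :=
      continuous_pi fun i => continuous_apply _
    refine ⟨_, hc.continuousAt.preimage_mem_nhds hU, fun y hy hyU => ?_⟩
    have h1 := hf (fun i => y (e i)) hy hyU
    rw [hev] at h1
    simpa using h1
  · rintro ⟨U, hU, hf⟩
    have hc : Continuous fun z : τ → L => (fun i => z (e.symm i)) :=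
      continuous_pi fun i => continuous_apply _
    refine ⟨_, hc.continuousAt.preimage_mem_nhds (by simpa using hU), fun y hy hyU => ?_⟩
    rw [hev]
    exact hf _ (by simpa using hy) hyU

lemma continuous_ptN : Continuous fun p : L × (Fin n → L) × (Fin r → Fin 2 → L) =>
    (ptN p.1 p.2.1 p.2.2 : Option (Fin n ⊕ (Fin r × Fin 2)) → L) := by
  refine continuous_pi fun o => ?_
  rcases o with _ | i | ⟨j, a⟩
  · exact continuous_fst
  · exact (continuous_apply i).comp (continuous_fst.comp continuous_snd)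
  · exact (continuous_apply a).comp ((continuous_apply j).comp (continuous_snd.comp continuous_snd))

lemma cont_unptN : Continuous fun y : Option (Fin n ⊕ (Fin r × Fin 2)) → L =>
    ((y none, (fun i => y (some (Sum.inl i))), fun j a => y (some (Sum.inr (j, a)))) :
      L × (Fin n → L) × (Fin r → Fin 2 → L)) := by
  refine (continuous_apply _).prodMk (Continuous.prodMk ?_ ?_)
  · exact continuous_pi fun i => continuous_apply _
  · exact continuous_pi fun i => continuous_pi fun a => continuous_apply _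

lemma ptN_mem_SK (A : Matrix (Fin n) (Fin n) K) (q : Fin r → Fin 5 → K) (w : K) (x : Fin n → K)
    (z : Fin r → Fin 2 → K) : ptN w x z ∈ SK A q ↔ w ^ 2 = FK A q x z := Iff.rfl

lemma FK_scale (A : Matrix (Fin n) (Fin n) K) (q : Fin r → Fin 5 → K) (a : K) (b : Fin r → K)
    (x : Fin n → K) (z : Fin r → Fin 2 → K) : FK A q (a • x) (fun j => b j • z j) =
      a ^ 2 * (∏ j, b j) ^ 4 * FK A q x z := by
  rw [FK, FK, bf_smul_left, bf_smul_right]
  have e : ∏ i, qf (q i) (b i • z i) = (∏ j, b j) ^ 4 * ∏ j, qf (q j) (z j) := by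
    rw [← Finset.prod_pow, ← Finset.prod_mul_distrib]
    refine Finset.prod_congr rfl fun i _ => ?_
    rw [qf_smul]
  rw [e]
  ring

/-- the local ideal in terms of multihomogeneous coordinates -/
theorem coneK (σ : K →+* L) (hσ : DenseRange σ) (A : Matrix (Fin n) (Fin n) K)
    (q : Fin r → Fin 5 → K) {w : L} {x : Fin n → L} {s : Fin r → Fin 2 → L} (hx : x ≠ 0)
    (hs : ∀ j, s j ≠ 0) :
    {f : MvPolynomial (Option (Fin n ⊕ (Fin r × Fin 2))) K | ∃ U ∈ 𝓝 (w, x, s),
      ∀ (W : K) (Y : Fin n → K) (Z : Fin r → Fin 2 → K), Y ≠ 0 → (∀ j, Z j ≠ 0) →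
        W ^ 2 = FK A q Y Z →
        (∃ (c : L) (d : Fin r → L), c ≠ 0 ∧ (∀ j, d j ≠ 0) ∧
          (c * (∏ j, d j) ^ 2 * σ W, (fun i => c * σ (Y i)), fun j a => d j * σ (Z j a)) ∈ U) →
        ∀ (a : K) (b : Fin r → K), MvPolynomial.eval
          (ptN (a * (∏ j, b j) ^ 2 * W) (a • Y) (fun j => b j • Z j)) f = 0} =
      (IA σ (SK A q) (ptN w x s) : Set (MvPolynomial (Option (Fin n ⊕ (Fin r × Fin 2))) K)) := by
  ext f
  constructor
  · rintro ⟨U, hU, hf⟩
    show f ∈ IA σ (SK A q) (ptN w x s)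
    rw [mem_IA_iff]
    have h1 : (fun y : Option (Fin n ⊕ (Fin r × Fin 2)) → L =>
        ((y none, (fun i => y (some (Sum.inl i))), fun j a => y (some (Sum.inr (j, a)))) :
        L × (Fin n → L) × (Fin r → Fin 2 → L))) ⁻¹' (U ∩ {p | p.2.1 ≠ 0 ∧ ∀ j, p.2.2 j ≠ 0}) ∈
        𝓝 (ptN w x s) := by
      apply cont_unptN.continuousAt.preimage_mem_nhds
      refine inter_mem hU ?_
      refine IsOpen.mem_nhds ?_ ⟨hx, hs⟩
      refine (isOpen_ne.preimage (continuous_fst.comp continuous_snd)).inter ?_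
      have : {p : L × (Fin n → L) × (Fin r → Fin 2 → L) | ∀ j, p.2.2 j ≠ 0} =
          ⋂ j, {p | p.2.2 j ≠ 0} := by
        ext p; simp
      change IsOpen {p : L × (Fin n → L) × (Fin r → Fin 2 → L) | ∀ j, p.2.2 j ≠ 0}
      rw [this]
      refine isOpen_iInter_of_finite fun j => ?_
      exact isOpen_ne.preimage ((continuous_apply j).comp (continuous_snd.comp continuous_snd))
    refine ⟨_, h1, fun y hy hyU => ?_⟩
    obtain ⟨W, Y, Z, rfl⟩ : ∃ w x z, y = ptN w x z := ⟨_, _, _, (ptN_eta y).symm⟩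
    have h2 := hf W Y Z (by
        rintro rfl
        apply hyU.2.1
        funext i
        simp) (by
        intro j hj
        apply hyU.2.2 j
        funext a
        simp [hj]) hy ⟨1, fun _ => 1, one_ne_zero, fun _ => one_ne_zero, by
          simp only [Finset.prod_const_one, one_pow, one_mul]
          exact hyU.1⟩ 1 (fun _ => 1)
    simpa using h2
  · intro hf
    obtain ⟨V, hV, hfV⟩ := mem_IA_iff.1 hf
    obtain ⟨V', hV'V, hV'o, hV'x⟩ := mem_nhds_iff.1 hV
    refine ⟨(fun p : L × (Fin n → L) × (Fin r → Fin 2 → L) =>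
      (ptN p.1 p.2.1 p.2.2 : Option (Fin n ⊕ (Fin r × Fin 2)) → L)) ⁻¹' V',
      continuous_ptN.continuousAt.preimage_mem_nhds (hV'o.mem_nhds hV'x), ?_⟩
    rintro W Y Z hY hZ hW ⟨c, d, hc, hd, hcd⟩ a b
    have hΘ : Continuous fun p : L × (Fin r → L) => (ptN (p.1 * (∏ j, p.2 j) ^ 2 * σ W)
        (fun i => p.1 * σ (Y i)) (fun j a => p.2 j * σ (Z j a)) :
          Option (Fin n ⊕ (Fin r × Fin 2)) → L) := by
      refine continuous_pi fun o => ?_
      rcases o with _ | i | ⟨j, a⟩
      · exact (continuous_fst.mul ((continuous_finsetProd _ fun j _ =>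
          (continuous_apply j).comp continuous_snd).pow 2)).mul continuous_const
      · exact continuous_fst.mul continuous_const
      · exact ((continuous_apply j).comp continuous_snd).mul continuous_const
    have hpre : (fun p : L × (Fin r → L) => (ptN (p.1 * (∏ j, p.2 j) ^ 2 * σ W)
        (fun i => p.1 * σ (Y i)) (fun j a => p.2 j * σ (Z j a)) :
          Option (Fin n ⊕ (Fin r × Fin 2)) → L)) ⁻¹' V' ∈ 𝓝 (c, d) :=
      hΘ.continuousAt.preimage_mem_nhds (hV'o.mem_nhds hcd)
    obtain ⟨A', hA', B, hB, hAB⟩ := mem_nhds_prod_iff.1 hpre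
    rw [nhds_pi, Filter.mem_pi'] at hB
    obtain ⟨I, B', hB', hBI⟩ := hB
    have e0 : ∀ (a : K) (b : Fin r → K), σ a ∈ A' → (∀ j, σ (b j) ∈ B' j) →
        MvPolynomial.eval (ptN (a * (∏ j, b j) ^ 2 * W) (a • Y) (fun j => b j • Z j)) f = 0 := by
      intro a b ha hb
      apply hfV
      · rw [ptN_mem_SK, FK_scale, ← hW]
        ring
      · apply hV'V
        have h1 : (σ a, fun j => σ (b j)) ∈ _ := hAB (Set.mk_mem_prod ha (hBI fun j _ => hb j))
        rw [map_ptN]
        simpa using h1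
    have p1 : PF1 fun a : K =>
        MvPolynomial.eval (ptN (a * (∏ j, b j) ^ 2 * W) (a • Y) (fun j => b j • Z j)) f := by
      refine PF1.eval (φ := fun o a => ptN (a * (∏ j, b j) ^ 2 * W) (a • Y)
        (fun j => b j • Z j) o) ?_ f
      rintro (_ | i | ⟨j, a⟩)
      · exact (PF1.id'.mul (PF1.const _)).mul (PF1.const _)
      · exact PF1.id'.mul (PF1.const _)
      · exact PF1.const _
    refine p1.zero ((infinite_near' σ hσ hA').mono fun a ha => ?_) a
    obtain ⟨p, hp⟩ := exists_csubN f (po (a * W) (a • Y)) Z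
    have hp' : ∀ b : Fin r → K, MvPolynomial.eval b p =
        MvPolynomial.eval (ptN (a * (∏ j, b j) ^ 2 * W) (a • Y) (fun j => b j • Z j)) f := by
      intro b
      rw [hp]
      simp only [po_none, po_some]
      congr 3
      ring
    have hp0 : p = 0 := by
      apply MvPolynomial.funext_set (s := fun j => {c : K | σ c ∈ B' j ∧ c ≠ 0})
        (fun j => infinite_near' σ hσ (hB' j))
      intro b hb
      rw [map_zero, hp']
      exact e0 a b ha.1 fun j => (hb j (Set.mem_univ j)).1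
    change MvPolynomial.eval (ptN (a * (∏ j, b j) ^ 2 * W) (a • Y) (fun j => b j • Z j)) f = 0
    rw [← hp', hp0, map_zero]

/-- **the double covers branched along divisors of bidegree `(2,4)`, without exceptions** -/
theorem main24' [NumberField K] [ProperSpace L] (hn : 2 ≤ n) (σ : K →+* L) (hσ : DenseRange σ)
    {Q : Fin 5 → Matrix (Fin n) (Fin n) K} (hQ : ∀ i, (Q i).IsSymm)
    (hdet : ∃ t, (T0 Q t).det ≠ 0)
    (hsep : ∃ x, 3 ≤ (qpol (bf (Q 0) x x) (bf (Q 1) x x) (bf (Q 2) x x) (bf (Q 3) x x)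
      (bf (Q 4) x x)).natDegree ∧ (qpol (bf (Q 0) x x) (bf (Q 1) x x) (bf (Q 2) x x)
      (bf (Q 3) x x) (bf (Q 4) x x)).Separable) :
    FAon σ (SQ Q) {x | (fun i => x (some (Sum.inl i))) ≠ 0 ∧
      (fun j => x (some (Sum.inr j))) ≠ 0} := by
  obtain ⟨x₀, hx3, hxs⟩ := hsep
  by_cases hprod : ∃ (A : Matrix (Fin n) (Fin n) K) (h : Fin 5 → K), ∀ i, Q i = h i • A
  · obtain ⟨A, h, hQA⟩ := hprod
    have hval : ∀ i, bf (Q i) x₀ x₀ = bf A x₀ x₀ * h i := fun i => by
      rw [hQA i, bf_smul_mat]; ring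
    have hA0 : bf A x₀ x₀ ≠ 0 := by
      intro h0
      simp only [hval, h0, zero_mul] at hx3
      have : qpol (0 : K) 0 0 0 0 = 0 := by simp [qpol]
      rw [this, Polynomial.natDegree_zero] at hx3
      omega
    have hqp : qpol (bf (Q 0) x₀ x₀) (bf (Q 1) x₀ x₀) (bf (Q 2) x₀ x₀) (bf (Q 3) x₀ x₀)
        (bf (Q 4) x₀ x₀) = Polynomial.C (bf A x₀ x₀) * qp h := by
      simp only [hval, qp, qpol, map_mul]
      ring
    rw [hqp] at hx3 hxs
    have hsep' : (qp h).Separable := hxs.of_mul_right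
    have hdeg' : 3 ≤ (qp h).natDegree := by
      rwa [Polynomial.natDegree_C_mul hA0] at hx3
    have hAs : A.IsSymm := by
      obtain ⟨i, hi⟩ : ∃ i, h i ≠ 0 := by
        by_contra hcon
        push Not at hcon
        have : qp h = 0 := by simp [qp, qpol, hcon]
        rw [this, Polynomial.natDegree_zero] at hdeg'
        omega
      have h1 := hQ i
      rw [hQA i, Matrix.IsSymm, Matrix.transpose_smul] at h1
      exact smul_right_injective _ hi h1
    have h1 := mainK (r := 1) σ hσ hAs (q := fun _ => h) (fun _ => hsep') fun _ => hdeg'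
    let e0 : (Fin 1 × Fin 2) ≃ Fin 2 := Equiv.uniqueProd (Fin 2) (Fin 1)
    let e : Option (Fin n ⊕ (Fin 1 × Fin 2)) ≃ Option (Fin n ⊕ Fin 2) :=
      Equiv.optionCongr (Equiv.sumCongr (Equiv.refl _) e0)
    have h2 := h1.reindex e
    have h3 : {y : Option (Fin n ⊕ Fin 2) → K | (fun i => y (e i)) ∈ SK A fun _ : Fin 1 => h} =
        SQ Q := by
      ext y
      change y none ^ 2 = FK A (fun _ => h) (fun i => y (some (Sum.inl i)))
        (fun _ a => y (some (Sum.inr a))) ↔ y none ^ 2 = FQ Q (fun i => y (some (Sum.inl i)))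
          fun j => y (some (Sum.inr j))
      have : FK A (fun _ : Fin 1 => h) (fun i => y (some (Sum.inl i)))
          (fun _ a => y (some (Sum.inr a))) = FQ Q (fun i => y (some (Sum.inl i)))
          fun j => y (some (Sum.inr j)) := by
        rw [FK, FQ_eq]
        simp only [Finset.univ_unique, Finset.prod_singleton, qf_eq, hQA, bf_smul_mat]
        ring
      rw [this]
    rw [h3] at h2
    refine h2.mono ?_
    rintro x ⟨-, hx⟩ j
    exact hx
  · exact main24 hn σ hσ hQ hdet hprod ⟨x₀, dc_ne_zero hxs hx3⟩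

end Pool.Agent.Y720.MZ
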