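import Pool.Agent.Y720.MZ.Loc
import Pool.Agent.Y720.MZ.Fib
import Pool.Agent.W279.Tri.LocComp

/-!
# Mazur's question for the double covers branched along divisors of bidegree `(2,4)` (helper720)
-/

set_option autoImplicit false
set_option linter.unusedSectionVars false
set_option linter.unusedVariables false

open Filter Topology Matrix

namespace Pool.Agent.Y720.MZ

open Pool.Agent.TH729.CV

section alg

variable {K : Type*} [Field K]

lemma PF1.prod {ι : Type*} (s : Finset ι) {N : ι → K → K} (hN : ∀ i ∈ s, PF1 (N i)) :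
    PF1 fun τ => ∏ i ∈ s, N i τ := by
  classical
  induction s using Finset.induction_on with
  | empty => simpa using PF1.const 1
  | insert i s hi ih =>
    simp only [Finset.prod_insert hi]
    exact (hN i (Finset.mem_insert_self _ _)).mul
      (ih fun j hj => hN j (Finset.mem_insert_of_mem hj))

lemma PF1.det {n : ℕ} {M : K → Matrix (Fin n) (Fin n) K} (hM : ∀ i j, PF1 fun t => M t i j) :
    PF1 fun t => (M t).det := by
  simp only [Matrix.det_apply']
  exact PF1.sum _ fun s _ => (PF1.const _).mul (PF1.prod _ fun i _ => hM _ _)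

/-- the Wronskian -/
lemma wronskian_dep [CharZero K] {p q : Polynomial K} (hp : p ≠ 0)
    (h : Polynomial.derivative p * q = Polynomial.derivative q * p) :
    ∃ c : K, q = Polynomial.C c * p := by
  classical
  let _ := EuclideanDomain.gcdMonoid (Polynomial K)
  have hg0 : GCDMonoid.gcd p q ≠ 0 := by
    intro h0
    exact hp ((gcd_eq_zero_iff p q).1 h0).1
  obtain ⟨d, a, b, hpa, hqb, hab⟩ : ∃ d a b, p = d * a ∧ q = d * b ∧ IsCoprime a b := by
    refine ⟨GCDMonoid.gcd p q, p / GCDMonoid.gcd p q, q / GCDMonoid.gcd p q, ?_, ?_, ?_⟩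
    · exact (EuclideanDomain.mul_div_cancel' hg0 (gcd_dvd_left p q)).symm
    · exact (EuclideanDomain.mul_div_cancel' hg0 (gcd_dvd_right p q)).symm
    · exact isCoprime_div_gcd_div_gcd_of_gcd_ne_zero hg0
  have hd0 : d ≠ 0 := by
    intro h0
    rw [h0, zero_mul] at hpa
    exact hp hpa
  have hw : Polynomial.wronskian a b = 0 := by
    rw [Polynomial.wronskian]
    apply mul_left_cancel₀ (pow_ne_zero 2 hd0)
    rw [hpa, hqb, Polynomial.derivative_mul, Polynomial.derivative_mul] at h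
    rw [mul_zero]
    linear_combination -h
  obtain ⟨ha, hb⟩ := hab.wronskian_eq_zero_iff.1 hw
  have ha' := Polynomial.eq_C_of_natDegree_eq_zero
    (Polynomial.derivative_eq_zero.1 ha)
  have hb' := Polynomial.eq_C_of_natDegree_eq_zero
    (Polynomial.derivative_eq_zero.1 hb)
  have ha0 : a.coeff 0 ≠ 0 := by
    intro h0
    rw [h0, map_zero] at ha'
    rw [ha', mul_zero] at hpa
    exact hp hpa
  refine ⟨b.coeff 0 / a.coeff 0, ?_⟩
  rw [hqb, hpa]
  conv_lhs => rw [hb']
  conv_rhs => rw [ha']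
  rw [Polynomial.coeff_C_zero]
  have e : (Polynomial.C (b.coeff 0) : Polynomial K) =
      Polynomial.C (b.coeff 0 / a.coeff 0) * Polynomial.C (a.coeff 0) := by
    rw [← map_mul, div_mul_cancel₀ _ ha0]
  rw [e]
  ring

variable {n : ℕ}

lemma bf_basis (M : Matrix (Fin n) (Fin n) K) (a b : Fin n) :
    bf M (Pi.single a 1) (Pi.single b 1) = M a b := by
  rw [bf, single_one_dotProduct, mulVec_single_one]
  rfl

lemma bf_zero_left (M : Matrix (Fin n) (Fin n) K) (y : Fin n → K) : bf M 0 y = 0 := by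
  simp [bf]

lemma symm_ext [CharZero K] {M N : Matrix (Fin n) (Fin n) K} (hM : M.IsSymm) (hN : N.IsSymm)
    (h : ∀ x, bf M x x = bf N x x) : M = N := by
  ext a b
  rw [← bf_basis M, ← bf_basis N]
  have h1 := h (Pi.single a 1 + Pi.single b 1)
  simp only [bf_add_left, bf_add_right] at h1
  rw [bf_comm hM (Pi.single b 1) (Pi.single a 1), bf_comm hN (Pi.single b 1) (Pi.single a 1)] at h1
  have h2 : (2 : K) * bf M (Pi.single a 1) (Pi.single b 1) =
      2 * bf N (Pi.single a 1) (Pi.single b 1) := by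
    linear_combination h1 - h (Pi.single a 1) - h (Pi.single b 1)
  exact mul_left_cancel₀ two_ne_zero h2

lemma bf_T0 (Q : Fin 5 → Matrix (Fin n) (Fin n) K) (t : K) (x : Fin n → K) :
    bf (T0 Q t) x x = (qpol (bf (Q 0) x x) (bf (Q 1) x x) (bf (Q 2) x x) (bf (Q 3) x x)
      (bf (Q 4) x x)).eval t := by
  simp only [T0, bf_add_mat, bf_smul_mat, qpol, Polynomial.eval_add, Polynomial.eval_mul,
    Polynomial.eval_C, Polynomial.eval_pow, Polynomial.eval_X]
  ring

lemma bf_T1 (Q : Fin 5 → Matrix (Fin n) (Fin n) K) (t : K) (x : Fin n → K) :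
    bf (T1 Q t) x x = (Polynomial.derivative (qpol (bf (Q 0) x x) (bf (Q 1) x x) (bf (Q 2) x x)
      (bf (Q 3) x x) (bf (Q 4) x x))).eval t := by
  simp only [T1, bf_add_mat, bf_smul_mat, qpol, Polynomial.derivative_add,
    Polynomial.derivative_C_mul, Polynomial.derivative_C, Polynomial.derivative_X,
    Polynomial.derivative_X_pow, Polynomial.eval_add, Polynomial.eval_mul,
    Polynomial.eval_C, Polynomial.eval_pow, Polynomial.eval_X, Polynomial.eval_one,
    Polynomial.eval_zero]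
  push_cast
  ring

/-- for almost all fibres the next Taylor coefficient is not proportional -/
theorem finite_prop [CharZero K] {Q : Fin 5 → Matrix (Fin n) (Fin n) K} (hQ : ∀ i, (Q i).IsSymm)
    (hprod : ¬∃ (A : Matrix (Fin n) (Fin n) K) (h : Fin 5 → K), ∀ i, Q i = h i • A) :
    {t : K | ∃ c, ∀ x, bf (T1 Q t) x x = c * bf (T0 Q t) x x}.Finite := by
  by_contra hinf
  apply hprod
  set p : (Fin n → K) → Polynomial K := fun x => qpol (bf (Q 0) x x) (bf (Q 1) x x)
    (bf (Q 2) x x) (bf (Q 3) x x) (bf (Q 4) x x) with hp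
  have h1 : ∀ x y, Polynomial.derivative (p y) * p x = Polynomial.derivative (p x) * p y := by
    intro x y
    apply Polynomial.eq_of_infinite_eval_eq
    refine Set.Infinite.mono ?_ hinf
    rintro t ⟨c, hc⟩
    change (_ : Polynomial K).eval t = (_ : Polynomial K).eval t
    rw [Polynomial.eval_mul, Polynomial.eval_mul, ← bf_T0, ← bf_T1, ← bf_T0, ← bf_T1, hc, hc]
    ring
  by_cases h0 : ∃ y, p y ≠ 0
  · obtain ⟨y, hy⟩ := h0
    have h2 : ∀ x, ∃ c : K, p x = Polynomial.C c * p y := fun x => wronskian_dep hy (h1 x y)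
    choose c hc using h2
    have h3 : ∀ x i, bf (Q i) x x = c x * bf (Q i) y y := by
      intro x
      have h4 := hc x
      rw [hp] at h4
      simp only at h4
      have h5 : Polynomial.C (c x) * qpol (bf (Q 0) y y) (bf (Q 1) y y) (bf (Q 2) y y)
          (bf (Q 3) y y) (bf (Q 4) y y) = qpol (c x * bf (Q 0) y y) (c x * bf (Q 1) y y)
          (c x * bf (Q 2) y y) (c x * bf (Q 3) y y) (c x * bf (Q 4) y y) := by
        simp only [qpol, map_mul]
        ring
      rw [h5] at h4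
      obtain ⟨a0, a1, a2, a3, a4⟩ := qpol_inj h4
      intro i
      fin_cases i
      · exact a0
      · exact a1
      · exact a2
      · exact a3
      · exact a4
    obtain ⟨i₀, hi₀⟩ : ∃ i, bf (Q i) y y ≠ 0 := by
      by_contra hall
      push Not at hall
      apply hy
      rw [hp]
      simp only [hall]
      simp [qpol]
    refine ⟨Q i₀, fun i => bf (Q i) y y / bf (Q i₀) y y, fun i => ?_⟩
    apply symm_ext (hQ i) ((hQ i₀).smul _)
    intro x
    rw [bf_smul_mat, h3 x i, h3 x i₀]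
    field_simp
  · push Not at h0
    refine ⟨0, fun _ => 0, fun i => ?_⟩
    rw [smul_zero]
    apply symm_ext (hQ i) (Matrix.isSymm_zero)
    intro x
    have h2 := h0 x
    rw [hp] at h2
    simp only at h2
    have h5 : (0 : Polynomial K) = qpol 0 0 0 0 0 := by simp [qpol]
    rw [h5] at h2
    obtain ⟨a0, a1, a2, a3, a4⟩ := qpol_inj h2
    have e0 : bf (0 : Matrix (Fin n) (Fin n) K) x x = 0 := by simp [bf]
    rw [e0]
    fin_cases i
    · exact a0
    · exact a1
    · exact a2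
    · exact a3
    · exact a4

/-- for almost all fibres the determinant does not vanish -/
theorem finite_det {Q : Fin 5 → Matrix (Fin n) (Fin n) K} (hdet : ∃ t, (T0 Q t).det ≠ 0) :
    {t : K | (T0 Q t).det = 0}.Finite := by
  obtain ⟨t, ht⟩ := hdet
  have h : PF1 fun t => (T0 Q t).det := by
    apply PF1.det
    intro i j
    simp only [T0, Matrix.add_apply, Matrix.smul_apply, smul_eq_mul]
    exact ((((PF1.const _).add (PF1.id'.mul (PF1.const _))).add
      ((PF1.id'.pow 2).mul (PF1.const _))).add ((PF1.id'.pow 3).mul (PF1.const _))).add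
      ((PF1.id'.pow 4).mul (PF1.const _))
  exact h.finite ht

end alg

/-- the points of the double cover -/
def SQ {K : Type*} [Field K] {n : ℕ} (Q : Fin 5 → Matrix (Fin n) (Fin n) K) :
    Set (Option (Fin n ⊕ Fin 2) → K) :=
  {y | y none ^ 2 = FQ Q (fun i => y (some (Sum.inl i))) fun j => y (some (Sum.inr j))}

lemma pt_mem_SQ {K : Type*} [Field K] {n : ℕ} (Q : Fin 5 → Matrix (Fin n) (Fin n) K) (w : K)
    (x : Fin n → K) (z : Fin 2 → K) : pt w x z ∈ SQ Q ↔ w ^ 2 = FQ Q x z := Iff.rfl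

/-- the polynomial -/
lemma exists_FQ {K : Type*} [Field K] {n : ℕ} (Q : Fin 5 → Matrix (Fin n) (Fin n) K) :
    ∃ G : MvPolynomial (Fin n ⊕ Fin 2) K, ∀ x z, MvPolynomial.eval (Sum.elim x z) G = FQ Q x z := by
  refine ⟨∑ i : Fin 5, MvPolynomial.X (Sum.inr 0) ^ (4 - (i : ℕ)) *
    MvPolynomial.X (Sum.inr 1) ^ (i : ℕ) * ∑ a, MvPolynomial.X (Sum.inl a) *
      ∑ b, MvPolynomial.C (Q i a b) * MvPolynomial.X (Sum.inl b), fun x z => ?_⟩
  simp only [FQ, bf, dotProduct, mulVec, map_sum, map_mul, map_pow, MvPolynomial.eval_X,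
    MvPolynomial.eval_C, Sum.elim_inl, Sum.elim_inr]

variable {K : Type*} [Field K] [NumberField K] {L : Type*}
  [NontriviallyNormedField L] [CompleteSpace L] [CharZero L] [ProperSpace L] {n : ℕ}

lemma continuous_pt {n : ℕ} : Continuous fun p : L × (Fin n → L) × (Fin 2 → L) =>
    (pt p.1 p.2.1 p.2.2 : Option (Fin n ⊕ Fin 2) → L) := by
  refine continuous_pi fun o => ?_
  rcases o with _ | i | j
  · exact continuous_fst
  · exact (continuous_apply i).comp (continuous_fst.comp continuous_snd)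
  · exact (continuous_apply j).comp (continuous_snd.comp continuous_snd)

/-- the good points with `w ≠ 0` -/
theorem good_ne (hn : 2 ≤ n) (σ : K →+* L) (hσ : DenseRange σ)
    {Q : Fin 5 → Matrix (Fin n) (Fin n) K}
    (hQ : ∀ i, (Q i).IsSymm) (hdx : ∃ x, dx (Q 0) (Q 1) (Q 2) (Q 3) (Q 4) x ≠ 0)
    {w₀ : K} (hw : w₀ ≠ 0) {x₀ : Fin n → K} {b t₀ : K} (hb : b ≠ 0)
    (h0 : w₀ ^ 2 = FQ Q x₀ ![b, b * t₀]) (hdet : (T0 Q t₀).det ≠ 0)
    (hnd : ¬∃ c, ∀ x, bf (T1 Q t₀) x x = c * bf (T0 Q t₀) x x) :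
    ∀ f ∈ IA σ (SQ Q) (fun i => σ (pt w₀ x₀ ![b, b * t₀] i)), f ∈ VI (SQ Q) := by
  intro f hf
  obtain ⟨U, hU, hfU⟩ := mem_IA_iff.1 hf
  obtain ⟨G, hG⟩ := exists_FQ Q
  obtain ⟨g, h, hgh⟩ := exists_dec G f
  have hT0 : w₀ ^ 2 = b ^ 4 * bf (T0 Q t₀) x₀ x₀ := by
    have h1 := FQ_taylor Q x₀ b t₀ 0
    rw [zero_smul, add_zero, ← h0, bf_smul_mat] at h1
    linear_combination h1
  have hq0 : bf (T0 Q t₀) x₀ x₀ ≠ 0 := by
    intro h
    rw [h, mul_zero] at hT0
    exact hw (pow_eq_zero_iff two_ne_zero |>.1 hT0)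
  have hval : ∀ w x z, w ^ 2 = FQ Q x z → MvPolynomial.eval (pt w x z) f =
      MvPolynomial.eval (Sum.elim x z) g + w * MvPolynomial.eval (Sum.elim x z) h := by
    intro w x z hw
    exact hgh w (Sum.elim x z) (by rw [hG]; exact hw)
  have hpre : (fun p : L × (Fin n → L) × (Fin 2 → L) =>
      (pt p.1 p.2.1 p.2.2 : Option (Fin n ⊕ Fin 2) → L)) ⁻¹' U ∈
      𝓝 (σ w₀, (fun i => σ (x₀ i)), fun j => σ (![b, b * t₀] j)) := by
    apply continuous_pt.continuousAt.preimage_mem_nhds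
    simp only
    rw [← map_pt]
    exact hU
  have main := block_local σ hσ hQ hw hb h0 (by
      -- the anisotropic vector
      have h2 : bf (b ^ 4 • T0 Q t₀) x₀ x₀ = w₀ ^ 2 := by rw [bf_smul_mat, hT0]
      obtain ⟨y, hy⟩ := exists_aniso hn ((T0_symm hQ t₀).smul (b ^ 4)) (by
        rw [Matrix.det_smul]
        exact mul_ne_zero (pow_ne_zero _ (pow_ne_zero _ hb)) hdet) hw h2
      refine ⟨psi (b ^ 4 • T0 Q t₀) w₀ x₀ y, ?_, ?_⟩
      · have h3 := bf_psi hw h2 y
        rw [bf_smul_mat] at h3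
        exact (mul_eq_zero.1 h3).resolve_left (pow_ne_zero 4 hb)
      · rw [bf_smul_mat] at hy
        exact right_ne_zero_of_mul hy) (by
      by_contra hcon
      push Not at hcon
      apply hnd
      refine ⟨bf (T1 Q t₀) x₀ x₀ / bf (T0 Q t₀) x₀ x₀, fun x => ?_⟩
      field_simp
      linear_combination hcon x) hdx g h hpre (by
      intro w x z hw hm
      rw [← hval w x z hw]
      refine hfU _ ((pt_mem_SQ Q w x z).2 hw) ?_
      rw [map_pt]
      exact hm)
  intro y hy
  have h1 := hval (y none) (fun i => y (some (Sum.inl i))) (fun j => y (some (Sum.inr j))) hy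
  rw [pt_eta] at h1
  obtain ⟨m1, m2⟩ := main (fun i => y (some (Sum.inl i))) (fun j => y (some (Sum.inr j)))
  rw [h1, m1, m2, mul_zero, add_zero]

/-- points with `w ≠ 0` close to a point with `w = 0` -/
theorem near_ne (σ : K →+* L) (hσ : DenseRange σ) {M : Matrix (Fin n) (Fin n) K} (hM : M.IsSymm)
    {x₀ : Fin n → K} (h0 : bf M x₀ x₀ = 0) (hv : ∃ v, bf M x₀ v ≠ 0) {z₀ : Fin 2 → K}
    {U : Set (Option (Fin n ⊕ Fin 2) → L)} (hU : U ∈ 𝓝 fun i => σ (pt (0 : K) x₀ z₀ i)) :
    ∃ (w : K) (x : Fin n → K), w ≠ 0 ∧ w ^ 2 = bf M x x ∧ (fun i => σ (pt w x z₀ i)) ∈ U := by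
  obtain ⟨v, hv⟩ := hv
  set β := bf M x₀ v with hβ
  set γ := bf M v v with hγ
  set Φ : L → (Option (Fin n ⊕ Fin 2) → L) := fun s =>
    pt (2 * σ β * s / (1 - σ γ * s ^ 2))
      (fun i => σ (x₀ i) + 2 * σ β * s ^ 2 / (1 - σ γ * s ^ 2) * σ (v i)) (fun j => σ (z₀ j)) with hΦ
  have hΦ0 : Φ 0 = fun i => σ (pt (0 : K) x₀ z₀ i) := by
    rw [map_pt, hΦ]
    simp
  have hd0 : (1 : L) - σ γ * (0 : L) ^ 2 ≠ 0 := by simp
  have hc1 : Continuous fun s : L => 1 - σ γ * s ^ 2 := by fun_prop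
  have hc2 : Continuous fun s : L => 2 * σ β * s ^ 2 := by fun_prop
  have hc3 : Continuous fun s : L => 2 * σ β * s := by fun_prop
  have hΦc : ContinuousAt Φ 0 := by
    rw [continuousAt_pi]
    intro o
    rcases o with _ | i | j
    · exact hc3.continuousAt.div hc1.continuousAt hd0
    · exact continuousAt_const.add ((hc2.continuousAt.div hc1.continuousAt hd0).mul
        continuousAt_const)
    · exact continuousAt_const
  have hpre : Φ ⁻¹' U ∩ {s | (1 : L) - σ γ * s ^ 2 ≠ 0} ∈ 𝓝 (0 : L) := by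
    refine inter_mem (hΦc.preimage_mem_nhds (by rw [hΦ0]; exact hU)) ?_
    refine IsOpen.mem_nhds ?_ hd0
    exact isOpen_ne_fun (by fun_prop) continuous_const
  obtain ⟨s, ⟨hsU, hsd⟩, hs0⟩ := (infinite_near' σ hσ hpre).nonempty
  have hd : 1 - γ * s ^ 2 ≠ 0 := by
    intro h
    apply hsd
    have := congrArg σ h
    simpa using this
  refine ⟨2 * β * s / (1 - γ * s ^ 2), x₀ + (2 * β * s ^ 2 / (1 - γ * s ^ 2)) • v, ?_, ?_, ?_⟩
  · exact div_ne_zero (mul_ne_zero (mul_ne_zero two_ne_zero hv) hs0) hd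
  · simp only [bf_add_left, bf_add_right, bf_smul_left, bf_smul_right, h0,
      bf_comm hM v x₀, ← hβ, ← hγ]
    obtain ⟨e, he⟩ : ∃ e, e = 1 - γ * s ^ 2 := ⟨_, rfl⟩
    rw [← he] at hd ⊢
    have e1 : 2 * β * s / e * (2 * β * s / e) = 4 * β ^ 2 * s ^ 2 * (e + γ * s ^ 2) / e ^ 2 := by
      have : e + γ * s ^ 2 = 1 := by rw [he]; ring
      rw [this]
      field_simp
      ring
    rw [pow_two, e1]
    field_simp
    ring
  · rw [map_pt]
    have h1 : Φ (σ s) ∈ U := hsU
    have h2 : Φ (σ s) = pt (σ (2 * β * s / (1 - γ * s ^ 2)))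
        (fun i => σ ((x₀ + (2 * β * s ^ 2 / (1 - γ * s ^ 2)) • v) i)) fun j => σ (z₀ j) := by
      rw [hΦ]
      simp only [map_div₀, map_mul, map_sub, map_one, map_pow, map_ofNat, Pi.add_apply,
        Pi.smul_apply, smul_eq_mul, map_add]
    rw [← h2]
    exact h1

end Pool.Agent.Y720.MZ
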