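import Pool.Agent.Y720.MZ.Plane

/-!
# Polynomial functions (helper720)
-/

set_option autoImplicit false

open Filter Topology

namespace Pool.Agent.Y720.MZ

variable {K : Type*} [Field K]

/-- polynomial functions of one variable -/
def PF1 (N : K → K) : Prop := ∃ P : Polynomial K, ∀ τ, P.eval τ = N τ

namespace PF1

lemma const (c : K) : PF1 fun _ : K => c := ⟨.C c, fun τ => by simp⟩

lemma id' : PF1 fun τ : K => τ := ⟨.X, fun τ => by simp⟩

lemma add {N M : K → K} (hN : PF1 N) (hM : PF1 M) : PF1 fun τ => N τ + M τ := by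
  obtain ⟨P, hP⟩ := hN
  obtain ⟨Q, hQ⟩ := hM
  exact ⟨P + Q, fun τ => by rw [Polynomial.eval_add, hP, hQ]⟩

lemma mul {N M : K → K} (hN : PF1 N) (hM : PF1 M) : PF1 fun τ => N τ * M τ := by
  obtain ⟨P, hP⟩ := hN
  obtain ⟨Q, hQ⟩ := hM
  exact ⟨P * Q, fun τ => by rw [Polynomial.eval_mul, hP, hQ]⟩

lemma neg {N : K → K} (hN : PF1 N) : PF1 fun τ => -N τ := by
  obtain ⟨P, hP⟩ := hN
  exact ⟨-P, fun τ => by rw [Polynomial.eval_neg, hP]⟩

lemma sub {N M : K → K} (hN : PF1 N) (hM : PF1 M) : PF1 fun τ => N τ - M τ := by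
  obtain ⟨P, hP⟩ := hN
  obtain ⟨Q, hQ⟩ := hM
  exact ⟨P - Q, fun τ => by rw [Polynomial.eval_sub, hP, hQ]⟩

lemma pow {N : K → K} (hN : PF1 N) (n : ℕ) : PF1 fun τ => N τ ^ n := by
  obtain ⟨P, hP⟩ := hN
  exact ⟨P ^ n, fun τ => by rw [Polynomial.eval_pow, hP]⟩

lemma sum {ι : Type*} (s : Finset ι) {N : ι → K → K} (hN : ∀ i ∈ s, PF1 (N i)) :
    PF1 fun τ => ∑ i ∈ s, N i τ := by
  classical
  induction s using Finset.induction_on with
  | empty => simpa using const 0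
  | insert i s hi ih =>
    simp only [Finset.sum_insert hi]
    exact (hN i (Finset.mem_insert_self _ _)).add
      (ih fun j hj => hN j (Finset.mem_insert_of_mem hj))

lemma eval {κ : Type*} {φ : κ → K → K} (hφ : ∀ i, PF1 (φ i)) (g : MvPolynomial κ K) :
    PF1 fun τ => MvPolynomial.eval (fun i => φ i τ) g := by
  induction g using MvPolynomial.induction_on with
  | C a => simpa using const a
  | add p q hp hq => simpa using hp.add hq
  | mul_X p i hp => simpa using hp.mul (hφ i)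

lemma zero {N : K → K} (hN : PF1 N) (h : {τ | N τ = 0}.Infinite) (τ : K) : N τ = 0 := by
  obtain ⟨P, hP⟩ := hN
  have : P = 0 := by
    apply Polynomial.eq_zero_of_infinite_isRoot
    refine h.mono fun t ht => ?_
    change P.eval t = 0
    rw [hP]
    exact ht
  rw [← hP, this, Polynomial.eval_zero]

lemma finite {N : K → K} (hN : PF1 N) {τ : K} (h : N τ ≠ 0) : {τ | N τ = 0}.Finite := by
  by_contra hinf
  exact h (hN.zero hinf τ)

end PF1

variable {ι : Type*}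

/-- functions which are polynomial on lines -/
def PF (N : (ι → K) → K) : Prop := ∀ y y' : ι → K, PF1 fun τ => N (y + τ • (y' - y))

namespace PF

lemma const (c : K) : PF fun _ : ι → K => c := fun _ _ => PF1.const c

lemma coord (i : ι) : PF fun y : ι → K => y i := fun y y' => by
  simp only [Pi.add_apply, Pi.smul_apply, smul_eq_mul]
  exact (PF1.const _).add (PF1.id'.mul (PF1.const _))

lemma add {N M : (ι → K) → K} (hN : PF N) (hM : PF M) : PF fun y => N y + M y :=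
  fun y y' => (hN y y').add (hM y y')

lemma mul {N M : (ι → K) → K} (hN : PF N) (hM : PF M) : PF fun y => N y * M y :=
  fun y y' => (hN y y').mul (hM y y')

lemma neg {N : (ι → K) → K} (hN : PF N) : PF fun y => -N y := fun y y' => (hN y y').neg

lemma sub {N M : (ι → K) → K} (hN : PF N) (hM : PF M) : PF fun y => N y - M y :=
  fun y y' => (hN y y').sub (hM y y')

lemma pow {N : (ι → K) → K} (hN : PF N) (n : ℕ) : PF fun y => N y ^ n :=
  fun y y' => (hN y y').pow n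

lemma sum {α : Type*} (s : Finset α) {N : α → (ι → K) → K} (hN : ∀ i ∈ s, PF (N i)) :
    PF fun y => ∑ i ∈ s, N i y := fun y y' => PF1.sum s fun i hi => hN i hi y y'

lemma eval {κ : Type*} {φ : κ → (ι → K) → K} (hφ : ∀ i, PF (φ i)) (g : MvPolynomial κ K) :
    PF fun y => MvPolynomial.eval (fun i => φ i y) g :=
  fun y y' => PF1.eval (fun i => hφ i y y') g

end PF

/-- open conditions on lines -/
def LO (p : (ι → K) → Prop) : Prop := ∀ y y' : ι → K, p y → {τ : K | ¬p (y + τ • (y' - y))}.Finite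

lemma PF.lo {N : (ι → K) → K} (hN : PF N) : LO fun y => N y ≠ 0 := by
  intro y y' hy
  simp only [not_not]
  refine (hN y y').finite (τ := 0) ?_
  rw [zero_smul, add_zero]
  exact hy

lemma LO.and {p q : (ι → K) → Prop} (hp : LO p) (hq : LO q) : LO fun y => p y ∧ q y := by
  rintro y y' ⟨h1, h2⟩
  refine ((hp y y' h1).union (hq y y' h2)).subset ?_
  intro τ hτ
  rw [Set.mem_ofPred_eq, not_and_or] at hτ
  exact hτ

lemma LO.or {p q : (ι → K) → Prop} (hp : LO p) (hq : LO q) : LO fun y => p y ∨ q y := by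
  rintro y y' (h | h)
  · refine (hp y y' h).subset fun τ hτ => ?_
    rw [Set.mem_ofPred_eq, not_or] at hτ
    exact hτ.1
  · refine (hq y y' h).subset fun τ hτ => ?_
    rw [Set.mem_ofPred_eq, not_or] at hτ
    exact hτ.2

lemma LO.inter [Infinite K] {p q : (ι → K) → Prop} (hp : LO p) (hq : LO q) (h1 : ∃ y, p y)
    (h2 : ∃ y, q y) : ∃ y, p y ∧ q y := by
  obtain ⟨y, hy⟩ := h1
  obtain ⟨y', hy'⟩ := h2
  have e1 := hp y y' hy
  have e2 := (hq y' y hy').image fun τ => 1 - τ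
  obtain ⟨τ, hτ⟩ := Set.Infinite.nonempty ((e1.union e2).infinite_compl)
  rw [Set.mem_compl_iff, Set.mem_union, not_or] at hτ
  refine ⟨y + τ • (y' - y), not_not.1 hτ.1, ?_⟩
  by_contra hcon
  refine hτ.2 ⟨1 - τ, ?_, by ring⟩
  have e : y' + (1 - τ) • (y - y') = y + τ • (y' - y) := by module
  rw [Set.mem_ofPred_eq, e]
  exact hcon

lemma PF.zero_of [Infinite K] {N : (ι → K) → K} (hN : PF N) {p : (ι → K) → Prop} (hp : LO p)
    (h1 : ∃ y, p y) (h : ∀ y, p y → N y = 0) (y : ι → K) : N y = 0 := by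
  obtain ⟨y₀, hy₀⟩ := h1
  have h2 := (hN y₀ y).zero (((hp y₀ y hy₀).infinite_compl).mono fun τ hτ => by
    rw [Set.mem_compl_iff, Set.mem_ofPred_eq, not_not] at hτ
    exact h _ hτ) 1
  have e : y₀ + (1 : K) • (y - y₀) = y := by module
  rwa [e] at h2

/-! ### Squares -/

/-- the polynomial with the coefficients `q₀, …, q₄` -/
noncomputable def qpol (q₀ q₁ q₂ q₃ q₄ : K) : Polynomial K :=
  .C q₀ + .C q₁ * .X + .C q₂ * .X ^ 2 + .C q₃ * .X ^ 3 + .C q₄ * .X ^ 4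

/-- the discriminant -/
def dc {R : Type*} [CommRing R] (q₀ q₁ q₂ q₃ q₄ : R) : R :=
  dsc q₂ (q₁ * q₃ - 4 * q₀ * q₄) (q₁ ^ 2 * q₄ + q₀ * q₃ ^ 2 - 4 * q₀ * q₂ * q₄)

lemma dq_eq (w q₁ q₂ q₃ q₄ : K) : dq w q₁ q₂ q₃ q₄ = dc (w ^ 2) q₁ q₂ q₃ q₄ := by
  rw [dq, dc, rb, rc]

lemma qpol_not_sq {q₀ q₁ q₂ q₃ q₄ : K} (h : dc q₀ q₁ q₂ q₃ q₄ ≠ 0) (c : Polynomial K) :
    qpol q₀ q₁ q₂ q₃ q₄ ≠ c ^ 2 := by
  intro hc
  apply h
  have hdeg : (qpol q₀ q₁ q₂ q₃ q₄).natDegree ≤ 4 := by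
    unfold qpol; compute_degree
  have hcdeg : c.natDegree ≤ 2 := by
    rw [hc, Polynomial.natDegree_pow] at hdeg
    omega
  have hc' : c = .C (c.coeff 0) + .C (c.coeff 1) * .X + .C (c.coeff 2) * .X ^ 2 := by
    conv_lhs => rw [c.as_sum_range_C_mul_X_pow' (n := 3) (by omega)]
    simp [Finset.sum_range_succ]
  set α := c.coeff 0
  set β := c.coeff 1
  set γ := c.coeff 2
  have hsq : c ^ 2 = qpol (α ^ 2) (2 * α * β) (β ^ 2 + 2 * α * γ) (2 * β * γ) (γ ^ 2) := by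
    rw [hc', qpol]
    simp only [map_pow, map_mul, map_add, map_ofNat]
    ring
  rw [hsq] at hc
  have hcoef : ∀ a₀ a₁ a₂ a₃ a₄ : K, (qpol a₀ a₁ a₂ a₃ a₄).coeff 0 = a₀ ∧
      (qpol a₀ a₁ a₂ a₃ a₄).coeff 1 = a₁ ∧ (qpol a₀ a₁ a₂ a₃ a₄).coeff 2 = a₂ ∧
      (qpol a₀ a₁ a₂ a₃ a₄).coeff 3 = a₃ ∧ (qpol a₀ a₁ a₂ a₃ a₄).coeff 4 = a₄ := by
    intro a₀ a₁ a₂ a₃ a₄
    simp [qpol, Polynomial.coeff_X, Polynomial.coeff_C, Polynomial.coeff_X_pow]
  obtain ⟨a0, a1, a2, a3, a4⟩ := hcoef q₀ q₁ q₂ q₃ q₄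
  obtain ⟨b0, b1, b2, b3, b4⟩ := hcoef (α ^ 2) (2 * α * β) (β ^ 2 + 2 * α * γ) (2 * β * γ) (γ ^ 2)
  rw [hc] at a0 a1 a2 a3 a4
  rw [← a0, ← a1, ← a2, ← a3, ← a4, b0, b1, b2, b3, b4, dc, dsc]
  ring

lemma sq_lemma {q₀ q₁ q₂ q₃ q₄ : K} (h : dc q₀ q₁ q₂ q₃ q₄ ≠ 0) {G H : K → K} (hG : PF1 G)
    (hH : PF1 H) (hinf : {t : K | ∃ Y, Y ^ 2 = q₀ + q₁ * t + q₂ * t ^ 2 + q₃ * t ^ 3 + q₄ * t ^ 4 ∧
      G t + Y * H t = 0}.Infinite) : (∀ t, G t = 0) ∧ ∀ t, H t = 0 := by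
  obtain ⟨P, hP⟩ := hG
  obtain ⟨Q, hQ⟩ := hH
  have e1 : P ^ 2 = Q ^ 2 * qpol q₀ q₁ q₂ q₃ q₄ := by
    apply Polynomial.eq_of_infinite_eval_eq
    refine hinf.mono ?_
    rintro t ⟨Y, hY, h0⟩
    change (P ^ 2).eval t = (Q ^ 2 * qpol q₀ q₁ q₂ q₃ q₄).eval t
    rw [Polynomial.eval_pow, Polynomial.eval_mul, Polynomial.eval_pow, hP, hQ]
    have : (qpol q₀ q₁ q₂ q₃ q₄).eval t = Y ^ 2 := by rw [hY]; simp [qpol]
    rw [this]
    linear_combination (G t - Y * H t) * h0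
  by_cases hQ0 : Q = 0
  · rw [hQ0, zero_pow two_ne_zero, zero_mul] at e1
    have hP0 : P = 0 := pow_eq_zero_iff two_ne_zero |>.1 e1
    exact ⟨fun t => by rw [← hP, hP0, Polynomial.eval_zero],
      fun t => by rw [← hQ, hQ0, Polynomial.eval_zero]⟩
  · exfalso
    have h1 : Q ^ 2 ∣ P ^ 2 := ⟨_, e1⟩
    have h2 : Q ∣ P := (IsIntegrallyClosed.pow_dvd_pow_iff two_ne_zero).1 h1
    obtain ⟨c, rfl⟩ := h2
    apply qpol_not_sq h c
    apply mul_left_cancel₀ (pow_ne_zero 2 hQ0)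
    rw [← e1, mul_pow]

end Pool.Agent.Y720.MZ
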