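import Pool.Agent.Y720.MZ.Acc

/-!
# A criterion for points of infinite order: points close to the origin for a nonarchimedean
absolute value (helper720)
-/

set_option autoImplicit false

open WeierstrassCurve

namespace Pool.Agent.Y720.MZ

section alg

variable {K : Type*} [Field K]

/-- the three points of a line, near the origin -/
lemma line_sum {a b c x₁ x₂ x₃ ℓ ν : K} (E1 : x₁ + x₂ + x₃ = ℓ ^ 2 - a)
    (E2 : x₁ * x₂ + x₁ * x₃ + x₂ * x₃ = b - 2 * ℓ * ν) (E3 : x₁ * x₂ * x₃ = ν ^ 2 - c)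
    (hν : ν ≠ 0) (h1 : ℓ * x₁ + ν ≠ 0) (h2 : ℓ * x₂ + ν ≠ 0)
    (hD : 1 + a * (-ℓ / ν) + b * (-ℓ / ν) ^ 2 + c * (-ℓ / ν) ^ 3 ≠ 0) :
    ℓ * x₃ + ν ≠ 0 ∧ x₃ / (ℓ * x₃ + ν) = -(x₁ / (ℓ * x₁ + ν)) - x₂ / (ℓ * x₂ + ν) -
      (a * (1 / ν) + 2 * b * (-ℓ / ν) * (1 / ν) + 3 * c * (-ℓ / ν) ^ 2 * (1 / ν)) /
        (1 + a * (-ℓ / ν) + b * (-ℓ / ν) ^ 2 + c * (-ℓ / ν) ^ 3) := by
  have hprod : (ℓ * x₁ + ν) * (ℓ * x₂ + ν) * (ℓ * x₃ + ν) =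
      ν ^ 3 - a * ℓ * ν ^ 2 + b * ℓ ^ 2 * ν - c * ℓ ^ 3 := by
    linear_combination ℓ ^ 3 * E3 + ℓ ^ 2 * ν * E2 + ℓ * ν ^ 2 * E1
  have hD' : ν ^ 3 - a * ℓ * ν ^ 2 + b * ℓ ^ 2 * ν - c * ℓ ^ 3 ≠ 0 := by
    intro h0
    apply hD
    field_simp
    linear_combination h0
  have h3 : ℓ * x₃ + ν ≠ 0 := by
    intro h0
    apply hD'
    rw [← hprod, h0, mul_zero]
  refine ⟨h3, ?_⟩
  have hsum : x₁ * (ℓ * x₂ + ν) * (ℓ * x₃ + ν) + x₂ * (ℓ * x₁ + ν) * (ℓ * x₃ + ν) +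
      x₃ * (ℓ * x₁ + ν) * (ℓ * x₂ + ν) = -(a * ν ^ 2 - 2 * b * ℓ * ν + 3 * c * ℓ ^ 2) := by
    linear_combination 3 * ℓ ^ 2 * E3 + 2 * ℓ * ν * E2 + ν ^ 2 * E1
  have e : (a * (1 / ν) + 2 * b * (-ℓ / ν) * (1 / ν) + 3 * c * (-ℓ / ν) ^ 2 * (1 / ν)) /
        (1 + a * (-ℓ / ν) + b * (-ℓ / ν) ^ 2 + c * (-ℓ / ν) ^ 3) =
      (a * ν ^ 2 - 2 * b * ℓ * ν + 3 * c * ℓ ^ 2) /
        (ν ^ 3 - a * ℓ * ν ^ 2 + b * ℓ ^ 2 * ν - c * ℓ ^ 3) := by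
    have e1 : a * (1 / ν) + 2 * b * (-ℓ / ν) * (1 / ν) + 3 * c * (-ℓ / ν) ^ 2 * (1 / ν) =
        (a * ν ^ 2 - 2 * b * ℓ * ν + 3 * c * ℓ ^ 2) / ν ^ 3 := by
      field_simp
      ring
    have e2 : 1 + a * (-ℓ / ν) + b * (-ℓ / ν) ^ 2 + c * (-ℓ / ν) ^ 3 =
        (ν ^ 3 - a * ℓ * ν ^ 2 + b * ℓ ^ 2 * ν - c * ℓ ^ 3) / ν ^ 3 := by
      field_simp
      ring
    rw [e1, e2, div_div_div_cancel_right₀ (pow_ne_zero 3 hν)]
  have e3 : (a * ν ^ 2 - 2 * b * ℓ * ν + 3 * c * ℓ ^ 2) = -(x₁ * (ℓ * x₂ + ν) * (ℓ * x₃ + ν) +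
      x₂ * (ℓ * x₁ + ν) * (ℓ * x₃ + ν) + x₃ * (ℓ * x₁ + ν) * (ℓ * x₂ + ν)) := by
    rw [hsum]; ring
  rw [e, ← hprod, e3]
  generalize ℓ * x₁ + ν = y₁ at *
  generalize ℓ * x₂ + ν = y₂ at *
  generalize ℓ * x₃ + ν = y₃ at *
  field_simp
  ring

/-- Vieta for the chord -/
lemma vieta_chord {a b c x₁ x₂ y₁ y₂ ℓ ν : K} (hx : x₁ ≠ x₂)
    (h1 : y₁ ^ 2 = x₁ ^ 3 + a * x₁ ^ 2 + b * x₁ + c)
    (h2 : y₂ ^ 2 = x₂ ^ 3 + a * x₂ ^ 2 + b * x₂ + c) (hy1 : y₁ = ℓ * x₁ + ν)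
    (hy2 : y₂ = ℓ * x₂ + ν) :
    x₁ * x₂ + x₁ * (ℓ ^ 2 - a - x₁ - x₂) + x₂ * (ℓ ^ 2 - a - x₁ - x₂) = b - 2 * ℓ * ν ∧
    x₁ * x₂ * (ℓ ^ 2 - a - x₁ - x₂) = ν ^ 2 - c := by
  have hx' : x₁ - x₂ ≠ 0 := sub_ne_zero.2 hx
  rw [hy1] at h1
  rw [hy2] at h2
  have e2 : x₁ * x₂ + x₁ * (ℓ ^ 2 - a - x₁ - x₂) + x₂ * (ℓ ^ 2 - a - x₁ - x₂) = b - 2 * ℓ * ν := by
    apply mul_left_cancel₀ hx'
    linear_combination h1 - h2
  refine ⟨e2, ?_⟩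
  linear_combination x₁ * e2 - h1

/-- Vieta for the tangent -/
lemma vieta_tangent {a b c x y ℓ ν : K}
    (h1 : y ^ 2 = x ^ 3 + a * x ^ 2 + b * x + c) (hy1 : y = ℓ * x + ν)
    (hℓ : ℓ * (2 * y) = 3 * x ^ 2 + 2 * a * x + b) :
    x * x + x * (ℓ ^ 2 - a - x - x) + x * (ℓ ^ 2 - a - x - x) = b - 2 * ℓ * ν ∧
    x * x * (ℓ ^ 2 - a - x - x) = ν ^ 2 - c := by
  rw [hy1] at h1 hℓ
  have e2 : x * x + x * (ℓ ^ 2 - a - x - x) + x * (ℓ ^ 2 - a - x - x) = b - 2 * ℓ * ν := by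
    linear_combination hℓ
  refine ⟨e2, ?_⟩
  linear_combination x * e2 - h1

end alg

section val

variable {K : Type*} [Field K] {v : AbsoluteValue K ℝ}

lemma na_add (hv : IsNonarchimedean v) {x y : K} {r : ℝ} (hx : v x ≤ r) (hy : v y ≤ r) :
    v (x + y) ≤ r := (hv x y).trans (max_le hx hy)

lemma na_sub (hv : IsNonarchimedean v) {x y : K} {r : ℝ} (hx : v x ≤ r) (hy : v y ≤ r) :
    v (x - y) ≤ r := by
  rw [sub_eq_add_neg]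
  exact na_add hv hx (by rwa [v.map_neg])

lemma na_lt (hv : IsNonarchimedean v) {x y : K} {r : ℝ} (hx : v x < r) (hy : v y < r) :
    v (x + y) < r := (hv x y).trans_lt (max_lt hx hy)

lemma na_eq (hv : IsNonarchimedean v) {x y : K} (h : v y < v x) : v (x + y) = v x := by
  refine le_antisymm (na_add hv le_rfl h.le) ?_
  by_contra hc
  push Not at hc
  have : v ((x + y) - y) < v x := by
    rw [sub_eq_add_neg]
    exact na_lt hv hc (by rwa [v.map_neg])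
  rw [add_sub_cancel_right] at this
  exact lt_irrefl _ this

lemma na_one_add (hv : IsNonarchimedean v) {y : K} (h : v y < 1) : v (1 + y) = 1 := by
  rw [na_eq hv (by rwa [v.map_one]), v.map_one]

lemma na_nat (hv : IsNonarchimedean v) (n : ℕ) : v (n : K) ≤ 1 := by
  induction n with
  | zero => simp
  | succ n ih =>
    rw [Nat.cast_succ]
    exact na_add hv ih (by rw [v.map_one])

/-- the ordinate of a point with a large abscissa -/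
lemma val_y (hv : IsNonarchimedean v) {a b c x y : K} (ha : v a ≤ 1) (hb : v b ≤ 1) (hc : v c ≤ 1)
    (hx : 1 < v x) (h : y ^ 2 = x ^ 3 + a * x ^ 2 + b * x + c) : v y ^ 2 = v x ^ 3 := by
  have h0 : 0 < v x := one_pos.trans hx
  have h12 : v x < v x ^ 2 := by nlinarith
  have h23 : v x ^ 2 < v x ^ 3 := by nlinarith [sq_nonneg (v x)]
  have e : x ^ 3 + a * x ^ 2 + b * x + c = x ^ 3 + (a * x ^ 2 + (b * x + c)) := by ring
  rw [← map_pow, h, e, na_eq hv, map_pow]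
  rw [map_pow]
  refine na_lt hv ?_ (na_lt hv ?_ ?_)
  · rw [map_mul, map_pow]
    calc v a * v x ^ 2 ≤ 1 * v x ^ 2 := by gcongr
      _ < v x ^ 3 := by rw [one_mul]; exact h23
  · rw [map_mul]
    calc v b * v x ≤ 1 * v x := by gcongr
      _ < v x ^ 3 := by rw [one_mul]; exact h12.trans h23
  · exact hc.trans_lt (hx.trans (h12.trans h23))

/-- the parameters of a point with a large abscissa -/
lemma val_ts (hv : IsNonarchimedean v) {a b c x y : K} (ha : v a ≤ 1) (hb : v b ≤ 1) (hc : v c ≤ 1)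
    (hx : 1 < v x) (h : y ^ 2 = x ^ 3 + a * x ^ 2 + b * x + c) :
    y ≠ 0 ∧ v (x / y) ^ 2 * v x = 1 ∧ v (x / y) < 1 ∧ 0 < v (x / y) ∧ v (1 / y) = v (x / y) ^ 3 := by
  have h0 : 0 < v x := one_pos.trans hx
  have h1 := val_y hv ha hb hc hx h
  have hy : y ≠ 0 := by
    intro hy
    rw [hy, map_zero, zero_pow two_ne_zero] at h1
    exact (pow_pos h0 3).ne h1
  have hy0 : 0 < v y := v.pos hy
  have hx0 : x ≠ 0 := by
    intro hx0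
    rw [hx0, map_zero] at h0
    exact lt_irrefl _ h0
  have h2 : v (x / y) ^ 2 * v x = 1 := by
    rw [map_div₀, div_pow, h1]
    field_simp
  have h3 : 0 < v (x / y) := v.pos (div_ne_zero hx0 hy)
  have h4 : v (x / y) < 1 := by
    by_contra hc
    push Not at hc
    have h5 : 1 ≤ v (x / y) ^ 2 := one_le_pow₀ hc
    nlinarith
  refine ⟨hy, h2, h4, h3, ?_⟩
  rw [map_div₀, map_one, map_div₀, div_pow]
  have : v x ^ 3 = v y ^ 2 := h1.symm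
  rw [this]
  field_simp

/-- a point with a small parameter has a large abscissa -/
lemma one_lt_of_y (hv : IsNonarchimedean v) {a b c x y : K} (ha : v a ≤ 1) (hb : v b ≤ 1)
    (hc : v c ≤ 1) (hy : 1 < v y) (h : y ^ 2 = x ^ 3 + a * x ^ 2 + b * x + c) : 1 < v x := by
  by_contra hx
  push Not at hx
  have h1 : v y ^ 2 ≤ 1 := by
    rw [← map_pow, h]
    have h0 := v.nonneg x
    refine na_add hv (na_add hv (na_add hv ?_ ?_) ?_) hc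
    · rw [map_pow]; exact pow_le_one₀ h0 hx
    · rw [map_mul, map_pow]; exact mul_le_one₀ ha (by positivity) (pow_le_one₀ h0 hx)
    · rw [map_mul]; exact mul_le_one₀ hb h0 hx
  nlinarith

/-- the third point of a line through two points close to the origin -/
lemma third_close (hv : IsNonarchimedean v) {a b c x₁ x₂ x₃ ℓ ν : K} (ha : v a ≤ 1) (hb : v b ≤ 1)
    (hc : v c ≤ 1) (E1 : x₁ + x₂ + x₃ = ℓ ^ 2 - a)
    (E2 : x₁ * x₂ + x₁ * x₃ + x₂ * x₃ = b - 2 * ℓ * ν) (E3 : x₁ * x₂ * x₃ = ν ^ 2 - c)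
    {r : ℝ} (hr0 : 0 < r) (hr : r < 1) (hν : ν ≠ 0) (hlam : v (-ℓ / ν) ≤ r ^ 2)
    (hmu : v (1 / ν) ≤ r ^ 3) (h1 : ℓ * x₁ + ν ≠ 0) (h2 : ℓ * x₂ + ν ≠ 0)
    (ht1 : v (x₁ / (ℓ * x₁ + ν)) ≤ r) (ht2 : v (x₂ / (ℓ * x₂ + ν)) ≤ r) :
    ℓ * x₃ + ν ≠ 0 ∧ 1 < v (ℓ * x₃ + ν) ∧
      v (x₃ / (ℓ * x₃ + ν) + x₁ / (ℓ * x₁ + ν) + x₂ / (ℓ * x₂ + ν)) ≤ r ^ 3 := by
  set l := -ℓ / ν with hl
  set m := 1 / ν with hm
  have hl0 := v.nonneg l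
  have hm0 := v.nonneg m
  have hr2 : r ^ 2 < 1 := pow_lt_one₀ hr0.le hr two_ne_zero
  have hr3 : r ^ 3 < 1 := pow_lt_one₀ hr0.le hr three_ne_zero
  have hl1 : v l < 1 := hlam.trans_lt hr2
  have hD : v (1 + a * l + b * l ^ 2 + c * l ^ 3) = 1 := by
    rw [show 1 + a * l + b * l ^ 2 + c * l ^ 3 = 1 + (a * l + b * l ^ 2 + c * l ^ 3) by ring]
    apply na_one_add hv
    refine na_lt hv (na_lt hv ?_ ?_) ?_
    · rw [map_mul]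
      exact (mul_le_of_le_one_left hl0 ha).trans_lt hl1
    · rw [map_mul, map_pow]
      exact (mul_le_of_le_one_left (by positivity) hb).trans_lt (pow_lt_one₀ hl0 hl1 two_ne_zero)
    · rw [map_mul, map_pow]
      exact (mul_le_of_le_one_left (by positivity) hc).trans_lt (pow_lt_one₀ hl0 hl1 three_ne_zero)
  have hD0 : 1 + a * l + b * l ^ 2 + c * l ^ 3 ≠ 0 := by
    intro h0
    rw [h0, map_zero] at hD
    exact zero_ne_one hD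
  obtain ⟨h3, h4⟩ := line_sum E1 E2 E3 hν h1 h2 hD0
  have hE : v ((a * m + 2 * b * l * m + 3 * c * l ^ 2 * m) /
      (1 + a * l + b * l ^ 2 + c * l ^ 3)) ≤ r ^ 3 := by
    rw [map_div₀, hD, div_one]
    have h2v : v (2 : K) ≤ 1 := by exact_mod_cast na_nat hv 2
    have h3v : v (3 : K) ≤ 1 := by exact_mod_cast na_nat hv 3
    refine na_add hv (na_add hv ?_ ?_) ?_
    · rw [map_mul]
      exact (mul_le_of_le_one_left hm0 ha).trans hmu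
    · rw [map_mul, map_mul, map_mul]
      exact (mul_le_of_le_one_left hm0 (mul_le_one₀ (mul_le_one₀ h2v (v.nonneg _) hb) hl0
        hl1.le)).trans hmu
    · rw [map_mul, map_mul, map_mul, map_pow]
      exact (mul_le_of_le_one_left hm0 (mul_le_one₀ (mul_le_one₀ h3v (v.nonneg _) hc)
        (by positivity) (pow_le_one₀ hl0 hl1.le))).trans hmu
  have h5 : x₃ / (ℓ * x₃ + ν) + x₁ / (ℓ * x₁ + ν) + x₂ / (ℓ * x₂ + ν) =
      -((a * m + 2 * b * l * m + 3 * c * l ^ 2 * m) / (1 + a * l + b * l ^ 2 + c * l ^ 3)) := by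
    rw [h4]; ring
  have h6 : v (x₃ / (ℓ * x₃ + ν) + x₁ / (ℓ * x₁ + ν) + x₂ / (ℓ * x₂ + ν)) ≤ r ^ 3 := by
    rw [h5, v.map_neg]
    exact hE
  refine ⟨h3, ?_, h6⟩
  -- the parameter `t₃`
  have hr3r : r ^ 3 ≤ r := by
    calc r ^ 3 = r ^ 2 * r := by ring
      _ ≤ 1 * r := by gcongr
      _ = r := one_mul r
  have h7 : v (x₃ / (ℓ * x₃ + ν)) ≤ r := by
    have e : x₃ / (ℓ * x₃ + ν) = (x₃ / (ℓ * x₃ + ν) + x₁ / (ℓ * x₁ + ν) + x₂ / (ℓ * x₂ + ν)) -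
        x₁ / (ℓ * x₁ + ν) - x₂ / (ℓ * x₂ + ν) := by ring
    rw [e]
    exact na_sub hv (na_sub hv (h6.trans hr3r) ht1) ht2
  have h8 : 1 / (ℓ * x₃ + ν) = l * (x₃ / (ℓ * x₃ + ν)) + m := by
    rw [hl, hm]
    field_simp
    ring
  have h9 : v (1 / (ℓ * x₃ + ν)) ≤ r ^ 3 := by
    rw [h8]
    refine na_add hv ?_ hmu
    rw [map_mul]
    calc v l * v (x₃ / (ℓ * x₃ + ν)) ≤ r ^ 2 * r := by gcongr
      _ = r ^ 3 := by ring
  have h10 : v (1 / (ℓ * x₃ + ν)) < 1 := h9.trans_lt hr3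
  rw [map_div₀, map_one, div_lt_one (v.pos h3)] at h10
  exact h10

end val

end Pool.Agent.Y720.MZ
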