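import Pool.Agent.W279.Tri.LocComp
import Pool.Agent.Y720.MZ.Tors

/-!
# Places of a number field at which a given element is a square, and simultaneous approximation
(helper720)
-/

set_option autoImplicit false

open NumberField IsDedekindDomain Filter Topology

namespace Pool.Agent.Y720.MZ

section unit

variable {K : Type*} [Field K] [NumberField K]

/-- values of a quadratic polynomial which are not units -/
lemma exists_not_unit (β : 𝓞 K) (hβ : β ≠ 0) :
    ∃ j : ℕ, 1 ≤ j ∧ β * (j : 𝓞 K) ^ 2 - 1 ≠ 0 ∧ ¬ IsUnit (β * (j : 𝓞 K) ^ 2 - 1) := by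
  classical
  have hβ' : (β : K) ≠ 0 := fun h => hβ (by exact_mod_cast h)
  -- a large `j`
  have h1 : ∀ w : InfinitePlace K, ∀ᶠ j : ℕ in atTop, 3 ≤ w (β : K) * (j : ℝ) ^ 2 := by
    intro w
    have hw : 0 < w (β : K) := InfinitePlace.pos_iff.2 hβ'
    have : Tendsto (fun j : ℕ => w (β : K) * (j : ℝ) ^ 2) atTop atTop :=
      ((tendsto_pow_atTop two_ne_zero).comp tendsto_natCast_atTop_atTop).const_mul_atTop hw
    exact this.eventually_ge_atTop 3
  have h2 := eventually_all.2 h1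
  obtain ⟨j, hj, hj1⟩ := (h2.and (eventually_ge_atTop 1)).exists
  have h3 : ∀ w : InfinitePlace K, 2 ≤ w ((β : K) * (j : K) ^ 2 - 1) := by
    intro w
    have e : w ((β : K) * (j : K) ^ 2) = w (β : K) * (j : ℝ) ^ 2 := by
      rw [map_mul, map_pow]
      congr 2
      rw [← InfinitePlace.norm_embedding_eq w (j : K), map_natCast, RCLike.norm_natCast]
    have h5 : w ((β : K) * (j : K) ^ 2) ≤ w ((β : K) * (j : K) ^ 2 - 1) + w 1 := by
      have := w.1.add_le ((β : K) * (j : K) ^ 2 - 1) 1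
      rwa [sub_add_cancel] at this
    rw [e, map_one] at h5
    have := hj w
    linarith
  have hcast : ((β * (j : 𝓞 K) ^ 2 - 1 : 𝓞 K) : K) = (β : K) * (j : K) ^ 2 - 1 := by
    push_cast; rfl
  obtain ⟨w0⟩ := (inferInstance : Nonempty (InfinitePlace K))
  refine ⟨j, hj1, ?_, ?_⟩
  · intro h0
    have h6 := h3 w0
    rw [← hcast, h0] at h6
    simp only [map_zero] at h6
    have : w0 ((0 : 𝓞 K) : K) = 0 := by simp
    linarith
  · intro hu
    rw [NumberField.isUnit_iff_norm] at hu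
    have h7 := InfinitePlace.prod_eq_abs_norm ((β : K) * (j : K) ^ 2 - 1)
    rw [← hcast] at h7
    have h8 : |(Algebra.norm ℚ ((β * (j : 𝓞 K) ^ 2 - 1 : 𝓞 K) : K))| = 1 := by
      rw [← hu]
      rfl
    rw [h8] at h7
    have h9 : (1 : ℝ) < ∏ w : InfinitePlace K, w ((β * (j : 𝓞 K) ^ 2 - 1 : 𝓞 K) : K) ^
        InfinitePlace.mult w := by
      have h10 : ∏ _w : InfinitePlace K, (1 : ℝ) < ∏ w : InfinitePlace K,
          w ((β * (j : 𝓞 K) ^ 2 - 1 : 𝓞 K) : K) ^ InfinitePlace.mult w := by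
        refine Finset.prod_lt_prod_of_nonempty (fun _ _ => one_pos) (fun w _ => ?_)
          Finset.univ_nonempty
        rw [hcast]
        refine one_lt_pow₀ (by linarith [h3 w]) (InfinitePlace.mult_pos).ne'
      rwa [Finset.prod_const_one] at h10
    rw [h7] at h9
    norm_num at h9

/-- the elements of a finite set as units at almost all places -/
lemma exists_common (S : Finset K) : ∃ C : 𝓞 K, C ≠ 0 ∧ ∀ v : HeightOneSpectrum (𝓞 K),
    C ∉ v.asIdeal → ∀ s ∈ S, s ≠ 0 → HeightOneSpectrum.adicAbv K v s = 1 := by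
  classical
  have key : ∀ s : K, ∃ a b : 𝓞 K, b ≠ 0 ∧ (s ≠ 0 → a ≠ 0) ∧ s = a / b := by
    intro s
    obtain ⟨a, b, hb, h⟩ := IsFractionRing.div_surjective (A := 𝓞 K) s
    refine ⟨a, b, nonZeroDivisors.ne_zero hb, ?_, h.symm⟩
    rintro hs rfl
    rw [map_zero, zero_div] at h
    exact hs h.symm
  choose a b hb ha hab using key
  refine ⟨∏ s ∈ S.filter (· ≠ 0), a s * b s, ?_, ?_⟩
  · rw [Finset.prod_ne_zero_iff]
    intro s hs
    exact mul_ne_zero (ha s (Finset.mem_filter.1 hs).2) (hb s)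
  · intro v hv s hs hs0
    have h1 : a s * b s ∉ v.asIdeal := fun h => hv
      (Ideal.mem_of_dvd _ (Finset.dvd_prod_of_mem _ (Finset.mem_filter.2 ⟨hs, hs0⟩)) h)
    have h2 : a s ∉ v.asIdeal := fun h => h1 (Ideal.mul_mem_right _ _ h)
    have h3 : b s ∉ v.asIdeal := fun h => h1 (Ideal.mul_mem_left _ _ h)
    have e1 : HeightOneSpectrum.adicAbv K v (a s : K) = 1 :=
      (HeightOneSpectrum.adicAbv_coe_eq_one_iff v _ _).2 h2
    have e2 : HeightOneSpectrum.adicAbv K v (b s : K) = 1 :=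
      (HeightOneSpectrum.adicAbv_coe_eq_one_iff v _ _).2 h3
    rw [hab s, map_div₀, e1, e2, div_one]

end unit

end Pool.Agent.Y720.MZ
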