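import Pool.Agent.Y720.MZ.Pl

/-!
# Places of a number field at which a given element is a square, and simultaneous approximation,
second part (helper720)
-/

set_option autoImplicit false

open NumberField IsDedekindDomain Filter Topology

namespace Pool.Agent.Y720.MZ

section bad

variable {L : Type*} [NontriviallyNormedField L]

/-- the primes which are small in `L` -/
lemma exists_residue [CharZero L] {K : Type*} [Field K] [NumberField K] (σ : K →+* L)
    (hσ : DenseRange σ) : ∃ n₀ : ℕ, 1 ≤ n₀ ∧ ∀ p : ℕ, 1 ≤ p → ‖(p : L)‖ < 1 → n₀ ∣ p ∧ 2 ≤ n₀ := by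
  have hnt := Pool.Agent.W279.Tri.ratAbs_nontrivial σ hσ
  have hn : ∀ n : ℕ, Pool.Agent.W279.Tri.ratAbs L (n : ℚ) = ‖(n : L)‖ := by
    intro n
    rw [Pool.Agent.W279.Tri.ratAbs_apply]
    simp
  rcases Rat.AbsoluteValue.equiv_real_or_padic _ hnt with h | ⟨p₀, ⟨hp₀, h⟩, -⟩
  · refine ⟨1, le_rfl, fun p hp1 hp => ?_⟩
    rw [← hn, AbsoluteValue.IsEquiv.lt_one_iff h] at hp
    simp only [Rat.AbsoluteValue.real_eq_abs, Nat.abs_cast] at hp
    have : (1 : ℝ) ≤ p := by exact_mod_cast hp1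
    norm_num at hp
    omega
  · refine ⟨p₀, hp₀.out.one_lt.le, fun p hp1 hp => ⟨?_, hp₀.out.two_le⟩⟩
    rw [← hn, AbsoluteValue.IsEquiv.lt_one_iff h] at hp
    simp only [Rat.AbsoluteValue.padic_eq_padicNorm] at hp
    have : padicNorm p₀ (p : ℚ) < 1 := by exact_mod_cast hp
    exact (padicNorm.nat_lt_one_iff p).1 this

/-- sequences tending to `1` in `L` and to `0` for `v` -/
lemma exists_approx {K : Type*} [Field K] [CharZero K] [ProperSpace L] (σ : K →+* L)
    {v : AbsoluteValue K ℝ} (hv : IsNonarchimedean v) {p : ℕ} (hp : v (p : K) < 1)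
    (hpL : 1 ≤ ‖(p : L)‖) {ε : ℝ} (hε : 0 < ε) : ∃ e : K, ‖σ e - 1‖ < ε ∧ v e < ε := by
  have h0 := v.nonneg (p : K)
  have hvn : ∀ᶠ n : ℕ in atTop, v (p : K) ^ n < ε :=
    (tendsto_pow_atTop_nhds_zero_of_lt_one h0 hp).eventually_lt_const hε
  rcases hpL.lt_or_eq with h1 | h1
  · -- `e = pⁿ / (1 + pⁿ)`
    have h2 : Tendsto (fun n : ℕ => ‖(p : L)‖ ^ n) atTop atTop := tendsto_pow_atTop_atTop_of_one_lt h1
    obtain ⟨n, hn1, hn2, hn3⟩ := (hvn.and ((h2.eventually_gt_atTop (1 + 1 / ε)).and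
      (eventually_ge_atTop 1))).exists
    have hσp : σ (p : K) = (p : L) := map_natCast σ p
    have hlow : 1 / ε < ‖(1 : L) + (p : L) ^ n‖ := by
      have : ‖(p : L) ^ n‖ ≤ ‖(1 : L) + (p : L) ^ n‖ + ‖(1 : L)‖ := by
        have := norm_sub_le ((1 : L) + (p : L) ^ n) 1
        rwa [add_sub_cancel_left] at this
      rw [norm_pow, norm_one] at this
      linarith
    have hpos : 0 < ‖(1 : L) + (p : L) ^ n‖ := lt_trans (by positivity) hlow
    have hne : (1 : L) + (p : L) ^ n ≠ 0 := norm_pos_iff.1 hpos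
    have hvp : v ((p : K) ^ n) < 1 := by
      rw [map_pow]
      exact pow_lt_one₀ h0 hp (by omega)
    refine ⟨(p : K) ^ n / (1 + (p : K) ^ n), ?_, ?_⟩
    · rw [map_div₀, map_add, map_one, map_pow, hσp]
      have e : (p : L) ^ n / (1 + (p : L) ^ n) - 1 = -(1 / (1 + (p : L) ^ n)) := by
        field_simp
        ring
      rw [e, norm_neg, norm_div, norm_one, div_lt_comm₀ hpos hε]
      exact hlow
    · rw [map_div₀, na_one_add hv hvp, div_one, map_pow]
      exact hn1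
  · -- recurrence
    obtain ⟨N, hN⟩ := eventually_atTop.1 hvn
    obtain ⟨a, -, φ, hφ, hlim⟩ := (isCompact_sphere (0 : L) 1).tendsto_subseq
      (x := fun n : ℕ => (p : L) ^ n) (fun n => by
        rw [mem_sphere_zero_iff_norm, norm_pow, ← h1, one_pow])
    have h2 := hlim.cauchySeq
    rw [Metric.cauchySeq_iff] at h2
    obtain ⟨M, hM⟩ := h2 ε hε
    have h3 : N + φ M ≤ φ (N + M) := hφ.add_le_nat N M
    rw [add_comm N M] at h3
    refine ⟨(p : K) ^ (φ (M + N) - φ M), ?_, ?_⟩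
    · have h4 := hM (M + N) (by omega) M le_rfl
      simp only [Function.comp_apply, dist_eq_norm] at h4
      rw [map_pow, map_natCast]
      have e : (p : L) ^ φ (M + N) - (p : L) ^ φ M =
          (p : L) ^ φ M * ((p : L) ^ (φ (M + N) - φ M) - 1) := by
        rw [mul_sub, ← pow_add, mul_one]
        congr 2
        omega
      rw [e, norm_mul, norm_pow, ← h1, one_pow, one_mul] at h4
      exact h4
    · rw [map_pow]
      exact hN _ (by omega)

end bad

/-- **Places at which `D` is a square.** -/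
theorem exists_place {K : Type*} [Field K] [NumberField K] {L : Type*} [NontriviallyNormedField L]
    [ProperSpace L] (σ : K →+* L) (hσ : DenseRange σ) (D : K) (hD : D ≠ 0) (S : Finset K) :
    ∃ (v : AbsoluteValue K ℝ) (p : ℕ), IsNonarchimedean v ∧ 3 ≤ p ∧
      (∀ k : ℕ, 1 ≤ k → k < p → v (k : K) = 1) ∧ v (p : K) < 1 ∧ (∀ s ∈ S, v s ≤ 1) ∧
      (∀ s ∈ S, s ≠ 0 → v s = 1) ∧ (∀ ε : ℝ, 0 < ε → ∃ m : K, v (m ^ 2 - D) < ε) ∧
      (∀ ε : ℝ, 0 < ε → ∃ e : K, ‖σ e - 1‖ < ε ∧ v e < ε) := by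
  classical
  have : CharZero L := charZero_of_injective_ringHom σ.injective
  obtain ⟨n₀, hn₀, hres⟩ := exists_residue σ hσ
  obtain ⟨a, b, hb, hab⟩ := IsFractionRing.div_surjective (A := 𝓞 K) D
  have hb0 : b ≠ 0 := nonZeroDivisors.ne_zero hb
  have ha0 : a ≠ 0 := by
    rintro rfl
    rw [map_zero, zero_div] at hab
    exact hD hab.symm
  have ha' : (a : K) ≠ 0 := fun h => ha0 (by exact_mod_cast h)
  have hb' : (b : K) ≠ 0 := fun h => hb0 (by exact_mod_cast h)
  obtain ⟨C, hC0, hC⟩ := exists_common (insert (2 : K) (insert (n₀ : K) (insert (a : K)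
    (insert (b : K) S))))
  set β : 𝓞 K := 4 * (a * b) * C ^ 2 with hβ
  have h4 : (4 : 𝓞 K) ≠ 0 := by
    have : ((4 : ℕ) : 𝓞 K) ≠ 0 := by exact_mod_cast (by norm_num : (4 : ℕ) ≠ 0)
    exact_mod_cast this
  have hβ0 : β ≠ 0 := mul_ne_zero (mul_ne_zero h4 (mul_ne_zero ha0 hb0)) (pow_ne_zero 2 hC0)
  obtain ⟨j, hj1, hj0, hju⟩ := exists_not_unit β hβ0
  obtain ⟨M, hM, hαM⟩ := exists_max_ideal_of_mem_nonunits (mem_nonunits_iff.2 hju)
  have hMbot : M ≠ ⊥ := by
    rintro rfl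
    exact hj0 ((Submodule.mem_bot _).1 hαM)
  let 𝔭 : HeightOneSpectrum (𝓞 K) := ⟨M, hM.isPrime, hMbot⟩
  have hone : (1 : 𝓞 K) ∉ M := (Ideal.ne_top_iff_one M).1 hM.ne_top
  have hnot : ∀ x y : 𝓞 K, β * (j : 𝓞 K) ^ 2 = x * y → x ∉ M := by
    intro x y hxy hx
    apply hone
    have h1 : β * (j : 𝓞 K) ^ 2 ∈ M := by rw [hxy]; exact M.mul_mem_right _ hx
    have h2 := M.sub_mem h1 hαM
    rwa [sub_sub_cancel] at h2
  have hCM : C ∉ 𝔭.asIdeal := hnot C (4 * (a * b) * C * (j : 𝓞 K) ^ 2) (by rw [hβ]; ring)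
  have hjM : (j : 𝓞 K) ∉ 𝔭.asIdeal := hnot j (β * j) (by ring)
  set v := HeightOneSpectrum.adicAbv K 𝔭 with hvdef
  have hv : IsNonarchimedean v := HeightOneSpectrum.isNonarchimedean_adicAbv K 𝔭
  have hu : ∀ s ∈ insert (2 : K) (insert (n₀ : K) (insert (a : K) (insert (b : K) S))), s ≠ 0 →
      v s = 1 := hC 𝔭 hCM
  have hv2 : v (2 : K) = 1 := hu 2 (by simp) two_ne_zero
  have hvn : v (n₀ : K) = 1 := hu _ (by simp) (by exact_mod_cast (by omega : n₀ ≠ 0))
  have hva : v (a : K) = 1 := hu _ (by simp) ha'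
  have hvb : v (b : K) = 1 := hu _ (by simp) hb'
  have hvC : v (C : K) = 1 := (HeightOneSpectrum.adicAbv_coe_eq_one_iff 𝔭 _ _).2 hCM
  have hvj : v (j : K) = 1 := by
    have h1 : v (((j : 𝓞 K)) : K) = 1 := (HeightOneSpectrum.adicAbv_coe_eq_one_iff 𝔭 _ _).2 hjM
    simpa using h1
  have hvα : v ((β * (j : 𝓞 K) ^ 2 - 1 : 𝓞 K) : K) < 1 :=
    (HeightOneSpectrum.adicAbv_coe_lt_one_iff 𝔭 _ _).2 hαM
  -- the prime number
  have hex : ∃ p : ℕ, 1 ≤ p ∧ v (p : K) < 1 := by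
    refine ⟨Ideal.absNorm M, ?_, ?_⟩
    · have : Ideal.absNorm M ≠ 0 := (Ideal.absNorm_eq_zero_iff).not.2 hMbot
      omega
    · have h1 : v (((Ideal.absNorm M : 𝓞 K)) : K) < 1 :=
        (HeightOneSpectrum.adicAbv_coe_lt_one_iff 𝔭 _ _).2 (Ideal.absNorm_mem M)
      simpa using h1
  set p := Nat.find hex with hp
  have hp1 : 1 ≤ p ∧ v (p : K) < 1 := Nat.find_spec hex
  have hpk : ∀ k : ℕ, 1 ≤ k → k < p → v (k : K) = 1 := by
    intro k hk1 hk2
    have := Nat.find_min hex hk2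
    refine le_antisymm (na_nat hv k) ?_
    by_contra hcon
    push Not at hcon
    exact this ⟨hk1, hcon⟩
  have hp3 : 3 ≤ p := by
    by_contra hcon
    push Not at hcon
    have h2 : v (p : K) = 1 := by
      rcases (by omega : p = 1 ∨ p = 2) with h | h
      · rw [h, Nat.cast_one, v.map_one]
      · rw [h]; exact_mod_cast hv2
    linarith [hp1.2]
  have hpL : 1 ≤ ‖(p : L)‖ := by
    by_contra hcon
    push Not at hcon
    obtain ⟨⟨c, hc⟩, hn2⟩ := hres p hp1.1 hcon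
    have hc1 : 1 ≤ c := by
      rcases Nat.eq_zero_or_pos c with h | h
      · rw [h, mul_zero] at hc; omega
      · exact h
    have hcp : c < p := by rw [hc]; nlinarith
    have h5 := hp1.2
    rw [hc] at h5
    push_cast at h5
    rw [map_mul, hvn, one_mul, hpk c hc1 hcp] at h5
    exact lt_irrefl _ h5
  -- the square roots
  set D' : K := (a : K) * b with hD'
  set q := v ((β * (j : 𝓞 K) ^ 2 - 1 : 𝓞 K) : K) with hq
  have hq0 : 0 ≤ q := v.nonneg _
  have hvm0 : v (2 * (C : K) * j) = 1 := by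
    rw [map_mul, map_mul, hv2, hvC, hvj, one_mul, one_mul]
  have hm00 : 2 * (C : K) * j ≠ 0 := by
    intro h0; rw [h0, map_zero] at hvm0; exact zero_ne_one hvm0
  have newton : ∀ n : ℕ, ∃ m : K, v m = 1 ∧ v (m ^ 2 - D') ≤ q ^ (n + 1) := by
    intro n
    induction n with
    | zero =>
      refine ⟨1 / (2 * (C : K) * j), by rw [map_div₀, map_one, hvm0, div_one], ?_⟩
      have e : (1 / (2 * (C : K) * j)) ^ 2 - D' =
          -(((β * (j : 𝓞 K) ^ 2 - 1 : 𝓞 K) : K)) / (2 * (C : K) * j) ^ 2 := by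
        have h44 : ((β * (j : 𝓞 K) ^ 2 - 1 : 𝓞 K) : K) =
            4 * ((a : K) * b) * (C : K) ^ 2 * (j : K) ^ 2 - 1 := by
          change algebraMap (𝓞 K) K (β * (j : 𝓞 K) ^ 2 - 1) = _
          rw [hβ]
          simp only [map_sub, map_mul, map_pow, map_one, map_natCast, map_ofNat]
        rw [h44, hD']
        have h1 : (C : K) ≠ 0 := fun h => hm00 (by rw [h]; ring)
        have h2 : (j : K) ≠ 0 := fun h => hm00 (by rw [h]; ring)
        field_simp
        ring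
      rw [e, map_div₀, v.map_neg, map_pow, hvm0, one_pow, div_one, zero_add, pow_one]
    | succ n ih =>
      obtain ⟨m, hm1, hm2⟩ := ih
      have hm0 : m ≠ 0 := by
        intro h0; rw [h0, map_zero] at hm1; exact zero_ne_one hm1
      have hv2m : v (2 * m) = 1 := by rw [map_mul, hv2, hm1, one_mul]
      have h2m : 2 * m ≠ 0 := mul_ne_zero two_ne_zero hm0
      have hδ : v (-((m ^ 2 - D') / (2 * m))) < 1 := by
        rw [v.map_neg, map_div₀, hv2m, div_one]
        exact hm2.trans_lt (pow_lt_one₀ hq0 hvα (by omega))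
      refine ⟨m + -((m ^ 2 - D') / (2 * m)), ?_, ?_⟩
      · rw [na_eq hv (by rw [hm1]; exact hδ), hm1]
      · have e : (m + -((m ^ 2 - D') / (2 * m))) ^ 2 - D' = ((m ^ 2 - D') / (2 * m)) ^ 2 := by
          field_simp
          ring
        rw [e, map_pow, map_div₀, hv2m, div_one]
        calc v (m ^ 2 - D') ^ 2 ≤ (q ^ (n + 1)) ^ 2 := by
              gcongr
          _ = q ^ (n + 1 + 1) * q ^ n := by ring
          _ ≤ q ^ (n + 1 + 1) * 1 := by
              gcongr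
              exact pow_le_one₀ hq0 hvα.le
          _ = q ^ (n + 1 + 1) := mul_one _
  refine ⟨v, p, hv, hp3, hpk, hp1.2, ?_, ?_, ?_, fun ε hε => exists_approx σ hv hp1.2 hpL hε⟩
  · intro s hs
    by_cases hs0 : s = 0
    · rw [hs0, map_zero]; exact zero_le_one
    · exact (hu s (by simp [hs]) hs0).le
  · intro s hs hs0
    exact hu s (by simp [hs]) hs0
  · intro ε hε
    have hlim : Tendsto (fun n : ℕ => q ^ (n + 1)) atTop (𝓝 0) :=
      (tendsto_pow_atTop_nhds_zero_of_lt_one hq0 hvα).comp (tendsto_add_atTop_nat 1)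
    obtain ⟨n, hn⟩ := (hlim.eventually_lt_const hε).exists
    obtain ⟨m, -, hm⟩ := newton n
    refine ⟨m / b, ?_⟩
    have e : (m / (b : K)) ^ 2 - D = (m ^ 2 - D') / (b : K) ^ 2 := by
      rw [← hab, hD']
      change (m / (b : K)) ^ 2 - (a : K) / (b : K) = _
      field_simp
    rw [e, map_div₀, map_pow, hvb, one_pow, div_one]
    exact hm.trans_lt hn

end Pool.Agent.Y720.MZ
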