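import Pool.Agent.Y720.MZ.Pl2
import Pool.Agent.Y720.MZ.Quar

/-!
# Points of infinite order in a quadratic family of quartics (helper720)
-/

set_option autoImplicit false

open WeierstrassCurve Filter Topology

namespace Pool.Agent.Y720.MZ

section ring

variable {K : Type*} [Field K]

/-- the valuation ring -/
def ivr {v : AbsoluteValue K ℝ} (hv : IsNonarchimedean v) : Subring K where
  carrier := {x | v x ≤ 1}
  mul_mem' := fun {x y} hx hy => by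
    change v (x * y) ≤ 1
    rw [map_mul]
    exact mul_le_one₀ hx (v.nonneg _) hy
  one_mem' := by change v 1 ≤ 1; rw [v.map_one]
  add_mem' := fun {x y} hx hy => na_add hv hx hy
  zero_mem' := by change v 0 ≤ 1; rw [v.map_zero]; exact zero_le_one
  neg_mem' := fun {x} hx => by change v (-x) ≤ 1; rw [v.map_neg]; exact hx

lemma mem_ivr {v : AbsoluteValue K ℝ} {hv : IsNonarchimedean v} {x : K} :
    x ∈ ivr hv ↔ v x ≤ 1 := Iff.rfl

/-- the coefficient `q(k)` -/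
def qk {K : Type*} [CommRing K] (w₀ d A B C k : K) : K :=
  A * (1 + d * k ^ 2) ^ 2 + 4 * B * w₀ * k * (1 + d * k ^ 2) + 4 * C * w₀ ^ 2 * k ^ 2

/-- the ordinate `w(k)` -/
def wk {K : Type*} [CommRing K] (w₀ d k : K) : K := w₀ * (1 - d * k ^ 2)

end ring

variable {K : Type*} [Field K] [NumberField K] {L : Type*} [NontriviallyNormedField L]

/-- auxiliary: simultaneous approximation -/
lemma approx_k [ProperSpace L] (σ : K →+* L) (hσ : DenseRange σ) {w₀ d A B C : K} (hw : w₀ ≠ 0)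
    (hd : d ≠ 0) (hgood : B ≠ 0 ∨ d * A + C * w₀ ^ 2 ≠ 0) (S : Finset K) :
    ∃ (v : AbsoluteValue K ℝ) (p : ℕ) (hv : IsNonarchimedean v), 3 ≤ p ∧
      (∀ k : ℕ, 1 ≤ k → k < p → v (k : K) = 1) ∧ v (p : K) < 1 ∧ (∀ s ∈ S, v s ≤ 1) ∧
      v w₀ = 1 ∧ v d = 1 ∧
      ∀ (Bad : Finset K) (ε δ : ℝ), 0 < ε → 0 < δ → δ ≤ 1 → ∃ k : K, k ∉ Bad ∧ ‖σ k‖ < ε ∧ v k ≤ 1 ∧
        v (1 - d * k ^ 2) < δ ∧ v (qk w₀ d A B C k) = 1 := by
  classical
  set η : K := (d * A + C * w₀ ^ 2) ^ 2 - 4 * d * B ^ 2 * w₀ ^ 2 with hη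
  set κ : K := (d * A + C * w₀ ^ 2) / (2 * B * w₀ * d) with hκ
  obtain ⟨v, p, hv, hp3, hpk, hp1, hS1, hS2, hsq, happ⟩ := exists_place σ hσ d hd
    (insert 2 (insert w₀ (insert d (insert A (insert B (insert C (insert η (insert κ
      (insert (d * A + C * w₀ ^ 2) S)))))))))
  have hv2 : v 2 = 1 := hS2 2 (by simp) two_ne_zero
  have hvw : v w₀ = 1 := hS2 w₀ (by simp) hw
  have hvd : v d = 1 := hS2 d (by simp) hd
  have hvA : v A ≤ 1 := hS1 A (by simp)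
  have hvB : v B ≤ 1 := hS1 B (by simp)
  have hvC : v C ≤ 1 := hS1 C (by simp)
  have hv2n : v 2 = 1 := hv2
  have hv8 : v 8 = 1 := by
    rw [show (8 : K) = 2 ^ 3 by norm_num, map_pow, hv2, one_pow]
  have hv16 : v 16 = 1 := by
    rw [show (16 : K) = 2 ^ 4 by norm_num, map_pow, hv2, one_pow]
  -- the approximation of `1 / √d`
  have main : ∀ δ : ℝ, 0 < δ → δ ≤ 1 → ∃ k₁ : K, v k₁ = 1 ∧ v (1 - d * k₁ ^ 2) < δ ∧
      ∀ k : K, v k ≤ 1 → v (k - k₁) < δ → v (4 * A + 8 * B * w₀ * k + 4 * C * w₀ ^ 2 * k ^ 2) = 1 := by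
    intro δ hδ hδ1
    have hk1 : ∀ k₁ : K, v (1 - d * k₁ ^ 2) < δ → v k₁ = 1 := by
      intro k₁ h1
      have e : d * k₁ ^ 2 = 1 + -(1 - d * k₁ ^ 2) := by ring
      have h2 : v (d * k₁ ^ 2) = 1 := by
        rw [e, na_one_add hv]
        rw [v.map_neg]
        exact h1.trans_le hδ1
      rw [map_mul, hvd, one_mul, map_pow] at h2
      exact (pow_eq_one_iff_of_nonneg (v.nonneg _) two_ne_zero).1 h2
    by_cases hη0 : η = 0
    · -- the square root is rational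
      have hBA : B ≠ 0 ∧ d * A + C * w₀ ^ 2 ≠ 0 := by
        rcases hgood with hB | hA
        · refine ⟨hB, fun h0 => ?_⟩
          rw [hη, h0] at hη0
          have : 4 * d * B ^ 2 * w₀ ^ 2 = 0 := by linear_combination -hη0
          have h4 : (4 : K) ≠ 0 := by norm_num
          exact (mul_ne_zero (mul_ne_zero (mul_ne_zero h4 hd) (pow_ne_zero 2 hB))
            (pow_ne_zero 2 hw)) this
        · refine ⟨fun h0 => ?_, hA⟩
          rw [hη, h0] at hη0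
          exact pow_ne_zero 2 hA (by linear_combination hη0)
      have hκ1 : d * κ ^ 2 = 1 := by
        rw [hκ]
        have h1 := hBA.1
        field_simp
        linear_combination hη0
      refine ⟨κ, hk1 κ (by rw [hκ1, sub_self, map_zero]; exact hδ), by
        rw [hκ1, sub_self, map_zero]; exact hδ, ?_⟩
      intro k hk1' hk
      have hvκ : v κ = 1 := hk1 κ (by rw [hκ1, sub_self, map_zero]; exact hδ)
      have e1 : d * (4 * A + 8 * B * w₀ * κ + 4 * C * w₀ ^ 2 * κ ^ 2) =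
          8 * (d * A + C * w₀ ^ 2) := by
        have h1 := hBA.1
        have e2 : 2 * B * w₀ * d * κ = d * A + C * w₀ ^ 2 := by
          rw [hκ]; field_simp
        linear_combination 4 * e2 + 4 * C * w₀ ^ 2 * hκ1
      have h2 : v (4 * A + 8 * B * w₀ * κ + 4 * C * w₀ ^ 2 * κ ^ 2) = 1 := by
        have h3 := congrArg v e1
        rw [map_mul, map_mul, hvd, one_mul, hv8, one_mul, hS2 _ (by simp) hBA.2] at h3
        exact h3
      have e3 : 4 * A + 8 * B * w₀ * k + 4 * C * w₀ ^ 2 * k ^ 2 =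
          (4 * A + 8 * B * w₀ * κ + 4 * C * w₀ ^ 2 * κ ^ 2) +
          (k - κ) * (8 * B * w₀ + 4 * C * w₀ ^ 2 * (k + κ)) := by ring
      rw [e3, na_eq hv, h2]
      rw [h2, map_mul]
      have h4 : v (8 * B * w₀ + 4 * C * w₀ ^ 2 * (k + κ)) ≤ 1 := by
        rw [← mem_ivr (hv := hv)] at *
        have i1 : κ ∈ ivr hv := hvκ.le
        have i2 : w₀ ∈ ivr hv := hvw.le
        exact add_mem (mul_mem (mul_mem (ofNat_mem _ 8) hvB) i2)
          (mul_mem (mul_mem (mul_mem (ofNat_mem _ 4) hvC) (pow_mem i2 2)) (add_mem hk1' i1))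
      calc v (k - κ) * v (8 * B * w₀ + 4 * C * w₀ ^ 2 * (k + κ)) ≤ v (k - κ) * 1 := by gcongr
        _ < 1 := by rw [mul_one]; exact hk.trans_le hδ1
    · obtain ⟨m, hm⟩ := hsq δ hδ
      have e1 : 1 - d * (m / d) ^ 2 = -(m ^ 2 - d) / d := by field_simp; ring
      have h1 : v (1 - d * (m / d) ^ 2) < δ := by
        rw [e1, map_div₀, v.map_neg, hvd, div_one]
        exact hm
      have hvk := hk1 _ h1
      refine ⟨m / d, hvk, h1, ?_⟩
      intro k hk1' hk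
      have i0 : k ∈ ivr hv := hk1'
      have i1 : (m / d) ∈ ivr hv := hvk.le
      have i2 : w₀ ∈ ivr hv := hvw.le
      have i3 : d ∈ ivr hv := hvd.le
      have iA : A ∈ ivr hv := hvA
      have iB : B ∈ ivr hv := hvB
      have iC : C ∈ ivr hv := hvC
      -- `d k²` is close to `1`
      have h2 : v (1 - d * k ^ 2) < 1 := by
        have e : 1 - d * k ^ 2 = (1 - d * (m / d) ^ 2) + (-(k - m / d)) * (d * (k + m / d)) := by ring
        rw [e]
        refine na_lt hv (h1.trans_le hδ1) ?_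
        rw [map_mul, v.map_neg]
        have : v (d * (k + m / d)) ≤ 1 := mul_mem i3 (add_mem i0 i1)
        calc v (k - m / d) * v (d * (k + m / d)) ≤ v (k - m / d) * 1 := by gcongr
          _ < 1 := by rw [mul_one]; exact hk.trans_le hδ1
      have e2 : d ^ 2 * ((4 * A + 8 * B * w₀ * k + 4 * C * w₀ ^ 2 * k ^ 2) *
          (4 * A - 8 * B * w₀ * k + 4 * C * w₀ ^ 2 * k ^ 2)) = 16 * η +
          (1 - d * k ^ 2) * (-16 * C * w₀ ^ 2 * (2 * d * A + C * w₀ ^ 2 + C * w₀ ^ 2 * d * k ^ 2) +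
            64 * B ^ 2 * w₀ ^ 2 * d) := by
        rw [hη]; ring
      have h3 : v (d ^ 2 * ((4 * A + 8 * B * w₀ * k + 4 * C * w₀ ^ 2 * k ^ 2) *
          (4 * A - 8 * B * w₀ * k + 4 * C * w₀ ^ 2 * k ^ 2))) = 1 := by
        have h4 : v (16 * η) = 1 := by
          rw [map_mul, hv16, one_mul, hS2 η (by simp) hη0]
        rw [e2, na_eq hv, h4]
        rw [h4, map_mul]
        have h5 : v (-16 * C * w₀ ^ 2 * (2 * d * A + C * w₀ ^ 2 + C * w₀ ^ 2 * d * k ^ 2) +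
            64 * B ^ 2 * w₀ ^ 2 * d) ≤ 1 := by
          refine (mem_ivr (hv := hv)).1 <| add_mem (mul_mem (mul_mem (mul_mem (neg_mem (ofNat_mem _ 16)) iC)
            (pow_mem i2 2)) (add_mem (add_mem (mul_mem (mul_mem (ofNat_mem _ 2) i3) iA)
            (mul_mem iC (pow_mem i2 2))) (mul_mem (mul_mem (mul_mem iC (pow_mem i2 2)) i3)
            (pow_mem i0 2)))) (mul_mem (mul_mem (mul_mem (ofNat_mem _ 64) (pow_mem iB 2))
            (pow_mem i2 2)) i3)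
        calc v (1 - d * k ^ 2) * _ ≤ v (1 - d * k ^ 2) * 1 := by gcongr
          _ < 1 := by rw [mul_one]; exact h2
      rw [map_mul, map_pow, hvd, one_pow, one_mul, map_mul] at h3
      have h6 : v (4 * A + 8 * B * w₀ * k + 4 * C * w₀ ^ 2 * k ^ 2) ≤ 1 :=
        (mem_ivr (hv := hv)).1 <| add_mem (add_mem (mul_mem (ofNat_mem _ 4) iA)
          (mul_mem (mul_mem (mul_mem (ofNat_mem _ 8) iB) i2) i0))
          (mul_mem (mul_mem (mul_mem (ofNat_mem _ 4) iC) (pow_mem i2 2)) (pow_mem i0 2))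
      have h7 : v (4 * A - 8 * B * w₀ * k + 4 * C * w₀ ^ 2 * k ^ 2) ≤ 1 :=
        (mem_ivr (hv := hv)).1 <| add_mem (sub_mem (mul_mem (ofNat_mem _ 4) iA)
          (mul_mem (mul_mem (mul_mem (ofNat_mem _ 8) iB) i2) i0))
          (mul_mem (mul_mem (mul_mem (ofNat_mem _ 4) iC) (pow_mem i2 2)) (pow_mem i0 2))
      refine le_antisymm h6 ?_
      by_contra hcon
      push Not at hcon
      have := mul_lt_one_of_nonneg_of_lt_one_left (v.nonneg _) hcon h7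
      linarith
  refine ⟨v, p, hv, hp3, hpk, hp1, fun s hs => hS1 s (by simp [hs]), hvw, hvd, ?_⟩
  intro Bad ε δ hε hδ hδ1
  obtain ⟨k₁, hk1, hk2, hk3⟩ := main δ hδ hδ1
  have hk10 : k₁ ≠ 0 := by
    intro h0; rw [h0, map_zero] at hk1; exact zero_ne_one hk1
  -- a bound avoiding the bad values
  obtain ⟨ρ, hρ0, hρ⟩ : ∃ ρ : ℝ, 0 < ρ ∧ ∀ b ∈ Bad, (1 - b / k₁) ≠ 0 → ρ ≤ v (1 - b / k₁) := by
    have : ∀ F : Finset K, ∃ ρ : ℝ, 0 < ρ ∧ ∀ b ∈ F, (1 - b / k₁) ≠ 0 → ρ ≤ v (1 - b / k₁) := by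
      intro F
      induction F using Finset.induction_on with
      | empty => exact ⟨1, one_pos, by simp⟩
      | insert b F hb ih =>
        obtain ⟨ρ, h1, h2⟩ := ih
        by_cases h0 : 1 - b / k₁ = 0
        · refine ⟨ρ, h1, fun c hc hc0 => ?_⟩
          rcases Finset.mem_insert.1 hc with rfl | hc
          · exact absurd h0 hc0
          · exact h2 c hc hc0
        · refine ⟨min ρ (v (1 - b / k₁)), lt_min h1 (v.pos h0), fun c hc hc0 => ?_⟩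
          rcases Finset.mem_insert.1 hc with rfl | hc
          · exact min_le_right _ _
          · exact (min_le_left _ _).trans (h2 c hc hc0)
    exact this Bad
  have hσk : 0 < ‖σ k₁‖ := norm_pos_iff.2 ((map_ne_zero σ).2 hk10)
  obtain ⟨e, he1, he2⟩ := happ (min (min ρ δ) (min 1 (ε / ‖σ k₁‖)))
    (lt_min (lt_min hρ0 hδ) (lt_min one_pos (by positivity)))
  have he0 : e ≠ 0 := by
    rintro rfl
    rw [map_zero, zero_sub, norm_neg, norm_one] at he1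
    exact lt_irrefl _ (he1.trans_le ((min_le_right _ _).trans (min_le_left _ _)))
  have he3 : v e < ρ := he2.trans_le ((min_le_left _ _).trans (min_le_left _ _))
  have he4 : v e < δ := he2.trans_le ((min_le_left _ _).trans (min_le_right _ _))
  have he5 : v e < 1 := he4.trans_le hδ1
  have hkk : v ((1 - e) * k₁ - k₁) < δ := by
    have : (1 - e) * k₁ - k₁ = -(e * k₁) := by ring
    rw [this, v.map_neg, map_mul, hk1, mul_one]
    exact he4
  have hvk : v ((1 - e) * k₁) = 1 := by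
    rw [map_mul, hk1, mul_one, sub_eq_add_neg, na_one_add hv]
    rw [v.map_neg]; exact he5
  have i0 : (1 - e) * k₁ ∈ ivr hv := hvk.le
  have i1 : k₁ ∈ ivr hv := hk1.le
  have i2 : w₀ ∈ ivr hv := hvw.le
  have i3 : d ∈ ivr hv := hvd.le
  have iA : A ∈ ivr hv := hvA
  have iB : B ∈ ivr hv := hvB
  have hdk : v (1 - d * ((1 - e) * k₁) ^ 2) < δ := by
    have e' : 1 - d * ((1 - e) * k₁) ^ 2 = (1 - d * k₁ ^ 2) +
        (-((1 - e) * k₁ - k₁)) * (d * ((1 - e) * k₁ + k₁)) := by ring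
    rw [e']
    refine na_lt hv hk2 ?_
    rw [map_mul, v.map_neg]
    have : v (d * ((1 - e) * k₁ + k₁)) ≤ 1 := mul_mem i3 (add_mem i0 i1)
    calc v ((1 - e) * k₁ - k₁) * v (d * ((1 - e) * k₁ + k₁)) ≤ v ((1 - e) * k₁ - k₁) * 1 := by
          gcongr
      _ < δ := by rw [mul_one]; exact hkk
  refine ⟨(1 - e) * k₁, ?_, ?_, hvk.le, hdk, ?_⟩
  · intro hb
    have h1 : 1 - (1 - e) * k₁ / k₁ = e := by field_simp; ring
    have h2 := hρ _ hb (by rw [h1]; exact he0)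
    rw [h1] at h2
    linarith
  · rw [map_mul, norm_mul, map_sub, map_one, norm_sub_rev]
    have : ‖σ e - 1‖ < ε / ‖σ k₁‖ := he1.trans_le ((min_le_right _ _).trans (min_le_right _ _))
    rwa [lt_div_iff₀ hσk] at this
  · have h1 := hk3 _ hvk.le hkk
    set k := (1 - e) * k₁
    have e1 : qk w₀ d A B C k = (4 * A + 8 * B * w₀ * k + 4 * C * w₀ ^ 2 * k ^ 2) +
        (1 - d * k ^ 2) * (-A * (3 + d * k ^ 2) - 4 * B * w₀ * k) := by
      rw [qk]; ring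
    rw [e1, na_eq hv, h1]
    rw [h1, map_mul]
    have h2 : v (-A * (3 + d * k ^ 2) - 4 * B * w₀ * k) ≤ 1 :=
      (mem_ivr (hv := hv)).1 <| sub_mem (mul_mem (neg_mem iA) (add_mem (ofNat_mem _ 3)
        (mul_mem i3 (pow_mem i0 2)))) (mul_mem (mul_mem (mul_mem (ofNat_mem _ 4) iB) i2) i0)
    calc v (1 - d * k ^ 2) * _ ≤ v (1 - d * k ^ 2) * 1 := by gcongr
      _ < 1 := by rw [mul_one]; exact hdk.trans_le hδ1

/-- the discriminant of the quartic `w² + q₁ t + q₂ t² + q₃ t³ + q₄ t⁴` -/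
def dq {K : Type*} [CommRing K] (w q₁ q₂ q₃ q₄ : K) : K :=
  dsc q₂ (rb w q₁ q₃ q₄) (rc w q₁ q₂ q₃ q₄)

lemma map_dq {R S : Type*} [CommRing R] [CommRing S] (φ : R →+* S) (w q₁ q₂ q₃ q₄ : R) :
    φ (dq w q₁ q₂ q₃ q₄) = dq (φ w) (φ q₁) (φ q₂) (φ q₃) (φ q₄) := by
  simp only [dq, dsc, rb, rc, map_add, map_sub, map_mul, map_pow, map_ofNat]

lemma map_qk {R S : Type*} [CommRing R] [CommRing S] (φ : R →+* S) (w₀ d A B C k : R) :
    φ (qk w₀ d A B C k) = qk (φ w₀) (φ d) (φ A) (φ B) (φ C) (φ k) := by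
  simp only [qk, map_add, map_mul, map_pow, map_ofNat, map_one]

lemma map_wk {R S : Type*} [CommRing R] [CommRing S] (φ : R →+* S) (w₀ d k : R) :
    φ (wk w₀ d k) = wk (φ w₀) (φ d) (φ k) := by
  simp only [wk, map_sub, map_mul, map_pow, map_one]

/-- **Infinitely many fibres with points of infinite order.** -/
theorem plane_key [DecidableEq K] [ProperSpace L] (σ : K →+* L) (hσ : DenseRange σ)
    {w₀ d A₁ A₂ A₃ A₄ B₁ B₂ B₃ B₄ C₁ C₂ C₃ C₄ : K} (hw : w₀ ≠ 0)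
    (hd : d ≠ 0) (hgood : B₁ ≠ 0 ∨ d * A₁ + C₁ * w₀ ^ 2 ≠ 0)
    (hdisc : ∃ k : K, dq (wk w₀ d k) (qk w₀ d A₁ B₁ C₁ k) (qk w₀ d A₂ B₂ C₂ k)
      (qk w₀ d A₃ B₃ C₃ k) (qk w₀ d A₄ B₄ C₄ k) ≠ 0) {ε : ℝ} (hε : 0 < ε) :
    {k : K | ‖σ k‖ < ε ∧ dq (wk w₀ d k) (qk w₀ d A₁ B₁ C₁ k) (qk w₀ d A₂ B₂ C₂ k)
      (qk w₀ d A₃ B₃ C₃ k) (qk w₀ d A₄ B₄ C₄ k) ≠ 0 ∧ wk w₀ d k ≠ 0 ∧
      ∀ δ : ℝ, 0 < δ → ∃ t Y : K, t ≠ 0 ∧ ‖σ t‖ < δ ∧ ‖σ (Y - wk w₀ d k)‖ < δ ∧
        Y ^ 2 = wk w₀ d k ^ 2 + qk w₀ d A₁ B₁ C₁ k * t + qk w₀ d A₂ B₂ C₂ k * t ^ 2 +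
          qk w₀ d A₃ B₃ C₃ k * t ^ 3 + qk w₀ d A₄ B₄ C₄ k * t ^ 4}.Infinite := by
  obtain ⟨v, p, hv, hp3, hpk, hp1, hS, hvw, hvd, hap⟩ := approx_k σ hσ hw hd hgood
    {A₁, A₂, A₃, A₄, B₁, B₂, B₃, B₄, C₁, C₂, C₃, C₄}
  have hvp : 0 < v (p : K) := v.pos (by exact_mod_cast (by omega : p ≠ 0))
  -- the bad values
  let P : Polynomial K := dq (wk (.C w₀) (.C d) .X) (qk (.C w₀) (.C d) (.C A₁) (.C B₁) (.C C₁) .X)
    (qk (.C w₀) (.C d) (.C A₂) (.C B₂) (.C C₂) .X) (qk (.C w₀) (.C d) (.C A₃) (.C B₃) (.C C₃) .X)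
    (qk (.C w₀) (.C d) (.C A₄) (.C B₄) (.C C₄) .X)
  have hP : ∀ k, P.eval k = dq (wk w₀ d k) (qk w₀ d A₁ B₁ C₁ k) (qk w₀ d A₂ B₂ C₂ k)
      (qk w₀ d A₃ B₃ C₃ k) (qk w₀ d A₄ B₄ C₄ k) := by
    intro k
    rw [← Polynomial.coe_evalRingHom, map_dq, map_wk, map_qk, map_qk, map_qk, map_qk]
    simp
  let Q : Polynomial K := wk (.C w₀) (.C d) .X
  have hQ : ∀ k, Q.eval k = wk w₀ d k := by
    intro k
    rw [← Polynomial.coe_evalRingHom, map_wk]
    simp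
  have hP0 : P ≠ 0 := by
    intro h0
    obtain ⟨k, hk⟩ := hdisc
    rw [← hP, h0, Polynomial.eval_zero] at hk
    exact hk rfl
  have hQ0 : Q ≠ 0 := by
    intro h0
    have := hQ 0
    rw [h0, Polynomial.eval_zero, wk] at this
    apply hw
    linear_combination -this
  intro hfin
  obtain ⟨k, hk1, hk2, hk3, hk4, hk5⟩ := hap (hfin.toFinset ∪ P.roots.toFinset ∪ Q.roots.toFinset) ε
    (v (p : K)) hε hvp hp1.le
  simp only [Finset.mem_union, Set.Finite.mem_toFinset, Multiset.mem_toFinset,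
    Polynomial.mem_roots hP0, Polynomial.mem_roots hQ0, Polynomial.IsRoot.def, not_or, hP, hQ] at hk1
  obtain ⟨⟨h1, h2⟩, h3⟩ := hk1
  refine h1 ⟨hk2, h2, h3, ?_⟩
  intro δ hδ
  -- integrality
  have i0 : k ∈ ivr hv := hk3
  have i2 : w₀ ∈ ivr hv := hvw.le
  have i3 : d ∈ ivr hv := hvd.le
  have iq : ∀ A B C : K, A ∈ ivr hv → B ∈ ivr hv → C ∈ ivr hv → qk w₀ d A B C k ∈ ivr hv := by
    intro A B C hA hB hC
    have h5 : (1 + d * k ^ 2) ∈ ivr hv := add_mem (one_mem _) (mul_mem i3 (pow_mem i0 2))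
    exact add_mem (add_mem (mul_mem hA (pow_mem h5 2))
      (mul_mem (mul_mem (mul_mem (mul_mem (ofNat_mem _ 4) hB) i2) i0) h5))
      (mul_mem (mul_mem (mul_mem (ofNat_mem _ 4) hC) (pow_mem i2 2)) (pow_mem i0 2))
  have iw : wk w₀ d k ∈ ivr hv := mul_mem i2 (sub_mem (one_mem _) (mul_mem i3 (pow_mem i0 2)))
  have j1 := iq A₁ B₁ C₁ (hS _ (by simp)) (hS _ (by simp)) (hS _ (by simp))
  have j2 := iq A₂ B₂ C₂ (hS _ (by simp)) (hS _ (by simp)) (hS _ (by simp))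
  have j3 := iq A₃ B₃ C₃ (hS _ (by simp)) (hS _ (by simp)) (hS _ (by simp))
  have j4 := iq A₄ B₄ C₄ (hS _ (by simp)) (hS _ (by simp)) (hS _ (by simp))
  refine quartic_dense σ h3 h2 ?_ hδ
  intro hns
  refine infinite_order hv (p := p) j2 ?_ ?_ hp3 hpk hp1 hns ?_
  · exact (mem_ivr (hv := hv)).1 <| sub_mem (mul_mem j1 j3)
      (mul_mem (mul_mem (ofNat_mem _ 4) (pow_mem iw 2)) j4)
  · exact (mem_ivr (hv := hv)).1 <| sub_mem (add_mem (mul_mem (pow_mem j1 2) j4)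
      (mul_mem (pow_mem iw 2) (pow_mem j3 2)))
      (mul_mem (mul_mem (mul_mem (ofNat_mem _ 4) (pow_mem iw 2)) j2) j4)
  · have hv2 : v (2 : K) = 1 := by exact_mod_cast hpk 2 (by norm_num) (by omega)
    have hvwk : v (wk w₀ d k) < v (p : K) := by
      rw [wk, map_mul, hvw, one_mul]
      exact hk4
    have hwk0 : 0 < v (wk w₀ d k) := v.pos h3
    have hv4 : v (4 : K) = 1 := by
      rw [show (4 : K) = 2 ^ 2 by norm_num, map_pow, hv2, one_pow]
    have e1 : v (qk w₀ d A₁ B₁ C₁ k ^ 2 / (4 * wk w₀ d k ^ 2)) = 1 / v (wk w₀ d k) ^ 2 := by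
      rw [map_div₀, map_pow, map_mul, map_pow, hk5, hv4, one_pow, one_mul]
    have e2 : 1 < 1 / v (wk w₀ d k) ^ 2 := by
      rw [one_lt_div (by positivity)]
      exact pow_lt_one₀ hwk0.le (hvwk.trans hp1) two_ne_zero
    have e3 : v (xs (wk w₀ d k) (qk w₀ d A₁ B₁ C₁ k) (qk w₀ d A₂ B₂ C₂ k)) =
        1 / v (wk w₀ d k) ^ 2 := by
      rw [xs, sub_eq_add_neg, na_eq hv, e1]
      rw [v.map_neg, e1]
      exact lt_of_le_of_lt j2 e2
    rw [e3, one_div, ← div_eq_inv_mul, one_lt_div (by positivity)]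
    calc v (wk w₀ d k) ^ 2 < v (p : K) ^ 2 := by gcongr
      _ = v (p : K) * v (p : K) := by ring
      _ ≤ v (p : K) * 1 := by gcongr
      _ = v (p : K) := mul_one _

end Pool.Agent.Y720.MZ
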