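import Pool.Agent.Y720.MZ.Fib
import Pool.Agent.Y720.MZ.PF

/-!
# Spreading vanishing from block to block; self-dense sets; fibres with many scalings (helper720)
-/

set_option autoImplicit false
set_option linter.unusedSectionVars false
set_option linter.unusedVariables false

open Filter Topology MvPolynomial

namespace Pool.Agent.Y720.MZ

open Pool.Agent.TH729.CV

section spread

variable {K : Type*} [Field K] {τ β : Type*} [DecidableEq β]

/-- replace the coordinates of one block -/
def ov (blk : τ → β) (b : β) (v y : τ → K) : τ → K := fun c => if blk c = b then v c else y c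

lemma ov_same {blk : τ → β} {b : β} {v y : τ → K} {c : τ} (h : blk c = b) :
    ov blk b v y c = v c := if_pos h

lemma ov_ne {blk : τ → β} {b : β} {v y : τ → K} {c : τ} (h : blk c ≠ b) :
    ov blk b v y c = y c := if_neg h

lemma ov_self (blk : τ → β) (b : β) (y : τ → K) : ov blk b y y = y := by
  funext c
  simp [ov]

/-- substitution of all coordinates outside a block -/
lemma exists_ovsub (blk : τ → β) (b : β) (y : τ → K) (g : MvPolynomial τ K) :
    ∃ p : MvPolynomial τ K, ∀ v, eval v p = eval (ov blk b v y) g := by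
  refine ⟨aeval (fun c => if blk c = b then (X c : MvPolynomial τ K) else C (y c)) g, fun v => ?_⟩
  have h1 : (aeval v : MvPolynomial τ K →ₐ[K] K).comp
      (aeval (fun c => if blk c = b then (X c : MvPolynomial τ K) else C (y c))) =
      aeval (ov blk b v y) := by
    apply MvPolynomial.algHom_ext
    intro c
    rw [AlgHom.comp_apply, aeval_X, aeval_X]
    by_cases h : blk c = b
    · rw [if_pos h, ov_same h, aeval_X]
    · rw [if_neg h, ov_ne h, aeval_C]
      rfl
  have h2 := DFunLike.congr_fun h1 g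
  rw [AlgHom.comp_apply, aeval_eq_eval, aeval_eq_eval] at h2
  exact h2

/-- **spreading** -/
theorem spread (blk : τ → β) {G : Set (τ → K)} {W : β → Set (τ → K)} {g : MvPolynomial τ K}
    (hg : ∀ z ∈ G, eval z g = 0)
    (hW : ∀ b, ∀ y y' : τ → K, (∀ c, blk c = b → y c = y' c) → y ∈ W b → y' ∈ W b)
    (hMV : ∀ b, ∀ z ∈ G, ∀ p : MvPolynomial τ K, (∀ v, ov blk b v z ∈ G → eval v p = 0) →
      ∀ v ∈ W b, eval v p = 0) (s : Finset β) :
    ∀ z ∈ G, ∀ y : τ → K, (∀ c, blk c ∉ s → y c = z c) → (∀ b ∈ s, y ∈ W b) → eval y g = 0 := by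
  induction s using Finset.induction_on with
  | empty =>
    intro z hz y h1 _
    have : y = z := funext fun c => h1 c (Finset.notMem_empty _)
    rw [this]
    exact hg z hz
  | insert a s ha ih =>
    intro z hz y h1 h2
    obtain ⟨p, hp⟩ := exists_ovsub blk a y g
    have h3 := hMV a z hz p (fun v hv => by
      rw [hp]
      refine ih (ov blk a v z) hv (ov blk a v y) ?_ ?_
      · intro c hc
        by_cases hca : blk c = a
        · rw [ov_same hca, ov_same hca]
        · rw [ov_ne hca, ov_ne hca]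
          exact h1 c (by rw [Finset.mem_insert, not_or]; exact ⟨hca, hc⟩)
      · intro b hb
        refine hW b y _ ?_ (h2 b (Finset.mem_insert_of_mem hb))
        intro c hc
        have hca : blk c ≠ a := by
          rw [hc]
          rintro rfl
          exact ha hb
        rw [ov_ne hca]) y (h2 a (Finset.mem_insert_self _ _))
    rwa [hp, ov_self] at h3

end spread

section conn

variable {K : Type*} [Field K] {L : Type*} [NontriviallyNormedField L] [CompleteSpace L]
  [CharZero L] {τ : Type*} [Finite τ]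

/-- **self-dense sets have finitely many local ideals** -/
theorem FA.of_conn' {σ : K →+* L} {S : Set (τ → K)}
    (h : ∀ y ∈ S, ∀ f ∈ IA σ S (fun i => σ (y i)), f ∈ VI S) : FA σ S := by
  refine ((Set.finite_singleton (VI S)).union (Set.finite_singleton ⊤)).subset ?_
  rintro _ ⟨x, rfl⟩
  by_cases hlim : ∀ U, IsOpen U → x ∈ U → ∃ y ∈ S, (fun i => σ (y i)) ∈ U
  · left
    rw [Set.mem_singleton_iff]
    refine le_antisymm ?_ (VI_le_IA σ S x)
    intro f hf
    obtain ⟨U, hU, hfU⟩ := mem_IA_iff.1 hf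
    obtain ⟨V, hVU, hVo, hxV⟩ := mem_nhds_iff.1 hU
    obtain ⟨y, hyS, hyV⟩ := hlim V hVo hxV
    exact h y hyS f (mem_IA_iff.2 ⟨V, hVo.mem_nhds hyV, fun y' hy' hy'V => hfU y' hy' (hVU hy'V)⟩)
  · right
    push Not at hlim
    obtain ⟨U, hUo, hxU, hU⟩ := hlim
    rw [Set.mem_singleton_iff, Ideal.eq_top_iff_one]
    show (1 : MvPolynomial τ K) ∈ IA σ S x
    rw [mem_IA_iff]
    exact ⟨U, hUo.mem_nhds hxU, fun y hy hyU => (hU y hy hyU).elim⟩

/-- affine subspaces -/
theorem FA.convex [Infinite K] {σ : K →+* L} (hσ : DenseRange σ) {S : Set (τ → K)}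
    (h : ∀ y ∈ S, ∀ y' ∈ S, ∀ t : K, y + t • (y' - y) ∈ S) : FA σ S := by
  apply FA.of_conn'
  intro y hy f hf y' hy'
  obtain ⟨U, hU, hfU⟩ := mem_IA_iff.1 hf
  have hN : PF1 fun t : K => eval (y + t • (y' - y)) f := by
    refine PF1.eval (φ := fun i t => (y + t • (y' - y)) i) (fun i => ?_) f
    simp only [Pi.add_apply, Pi.smul_apply, smul_eq_mul]
    exact (PF1.const _).add (PF1.id'.mul (PF1.const _))
  have hc : Continuous fun t : L => (fun i => σ (y i) + t * σ ((y' - y) i)) :=
    continuous_pi fun i => by fun_prop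
  have hpre : (fun t : L => (fun i => σ (y i) + t * σ ((y' - y) i))) ⁻¹' U ∈ 𝓝 (0 : L) := by
    apply hc.continuousAt.preimage_mem_nhds
    simpa using hU
  have h1 := hN.zero ((infinite_near' σ hσ hpre).mono fun t ht => by
    refine hfU _ (h y hy y' hy' t) ?_
    have h2 : (fun i => σ (y i) + σ t * σ ((y' - y) i)) ∈ U := ht.1
    have h3 : (fun i => σ ((y + t • (y' - y)) i)) = fun i => σ (y i) + σ t * σ ((y' - y) i) := by
      funext i
      simp only [Pi.add_apply, Pi.smul_apply, smul_eq_mul, map_add, map_mul]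
    rw [h3]
    exact h2) 1
  have e : y + (1 : K) • (y' - y) = y' := by module
  rwa [e] at h1

lemma FA.union {σ : K →+* L} {D E : Set (τ → K)} (hD : FA σ D) (hE : FA σ E) :
    FA σ (D ∪ E) := by
  have h := FAon.union (FA.on hD Set.univ) (FA.on hE Set.univ)
  unfold FAon at h
  rwa [Set.image_univ] at h

lemma FA.empty (σ : K →+* L) : FA σ (∅ : Set (τ → K)) :=
  FA.of_conn' fun y hy => hy.elim

lemma FA.biUnion {σ : K →+* L} {ι : Type*} (s : Finset ι) {D : ι → Set (τ → K)}
    (h : ∀ i ∈ s, FA σ (D i)) : FA σ (⋃ i ∈ s, D i) := by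
  classical
  induction s using Finset.induction_on with
  | empty => simpa using FA.empty σ
  | insert i s hi ih =>
    rw [Finset.set_biUnion_insert]
    exact FA.union (h i (Finset.mem_insert_self _ _))
      (ih fun j hj => h j (Finset.mem_insert_of_mem hj))

/-- sufficiently many small elements -/
lemma infinite_small (σ : K →+* L) {p : K → Prop}
    (h : ∀ ε : ℝ, 0 < ε → ∃ t : K, t ≠ 0 ∧ ‖σ t‖ < ε ∧ p t) : {t : K | p t}.Infinite := by
  classical
  intro hfin
  obtain ⟨ρ, hρ0, hρ⟩ : ∃ ρ : ℝ, 0 < ρ ∧ ∀ t ∈ hfin.toFinset, t ≠ 0 → ρ ≤ ‖σ t‖ := by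
    have : ∀ S : Finset K, ∃ ρ : ℝ, 0 < ρ ∧ ∀ t ∈ S, t ≠ 0 → ρ ≤ ‖σ t‖ := by
      intro S
      induction S using Finset.induction_on with
      | empty => exact ⟨1, one_pos, by simp⟩
      | insert b S hb ih =>
        obtain ⟨ρ, h1, h2⟩ := ih
        by_cases hb0 : b = 0
        · refine ⟨ρ, h1, fun c hc hc0 => ?_⟩
          rcases Finset.mem_insert.1 hc with rfl | hc
          · exact absurd hb0 hc0
          · exact h2 c hc hc0
        · refine ⟨min ρ ‖σ b‖, lt_min h1 (norm_pos_iff.2 ((map_ne_zero σ).2 hb0)),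
            fun c hc hc0 => ?_⟩
          rcases Finset.mem_insert.1 hc with rfl | hc
          · exact min_le_right _ _
          · exact (min_le_left _ _).trans (h2 c hc hc0)
    exact this _
  obtain ⟨t, ht0, ht1, ht2⟩ := h ρ hρ0
  have := hρ t (hfin.mem_toFinset.2 ht2) ht0
  linarith

end conn

end Pool.Agent.Y720.MZ
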