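import Pool.Agent.Y720.MZ.Tors

/-!
# A criterion for points of infinite order, second part (helper720)
-/

set_option autoImplicit false

open WeierstrassCurve

namespace Pool.Agent.Y720.MZ

variable {K : Type*} [Field K] {v : AbsoluteValue K ℝ}

lemma ts_eqn {a b c x y : K} (hy : y ≠ 0) (h : y ^ 2 = x ^ 3 + a * x ^ 2 + b * x + c) :
    1 / y = (x / y) ^ 3 + a * (x / y) ^ 2 * (1 / y) + b * (x / y) * (1 / y) ^ 2 + c * (1 / y) ^ 3 := by
  have e : (x / y) ^ 3 + a * (x / y) ^ 2 * (1 / y) + b * (x / y) * (1 / y) ^ 2 + c * (1 / y) ^ 3 =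
      (x ^ 3 + a * x ^ 2 + b * x + c) / y ^ 3 := by
    field_simp
  rw [e, ← h]
  field_simp

lemma chord_bound (hv : IsNonarchimedean v) {a b c x₁ x₂ y₁ y₂ ℓ ν : K} (ha : v a ≤ 1)
    (hb : v b ≤ 1) (hc : v c ≤ 1) {r : ℝ} (hr0 : 0 < r) (hr : r < 1)
    (hx1 : 1 < v x₁) (hx2 : 1 < v x₂) (hx : x₁ ≠ x₂)
    (h1 : y₁ ^ 2 = x₁ ^ 3 + a * x₁ ^ 2 + b * x₁ + c)
    (h2 : y₂ ^ 2 = x₂ ^ 3 + a * x₂ ^ 2 + b * x₂ + c) (hy1 : y₁ = ℓ * x₁ + ν)
    (hy2 : y₂ = ℓ * x₂ + ν) (ht1 : v (x₁ / y₁) ≤ r) (ht2 : v (x₂ / y₂) ≤ r)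
    (ht : x₁ / y₁ ≠ x₂ / y₂) :
    ν ≠ 0 ∧ v (-ℓ / ν) ≤ r ^ 2 ∧ v (1 / ν) ≤ r ^ 3 := by
  obtain ⟨hy1', h11, h12, h13, h14⟩ := val_ts hv ha hb hc hx1 h1
  obtain ⟨hy2', h21, h22, h23, h24⟩ := val_ts hv ha hb hc hx2 h2
  have q1 := ts_eqn hy1' h1
  have q2 := ts_eqn hy2' h2
  have e1 : x₁ / y₁ * y₁ = x₁ := div_mul_cancel₀ _ hy1'
  have e1' : (1 / y₁) * y₁ = 1 := one_div_mul_cancel hy1'
  have e2' : (1 / y₂) * y₂ = 1 := one_div_mul_cancel hy2'
  have e2 : x₂ / y₂ * y₂ = x₂ := div_mul_cancel₀ _ hy2'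
  set t₁ := x₁ / y₁
  set t₂ := x₂ / y₂
  set s₁ := 1 / y₁
  set s₂ := 1 / y₂
  have hs1 : v s₁ ≤ r ^ 3 := by rw [h14]; gcongr
  have hs2 : v s₂ ≤ r ^ 3 := by rw [h24]; gcongr
  have ht12 : t₁ - t₂ ≠ 0 := sub_ne_zero.2 ht
  have hr2 : r ^ 2 < 1 := pow_lt_one₀ hr0.le hr two_ne_zero
  have hr3 : r ^ 3 < 1 := pow_lt_one₀ hr0.le hr three_ne_zero
  have p1 := v.nonneg t₁
  have p2 := v.nonneg t₂
  have p3 := v.nonneg s₁
  have p4 := v.nonneg s₂
  have hid : (s₁ - s₂) * (1 + (-(a * t₂ ^ 2) - b * t₂ * (s₁ + s₂) -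
      c * (s₁ ^ 2 + s₁ * s₂ + s₂ ^ 2))) =
      (t₁ - t₂) * (t₁ ^ 2 + t₁ * t₂ + t₂ ^ 2 + a * (t₁ + t₂) * s₁ + b * s₁ ^ 2) := by
    linear_combination q1 - q2
  have hU : v (1 + (-(a * t₂ ^ 2) - b * t₂ * (s₁ + s₂) - c * (s₁ ^ 2 + s₁ * s₂ + s₂ ^ 2))) = 1 := by
    apply na_one_add hv
    refine lt_of_le_of_lt (b := r ^ 2) ?_ hr2
    refine na_sub hv (na_sub hv ?_ ?_) ?_
    · rw [v.map_neg, map_mul, map_pow]
      calc v a * v t₂ ^ 2 ≤ 1 * r ^ 2 := by gcongr
        _ = r ^ 2 := one_mul _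
    · have : v (s₁ + s₂) ≤ r ^ 3 := na_add hv hs1 hs2
      rw [map_mul, map_mul]
      calc v b * v t₂ * v (s₁ + s₂) ≤ 1 * r * r ^ 3 := by gcongr
        _ = r ^ 2 * r ^ 2 := by ring
        _ ≤ r ^ 2 * 1 := by gcongr
        _ = r ^ 2 := mul_one _
    · have : v (s₁ ^ 2 + s₁ * s₂ + s₂ ^ 2) ≤ r ^ 6 := by
        refine na_add hv (na_add hv ?_ ?_) ?_
        · rw [map_pow]
          calc v s₁ ^ 2 ≤ (r ^ 3) ^ 2 := by gcongr
            _ = r ^ 6 := by ring
        · rw [map_mul]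
          calc v s₁ * v s₂ ≤ (r ^ 3) * r ^ 3 := by gcongr
            _ = r ^ 6 := by ring
        · rw [map_pow]
          calc v s₂ ^ 2 ≤ (r ^ 3) ^ 2 := by gcongr
            _ = r ^ 6 := by ring
      rw [map_mul]
      calc v c * v (s₁ ^ 2 + s₁ * s₂ + s₂ ^ 2) ≤ 1 * r ^ 6 := by gcongr
        _ = r ^ 2 * (r ^ 2 * r ^ 2) := by ring
        _ ≤ r ^ 2 * (1 * 1) := by gcongr
        _ = r ^ 2 := by ring
  have hV : v (t₁ ^ 2 + t₁ * t₂ + t₂ ^ 2 + a * (t₁ + t₂) * s₁ + b * s₁ ^ 2) ≤ r ^ 2 := by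
    refine na_add hv (na_add hv (na_add hv (na_add hv ?_ ?_) ?_) ?_) ?_
    · rw [map_pow]; gcongr
    · rw [map_mul]
      calc v t₁ * v t₂ ≤ r * r := by gcongr
        _ = r ^ 2 := by ring
    · rw [map_pow]; gcongr
    · have : v (t₁ + t₂) ≤ r := na_add hv ht1 ht2
      rw [map_mul, map_mul]
      calc v a * v (t₁ + t₂) * v s₁ ≤ 1 * r * r ^ 3 := by gcongr
        _ = r ^ 2 * r ^ 2 := by ring
        _ ≤ r ^ 2 * 1 := by gcongr
        _ = r ^ 2 := mul_one _
    · rw [map_mul, map_pow]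
      calc v b * v s₁ ^ 2 ≤ 1 * (r ^ 3) ^ 2 := by gcongr
        _ = r ^ 2 * (r ^ 2 * r ^ 2) := by ring
        _ ≤ r ^ 2 * (1 * 1) := by gcongr
        _ = r ^ 2 := by ring
  set l := (s₁ - s₂) / (t₁ - t₂) with hl
  have hl' : l * (t₁ - t₂) = s₁ - s₂ := div_mul_cancel₀ _ ht12
  have hlv : v l ≤ r ^ 2 := by
    have h := congrArg v hid
    rw [map_mul, map_mul, hU, mul_one] at h
    rw [hl, map_div₀, h, mul_div_assoc, mul_comm, div_mul_cancel₀ _ (v.ne_zero ht12)]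
    exact hV
  have hmv : v (s₁ - l * t₁) ≤ r ^ 3 := by
    refine na_sub hv hs1 ?_
    rw [map_mul]
    calc v l * v t₁ ≤ r ^ 2 * r := by gcongr
      _ = r ^ 3 := by ring
  set m := s₁ - l * t₁ with hm
  have k1 : l * x₁ + m * y₁ = 1 := by
    rw [hm]; linear_combination e1' - l * e1
  have k2 : l * x₂ + m * y₂ = 1 := by
    have : m = s₂ - l * t₂ := by rw [hm]; linear_combination -hl'
    rw [this]; linear_combination e2' - l * e2
  have hx' : x₁ - x₂ ≠ 0 := sub_ne_zero.2 hx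
  have hm0 : m ≠ 0 := by
    intro h0
    rw [h0, zero_mul, add_zero] at k1 k2
    have : l * (x₁ - x₂) = 0 := by linear_combination k1 - k2
    rcases mul_eq_zero.1 this with h | h
    · rw [h, zero_mul] at k1; exact zero_ne_one k1
    · exact hx' h
  have hℓ : m * ℓ = -l := by
    apply mul_right_cancel₀ hx'
    rw [hy1] at k1
    rw [hy2] at k2
    linear_combination k1 - k2
  have hν : m * ν = 1 := by
    rw [hy1] at k1
    linear_combination k1 - x₁ * hℓ
  have hν0 : ν ≠ 0 := right_ne_zero_of_mul (a := m) (by rw [hν]; exact one_ne_zero)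
  refine ⟨hν0, ?_, ?_⟩
  · have : -ℓ / ν = l := by
      rw [div_eq_iff hν0]
      apply mul_left_cancel₀ hm0
      linear_combination -hℓ - l * hν
    rw [this]
    exact hlv
  · have : 1 / ν = m := by
      rw [div_eq_iff hν0, hν]
    rw [this]
    exact hmv

lemma tangent_bound (hv : IsNonarchimedean v) {a b c x y ℓ ν : K} (ha : v a ≤ 1)
    (hb : v b ≤ 1) (hc : v c ≤ 1) (h2 : v (2 : K) = 1) {r : ℝ}
    (hx1 : 1 < v x) (h1 : y ^ 2 = x ^ 3 + a * x ^ 2 + b * x + c) (hy1 : y = ℓ * x + ν)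
    (hℓ : ℓ * (2 * y) = 3 * x ^ 2 + 2 * a * x + b) (ht1 : v (x / y) ≤ r) :
    ν ≠ 0 ∧ v (-ℓ / ν) ≤ r ^ 2 ∧ v (1 / ν) ≤ r ^ 3 := by
  obtain ⟨hy1', h11, h12, h13, h14⟩ := val_ts hv ha hb hc hx1 h1
  have hvy := val_y hv ha hb hc hx1 h1
  have hx0 : 0 < v x := one_pos.trans hx1
  have hy0 : 0 < v y := v.pos hy1'
  have hN : ν * (2 * y) = -x ^ 3 + (b * x + 2 * c) := by
    have : ν = y - ℓ * x := by rw [hy1]; ring
    rw [this]
    linear_combination 2 * h1 - x * hℓ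
  have hNv : v (-x ^ 3 + (b * x + 2 * c)) = v x ^ 3 := by
    have h12 : v x < v x ^ 2 := by nlinarith
    have h23 : v x ^ 2 < v x ^ 3 := by nlinarith [sq_nonneg (v x)]
    rw [na_eq hv, v.map_neg, map_pow]
    rw [v.map_neg, map_pow]
    refine na_lt hv ?_ ?_
    · rw [map_mul]
      calc v b * v x ≤ 1 * v x := by gcongr
        _ < v x ^ 3 := by rw [one_mul]; exact h12.trans h23
    · rw [map_mul, h2, one_mul]
      exact hc.trans_lt (hx1.trans (h12.trans h23))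
  have hνv : v ν = v y := by
    have h := congrArg v hN
    rw [hNv, map_mul, map_mul, h2, one_mul, ← hvy, sq] at h
    exact mul_right_cancel₀ hy0.ne' h
  have hν0 : ν ≠ 0 := by
    intro h0
    rw [h0, map_zero] at hνv
    exact hy0.ne hνv
  have hs : v (1 / ν) = v (1 / y) := by
    rw [map_div₀, map_div₀, hνv]
  refine ⟨hν0, ?_, ?_⟩
  · have h5 : v ℓ * v y ≤ v x ^ 2 := by
      have h := congrArg v hℓ
      rw [map_mul, map_mul, h2, one_mul] at h
      rw [h]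
      have h3v : v (3 : K) ≤ 1 := by exact_mod_cast na_nat hv 3
      refine na_add hv (na_add hv ?_ ?_) ?_
      · rw [map_mul, map_pow]
        exact mul_le_of_le_one_left (by positivity) h3v
      · rw [map_mul, map_mul, h2, one_mul]
        calc v a * v x ≤ 1 * v x := by gcongr
          _ ≤ v x ^ 2 := by nlinarith
      · exact hb.trans (one_le_pow₀ hx1.le)
    rw [map_div₀, v.map_neg, hνv]
    calc v ℓ / v y = (v ℓ * v y) / v y ^ 2 := by field_simp
      _ ≤ v x ^ 2 / v y ^ 2 := by gcongr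
      _ = v (x / y) ^ 2 := by rw [map_div₀, div_pow]
      _ ≤ r ^ 2 := by gcongr
  · rw [hs, h14]
    gcongr

variable [DecidableEq K]

/-- the multiples of a point close to the origin -/
theorem mult_close (hv : IsNonarchimedean v) {a b c : K} (ha : v a ≤ 1) (hb : v b ≤ 1)
    (hc : v c ≤ 1) {p : ℕ} (hp3 : 3 ≤ p) (hp : ∀ k : ℕ, 1 ≤ k → k < p → v (k : K) = 1)
    {x y : K} (h : (cv a b c).toAffine.Nonsingular x y)
    (hx1 : 1 < v x) (hx : 1 < v x * v (p : K)) (hp1 : v (p : K) ≤ 1) :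
    ∀ n : ℕ, 1 ≤ n → n ≤ p → ∃ x' y' h', n • (.some x y h : Pt a b c) = .some x' y' h' ∧
      1 < v x' ∧ v (x' / y' - n * (x / y)) ≤ v (x / y) ^ 3 := by
  have heq := (cv_ns.1 h).1
  obtain ⟨hy, h1, h2, h3, h4⟩ := val_ts hv ha hb hc hx1 heq
  set r := v (x / y) with hr
  have hx0 : 0 < v x := one_pos.trans hx1
  have hr3r : r ^ 3 ≤ r := by
    calc r ^ 3 = r ^ 2 * r := by ring
      _ ≤ 1 * r := by gcongr; exact pow_le_one₀ h3.le h2.le
      _ = r := one_mul r
  have hrp : r ^ 2 < v (p : K) := by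
    by_contra hcon
    push Not at hcon
    have : v x * v (p : K) ≤ v x * r ^ 2 := by gcongr
    nlinarith
  -- small integers
  have hint : ∀ k : ℕ, 1 ≤ k → k ≤ p → r ^ 2 < v (k : K) := by
    intro k hk1 hk2
    rcases hk2.lt_or_eq with hk | hk
    · rw [hp k hk1 hk]
      exact pow_lt_one₀ h3.le h2 two_ne_zero
    · rw [hk]; exact hrp
  have hbig : ∀ k : ℕ, 1 ≤ k → k ≤ p → ¬ v ((k : K) * (x / y)) ≤ r ^ 3 := by
    intro k hk1 hk2 hcon
    rw [map_mul, ← hr] at hcon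
    have := hint k hk1 hk2
    have : r ^ 2 * r < v (k : K) * r := by gcongr
    nlinarith
  intro n hn
  induction n, hn using Nat.le_induction with
  | base =>
    intro _
    refine ⟨x, y, h, one_smul _ _, hx1, ?_⟩
    rw [Nat.cast_one, one_mul, sub_self, map_zero]
    positivity
  | succ n hn ih =>
    intro hnp
    obtain ⟨x', y', h', he, hx', ht'⟩ := ih (by omega)
    have heq' := (cv_ns.1 h').1
    obtain ⟨hy', h1', h2', h3', h4'⟩ := val_ts hv ha hb hc hx' heq'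
    have ht1 : v (x' / y') ≤ r := by
      have e : x' / y' = (x' / y' - n * (x / y)) + n * (x / y) := by ring
      rw [e]
      refine na_add hv (ht'.trans hr3r) ?_
      rw [map_mul, ← hr]
      exact mul_le_of_le_one_left h3.le (na_nat hv n)
    rcases hn.lt_or_eq with hn2 | hn1
    · -- the chord
      have hxx : x' ≠ x := by
        intro hxx
        subst hxx
        rcases eq_or_neg h' h with h5 | h5
        · rw [Affine.Point.some.injEq] at h5
          have h6 : x' / y' - n * (x' / y) = -((n - 1 : ℕ) * (x' / y)) := by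
            rw [h5.2, Nat.cast_sub hn]; push_cast; ring
          rw [h6, v.map_neg] at ht'
          exact hbig (n - 1) (by omega) (by omega) ht'
        · obtain ⟨h7, h8⟩ := neg_mk h
          rw [h8, Affine.Point.some.injEq] at h5
          have h6 : x' / y' - n * (x' / y) = -((n + 1 : ℕ) * (x' / y)) := by
            rw [h5.2, div_neg]; push_cast; ring
          rw [h6, v.map_neg] at ht'
          exact hbig (n + 1) (by omega) (by omega) ht'
      have htt : x' / y' ≠ x / y := by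
        intro htt
        have h6 : x' / y' - n * (x / y) = -((n - 1 : ℕ) * (x / y)) := by
          rw [htt, Nat.cast_sub hn]; push_cast; ring
        rw [h6, v.map_neg] at ht'
        exact hbig (n - 1) (by omega) (by omega) ht'
      have hxx' : x' - x ≠ 0 := sub_ne_zero.2 hxx
      set ℓ := (y' - y) / (x' - x) with hℓ
      have hℓ' : ℓ * (x' - x) = y' - y := div_mul_cancel₀ _ hxx'
      set ν := y' - ℓ * x' with hν
      have hy1 : y' = ℓ * x' + ν := by rw [hν]; ring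
      have hy2 : y = ℓ * x + ν := by rw [hν]; linear_combination hℓ'
      obtain ⟨hν0, b1, b2⟩ := chord_bound hv ha hb hc h3 h2 hx' hx1 hxx heq' heq hy1 hy2 ht1
        le_rfl htt
      obtain ⟨v1, v2⟩ := vieta_chord hxx heq' heq hy1 hy2
      obtain ⟨w1, w2, w3⟩ := third_close hv ha hb hc (x₁ := x') (x₂ := x)
        (x₃ := ℓ ^ 2 - a - x' - x) (ℓ := ℓ) (ν := ν) (by ring) v1 v2 h3 h2 hν0 b1 b2
        (by rw [← hy1]; exact hy') (by rw [← hy2]; exact hy) (by rw [← hy1]; exact ht1)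
        (by rw [← hy2])
      obtain ⟨hns, hadd⟩ := add_mk h' h hxx hℓ'
      have e3 : -(ℓ * (ℓ ^ 2 - a - x' - x - x') + y') = -(ℓ * (ℓ ^ 2 - a - x' - x) + ν) := by
        rw [hν]; ring
      refine ⟨_, _, hns, by rw [add_smul, one_smul, he, hadd], ?_, ?_⟩
      · refine one_lt_of_y hv ha hb hc ?_ (cv_ns.1 hns).1
        rw [e3, v.map_neg]
        exact w2
      · rw [e3, div_neg]
        rw [← hy1, ← hy2] at w3
        have e4 : -((ℓ ^ 2 - a - x' - x) / (ℓ * (ℓ ^ 2 - a - x' - x) + ν)) - ↑(n + 1) * (x / y) =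
            -((ℓ ^ 2 - a - x' - x) / (ℓ * (ℓ ^ 2 - a - x' - x) + ν) + x' / y' + x / y) +
              (x' / y' - n * (x / y)) := by push_cast; ring
        rw [e4]
        exact na_add hv (by rw [v.map_neg]; exact w3) ht'
    · -- the tangent
      subst hn1
      have h22 : v (2 : K) = 1 := by exact_mod_cast hp 2 (by norm_num) (by omega)
      have h20 : (2 : K) ≠ 0 := by
        intro h0; rw [h0, map_zero] at h22; exact zero_ne_one h22
      have hy2 : 2 * y ≠ 0 := mul_ne_zero h20 hy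
      set ℓ := (3 * x ^ 2 + 2 * a * x + b) / (2 * y) with hℓ
      have hℓ' : ℓ * (2 * y) = 3 * x ^ 2 + 2 * a * x + b := div_mul_cancel₀ _ hy2
      set ν := y - ℓ * x with hν
      have hy1 : y = ℓ * x + ν := by rw [hν]; ring
      obtain ⟨hν0, b1, b2⟩ := tangent_bound hv ha hb hc h22 hx1 heq hy1 hℓ' (le_refl (v (x / y)))
      obtain ⟨v1, v2⟩ := vieta_tangent heq hy1 hℓ'
      obtain ⟨w1, w2, w3⟩ := third_close hv ha hb hc (x₁ := x) (x₂ := x)
        (x₃ := ℓ ^ 2 - a - x - x) (ℓ := ℓ) (ν := ν) (by ring) v1 v2 h3 h2 hν0 b1 b2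
        (by rw [← hy1]; exact hy) (by rw [← hy1]; exact hy) (by rw [← hy1])
        (by rw [← hy1])
      obtain ⟨hns, hadd⟩ := dbl_mk h hy2 hℓ'
      have e3 : -(ℓ * (ℓ ^ 2 - a - x - x - x) + y) = -(ℓ * (ℓ ^ 2 - a - x - x) + ν) := by
        rw [hν]; ring
      refine ⟨_, _, hns, by rw [add_smul, one_smul, hadd], ?_, ?_⟩
      · refine one_lt_of_y hv ha hb hc ?_ (cv_ns.1 hns).1
        rw [e3, v.map_neg]
        exact w2
      · rw [e3, div_neg]
        rw [← hy1] at w3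
        have e4 : -((ℓ ^ 2 - a - x - x) / (ℓ * (ℓ ^ 2 - a - x - x) + ν)) - ((1 + 1 : ℕ) : K) * (x / y) =
            -((ℓ ^ 2 - a - x - x) / (ℓ * (ℓ ^ 2 - a - x - x) + ν) + x / y + x / y) := by
          push_cast; ring
        rw [e4, v.map_neg]
        exact w3

/-- **A criterion for points of infinite order.** -/
theorem infinite_order (hv : IsNonarchimedean v) {a b c : K} (ha : v a ≤ 1) (hb : v b ≤ 1)
    (hc : v c ≤ 1) {p : ℕ} (hp3 : 3 ≤ p) (hp : ∀ k : ℕ, 1 ≤ k → k < p → v (k : K) = 1)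
    (hp1 : v (p : K) < 1)
    {x y : K} (h : (cv a b c).toAffine.Nonsingular x y) (hx : 1 < v x * v (p : K)) :
    ∀ n : ℕ, n ≠ 0 → n • (.some x y h : Pt a b c) ≠ 0 := by
  have hvp : 0 < v (p : K) := by
    rcases (v.nonneg (p : K)).lt_or_eq with h0 | h0
    · exact h0
    · rw [← h0, mul_zero] at hx; linarith
  -- one step
  have step : ∀ (x y : K) (h : (cv a b c).toAffine.Nonsingular x y), 1 < v x * v (p : K) →
      ∃ x' y' h', p • (.some x y h : Pt a b c) = .some x' y' h' ∧ v x < v x' ∧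
        1 < v x' * v (p : K) := by
    intro x y h hx
    have hx1 : 1 < v x := by
      by_contra hcon
      push Not at hcon
      have : v x * v (p : K) ≤ 1 * 1 := by gcongr
      linarith
    have heq := (cv_ns.1 h).1
    obtain ⟨hy, h1, h2, h3, h4⟩ := val_ts hv ha hb hc hx1 heq
    obtain ⟨x', y', h', he, hx', ht'⟩ := mult_close hv ha hb hc hp3 hp h hx1 hx hp1.le p
      (by omega) le_rfl
    obtain ⟨hy', h1', h2', h3', h4'⟩ := val_ts hv ha hb hc hx' (cv_ns.1 h').1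
    have hrp : v (x / y) ^ 2 < v (p : K) := by
      by_contra hcon
      push Not at hcon
      have : v x * v (p : K) ≤ v x * v (x / y) ^ 2 := by gcongr
      nlinarith
    have h5 : v (x' / y' - p * (x / y)) < v ((p : K) * (x / y)) := by
      refine ht'.trans_lt ?_
      rw [map_mul]
      calc v (x / y) ^ 3 = v (x / y) ^ 2 * v (x / y) := by ring
        _ < v (p : K) * v (x / y) := by gcongr
    have h6 : v (x' / y') = v (p : K) * v (x / y) := by
      have e : x' / y' = (p : K) * (x / y) + (x' / y' - p * (x / y)) := by ring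
      rw [e, na_eq hv h5, map_mul]
    have h7 : v x < v x' := by
      rw [h6] at h1'
      have h8 : v x = v (p : K) ^ 2 * v x' := by
        apply mul_left_cancel₀ (pow_pos h3 2).ne'
        rw [h1]
        linear_combination -h1'
      rw [h8]
      have : v (p : K) ^ 2 < 1 := pow_lt_one₀ hvp.le hp1 two_ne_zero
      have : 0 < v x' := one_pos.trans hx'
      nlinarith
    refine ⟨x', y', h', he, h7, hx.trans ?_⟩
    gcongr
  -- the iterates
  let Q : ℕ → {z : K × K // (cv a b c).toAffine.Nonsingular z.1 z.2 ∧ 1 < v z.1 * v (p : K)} :=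
    fun k => Nat.rec ⟨(x, y), h, hx⟩ (fun _ z =>
      ⟨((step z.1.1 z.1.2 z.2.1 z.2.2).choose,
        (step z.1.1 z.1.2 z.2.1 z.2.2).choose_spec.choose),
       (step z.1.1 z.1.2 z.2.1 z.2.2).choose_spec.choose_spec.choose,
       (step z.1.1 z.1.2 z.2.1 z.2.2).choose_spec.choose_spec.choose_spec.2.2⟩) k
  have hQ0 : ∀ k, p ^ k • (.some x y h : Pt a b c) = .some (Q k).1.1 (Q k).1.2 (Q k).2.1 := by
    intro k
    induction k with
    | zero => rw [pow_zero, one_smul]; rfl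
    | succ k ih =>
      rw [pow_succ', mul_smul, ih]
      exact (step (Q k).1.1 (Q k).1.2 (Q k).2.1 (Q k).2.2).choose_spec.choose_spec.choose_spec.1
  have hQ1 : StrictMono fun k => v (Q k).1.1 := by
    refine strictMono_nat_of_lt_succ fun k => ?_
    exact (step (Q k).1.1 (Q k).1.2 (Q k).2.1 (Q k).2.2).choose_spec.choose_spec.choose_spec.2.1
  intro n hn h0
  have : NeZero n := ⟨hn⟩
  obtain ⟨i, j, hij, he⟩ := Finite.exists_ne_map_eq_of_infinite (fun k : ℕ => ((p ^ k : ℕ) : ZMod n))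
  have hsm : ∀ m : ℕ, m • (.some x y h : Pt a b c) = (m % n) • (.some x y h : Pt a b c) := by
    intro m
    conv_lhs => rw [← Nat.div_add_mod m n, add_smul, mul_comm, mul_smul, h0, smul_zero, zero_add]
  have h1 : p ^ i • (.some x y h : Pt a b c) = p ^ j • (.some x y h : Pt a b c) := by
    rw [hsm, hsm (p ^ j), (ZMod.natCast_eq_natCast_iff' _ _ _).1 he]
  rw [hQ0, hQ0, Affine.Point.some.injEq] at h1
  exact hij (hQ1.injective (by simp only [h1.1]))

end Pool.Agent.Y720.MZ
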