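import Pool.Agent.Y720.MZ.PF

/-!
# Polynomials vanishing near a good point of `w² = F(x, z)` (helper720)
-/

set_option autoImplicit false

open Filter Topology Matrix

namespace Pool.Agent.Y720.MZ

section defs

variable {K : Type*} [Field K] {n : ℕ}

/-- the bilinear form of a matrix -/
def bf (M : Matrix (Fin n) (Fin n) K) (x y : Fin n → K) : K := x ⬝ᵥ M *ᵥ y

lemma bf_add_left (M : Matrix (Fin n) (Fin n) K) (x x' y : Fin n → K) :
    bf M (x + x') y = bf M x y + bf M x' y := by simp [bf, add_dotProduct]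

lemma bf_add_right (M : Matrix (Fin n) (Fin n) K) (x y y' : Fin n → K) :
    bf M x (y + y') = bf M x y + bf M x y' := by simp [bf, mulVec_add, dotProduct_add]

lemma bf_smul_left (M : Matrix (Fin n) (Fin n) K) (c : K) (x y : Fin n → K) :
    bf M (c • x) y = c * bf M x y := by simp [bf, smul_dotProduct]

lemma bf_smul_right (M : Matrix (Fin n) (Fin n) K) (c : K) (x y : Fin n → K) :
    bf M x (c • y) = c * bf M x y := by simp [bf, mulVec_smul, dotProduct_smul]

lemma bf_comm {M : Matrix (Fin n) (Fin n) K} (hM : M.IsSymm) (x y : Fin n → K) :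
    bf M x y = bf M y x := by
  rw [bf, bf, dotProduct_comm, ← vecMul_transpose, hM.eq, dotProduct_mulVec]

/-- the orthogonal projection -/
def psi (M : Matrix (Fin n) (Fin n) K) (w₀ : K) (x₀ y : Fin n → K) : Fin n → K :=
  y - (bf M x₀ y / w₀ ^ 2) • x₀

/-- the points of the conic -/
def xk (w₀ d : K) (x₀ v : Fin n → K) (k : K) : Fin n → K :=
  (1 + d * k ^ 2) • x₀ + (2 * w₀ * k) • v

lemma bf_psi {M : Matrix (Fin n) (Fin n) K} {w₀ : K} (hw : w₀ ≠ 0) {x₀ : Fin n → K}
    (h0 : bf M x₀ x₀ = w₀ ^ 2) (y : Fin n → K) : bf M x₀ (psi M w₀ x₀ y) = 0 := by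
  rw [psi, sub_eq_add_neg, ← neg_smul, bf_add_right, bf_smul_right, h0]
  field_simp
  ring

lemma bf_xk {M : Matrix (Fin n) (Fin n) K} (hM : M.IsSymm) (w₀ d : K) (x₀ v : Fin n → K) (k : K) :
    bf M (xk w₀ d x₀ v k) (xk w₀ d x₀ v k) = qk w₀ d (bf M x₀ x₀) (bf M x₀ v) (bf M v v) k := by
  rw [xk, qk]
  simp only [bf_add_left, bf_add_right, bf_smul_left, bf_smul_right]
  rw [bf_comm hM v x₀]
  ring

lemma PF_coord_psi (M : Matrix (Fin n) (Fin n) K) (w₀ : K) (x₀ : Fin n → K) (i : Fin n) :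
    PF fun y => psi M w₀ x₀ y i := by
  unfold psi
  simp only [Pi.sub_apply, Pi.smul_apply, smul_eq_mul, bf, dotProduct, mulVec, div_eq_mul_inv]
  exact (PF.coord i).sub (((PF.sum _ fun j _ => (PF.const _).mul (PF.sum _ fun l _ =>
    (PF.const _).mul (PF.coord l))).mul (PF.const _)).mul (PF.const _))

end defs

variable {K : Type*} [Field K] [Infinite K] [CharZero K] {L : Type*} [NontriviallyNormedField L]
  {n : ℕ}

/-- the elements of `K` close to `1` -/
lemma infinite_near (σ : K →+* L) (hσ : DenseRange σ) {U : Set L} (hU : IsOpen U)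
    (hne : U.Nonempty) : {a : K | σ a ∈ U}.Infinite := by
  intro hfin
  have h1 : (U \ (σ '' {a : K | σ a ∈ U})).Nonempty := by
    obtain ⟨x, hx⟩ := hne
    have hinf : U.Infinite := infinite_of_mem_nhds x (hU.mem_nhds hx)
    exact (hinf.sdiff (hfin.image σ)).nonempty
  have h2 : IsOpen (U \ (σ '' {a : K | σ a ∈ U})) := hU.sdiff (hfin.image σ).isClosed
  obtain ⟨a, ha⟩ := hσ.exists_mem_open h2 h1
  exact ha.2 ⟨a, ha.1, rfl⟩

/-- **Vanishing near a good point.** -/
theorem van_good (σ : K →+* L) (hσ : DenseRange σ) {F : (Fin n → K) → (Fin 2 → K) → K}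
    {w₀ : K} (hw : w₀ ≠ 0) {x₀ : Fin n → K} {z₀ e : Fin 2 → K}
    {Q₀ Q₁ Q₂ Q₃ Q₄ : Matrix (Fin n) (Fin n) K}
    (hF : ∀ x t, F x (z₀ + t • e) = bf Q₀ x x + bf Q₁ x x * t + bf Q₂ x x * t ^ 2 +
      bf Q₃ x x * t ^ 3 + bf Q₄ x x * t ^ 4)
    (hFs : ∀ (a : K) x z, F (a • x) z = a ^ 2 * F x z)
    (h0 : bf Q₀ x₀ x₀ = w₀ ^ 2)
    {p : (Fin n → K) → Prop} (hp : LO p) (hp1 : ∃ y, p y)
    (hH : ∀ y, p y → ∃ d : K, d ≠ 0 ∧ ∀ ε : ℝ, 0 < ε → {k : K | ‖σ k‖ < ε ∧
      dc (bf Q₀ (xk w₀ d x₀ (psi Q₀ w₀ x₀ y) k) (xk w₀ d x₀ (psi Q₀ w₀ x₀ y) k))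
        (bf Q₁ (xk w₀ d x₀ (psi Q₀ w₀ x₀ y) k) (xk w₀ d x₀ (psi Q₀ w₀ x₀ y) k))
        (bf Q₂ (xk w₀ d x₀ (psi Q₀ w₀ x₀ y) k) (xk w₀ d x₀ (psi Q₀ w₀ x₀ y) k))
        (bf Q₃ (xk w₀ d x₀ (psi Q₀ w₀ x₀ y) k) (xk w₀ d x₀ (psi Q₀ w₀ x₀ y) k))
        (bf Q₄ (xk w₀ d x₀ (psi Q₀ w₀ x₀ y) k) (xk w₀ d x₀ (psi Q₀ w₀ x₀ y) k)) ≠ 0 ∧
      ∀ δ : ℝ, 0 < δ → ∃ t Y : K, t ≠ 0 ∧ ‖σ t‖ < δ ∧ ‖σ (Y - wk w₀ d k)‖ < δ ∧
        Y ^ 2 = F (xk w₀ d x₀ (psi Q₀ w₀ x₀ y) k) (z₀ + t • e)}.Infinite)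
    (g h : MvPolynomial (Fin n ⊕ Fin 2) K) {U : Set (L × (Fin n → L) × (Fin 2 → L))}
    (hU : U ∈ 𝓝 (σ w₀, (fun i => σ (x₀ i)), fun j => σ (z₀ j)))
    (hvan : ∀ w x z, w ^ 2 = F x z → (σ w, (fun i => σ (x i)), fun j => σ (z j)) ∈ U →
      MvPolynomial.eval (Sum.elim x z) g + w * MvPolynomial.eval (Sum.elim x z) h = 0)
    (x : Fin n → K) (t : K) : MvPolynomial.eval (Sum.elim x (z₀ + t • e)) g = 0 ∧
      MvPolynomial.eval (Sum.elim x (z₀ + t • e)) h = 0 := by
  -- polynomiality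
  have pf1 : ∀ (g : MvPolynomial (Fin n ⊕ Fin 2) K) (X : K → Fin n → K) (Z : K → Fin 2 → K),
      (∀ i, PF1 fun τ => X τ i) → (∀ j, PF1 fun τ => Z τ j) →
      PF1 fun τ => MvPolynomial.eval (Sum.elim (X τ) (Z τ)) g := by
    intro g X Z hX hZ
    have h1 := PF1.eval (φ := fun (s : Fin n ⊕ Fin 2) τ => Sum.elim (X τ) (Z τ) s) (fun s => by
      rcases s with i | j
      · exact hX i
      · exact hZ j) g
    exact h1
  -- the statement for good directions
  have key : ∀ y, p y → ∀ s t : K, MvPolynomial.eval (Sum.elim (s • x₀ + psi Q₀ w₀ x₀ y)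
      (z₀ + t • e)) g = 0 ∧
      MvPolynomial.eval (Sum.elim (s • x₀ + psi Q₀ w₀ x₀ y) (z₀ + t • e)) h = 0 := by
    intro y hy
    obtain ⟨d, hd, hinf⟩ := hH y hy
    set v := psi Q₀ w₀ x₀ y with hv
    -- the neighbourhood
    let Φ : L × L × L × L → L × (Fin n → L) × (Fin 2 → L) := fun q =>
      (q.1 * (σ w₀ * (1 - σ d * q.2.1 ^ 2) + q.2.2.2),
        (fun i => q.1 * ((1 + σ d * q.2.1 ^ 2) * σ (x₀ i) + (2 * σ w₀ * q.2.1) * σ (v i))),
        fun j => σ (z₀ j) + q.2.2.1 * σ (e j))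
    have hΦc : Continuous Φ := by
      refine Continuous.prodMk (by fun_prop) (Continuous.prodMk ?_ ?_)
      · exact continuous_pi fun i => by fun_prop
      · exact continuous_pi fun j => by fun_prop
    have hΦ0 : Φ (1, 0, 0, 0) = (σ w₀, (fun i => σ (x₀ i)), fun j => σ (z₀ j)) := by
      simp [Φ]
    have hpre : Φ ⁻¹' U ∈ 𝓝 ((1, 0, 0, 0) : L × L × L × L) := by
      apply hΦc.continuousAt.preimage_mem_nhds
      rw [hΦ0]; exact hU
    obtain ⟨δ₀, hδ₀, hball⟩ := Metric.mem_nhds_iff.1 hpre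
    set T := {k : K | ‖σ k‖ < δ₀ ∧
      dc (bf Q₀ (xk w₀ d x₀ v k) (xk w₀ d x₀ v k))
        (bf Q₁ (xk w₀ d x₀ v k) (xk w₀ d x₀ v k))
        (bf Q₂ (xk w₀ d x₀ v k) (xk w₀ d x₀ v k))
        (bf Q₃ (xk w₀ d x₀ v k) (xk w₀ d x₀ v k))
        (bf Q₄ (xk w₀ d x₀ v k) (xk w₀ d x₀ v k)) ≠ 0 ∧
      ∀ δ : ℝ, 0 < δ → ∃ t Y : K, t ≠ 0 ∧ ‖σ t‖ < δ ∧ ‖σ (Y - wk w₀ d k)‖ < δ ∧
        Y ^ 2 = F (xk w₀ d x₀ v k) (z₀ + t • e)} with hT
    have hTinf : T.Infinite := hinf δ₀ hδ₀
    -- step A and B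
    have stepB : ∀ k ∈ T, ∀ a : K, ‖σ a - 1‖ < δ₀ → a ≠ 0 → ∀ t : K,
        MvPolynomial.eval (Sum.elim (a • xk w₀ d x₀ v k) (z₀ + t • e)) g = 0 ∧
        MvPolynomial.eval (Sum.elim (a • xk w₀ d x₀ v k) (z₀ + t • e)) h = 0 := by
      intro k hk a ha ha0
      obtain ⟨hk1, hk2, hk3⟩ := hk
      have hpg := pf1 g (fun _ => a • xk w₀ d x₀ v k) (fun t => z₀ + t • e)
        (fun i => PF1.const _) (fun j => (PF1.const _).add (PF1.id'.mul (PF1.const _)))
      have hph := (pf1 h (fun _ => a • xk w₀ d x₀ v k) (fun t => z₀ + t • e)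
        (fun i => PF1.const _) (fun j => (PF1.const _).add (PF1.id'.mul (PF1.const _)))).mul
        (PF1.const a)
      have hinf : {t : K | ∃ Y, Y ^ 2 = bf Q₀ (xk w₀ d x₀ v k) (xk w₀ d x₀ v k) +
          bf Q₁ (xk w₀ d x₀ v k) (xk w₀ d x₀ v k) * t +
          bf Q₂ (xk w₀ d x₀ v k) (xk w₀ d x₀ v k) * t ^ 2 +
          bf Q₃ (xk w₀ d x₀ v k) (xk w₀ d x₀ v k) * t ^ 3 +
          bf Q₄ (xk w₀ d x₀ v k) (xk w₀ d x₀ v k) * t ^ 4 ∧
          MvPolynomial.eval (Sum.elim (a • xk w₀ d x₀ v k) (z₀ + t • e)) g +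
            Y * (MvPolynomial.eval (Sum.elim (a • xk w₀ d x₀ v k) (z₀ + t • e)) h * a) =
              0}.Infinite := by
        intro hfin
        -- a lower bound
        obtain ⟨ρ, hρ0, hρ⟩ : ∃ ρ : ℝ, 0 < ρ ∧ ∀ t ∈ hfin.toFinset, t ≠ 0 → ρ ≤ ‖σ t‖ := by
          have : ∀ S : Finset K, ∃ ρ : ℝ, 0 < ρ ∧ ∀ t ∈ S, t ≠ 0 → ρ ≤ ‖σ t‖ := by
            classical
            intro S
            induction S using Finset.induction_on with
            | empty => exact ⟨1, one_pos, by simp⟩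
            | insert b S hb ih =>
              obtain ⟨ρ, h1, h2⟩ := ih
              by_cases hb0 : b = 0
              · refine ⟨ρ, h1, fun c hc hc0 => ?_⟩
                rcases Finset.mem_insert.1 hc with rfl | hc
                · exact absurd hb0 hc0
                · exact h2 c hc hc0
              · refine ⟨min ρ ‖σ b‖, lt_min h1 (norm_pos_iff.2 ((map_ne_zero σ).2 hb0)),
                  fun c hc hc0 => ?_⟩
                rcases Finset.mem_insert.1 hc with rfl | hc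
                · exact min_le_right _ _
                · exact (min_le_left _ _).trans (h2 c hc hc0)
          exact this _
        obtain ⟨t, Y, ht0, ht1, ht2, ht3⟩ := hk3 (min ρ δ₀) (lt_min hρ0 hδ₀)
        have htmem : t ∈ {t : K | ∃ Y, Y ^ 2 = bf Q₀ (xk w₀ d x₀ v k) (xk w₀ d x₀ v k) +
          bf Q₁ (xk w₀ d x₀ v k) (xk w₀ d x₀ v k) * t +
          bf Q₂ (xk w₀ d x₀ v k) (xk w₀ d x₀ v k) * t ^ 2 +
          bf Q₃ (xk w₀ d x₀ v k) (xk w₀ d x₀ v k) * t ^ 3 +
          bf Q₄ (xk w₀ d x₀ v k) (xk w₀ d x₀ v k) * t ^ 4 ∧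
          MvPolynomial.eval (Sum.elim (a • xk w₀ d x₀ v k) (z₀ + t • e)) g +
            Y * (MvPolynomial.eval (Sum.elim (a • xk w₀ d x₀ v k) (z₀ + t • e)) h * a) =
              0} := by
          refine ⟨Y, by rw [ht3, hF], ?_⟩
          have h1 := hvan (a * Y) (a • xk w₀ d x₀ v k) (z₀ + t • e)
            (by rw [mul_pow, ht3, hFs]) (by
              have hmem : ((σ a, σ k, σ t, σ (Y - wk w₀ d k)) : L × L × L × L) ∈
                  Metric.ball ((1, 0, 0, 0) : L × L × L × L) δ₀ := by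
                rw [Metric.mem_ball, Prod.dist_eq, Prod.dist_eq, Prod.dist_eq]
                refine max_lt ?_ (max_lt ?_ (max_lt ?_ ?_))
                · rw [dist_eq_norm]; exact ha
                · rw [dist_zero_right]; exact hk1
                · rw [dist_zero_right]; exact ht1.trans_le (min_le_right _ _)
                · rw [dist_zero_right]; exact ht2.trans_le (min_le_right _ _)
              have h2 := hball hmem
              have h3 : Φ (σ a, σ k, σ t, σ (Y - wk w₀ d k)) =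
                  (σ (a * Y), (fun i => σ ((a • xk w₀ d x₀ v k) i)),
                    fun j => σ ((z₀ + t • e) j)) := by
                simp only [Φ, Prod.mk.injEq]
                refine ⟨?_, ?_, ?_⟩
                · simp only [wk, map_sub, map_mul, map_one, map_pow]
                  ring
                · funext i
                  simp only [xk, Pi.smul_apply, Pi.add_apply, smul_eq_mul, map_mul, map_add,
                    map_one, map_pow, map_ofNat]
                · funext j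
                  simp only [Pi.smul_apply, Pi.add_apply, smul_eq_mul, map_mul, map_add]
              rw [← h3]
              exact h2)
          linear_combination h1
        have := hρ t (hfin.mem_toFinset.2 htmem) ht0
        have := ht1.trans_le (min_le_left _ _)
        linarith
      obtain ⟨r1, r2⟩ := sq_lemma hk2 hpg hph hinf
      intro t
      exact ⟨r1 t, (mul_eq_zero.1 (r2 t)).resolve_right ha0⟩
    -- step C
    have stepC : ∀ k ∈ T, ∀ a t : K,
        MvPolynomial.eval (Sum.elim (a • xk w₀ d x₀ v k) (z₀ + t • e)) g = 0 ∧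
        MvPolynomial.eval (Sum.elim (a • xk w₀ d x₀ v k) (z₀ + t • e)) h = 0 := by
      intro k hk a t
      have hA : {a : K | ‖σ a - 1‖ < δ₀ ∧ a ≠ 0}.Infinite := by
        have h1 := (infinite_near σ hσ (U := Metric.ball 1 δ₀) Metric.isOpen_ball
          ⟨1, Metric.mem_ball_self hδ₀⟩).sdiff (Set.finite_singleton (0 : K))
        refine h1.mono ?_
        rintro a ⟨ha, ha0⟩
        refine ⟨?_, ha0⟩
        have ha' : σ a ∈ Metric.ball (1 : L) δ₀ := ha
        rwa [Metric.mem_ball, dist_eq_norm] at ha'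
      have p1 : ∀ g, PF1 fun a : K =>
          MvPolynomial.eval (Sum.elim (a • xk w₀ d x₀ v k) (z₀ + t • e)) g := fun g =>
        pf1 g (fun a => a • xk w₀ d x₀ v k) (fun _ => z₀ + t • e)
          (fun i => PF1.id'.mul (PF1.const _)) (fun j => PF1.const _)
      exact ⟨(p1 g).zero (hA.mono fun a ha => (stepB k hk a ha.1 ha.2 t).1) a,
        (p1 h).zero (hA.mono fun a ha => (stepB k hk a ha.1 ha.2 t).2) a⟩
    -- step D
    have stepD : ∀ g : MvPolynomial (Fin n ⊕ Fin 2) K, (∀ k ∈ T, ∀ a t : K,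
        MvPolynomial.eval (Sum.elim (a • xk w₀ d x₀ v k) (z₀ + t • e)) g = 0) → ∀ a m t : K,
        MvPolynomial.eval (Sum.elim (a • (x₀ + m • v)) (z₀ + t • e)) g = 0 := by
      intro g hg a m t
      have hN : PF1 fun m : K => MvPolynomial.eval (Sum.elim (a • (x₀ + m • v)) (z₀ + t • e)) g :=
        pf1 g (fun m => a • (x₀ + m • v)) (fun _ => z₀ + t • e)
          (fun i => (PF1.const a).mul ((PF1.const _).add (PF1.id'.mul (PF1.const _))))
          (fun j => PF1.const _)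
      by_contra hcon
      have hfin := hN.finite hcon
      apply hTinf
      have hroots : ∀ m : K, {k : K | m * (1 + d * k ^ 2) - 2 * w₀ * k = 0}.Finite := by
        intro m
        have hp : PF1 fun k : K => m * (1 + d * k ^ 2) - 2 * w₀ * k :=
          ((PF1.const _).mul ((PF1.const _).add ((PF1.const _).mul (PF1.id'.pow 2)))).sub
            ((PF1.const _).mul PF1.id')
        by_contra hinf
        have e1 := hp.zero hinf 1
        have e2 := hp.zero hinf (-1)
        have : 4 * w₀ = 0 := by linear_combination e2 - e1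
        have h4 : (4 : K) ≠ 0 := by norm_num
        exact mul_ne_zero h4 hw this
      have h1d : {k : K | 1 + d * k ^ 2 = 0}.Finite := by
        have hp : PF1 fun k : K => 1 + d * k ^ 2 :=
          (PF1.const _).add ((PF1.const _).mul (PF1.id'.pow 2))
        exact hp.finite (τ := 0) (by simp)
      refine ((hfin.biUnion fun m _ => hroots m).union h1d).subset ?_
      intro k hk
      by_cases hk0 : 1 + d * k ^ 2 = 0
      · exact Or.inr hk0
      · left
        rw [Set.mem_iUnion₂]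
        refine ⟨2 * w₀ * k / (1 + d * k ^ 2), ?_, ?_⟩
        · have h5 := hg k hk (a / (1 + d * k ^ 2)) t
          have e5 : (a / (1 + d * k ^ 2)) • xk w₀ d x₀ v k =
              a • (x₀ + (2 * w₀ * k / (1 + d * k ^ 2)) • v) := by
            rw [xk, smul_add, smul_add, smul_smul, smul_smul, smul_smul]
            congr 2 <;> field_simp
          rw [e5] at h5
          exact h5
        · rw [Set.mem_ofPred_eq, div_mul_cancel₀ _ hk0, sub_self]
    -- step E
    have stepE : ∀ g : MvPolynomial (Fin n ⊕ Fin 2) K, (∀ a m t : K,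
        MvPolynomial.eval (Sum.elim (a • (x₀ + m • v)) (z₀ + t • e)) g = 0) → ∀ s t : K,
        MvPolynomial.eval (Sum.elim (s • x₀ + v) (z₀ + t • e)) g = 0 := by
      intro g hg s t
      have hN : PF1 fun s : K => MvPolynomial.eval (Sum.elim (s • x₀ + v) (z₀ + t • e)) g :=
        pf1 g (fun s => s • x₀ + v) (fun _ => z₀ + t • e)
          (fun i => (PF1.id'.mul (PF1.const _)).add (PF1.const _)) (fun j => PF1.const _)
      refine hN.zero ((Set.finite_singleton (0 : K)).infinite_compl.mono ?_) s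
      intro s hs
      have hs0 : s ≠ 0 := hs
      have h5 := hg s (1 / s) t
      have e5 : s • (x₀ + (1 / s) • v) = s • x₀ + v := by
        rw [smul_add, smul_smul, mul_one_div_cancel hs0, one_smul]
      rw [e5] at h5
      exact h5
    intro s t
    exact ⟨stepE g (stepD g fun k hk a t => (stepC k hk a t).1) s t,
      stepE h (stepD h fun k hk a t => (stepC k hk a t).2) s t⟩
  -- all directions
  have pf : ∀ (g : MvPolynomial (Fin n ⊕ Fin 2) K) (s t : K),
      PF fun y => MvPolynomial.eval (Sum.elim (s • x₀ + psi Q₀ w₀ x₀ y) (z₀ + t • e)) g := by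
    intro g s t
    have h1 := PF.eval (φ := fun (i : Fin n ⊕ Fin 2) (y : Fin n → K) =>
      Sum.elim (s • x₀ + psi Q₀ w₀ x₀ y) (z₀ + t • e) i) (fun i => by
        rcases i with i | j
        · exact (PF.const (s * x₀ i)).add (PF_coord_psi Q₀ w₀ x₀ i)
        · exact PF.const ((z₀ + t • e) j)) g
    exact h1
  have all : ∀ (g : MvPolynomial (Fin n ⊕ Fin 2) K), (∀ y, p y → ∀ s t : K,
      MvPolynomial.eval (Sum.elim (s • x₀ + psi Q₀ w₀ x₀ y) (z₀ + t • e)) g = 0) →
      MvPolynomial.eval (Sum.elim x (z₀ + t • e)) g = 0 := by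
    intro g hg
    have h1 := (pf g (bf Q₀ x₀ x / w₀ ^ 2) t).zero_of hp hp1 (fun y hy => hg y hy _ t) x
    have e1 : (bf Q₀ x₀ x / w₀ ^ 2) • x₀ + psi Q₀ w₀ x₀ x = x := by
      rw [psi]; module
    rw [e1] at h1
    exact h1
  exact ⟨all g fun y hy s t => (key y hy s t).1, all h fun y hy s t => (key y hy s t).2⟩

end Pool.Agent.Y720.MZ
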